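import Pool.Agent.Lib_helper23.PG.Defs
/-! The congruence device. -/

set_option autoImplicit false

namespace Pool.Agent.BG

open Finset

theorem cong_device (H : Finset ℕ) (hH : Pool.Agent.Lib_helper23.PG.Admissible H) (w₀ : ℕ) :
    ∃ W ν : ℕ, Squarefree W ∧ (∀ p : ℕ, p.Prime → p ≤ w₀ → p ∣ W) ∧
      (∀ p : ℕ, p.Prime → ∀ a ∈ H, ∀ b ∈ H, a ≠ b → ((p : ℤ) ∣ (a : ℤ) - b) → p ∣ W) ∧
      (∀ a ∈ H, Nat.Coprime (ν + a) W) ∧
      ∀ t : ℕ, t ≤ H.sup id → t ∉ H → ∃ p : ℕ, p.Prime ∧ p ∣ W ∧ p ∣ ν + t := by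
  classical
  set s := H.sup id with hs
  have hle : ∀ a ∈ H, a ≤ s := fun a ha => Finset.le_sup (f := id) ha
  set m := w₀ + s with hm
  set q : ℕ → ℕ := fun t => Nat.nth Nat.Prime (m + t) with hq
  have hqp : ∀ t, (q t).Prime := fun t => Nat.prime_nth_prime _
  have hqm : ∀ t, m < q t := fun t => by
    have := Nat.add_two_le_nth_prime (m + t)
    simp only [hq]
    omega
  have hqinj : Function.Injective q := by
    intro t t' h
    have := Nat.nth_injective Nat.infinite_setOfPred_prime h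
    omega
  set T := (range (s + 1)).filter (fun t => t ∉ H) with hT
  set PS := (range (m + 1)).filter Nat.Prime ∪ T.image q with hPS
  have hPSp : ∀ p ∈ PS, p.Prime := by
    intro p hp
    rcases Finset.mem_union.1 hp with h | h
    · exact (Finset.mem_filter.1 h).2
    · obtain ⟨t, _, rfl⟩ := Finset.mem_image.1 h
      exact hqp t
  choose! r hr using hH
  -- residues
  set R : ℕ → ℕ := fun p => if h : ∃ t ∈ T, q t = p then (p - 1) * h.choose else (p - 1) * r p
    with hR
  have hRq : ∀ t ∈ T, R (q t) = (q t - 1) * t := by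
    intro t ht
    have h : ∃ t' ∈ T, q t' = q t := ⟨t, ht, rfl⟩
    simp only [hR]
    rw [dif_pos h]
    have := hqinj h.choose_spec.2
    rw [this]
  have hRs : ∀ p, p ≤ m → R p = (p - 1) * r p := by
    intro p hp
    simp only [hR]
    rw [dif_neg]
    rintro ⟨t, _, ht⟩
    have := hqm t
    omega
  obtain ⟨ν, hν⟩ := Nat.chineseRemainderOfFinset R id PS
    (fun p hp => (hPSp p hp).ne_zero)
    (fun p hp p' hp' hne => (Nat.coprime_primes (hPSp p hp) (hPSp p' hp')).2 hne)
  set W := ∏ p ∈ PS, p with hW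
  have hdvd : ∀ p ∈ PS, p ∣ W := fun p hp => Finset.dvd_prod_of_mem _ hp
  have hadd : ∀ p x : ℕ, 1 ≤ p → (p - 1) * x + x = p * x := by
    intro p x hp
    obtain ⟨p', rfl⟩ := Nat.exists_eq_add_of_le hp
    simp
    ring
  refine ⟨W, ν, ?_, ?_, ?_, ?_, ?_⟩
  · rw [hW]
    apply Finset.squarefree_prod_of_pairwise_isCoprime
    · intro p hp p' hp' hne
      exact Nat.coprime_iff_isRelPrime.1 ((Nat.coprime_primes (hPSp p hp) (hPSp p' hp')).2 hne)
    · intro p hp
      exact (hPSp p hp).squarefree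
  · intro p hp hpw
    refine hdvd p (Finset.mem_union_left _ (Finset.mem_filter.2 ⟨Finset.mem_range.2 ?_, hp⟩))
    omega
  · intro p hp a ha b hb hab hdiv
    refine hdvd p (Finset.mem_union_left _ (Finset.mem_filter.2 ⟨Finset.mem_range.2 ?_, hp⟩))
    have h1 : ((a : ℤ) - b) ≠ 0 := by omega
    have h2 := Int.le_of_dvd (abs_pos.2 h1) ((dvd_abs _ _).2 hdiv)
    have h3 := hle a ha
    have h4 := hle b hb
    have h5 : |(a : ℤ) - b| ≤ s := by
      rw [abs_le]
      constructor <;> omega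
    omega
  · intro a ha
    rw [hW]
    apply Nat.Coprime.prod_right
    intro p hp
    rw [Nat.coprime_comm, (hPSp p hp).coprime_iff_not_dvd]
    intro hdiv
    have hν' := hν p hp
    simp only [id] at hν'
    rcases Finset.mem_union.1 hp with h | h
    · have hpp := (Finset.mem_filter.1 h).2
      have hpm : p ≤ m := by
        have := Finset.mem_range.1 (Finset.mem_filter.1 h).1
        omega
      rw [hRs p hpm] at hν'
      apply hr p hpp a ha
      have h1 : ν + r p ≡ 0 [MOD p] := by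
        have h2 := hν'.add_right (r p)
        rw [hadd p (r p) hpp.one_le] at h2
        exact h2.trans ((Nat.modEq_zero_iff_dvd).2 (dvd_mul_right _ _))
      have h3 : ν + a ≡ 0 [MOD p] := (Nat.modEq_zero_iff_dvd).2 hdiv
      exact Nat.ModEq.add_left_cancel' ν (h3.trans h1.symm)
    · obtain ⟨t, ht, rfl⟩ := Finset.mem_image.1 h
      rw [hRq t ht] at hν'
      have h1 : ν + t ≡ 0 [MOD q t] := by
        have h2 := hν'.add_right t
        rw [hadd (q t) t (hqp t).one_le] at h2
        exact h2.trans ((Nat.modEq_zero_iff_dvd).2 (dvd_mul_right _ _))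
      have h3 : ν + a ≡ 0 [MOD q t] := (Nat.modEq_zero_iff_dvd).2 hdiv
      have h4 := Nat.ModEq.add_left_cancel' ν (h3.trans h1.symm)
      have h5 := (Finset.mem_filter.1 ht)
      have h6 := Finset.mem_range.1 h5.1
      have h7 := hle a ha
      have h8 := hqm t
      have h9 := Nat.ModEq.eq_of_lt_of_lt h4 (by omega) (by omega)
      exact h5.2 (h9 ▸ ha)
  · intro t ht htH
    have htT : t ∈ T := Finset.mem_filter.2 ⟨Finset.mem_range.2 (by omega), htH⟩
    have hmem : q t ∈ PS := Finset.mem_union_right _ (Finset.mem_image_of_mem _ htT)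
    refine ⟨q t, hqp t, hdvd _ hmem, ?_⟩
    have hν' := hν (q t) hmem
    simp only [id] at hν'
    rw [hRq t htT] at hν'
    have h2 := hν'.add_right t
    rw [hadd (q t) t (hqp t).one_le] at h2
    exact (Nat.modEq_zero_iff_dvd).1 (h2.trans ((Nat.modEq_zero_iff_dvd).2 (dvd_mul_right _ _)))

end Pool.Agent.BG
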