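import Pool.Agent.Lib_helper23.BGF.DES
/-! Block ABL: partial summation, from `Fj` to `psiC`. -/

set_option autoImplicit false

namespace Pool.Agent.BG

open Finset Filter Complex
open scoped ArithmeticFunction.vonMangoldt

theorem ABL_three_le {r : ℕ} [NeZero r] (χ : DirichletCharacter ℂ r) (hχ : χ ≠ 1) : 3 ≤ r := by
  by_contra h
  have h0 : r ≠ 0 := NeZero.ne r
  have : r = 1 ∨ r = 2 := by omega
  rcases this with rfl | rfl
  · apply hχ
    refine MulChar.ext fun a => ?_
    have : a = 1 := Subsingleton.elim _ _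
    rw [this]; simp
  · apply hχ
    refine MulChar.ext fun a => ?_
    have : a = 1 := by revert a; decide
    rw [this]; simp

theorem ABL_log_three {x : ℝ} (hx : 3 ≤ x) : 1 ≤ Real.log x := by
  rw [Real.le_log_iff_exp_le (by linarith)]
  have := Real.exp_one_lt_d9
  linarith

theorem ABL_Q {r : ℕ} [NeZero r] (χ : DirichletCharacter ℂ r) (hχ : χ ≠ 1) :
    1 ≤ Real.log r ^ 10 / ell χ := by
  obtain ⟨h1, h2⟩ := ell_pos χ hχ
  have h3 : (3 : ℝ) ≤ r := by exact_mod_cast ABL_three_le χ hχ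
  rw [le_div_iff₀ h1, one_mul]
  exact h2.trans (one_le_pow₀ (ABL_log_three h3))

theorem ABL_log_pow {x : ℝ} (hx : 1 ≤ x) (i : ℕ) : Real.log x ^ i ≤ i.factorial * x := by
  have hl : 0 ≤ Real.log x := Real.log_nonneg hx
  have h1 := Real.pow_div_factorial_le_exp (Real.log x) hl i
  rw [Real.exp_log (by linarith), div_le_iff₀ (by positivity)] at h1
  linarith

/-- Abel summation with a decreasing weight -/
theorem ABL_abel (S : ℕ → ℂ) (w : ℕ → ℝ) (M : ℝ) (m u : ℕ) (hmu : m < u)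
    (hM : ∀ n, m ≤ n → n ≤ u → ‖S n‖ ≤ M) (hw : ∀ n, m < n → n < u → w (n + 1) ≤ w n)
    (hw0 : ∀ n, m < n → n ≤ u → 0 ≤ w n) :
    ‖∑ n ∈ Ioc m u, (S n - S (n - 1)) * (w n : ℂ)‖ ≤ 2 * M * w (m + 1) := by
  have hM0 : 0 ≤ M := (norm_nonneg _).trans (hM m le_rfl hmu.le)
  -- stronger statement by induction on `u`
  have key : ∀ v : ℕ, m < v → v ≤ u →
      ‖∑ n ∈ Ioc m v, (S n - S (n - 1)) * (w n : ℂ) - S v * w v‖ ≤ M * (2 * w (m + 1) - w v) := by
    intro v hv
    induction v, hv using Nat.le_induction with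
    | base =>
      intro hvu
      have : Ioc m (m + 1) = {m + 1} := by
        ext n; simp only [mem_Ioc, mem_singleton]; omega
      rw [this, Finset.sum_singleton, Nat.add_sub_cancel]
      have e : (S (m + 1) - S m) * (w (m + 1) : ℂ) - S (m + 1) * w (m + 1) = -(S m * w (m + 1)) := by
        ring
      rw [e, norm_neg, norm_mul, Complex.norm_real, Real.norm_eq_abs,
        abs_of_nonneg (hw0 (m + 1) (Nat.lt_succ_self m) hvu)]
      have h1 := hM m le_rfl hmu.le
      have h2 := hw0 (m + 1) (Nat.lt_succ_self m) hvu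
      nlinarith
    | succ v hv ih =>
      intro hvu
      have ih' := ih (by omega)
      have hmv : m < v := hv
      have : Ioc m (v + 1) = insert (v + 1) (Ioc m v) := by
        ext n; simp only [mem_Ioc, mem_insert]; omega
      rw [this, Finset.sum_insert (by simp), Nat.add_sub_cancel]
      have e : (S (v + 1) - S v) * (w (v + 1) : ℂ) +
          ∑ n ∈ Ioc m v, (S n - S (n - 1)) * (w n : ℂ) - S (v + 1) * w (v + 1) =
          (∑ n ∈ Ioc m v, (S n - S (n - 1)) * (w n : ℂ) - S v * w v) +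
            S v * ((w v - w (v + 1) : ℝ) : ℂ) := by
        push_cast; ring
      rw [e]
      refine (norm_add_le _ _).trans ?_
      rw [norm_mul, Complex.norm_real, Real.norm_eq_abs,
        abs_of_nonneg (sub_nonneg.2 (hw v hmv (by omega)))]
      have h1 := hM v (by omega) (by omega)
      have h2 := hw v hmv (by omega)
      nlinarith
  have h1 := key u hmu le_rfl
  have h2 := hM u hmu.le le_rfl
  have h3 := hw0 u hmu le_rfl
  have e : ∑ n ∈ Ioc m u, (S n - S (n - 1)) * (w n : ℂ) =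
      (∑ n ∈ Ioc m u, (S n - S (n - 1)) * (w n : ℂ) - S u * w u) + S u * w u := by ring
  rw [e]
  refine (norm_add_le _ _).trans ?_
  rw [norm_mul (S u), Complex.norm_real, Real.norm_eq_abs, abs_of_nonneg h3]
  nlinarith

theorem psiC_bound (i : ℕ) : ∃ C : ℝ, 0 < C ∧ ∀ (r : ℕ) [NeZero r] (χ : DirichletCharacter ℂ r),
    χ ≠ 1 → ∀ u : ℕ, 9 ≤ u →
      ‖psiC χ u‖ * Real.log u ^ i ≤ C * u * Real.log u *
        (Real.log r ^ 10 / ell χ) ^ (2 * i + 1) := by
  obtain ⟨C, hC, hF⟩ := Fj_bound i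
  refine ⟨2 * 4 ^ i * C + 2 ^ i * i.factorial, by positivity, ?_⟩
  intro r _ χ hχ u hu
  set Q : ℝ := Real.log r ^ 10 / ell χ with hQ
  have hQ1 : 1 ≤ Q := ABL_Q χ hχ
  have hQ1p : 1 ≤ Q ^ (2 * i + 1) := one_le_pow₀ hQ1
  have hu' : (9 : ℝ) ≤ u := by exact_mod_cast hu
  have hu0 : (0 : ℝ) < u := by linarith
  have hl1 : 1 ≤ Real.log u := ABL_log_three (by linarith)
  set l : ℝ := Real.log u with hl
  set m : ℕ := Nat.sqrt u with hm
  have hm3 : 3 ≤ m := by
    rw [hm, Nat.le_sqrt]; omega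
  have hmm : m * m ≤ u := Nat.sqrt_le u
  have hmlt : u < (m + 1) * (m + 1) := Nat.lt_succ_sqrt u
  have hmu : m < u := by nlinarith
  set s : ℝ := √(u : ℝ) with hs
  have hss : s * s = u := Real.mul_self_sqrt hu0.le
  have hs1 : 1 ≤ s := by
    rw [hs, Real.one_le_sqrt]; linarith
  have hms : (m : ℝ) ≤ s := by
    rw [hs, Real.le_sqrt (by positivity) hu0.le, sq]
    exact_mod_cast hmm
  have hsm : s ≤ (m : ℝ) + 1 := by
    rw [hs, Real.sqrt_le_left (by positivity), sq]
    exact_mod_cast hmlt.le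
  have hlogs : Real.log s = l / 2 := by rw [hs, Real.log_sqrt hu0.le]
  -- splitting
  have hun : Icc 1 u = Icc 1 m ∪ Ioc m u := by
    ext n; simp only [mem_union, mem_Icc, mem_Ioc]; omega
  have hdis : Disjoint (Icc 1 m) (Ioc m u) := by
    rw [Finset.disjoint_left]; intro n; simp only [mem_Icc, mem_Ioc]; omega
  have hsplit : psiC χ u = psiC χ m + ∑ n ∈ Ioc m u, ((Λ n : ℝ) : ℂ) * χ (n : ZMod r) := by
    rw [psiC, psiC, hun, Finset.sum_union hdis]
  -- small part
  have hsmall : ‖psiC χ m‖ ≤ s * l := by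
    rw [psiC]
    have : ∀ n ∈ Icc 1 m, ‖((Λ n : ℝ) : ℂ) * χ (n : ZMod r)‖ ≤ l := by
      intro n hn
      rw [mem_Icc] at hn
      rw [norm_mul, Complex.norm_real, Real.norm_eq_abs,
        abs_of_nonneg ArithmeticFunction.vonMangoldt_nonneg]
      have h3 : ‖χ (n : ZMod r)‖ ≤ 1 := DirichletCharacter.norm_le_one χ _
      have h4 : Λ n ≤ Real.log n := ArithmeticFunction.vonMangoldt_le_log
      have h5 : 0 ≤ Λ n := ArithmeticFunction.vonMangoldt_nonneg
      have hn0 : (0 : ℝ) < n := by exact_mod_cast hn.1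
      have h6 : Real.log n ≤ l := Real.log_le_log hn0 (by exact_mod_cast hn.2.trans hmu.le)
      have h7 : 0 ≤ ‖χ (n : ZMod r)‖ := norm_nonneg _
      nlinarith
    refine (norm_sum_le_of_le _ this).trans ?_
    rw [Finset.sum_const, nsmul_eq_mul, Nat.card_Icc, Nat.add_sub_cancel]
    have : 0 ≤ l := by linarith
    gcongr
  -- main part
  set w : ℕ → ℝ := fun n => 1 / Real.log n ^ (2 * i) with hw
  have hlogpos : ∀ n : ℕ, m < n → 0 < Real.log n := by
    intro n hn
    apply Real.log_pos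
    have : 1 < n := by omega
    exact_mod_cast this
  have hmain : ‖∑ n ∈ Ioc m u, ((Λ n : ℝ) : ℂ) * χ (n : ZMod r)‖ ≤
      2 * (C * u * l ^ (i + 1) * Q ^ (2 * i + 1)) * w (m + 1) := by
    have h1 := ABL_abel (fun n => Fj χ (2 * i) n) w (C * u * l ^ (i + 1) * Q ^ (2 * i + 1)) m u hmu
      ?_ ?_ ?_
    · have e : ∑ n ∈ Ioc m u, ((Λ n : ℝ) : ℂ) * χ (n : ZMod r) =
          ∑ n ∈ Ioc m u, (Fj χ (2 * i) (n : ℝ) - Fj χ (2 * i) ((n - 1 : ℕ) : ℝ)) * (w n : ℂ) := by
        refine Finset.sum_congr rfl fun n hn => ?_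
        rw [mem_Ioc] at hn
        have hlp := hlogpos n hn.1
        rw [Fj, Fj, Nat.floor_natCast, Nat.floor_natCast]
        have hIcc : Icc 1 n = insert n (Icc 1 (n - 1)) := by
          ext k; simp only [mem_insert, mem_Icc]; omega
        rw [hIcc, Finset.sum_insert (by simp only [mem_Icc]; omega), add_sub_cancel_right]
        have hne : ((Real.log n : ℝ) : ℂ) ^ (2 * i) ≠ 0 :=
          pow_ne_zero _ (Complex.ofReal_ne_zero.2 hlp.ne')
        simp only [hw, Complex.ofReal_div, Complex.ofReal_one, Complex.ofReal_pow]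
        rw [mul_assoc, mul_one_div, div_self hne, mul_one]
      rw [e]
      exact h1
    · intro n h1 h2
      have hn3 : (3 : ℝ) ≤ n := by exact_mod_cast hm3.trans h1
      have hnu : (n : ℝ) ≤ u := by exact_mod_cast h2
      refine (hF r χ hχ n hn3).trans ?_
      have hlog0 : 0 ≤ Real.log n := by have := ABL_log_three hn3; linarith
      have hlogle : Real.log n ≤ l := Real.log_le_log (by linarith) hnu
      have : 0 ≤ Q := by linarith
      gcongr
    · intro n h1 h2
      have hlp := hlogpos n h1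
      have hlp' : Real.log n ≤ Real.log ((n + 1 : ℕ) : ℝ) := by
        apply Real.log_le_log
        · have : 0 < n := by omega
          exact_mod_cast this
        · push_cast; linarith
      simp only [hw]
      gcongr
    · intro n h1 h2
      have hlp := hlogpos n h1
      simp only [hw]; positivity
  have hwm : w (m + 1) * l ^ (2 * i) ≤ 4 ^ i := by
    simp only [hw]
    have hlp := hlogpos (m + 1) (Nat.lt_succ_self m)
    have h1 : l / 2 ≤ Real.log ((m + 1 : ℕ) : ℝ) := by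
      rw [← hlogs]
      apply Real.log_le_log (by linarith)
      push_cast; exact hsm
    rw [one_div, inv_mul_le_iff₀ (by positivity)]
    have h2 : l ^ (2 * i) = (l / 2) ^ (2 * i) * 4 ^ i := by
      rw [pow_mul, pow_mul, ← mul_pow]; congr 1; ring
    rw [h2]
    have h3 : 0 ≤ l / 2 := by linarith
    gcongr
  have hmain' : ‖∑ n ∈ Ioc m u, ((Λ n : ℝ) : ℂ) * χ (n : ZMod r)‖ * l ^ i ≤
      2 * 4 ^ i * C * u * l * Q ^ (2 * i + 1) := by
    have hli : 0 ≤ l ^ i := by positivity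
    calc ‖∑ n ∈ Ioc m u, ((Λ n : ℝ) : ℂ) * χ (n : ZMod r)‖ * l ^ i
        ≤ 2 * (C * u * l ^ (i + 1) * Q ^ (2 * i + 1)) * w (m + 1) * l ^ i :=
          mul_le_mul_of_nonneg_right hmain hli
      _ = 2 * C * u * l * Q ^ (2 * i + 1) * (w (m + 1) * l ^ (2 * i)) := by ring
      _ ≤ 2 * C * u * l * Q ^ (2 * i + 1) * 4 ^ i :=
          mul_le_mul_of_nonneg_left hwm (by positivity)
      _ = _ := by ring
  have hsmall' : ‖psiC χ m‖ * l ^ i ≤ 2 ^ i * i.factorial * u * l * Q ^ (2 * i + 1) := by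
    have h1 : l ^ i ≤ 2 ^ i * (i.factorial * s) := by
      have := ABL_log_pow hs1 i
      rw [hlogs] at this
      have h2 : l ^ i = 2 ^ i * (l / 2) ^ i := by rw [← mul_pow]; congr 1; ring
      rw [h2]
      gcongr
    calc ‖psiC χ m‖ * l ^ i ≤ (s * l) * (2 ^ i * (i.factorial * s)) := by
          have : 0 ≤ l ^ i := by positivity
          gcongr
      _ = 2 ^ i * i.factorial * (s * s) * l := by ring
      _ = 2 ^ i * i.factorial * u * l := by rw [hss]
      _ ≤ _ := le_mul_of_one_le_right (by positivity) hQ1p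
  have hli : 0 ≤ l ^ i := by positivity
  calc ‖psiC χ u‖ * l ^ i ≤ (‖psiC χ m‖ +
        ‖∑ n ∈ Ioc m u, ((Λ n : ℝ) : ℂ) * χ (n : ZMod r)‖) * l ^ i := by
        rw [hsplit]
        exact mul_le_mul_of_nonneg_right (norm_add_le _ _) hli
    _ = ‖psiC χ m‖ * l ^ i +
        ‖∑ n ∈ Ioc m u, ((Λ n : ℝ) : ℂ) * χ (n : ZMod r)‖ * l ^ i := by ring
    _ ≤ 2 ^ i * i.factorial * u * l * Q ^ (2 * i + 1) +
        2 * 4 ^ i * C * u * l * Q ^ (2 * i + 1) := add_le_add hsmall' hmain'
    _ = _ := by ring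

end Pool.Agent.BG
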