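import Pool.Agent.Lib_helper23.BGF.MVI
/-! Block REP: two different real primitive characters repel each other's small values at 1. -/

set_option autoImplicit false

namespace Pool.Agent.BG

open Finset Filter Complex
open scoped ArithmeticFunction.vonMangoldt Classical

theorem REP_Lj_zero {r : ℕ} (χ : DirichletCharacter ℂ r) (s : ℂ) :
    Lj χ 0 s = LSeries (fun n : ℕ => (χ n : ℂ)) s := by
  unfold Lj
  congr 1
  funext n
  simp

/-- the local inequality -/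
theorem REP_local {x a b : ℝ} (hx0 : 0 < x) (hx1 : x < 1) (ha : a = 0 ∨ a = 1 ∨ a = -1)
    (hb : b = 0 ∨ b = 1 ∨ b = -1) :
    0 ≤ (-log (1 - (x : ℂ))).re + (-log (1 - (a : ℂ) * x)).re + (-log (1 - (b : ℂ) * x)).re +
      (-log (1 - (a * b : ℂ) * x)).re := by
  have key : ∀ y : ℝ, (-log (1 - (y : ℂ))).re = -Real.log (1 - y) := by
    intro y
    rw [neg_re]
    have : (1 - (y : ℂ)) = ((1 - y : ℝ) : ℂ) := by push_cast; ring
    rw [this, Complex.log_ofReal_re]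
  have e1 : (a : ℂ) * x = ((a * x : ℝ) : ℂ) := by push_cast; ring
  have e2 : (b : ℂ) * x = ((b * x : ℝ) : ℂ) := by push_cast; ring
  have e3 : (a * b : ℂ) * x = ((a * b * x : ℝ) : ℂ) := by push_cast; ring
  rw [e1, e2, e3, key, key, key, key]
  have hl1 : Real.log (1 - x) ≤ 0 := Real.log_nonpos (by linarith) (by linarith)
  have hl2 : Real.log (1 - x) + Real.log (1 + x) ≤ 0 := by
    rw [← Real.log_mul (by linarith) (by linarith)]
    apply Real.log_nonpos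
    · nlinarith
    · nlinarith
  rcases ha with rfl | rfl | rfl <;> rcases hb with rfl | rfl | rfl <;>
    norm_num <;> linarith

theorem REP_prod {r₁ r₂ : ℕ} [NeZero r₁] [NeZero r₂]
    (χ₁ : DirichletCharacter ℂ r₁) (χ₂ : DirichletCharacter ℂ r₂) (χ : DirichletCharacter ℂ (r₁ * r₂))
    (h1 : χ₁ ^ 2 = 1) (h2 : χ₂ ^ 2 = 1)
    (h : ∀ n : ℕ, χ (n : ZMod (r₁ * r₂)) = χ₁ (n : ZMod r₁) * χ₂ (n : ZMod r₂))
    {σ : ℝ} (hσ : 1 < σ) :
    1 ≤ ‖LSeries (fun n : ℕ => ((1 : DirichletCharacter ℂ 1) n : ℂ)) σ *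
      LSeries (fun n : ℕ => (χ₁ n : ℂ)) σ * LSeries (fun n : ℕ => (χ₂ n : ℂ)) σ *
      LSeries (fun n : ℕ => (χ n : ℂ)) σ‖ := by
  have hs : 1 < ((σ : ℝ) : ℂ).re := by simpa using hσ
  have H₀ := DirichletCharacter.summable_neg_log_one_sub_mul_prime_cpow
    (1 : DirichletCharacter ℂ 1) hs
  have H₁ := DirichletCharacter.summable_neg_log_one_sub_mul_prime_cpow χ₁ hs
  have H₂ := DirichletCharacter.summable_neg_log_one_sub_mul_prime_cpow χ₂ hs
  have H₃ := DirichletCharacter.summable_neg_log_one_sub_mul_prime_cpow χ hs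
  have s0 := (hasSum_re H₀.hasSum).summable
  have s1 := (hasSum_re H₁.hasSum).summable
  have s2 := (hasSum_re H₂.hasSum).summable
  have s3 := (hasSum_re H₃.hasSum).summable
  rw [← DirichletCharacter.LSeries_eulerProduct_exp_log _ hs,
    ← DirichletCharacter.LSeries_eulerProduct_exp_log χ₁ hs,
    ← DirichletCharacter.LSeries_eulerProduct_exp_log χ₂ hs,
    ← DirichletCharacter.LSeries_eulerProduct_exp_log χ hs]
  simp only [← exp_add, norm_exp, add_re, Real.one_le_exp_iff]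
  rw [re_tsum H₀, re_tsum H₁, re_tsum H₂, re_tsum H₃, ← s0.tsum_add s1,
    ← (s0.add s1).tsum_add s2, ← ((s0.add s1).add s2).tsum_add s3]
  have hval : ∀ {r : ℕ} (ψ : DirichletCharacter ℂ r), ψ ^ 2 = 1 → ∀ n : ℕ,
      ∃ a : ℝ, ψ (n : ZMod r) = (a : ℂ) ∧ (a = 0 ∨ a = 1 ∨ a = -1) := by
    intro r ψ hψ n
    by_cases hu : IsUnit (n : ZMod r)
    · have h3 : (ψ (n : ZMod r)) ^ 2 = 1 := by
        rw [← MulChar.pow_apply' ψ two_ne_zero, hψ, MulChar.one_apply hu]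
      have h5 : (ψ (n : ZMod r) - 1) * (ψ (n : ZMod r) + 1) = 0 := by linear_combination h3
      rcases mul_eq_zero.1 h5 with h4 | h4
      · exact ⟨1, by rw [sub_eq_zero.1 h4]; simp, by simp⟩
      · exact ⟨-1, by rw [eq_neg_of_add_eq_zero_left h4]; simp, by simp⟩
    · exact ⟨0, by rw [MulChar.map_nonunit _ hu]; simp, by simp⟩
  refine tsum_nonneg fun p => ?_
  obtain ⟨a, ha, ha'⟩ := hval χ₁ h1 p
  obtain ⟨b, hb, hb'⟩ := hval χ₂ h2 p
  have hx : ((p : ℕ) : ℂ) ^ (-((σ : ℝ) : ℂ)) = ((((p : ℕ) : ℝ) ^ (-σ) : ℝ) : ℂ) := by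
    rw [Complex.ofReal_cpow (by positivity)]
    push_cast
    ring_nf
  have h10 : (1 : DirichletCharacter ℂ 1) ((p : ℕ) : ZMod 1) = 1 := by
    rw [MulChar.one_apply]
    exact isUnit_of_subsingleton _
  have hp0 : (0 : ℝ) < ((p : ℕ) : ℝ) ^ (-σ) := by
    have := p.prop.pos
    positivity
  have hp1 : ((p : ℕ) : ℝ) ^ (-σ) < 1 := by
    rw [Real.rpow_neg (Nat.cast_nonneg _), inv_lt_one_iff₀]
    exact .inr <| Real.one_lt_rpow (mod_cast p.prop.one_lt) (by linarith)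
  rw [h, ha, hb, h10, hx, one_mul]
  exact REP_local hp0 hp1 ha' hb'

theorem REP_unique (r₁ r₂ : ℕ) [NeZero r₁] [NeZero r₂]
    (χ₁ : DirichletCharacter ℂ r₁) (χ₂ : DirichletCharacter ℂ r₂) (hp1 : χ₁.IsPrimitive)
    (hp2 : χ₂.IsPrimitive) (h2 : χ₂ ^ 2 = 1)
    (hne : (⟨r₁, χ₁⟩ : Σ r : ℕ, DirichletCharacter ℂ r) ≠ ⟨r₂, χ₂⟩) :
    DirichletCharacter.changeLevel (dvd_mul_right r₁ r₂) χ₁ *
      DirichletCharacter.changeLevel (dvd_mul_left r₂ r₁) χ₂ ≠ 1 := by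
  intro h
  have hsq : DirichletCharacter.changeLevel (dvd_mul_left r₂ r₁) χ₂ *
      DirichletCharacter.changeLevel (dvd_mul_left r₂ r₁) χ₂ = 1 := by
    rw [← map_mul, ← sq, h2, map_one]
  have heq : DirichletCharacter.changeLevel (dvd_mul_right r₁ r₂) χ₁ =
      DirichletCharacter.changeLevel (dvd_mul_left r₂ r₁) χ₂ := by
    calc DirichletCharacter.changeLevel (dvd_mul_right r₁ r₂) χ₁
        = DirichletCharacter.changeLevel (dvd_mul_right r₁ r₂) χ₁ *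
          (DirichletCharacter.changeLevel (dvd_mul_left r₂ r₁) χ₂ *
          DirichletCharacter.changeLevel (dvd_mul_left r₂ r₁) χ₂) := by rw [hsq, mul_one]
      _ = _ := by rw [← mul_assoc, h, one_mul]
  have hc := congrArg DirichletCharacter.conductor heq
  rw [DirichletCharacter.conductor_changeLevel, DirichletCharacter.conductor_changeLevel,
    (DirichletCharacter.isPrimitive_def _).1 hp1, (DirichletCharacter.isPrimitive_def _).1 hp2] at hc
  subst hc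
  have := DirichletCharacter.changeLevel_injective (dvd_mul_right r₁ r₁) heq
  exact hne (by rw [this])

theorem REP_val {r₁ r₂ : ℕ} [NeZero r₁] [NeZero r₂]
    (χ₁ : DirichletCharacter ℂ r₁) (χ₂ : DirichletCharacter ℂ r₂) (n : ℕ) :
    (DirichletCharacter.changeLevel (dvd_mul_right r₁ r₂) χ₁ *
      DirichletCharacter.changeLevel (dvd_mul_left r₂ r₁) χ₂) (n : ZMod (r₁ * r₂)) =
      χ₁ (n : ZMod r₁) * χ₂ (n : ZMod r₂) := by
  rw [MulChar.mul_apply]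
  by_cases hn : IsCoprime (n : ℤ) ((r₁ * r₂ : ℕ) : ℤ)
  · have e1 := DirichletCharacter.changeLevel_eq_cast_of_dvd' χ₁ (dvd_mul_right r₁ r₂) hn
    have e2 := DirichletCharacter.changeLevel_eq_cast_of_dvd' χ₂ (dvd_mul_left r₂ r₁) hn
    push_cast at e1 e2
    rw [e1, e2]
  · have hu : ¬ IsUnit ((n : ℕ) : ZMod (r₁ * r₂)) := by
      intro hu
      apply hn
      have := (ZMod.coe_int_isUnit_iff_isCoprime (n : ℤ) (r₁ * r₂)).1 (by simpa using hu)
      exact this.symm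
    rw [MulChar.map_nonunit _ hu, zero_mul]
    have hor : ¬ IsCoprime (n : ℤ) (r₁ : ℤ) ∨ ¬ IsCoprime (n : ℤ) (r₂ : ℤ) := by
      by_contra hcon
      push Not at hcon
      apply hn
      push_cast
      exact hcon.1.mul_right hcon.2
    rcases hor with h | h
    · have h' : χ₁ (n : ZMod r₁) = 0 := by
        have := (DirichletCharacter.apply_eq_zero_iff χ₁ (n : ℤ)).2 h
        simpa using this
      rw [h', zero_mul]
    · have h' : χ₂ (n : ZMod r₂) = 0 := by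
        have := (DirichletCharacter.apply_eq_zero_iff χ₂ (n : ℤ)).2 h
        simpa using this
      rw [h', mul_zero]

theorem repulsion : ∃ c : ℝ, 0 < c ∧ ∀ R : ℝ, 3 ≤ R → ∀ (r₁ r₂ : ℕ) [NeZero r₁] [NeZero r₂]
    (χ₁ : DirichletCharacter ℂ r₁) (χ₂ : DirichletCharacter ℂ r₂), χ₁.IsPrimitive →
    χ₂.IsPrimitive → χ₁ ≠ 1 → χ₂ ≠ 1 → χ₁ ^ 2 = 1 → χ₂ ^ 2 = 1 → (r₁ : ℝ) ≤ R → (r₂ : ℝ) ≤ R →
    (⟨r₁, χ₁⟩ : Σ r : ℕ, DirichletCharacter ℂ r) ≠ ⟨r₂, χ₂⟩ →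
      c / Real.log R ^ 3 ≤ max ‖DirichletCharacter.LFunction χ₁ 1‖
        ‖DirichletCharacter.LFunction χ₂ 1‖ := by
  obtain ⟨C, hC, hL1⟩ := L_at_one
  obtain ⟨D, hD, hLj⟩ := Lj_bound 0
  set c1 : ℝ := min 1 (1 / (384 * D * C ^ 2)) with hc1
  have hc1pos : 0 < c1 := lt_min one_pos (by positivity)
  have hc1a : c1 ≤ 1 := min_le_left _ _
  have hc1b : 192 * D * C ^ 2 * c1 ≤ 1 / 2 := by
    have h5 : c1 ≤ 1 / (384 * D * C ^ 2) := min_le_right _ _
    have h6 := mul_le_mul_of_nonneg_left h5 (by positivity : (0 : ℝ) ≤ 192 * D * C ^ 2)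
    have h7 : 192 * D * C ^ 2 * (1 / (384 * D * C ^ 2)) = 1 / 2 := by
      field_simp
      norm_num
    linarith
  refine ⟨√(c1 / (24 * D)), by positivity, ?_⟩
  intro R hR r₁ r₂ _ _ χ₁ χ₂ hp1 hp2 hn1 hn2 hs1 hs2 hr1 hr2 hne
  set lam : ℝ := Real.log R with hlam
  have hRpos : 0 < R := by linarith
  have hlam1 : 1 ≤ lam := by
    rw [hlam, Real.le_log_iff_exp_le hRpos]
    exact (Real.exp_one_lt_three.le).trans hR
  have hlampos : 0 < lam := by linarith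
  have hlog2 : Real.log 2 ≤ lam := Real.log_le_log (by norm_num) (by linarith)
  set M : ℝ := max ‖DirichletCharacter.LFunction χ₁ 1‖ ‖DirichletCharacter.LFunction χ₂ 1‖ with hM
  have hM0 : 0 ≤ M := (norm_nonneg _).trans (le_max_left _ _)
  set d : ℝ := c1 / lam ^ 5 with hd
  have hdpos : 0 < d := by positivity
  have hd1 : d ≤ 1 := by
    rw [hd, div_le_one (by positivity)]
    exact hc1a.trans (one_le_pow₀ hlam1)
  set χ := DirichletCharacter.changeLevel (dvd_mul_right r₁ r₂) χ₁ *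
      DirichletCharacter.changeLevel (dvd_mul_left r₂ r₁) χ₂ with hχ
  have hχne : χ ≠ 1 := REP_unique r₁ r₂ χ₁ χ₂ hp1 hp2 hs2 hne
  have hσ1 : 1 < 1 + d := by linarith
  have hσ2 : 1 + d ≤ 2 := by linarith
  have hprod := REP_prod χ₁ χ₂ χ hs1 hs2 (REP_val χ₁ χ₂) hσ1
  rw [← REP_Lj_zero, ← REP_Lj_zero, ← REP_Lj_zero, ← REP_Lj_zero, norm_mul, norm_mul, norm_mul]
    at hprod
  have hcast : ((1 + d : ℝ) : ℂ) + ((0 : ℝ) : ℂ) * I = ((1 + d : ℝ) : ℂ) := by simp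
  have b0 := L_le_zeta (1 : DirichletCharacter ℂ 1) (1 + d) 0 hσ1 hσ2
  rw [hcast, add_sub_cancel_left] at b0
  have hr1pos : (0 : ℝ) < r₁ := by exact_mod_cast Nat.pos_of_ne_zero (NeZero.ne r₁)
  have hr2pos : (0 : ℝ) < r₂ := by exact_mod_cast Nat.pos_of_ne_zero (NeZero.ne r₂)
  have hlt : ∀ r : ℕ, (0 : ℝ) < r → (r : ℝ) ≤ R → 0 ≤ lt r 0 ∧ lt r 0 ≤ 2 * lam := by
    intro r hr hrR
    unfold lt
    rw [abs_zero, zero_add, Real.log_mul hr.ne' two_ne_zero]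
    have h1 : (1 : ℝ) ≤ r := by
      have : 0 < r := by exact_mod_cast hr
      exact_mod_cast this
    constructor
    · exact add_nonneg (Real.log_nonneg h1) (Real.log_nonneg (by norm_num))
    · have : Real.log r ≤ lam := Real.log_le_log hr hrR
      linarith
  have bnd : ∀ (r : ℕ) [NeZero r] (ψ : DirichletCharacter ℂ r), ψ ≠ 1 → (r : ℝ) ≤ R →
      ‖DirichletCharacter.LFunction ψ 1‖ ≤ M →
      ‖Lj ψ 0 ((1 + d : ℝ) : ℂ)‖ ≤ M + 4 * C * d * lam ^ 2 := by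
    intro r _ ψ hψ hr hψM
    have hrpos : (0 : ℝ) < r := by exact_mod_cast Nat.pos_of_ne_zero (NeZero.ne r)
    have h1 := hL1 r ψ hψ (1 + d) 0 hσ1 hσ2
    rw [hcast, abs_zero, add_zero, add_sub_cancel_left] at h1
    obtain ⟨l1, l2⟩ := hlt r hrpos hr
    have h2 : lt r 0 ^ 2 ≤ (2 * lam) ^ 2 := pow_le_pow_left₀ l1 l2 2
    have h3 : C * d * lt r 0 ^ 2 ≤ C * d * (2 * lam) ^ 2 := mul_le_mul_of_nonneg_left h2 (by positivity)
    have h4 : ‖Lj ψ 0 ((1 + d : ℝ) : ℂ)‖ ≤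
        ‖Lj ψ 0 ((1 + d : ℝ) : ℂ) - DirichletCharacter.LFunction ψ 1‖ +
          ‖DirichletCharacter.LFunction ψ 1‖ := by
      have := norm_add_le (Lj ψ 0 ((1 + d : ℝ) : ℂ) - DirichletCharacter.LFunction ψ 1)
        (DirichletCharacter.LFunction ψ 1)
      rwa [sub_add_cancel] at this
    nlinarith
  have b1 := bnd r₁ χ₁ hn1 hr1 (le_max_left _ _)
  have b2 := bnd r₂ χ₂ hn2 hr2 (le_max_right _ _)
  have b3 := hLj (r₁ * r₂) χ hχne (1 + d) 0 hσ1 hσ2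
  rw [hcast, zero_add, pow_one] at b3
  have hlt3 : lt (r₁ * r₂) 0 ≤ 3 * lam := by
    unfold lt
    push_cast
    rw [abs_zero, zero_add, Real.log_mul (by positivity) two_ne_zero,
      Real.log_mul hr1pos.ne' hr2pos.ne']
    have h1 : Real.log r₁ ≤ lam := Real.log_le_log hr1pos hr1
    have h2 : Real.log r₂ ≤ lam := Real.log_le_log hr2pos hr2
    linarith
  have b3' : ‖Lj χ 0 ((1 + d : ℝ) : ℂ)‖ ≤ D * (3 * lam) :=
    b3.trans (mul_le_mul_of_nonneg_left hlt3 hD.le)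
  have hA : 0 ≤ M + 4 * C * d * lam ^ 2 := by positivity
  have hall : 1 ≤ (2 / d) * (M + 4 * C * d * lam ^ 2) * (M + 4 * C * d * lam ^ 2) * (D * (3 * lam)) := by
    refine hprod.trans ?_
    gcongr
  have hsqb : (M + 4 * C * d * lam ^ 2) * (M + 4 * C * d * lam ^ 2) ≤
      2 * M ^ 2 + 32 * C ^ 2 * d ^ 2 * lam ^ 4 := by
    nlinarith [sq_nonneg (M - 4 * C * d * lam ^ 2)]
  have h1 : 1 ≤ (6 * D * lam / d) * (2 * M ^ 2 + 32 * C ^ 2 * d ^ 2 * lam ^ 4) := by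
    calc (1 : ℝ) ≤ (2 / d) * (M + 4 * C * d * lam ^ 2) * (M + 4 * C * d * lam ^ 2) * (D * (3 * lam)) := hall
      _ = (6 * D * lam / d) * ((M + 4 * C * d * lam ^ 2) * (M + 4 * C * d * lam ^ 2)) := by ring
      _ ≤ _ := mul_le_mul_of_nonneg_left hsqb (by positivity)
  have h2 : (6 * D * lam / d) * (2 * M ^ 2 + 32 * C ^ 2 * d ^ 2 * lam ^ 4) =
      12 * D * lam * M ^ 2 / d + 192 * D * C ^ 2 * (d * lam ^ 5) := by
    field_simp
    ring
  have h3 : d * lam ^ 5 = c1 := by rw [hd]; field_simp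
  rw [h2, h3] at h1
  have h4 : 1 / 2 ≤ 12 * D * lam * M ^ 2 / d := by linarith
  have h5 : 12 * D * lam * M ^ 2 / d = 12 * D * M ^ 2 * lam ^ 6 / c1 := by
    rw [hd]; field_simp
  rw [h5, le_div_iff₀ hc1pos] at h4
  have h6 : c1 / (24 * D) / lam ^ 6 ≤ M ^ 2 := by
    rw [div_div, div_le_iff₀ (by positivity)]
    nlinarith
  have h7 : (√(c1 / (24 * D)) / lam ^ 3) ^ 2 = c1 / (24 * D) / lam ^ 6 := by
    rw [div_pow, Real.sq_sqrt (by positivity)]
    ring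
  rw [← h7] at h6
  exact (pow_le_pow_iff_left₀ (by positivity) hM0 two_ne_zero).1 h6

end Pool.Agent.BG
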