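import Pool.Agent.Lib_helper23.BGF.ABL
import Pool.Agent.Lib_helper23.BGF.REP
set_option autoImplicit false

namespace Pool.Agent.BG

open Finset Filter Complex
open scoped ArithmeticFunction.vonMangoldt Classical

/-- powers of the logarithm are eventually smaller than the identity -/
theorem GOODSWN_logpow (K : ℝ) (m : ℕ) : ∀ᶠ y : ℝ in atTop, K * Real.log y ^ m ≤ y := by
  have h := (Real.isLittleO_pow_log_id_atTop (n := m)).bound
    (show (0 : ℝ) < 1 / (|K| + 1) by positivity)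
  filter_upwards [h, eventually_ge_atTop (1 : ℝ)] with y hy hy1
  have hy0 : (0 : ℝ) < y := by linarith
  have hl : 0 ≤ Real.log y := Real.log_nonneg hy1
  rw [Real.norm_of_nonneg (pow_nonneg hl m), id, Real.norm_of_nonneg hy0.le] at hy
  have hK : (0 : ℝ) < |K| + 1 := by positivity
  calc K * Real.log y ^ m ≤ (|K| + 1) * Real.log y ^ m := by
        apply mul_le_mul_of_nonneg_right _ (pow_nonneg hl m)
        linarith [le_abs_self K]
    _ ≤ (|K| + 1) * (1 / (|K| + 1) * y) := by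
        apply mul_le_mul_of_nonneg_left hy hK.le
    _ = y := by field_simp

theorem GOODSWN_log_atTop : Tendsto (fun N : ℕ => Real.log (N : ℝ)) atTop atTop :=
  Real.tendsto_log_atTop.comp tendsto_natCast_atTop_atTop

theorem GOODSWN_loglog_atTop : Tendsto (fun N : ℕ => Real.log (Real.log (N : ℝ))) atTop atTop :=
  Real.tendsto_log_atTop.comp GOODSWN_log_atTop

/-- `‖L(1, χ)‖` as a function on pairs -/
noncomputable def GOODSWN_f (z : Σ r : ℕ, DirichletCharacter ℂ r) : ℝ :=
  if h : z.1 = 0 then 0 else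
    haveI : NeZero z.1 := ⟨h⟩
    ‖DirichletCharacter.LFunction z.2 1‖

theorem GOODSWN_f_eq {r : ℕ} [hr : NeZero r] (χ : DirichletCharacter ℂ r) :
    GOODSWN_f ⟨r, χ⟩ = ‖DirichletCharacter.LFunction χ 1‖ := by
  unfold GOODSWN_f
  rw [dif_neg hr.out]

theorem good_N (B : ℕ) : ∃ᶠ N : ℕ in atTop, ∀ (r : ℕ) [NeZero r] (χ : DirichletCharacter ℂ r),
    χ.IsPrimitive → χ ≠ 1 → χ ^ 2 = 1 → (r : ℝ) ≤ Real.log N ^ B →
      1 / Real.log (Real.log N) ^ 4 ≤ ‖DirichletCharacter.LFunction χ 1‖ := by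
  by_contra hcon
  rw [not_frequently] at hcon
  obtain ⟨c, hc, hrep⟩ := repulsion
  -- largeness conditions
  have hbig : ∀ᶠ N : ℕ in atTop, 2 ≤ N ∧ 3 ≤ Real.log (N : ℝ) ∧
      8 * ((B : ℝ) + 1) ^ 3 / c + 1 ≤ Real.log (Real.log (N : ℝ)) := by
    filter_upwards [eventually_ge_atTop 2, GOODSWN_log_atTop.eventually_ge_atTop 3,
      GOODSWN_loglog_atTop.eventually_ge_atTop (8 * ((B : ℝ) + 1) ^ 3 / c + 1)] with N h1 h2 h3
    exact ⟨h1, h2, h3⟩
  obtain ⟨N₀, hN₀⟩ := eventually_atTop.mp (hcon.and hbig)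
  have hex : ∀ N : ℕ, N₀ ≤ N → ∃ z : Σ r : ℕ, DirichletCharacter ℂ r, ∃ _ : NeZero z.1,
      z.2.IsPrimitive ∧ z.2 ≠ 1 ∧ z.2 ^ 2 = 1 ∧ (z.1 : ℝ) ≤ Real.log N ^ B ∧
      ‖DirichletCharacter.LFunction z.2 1‖ < 1 / Real.log (Real.log N) ^ 4 := by
    intro N hN
    have h := (hN₀ N hN).1
    push Not at h
    obtain ⟨r, hr, χ, h1, h2, h3, h4, h5⟩ := h
    exact ⟨⟨r, χ⟩, hr, h1, h2, h3, h4, h5⟩
  choose! z hzr hz using hex
  have hstep : ∀ N : ℕ, N₀ ≤ N → z (N + 1) = z N := by
    intro N hN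
    by_contra hne
    obtain ⟨hN2, hl3, hll⟩ := (hN₀ N hN).2
    obtain ⟨-, hl3', hll'⟩ := (hN₀ (N + 1) (by omega)).2
    have i1 := hzr N hN
    have i2 := hzr (N + 1) (by omega)
    obtain ⟨a1, a2, a3, a4, a5⟩ := hz N hN
    obtain ⟨b1, b2, b3, b4, b5⟩ := hz (N + 1) (by omega)
    set R : ℝ := Real.log ((N + 1 : ℕ) : ℝ) ^ (B + 1) with hR
    have hN0 : (0 : ℝ) < N := by
      have : 0 < N := by omega
      exact_mod_cast this
    have hN1 : (0 : ℝ) < ((N + 1 : ℕ) : ℝ) := by positivity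
    have hmono : Real.log (N : ℝ) ≤ Real.log ((N + 1 : ℕ) : ℝ) := by
      apply Real.log_le_log hN0
      push_cast
      linarith
    have hR3 : 3 ≤ R := by
      rw [hR]
      calc (3 : ℝ) ≤ Real.log ((N + 1 : ℕ) : ℝ) := hl3'
        _ = Real.log ((N + 1 : ℕ) : ℝ) ^ 1 := (pow_one _).symm
        _ ≤ Real.log ((N + 1 : ℕ) : ℝ) ^ (B + 1) :=
            pow_le_pow_right₀ (by linarith) (by omega)
    have hr1 : ((z N).1 : ℝ) ≤ R := by
      refine a4.trans ?_
      rw [hR]
      calc Real.log (N : ℝ) ^ B ≤ Real.log ((N + 1 : ℕ) : ℝ) ^ B :=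
            pow_le_pow_left₀ (by linarith) hmono B
        _ ≤ Real.log ((N + 1 : ℕ) : ℝ) ^ (B + 1) :=
            pow_le_pow_right₀ (by linarith) (by omega)
    have hr2 : ((z (N + 1)).1 : ℝ) ≤ R := by
      refine b4.trans ?_
      rw [hR]
      exact pow_le_pow_right₀ (by linarith) (by omega)
    have key := hrep R hR3 (z N).1 (z (N + 1)).1 (z N).2 (z (N + 1)).2 a1 b1 a2 b2 a3 b3 hr1 hr2
      (by
        intro h
        exact hne h.symm)
    set y := Real.log (Real.log (N : ℝ)) with hy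
    set x := Real.log (Real.log ((N + 1 : ℕ) : ℝ)) with hx
    have hlogR : Real.log R = ((B : ℝ) + 1) * x := by
      rw [hR, Real.log_pow, hx]
      push_cast
      ring
    have hy1 : 1 ≤ y := by
      have : 0 ≤ 8 * ((B : ℝ) + 1) ^ 3 / c := by positivity
      linarith
    have hyx : y ≤ x := Real.log_le_log (by linarith) hmono
    have hx2 : x ≤ 2 * y := by
      have h1 : Real.log ((N + 1 : ℕ) : ℝ) ≤ 2 * Real.log (N : ℝ) := by
        have : 2 * Real.log (N : ℝ) = Real.log ((N : ℝ) ^ 2) := by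
          rw [Real.log_pow]; push_cast; ring
        rw [this]
        apply Real.log_le_log hN1
        have h2 : (2 : ℝ) ≤ N := by exact_mod_cast hN2
        push_cast
        nlinarith
      have h2 : x ≤ Real.log (2 * Real.log (N : ℝ)) := Real.log_le_log (by linarith) h1
      rw [Real.log_mul (by norm_num) (by linarith)] at h2
      have h3 : Real.log 2 ≤ 1 := by
        have := Real.log_two_lt_d9
        linarith
      linarith
    have hmax : max ‖DirichletCharacter.LFunction (z N).2 1‖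
        ‖DirichletCharacter.LFunction (z (N + 1)).2 1‖ < 1 / y ^ 4 := by
      apply max_lt a5
      refine b5.trans_le ?_
      exact one_div_le_one_div_of_le (by positivity) (pow_le_pow_left₀ (by linarith) hyx 4)
    have hlt : c / Real.log R ^ 3 < 1 / y ^ 4 := key.trans_lt hmax
    rw [hlogR] at hlt
    have hx0 : 0 < x := by linarith
    have hB0 : (0 : ℝ) < (B : ℝ) + 1 := by positivity
    have hcy : 8 * ((B : ℝ) + 1) ^ 3 < c * y := by
      have h1 : 8 * ((B : ℝ) + 1) ^ 3 / c < y := by linarith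
      rw [div_lt_iff₀ hc] at h1
      linarith
    have hge : 1 / y ^ 4 ≤ c / (((B : ℝ) + 1) * x) ^ 3 := by
      rw [div_le_div_iff₀ (by positivity) (by positivity), one_mul]
      calc (((B : ℝ) + 1) * x) ^ 3 ≤ (((B : ℝ) + 1) * (2 * y)) ^ 3 := by
            apply pow_le_pow_left₀ (by positivity)
            exact mul_le_mul_of_nonneg_left hx2 hB0.le
        _ = 8 * ((B : ℝ) + 1) ^ 3 * y ^ 3 := by ring
        _ ≤ c * y * y ^ 3 := mul_le_mul_of_nonneg_right hcy.le (by positivity)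
        _ = c * y ^ 4 := by ring
    linarith
  have hconst : ∀ N : ℕ, N₀ ≤ N → z N = z N₀ := by
    intro N hN
    induction N, hN using Nat.le_induction with
    | base => rfl
    | succ n hn ih => rw [hstep n hn, ih]
  have i0 := hzr N₀ le_rfl
  have hlim : ∀ N : ℕ, N₀ ≤ N →
      ‖DirichletCharacter.LFunction (z N₀).2 1‖ ≤ 1 / Real.log (Real.log (N : ℝ)) ^ 4 := by
    intro N hN
    have i1 := hzr N hN
    have h1 := (hz N hN).2.2.2.2
    have h2 : GOODSWN_f (z N) = GOODSWN_f (z N₀) := by rw [hconst N hN]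
    have h3 : GOODSWN_f (z N) = ‖DirichletCharacter.LFunction (z N).2 1‖ :=
      GOODSWN_f_eq (z N).2
    have h4 : GOODSWN_f (z N₀) = ‖DirichletCharacter.LFunction (z N₀).2 1‖ :=
      GOODSWN_f_eq (z N₀).2
    rw [← h4, ← h2, h3]
    exact h1.le
  have htend : Tendsto (fun N : ℕ => 1 / Real.log (Real.log (N : ℝ)) ^ 4) atTop (nhds 0) := by
    have h1 : Tendsto (fun N : ℕ => Real.log (Real.log (N : ℝ)) ^ 4) atTop atTop :=
      (tendsto_pow_atTop (by norm_num)).comp GOODSWN_loglog_atTop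
    have h2 := h1.inv_tendsto_atTop
    refine h2.congr ?_
    intro N
    rw [Pi.inv_apply, one_div]
  have hle : ‖DirichletCharacter.LFunction (z N₀).2 1‖ ≤ 0 :=
    ge_of_tendsto htend (eventually_atTop.mpr ⟨N₀, hlim⟩)
  exact DirichletCharacter.LFunction_apply_one_ne_zero (hz N₀ le_rfl).2.1 (norm_le_zero_iff.mp hle)

/-- trivial bound -/
theorem GOODSWN_triv {r : ℕ} (χ : DirichletCharacter ℂ r) (u : ℕ) :
    ‖psiC χ u‖ ≤ u * Real.log u := by
  unfold psiC
  calc ‖∑ n ∈ Icc 1 u, ((Λ n : ℝ) : ℂ) * χ (n : ZMod r)‖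
      ≤ ∑ n ∈ Icc 1 u, ‖((Λ n : ℝ) : ℂ) * χ (n : ZMod r)‖ := norm_sum_le _ _
    _ ≤ ∑ n ∈ Icc 1 u, Real.log u := by
        apply sum_le_sum
        intro n hn
        rw [mem_Icc] at hn
        rw [norm_mul]
        have h1 : ‖((Λ n : ℝ) : ℂ)‖ ≤ Real.log u := by
          rw [Complex.norm_real, Real.norm_of_nonneg ArithmeticFunction.vonMangoldt_nonneg]
          refine ArithmeticFunction.vonMangoldt_le_log.trans ?_
          apply Real.log_le_log
          · have : 0 < n := by omega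
            exact_mod_cast this
          · exact_mod_cast hn.2
        have h2 : ‖χ (n : ZMod r)‖ ≤ 1 := DirichletCharacter.norm_le_one χ _
        calc ‖((Λ n : ℝ) : ℂ)‖ * ‖χ (n : ZMod r)‖ ≤ ‖((Λ n : ℝ) : ℂ)‖ * 1 :=
              mul_le_mul_of_nonneg_left h2 (norm_nonneg _)
          _ ≤ Real.log u := by rw [mul_one]; exact h1
    _ = u * Real.log u := by
        rw [sum_const, Nat.card_Icc, nsmul_eq_mul]
        norm_num

theorem SW (A B : ℕ) : ∃ᶠ N : ℕ in atTop, ∀ (r : ℕ) [NeZero r] (χ : DirichletCharacter ℂ r),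
    χ.IsPrimitive → χ ≠ 1 → (r : ℝ) ≤ Real.log N ^ B → ∀ u : ℕ, u ≤ 3 * N →
      ‖psiC χ u‖ ≤ N / Real.log N ^ A := by
  obtain ⟨C, hC, hpsi⟩ := psiC_bound (A + 2)
  have e1 : ∀ᶠ N : ℕ in atTop, 81 ≤ N := eventually_ge_atTop 81
  have e2 : ∀ᶠ N : ℕ in atTop, 1 ≤ Real.log (Real.log (N : ℝ)) :=
    GOODSWN_loglog_atTop.eventually_ge_atTop 1
  have e3 : ∀ᶠ N : ℕ in atTop, (3 * C * 2 ^ (A + 1) * ((B : ℝ) ^ 10) ^ (2 * (A + 2) + 1)) *
      Real.log (Real.log (N : ℝ)) ^ (14 * (2 * (A + 2) + 1)) ≤ Real.log N :=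
    GOODSWN_log_atTop.eventually (GOODSWN_logpow _ _)
  have e4 : ∀ᶠ N : ℕ in atTop, 2 ^ (A + 1) * Real.log (Real.sqrt (N : ℝ)) ^ (A + 1)
      ≤ Real.sqrt (N : ℝ) := by
    have : Tendsto (fun N : ℕ => Real.sqrt (N : ℝ)) atTop atTop :=
      Real.tendsto_sqrt_atTop.comp tendsto_natCast_atTop_atTop
    exact this.eventually (GOODSWN_logpow _ _)
  refine ((good_N B).and_eventually (e1.and (e2.and (e3.and e4)))).mono ?_
  rintro N ⟨hgood, h81, hll, h3, h4⟩ r hr χ hprim hne hrN u hu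
  have hN0 : (0 : ℝ) < N := by
    have : 0 < N := by omega
    exact_mod_cast this
  have hlN : 1 ≤ Real.log (N : ℝ) := by
    by_contra hlt
    push Not at hlt
    have hN1 : 0 ≤ Real.log (N : ℝ) := Real.log_nonneg (by
      have : 1 ≤ N := by omega
      exact_mod_cast this)
    have := Real.log_nonpos hN1 hlt.le
    linarith
  set L := Real.log (N : ℝ) with hL
  set y := Real.log L with hy
  have hL0 : 0 < L := by linarith
  have hsq : Real.log (Real.sqrt (N : ℝ)) = L / 2 := by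
    rw [Real.log_sqrt hN0.le]
  by_cases hcase : u * u < N
  · -- small `u`
    have hu2 : (u : ℝ) ≤ Real.sqrt N := by
      apply Real.le_sqrt_of_sq_le
      have : ((u * u : ℕ) : ℝ) ≤ (N : ℝ) := by exact_mod_cast hcase.le
      push_cast at this
      nlinarith
    have hlogu : Real.log u ≤ L := by
      rcases Nat.eq_zero_or_pos u with h0 | hpos
      · subst h0
        simpa using hL0.le
      · apply Real.log_le_log (by exact_mod_cast hpos)
        have : u ≤ N := by nlinarith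
        exact_mod_cast this
    rw [le_div_iff₀ (by positivity)]
    have h1 := GOODSWN_triv χ u
    have h4' : L ^ (A + 1) ≤ Real.sqrt N := by
      rw [hsq] at h4
      calc L ^ (A + 1) = 2 ^ (A + 1) * (L / 2) ^ (A + 1) := by
            rw [← mul_pow]; congr 1; ring
        _ ≤ Real.sqrt N := h4
    calc ‖psiC χ u‖ * L ^ A ≤ (u * Real.log u) * L ^ A :=
          mul_le_mul_of_nonneg_right h1 (by positivity)
      _ ≤ (Real.sqrt N * L) * L ^ A := by
          apply mul_le_mul_of_nonneg_right _ (by positivity)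
          calc (u : ℝ) * Real.log u ≤ (u : ℝ) * L := mul_le_mul_of_nonneg_left hlogu (by positivity)
            _ ≤ Real.sqrt N * L := mul_le_mul_of_nonneg_right hu2 hL0.le
      _ = Real.sqrt N * L ^ (A + 1) := by ring
      _ ≤ Real.sqrt N * Real.sqrt N := mul_le_mul_of_nonneg_left h4' (Real.sqrt_nonneg _)
      _ = N := Real.mul_self_sqrt hN0.le
  · push Not at hcase
    have hu9 : 9 ≤ u := by
      by_contra h
      push Not at h
      have : u * u ≤ 8 * 8 := Nat.mul_le_mul (by omega) (by omega)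
      omega
    have hu0 : (0 : ℝ) < u := by
      have : 0 < u := by omega
      exact_mod_cast this
    have hlu : L / 2 ≤ Real.log u := by
      have h1 : L ≤ Real.log ((u : ℝ) * u) := by
        apply Real.log_le_log hN0
        exact_mod_cast hcase
      rw [Real.log_mul hu0.ne' hu0.ne'] at h1
      linarith
    have hlu0 : 0 < Real.log u := by linarith
    -- the quantity `Q`
    have hr0 : r ≠ 0 := hr.out
    have hr1 : (1 : ℝ) ≤ r := by
      have : 1 ≤ r := Nat.one_le_iff_ne_zero.mpr hr0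
      exact_mod_cast this
    have hlr0 : 0 ≤ Real.log r := Real.log_nonneg hr1
    have hlr : Real.log r ≤ B * y := by
      have := Real.log_le_log (by linarith) hrN
      rwa [Real.log_pow] at this
    have hy4 : 1 / y ^ 4 ≤ 1 := by
      rw [div_le_one (by positivity)]
      exact one_le_pow₀ hll
    have hell : 1 / y ^ 4 ≤ ell χ := by
      unfold ell
      split_ifs with h
      · exact le_min hy4 (hgood r χ hprim hne h hrN)
      · exact hy4
    have hell0 : 0 < ell χ := lt_of_lt_of_le (by positivity) hell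
    set Q := Real.log r ^ 10 / ell χ with hQ
    have hQ0 : 0 ≤ Q := by positivity
    have hQle : Q ≤ (B : ℝ) ^ 10 * y ^ 14 := by
      rw [hQ, div_le_iff₀ hell0]
      have h1 : 1 ≤ y ^ 4 * ell χ := by
        rw [div_le_iff₀ (by positivity)] at hell
        linarith
      calc Real.log r ^ 10 ≤ (B * y) ^ 10 := pow_le_pow_left₀ hlr0 hlr 10
        _ = (B : ℝ) ^ 10 * y ^ 10 * 1 := by ring
        _ ≤ (B : ℝ) ^ 10 * y ^ 10 * (y ^ 4 * ell χ) :=
            mul_le_mul_of_nonneg_left h1 (by positivity)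
        _ = (B : ℝ) ^ 10 * y ^ 14 * ell χ := by ring
    have hQpow : Q ^ (2 * (A + 2) + 1) ≤ ((B : ℝ) ^ 10) ^ (2 * (A + 2) + 1) *
        y ^ (14 * (2 * (A + 2) + 1)) := by
      calc Q ^ (2 * (A + 2) + 1) ≤ ((B : ℝ) ^ 10 * y ^ 14) ^ (2 * (A + 2) + 1) :=
            pow_le_pow_left₀ hQ0 hQle _
        _ = _ := by rw [mul_pow, ← pow_mul y]
    have hb := hpsi r χ hne u hu9
    rw [← hQ] at hb
    have hu3 : (u : ℝ) ≤ 3 * N := by exact_mod_cast hu
    -- divide by `log u`
    have hb2 : ‖psiC χ u‖ * Real.log u ^ (A + 1) ≤ C * u * Q ^ (2 * (A + 2) + 1) := by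
      have h1 : (‖psiC χ u‖ * Real.log u ^ (A + 1)) * Real.log u ≤
          (C * u * Q ^ (2 * (A + 2) + 1)) * Real.log u := by
        calc (‖psiC χ u‖ * Real.log u ^ (A + 1)) * Real.log u
            = ‖psiC χ u‖ * Real.log u ^ (A + 2) := by ring
          _ ≤ _ := hb
          _ = _ := by ring
      exact le_of_mul_le_mul_right h1 hlu0
    have hpowu : (L / 2) ^ (A + 1) ≤ Real.log u ^ (A + 1) :=
      pow_le_pow_left₀ (by positivity) hlu _
    have hb3 : ‖psiC χ u‖ * (L / 2) ^ (A + 1) ≤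
        C * (3 * N) * (((B : ℝ) ^ 10) ^ (2 * (A + 2) + 1) * y ^ (14 * (2 * (A + 2) + 1))) := by
      calc ‖psiC χ u‖ * (L / 2) ^ (A + 1) ≤ ‖psiC χ u‖ * Real.log u ^ (A + 1) :=
            mul_le_mul_of_nonneg_left hpowu (norm_nonneg _)
        _ ≤ C * u * Q ^ (2 * (A + 2) + 1) := hb2
        _ ≤ C * (3 * N) * Q ^ (2 * (A + 2) + 1) := by
            apply mul_le_mul_of_nonneg_right _ (by positivity)
            exact mul_le_mul_of_nonneg_left hu3 hC.le
        _ ≤ _ := mul_le_mul_of_nonneg_left hQpow (by positivity)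
    rw [le_div_iff₀ (by positivity)]
    have hfin : (‖psiC χ u‖ * L ^ A) * L ≤ N * L := by
      calc (‖psiC χ u‖ * L ^ A) * L = 2 ^ (A + 1) * (‖psiC χ u‖ * (L / 2) ^ (A + 1)) := by
            rw [div_pow]; field_simp; ring
        _ ≤ 2 ^ (A + 1) * (C * (3 * N) * (((B : ℝ) ^ 10) ^ (2 * (A + 2) + 1) *
              y ^ (14 * (2 * (A + 2) + 1)))) :=
            mul_le_mul_of_nonneg_left hb3 (by positivity)
        _ = N * ((3 * C * 2 ^ (A + 1) * ((B : ℝ) ^ 10) ^ (2 * (A + 2) + 1)) *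
              y ^ (14 * (2 * (A + 2) + 1))) := by ring
        _ ≤ N * L := mul_le_mul_of_nonneg_left h3 hN0.le
    exact le_of_mul_le_mul_right hfin hL0

end Pool.Agent.BG

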