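import Pool.Agent.Lib_helper23.BGF.MVT2
import Pool.Agent.Lib_helper35.Var.MV
/-! Block MVT: the mean value theorem over primitive characters -/

set_option autoImplicit false

namespace Pool.Agent.BG

open Finset Filter Complex
open scoped ArithmeticFunction ArithmeticFunction.Moebius ArithmeticFunction.zeta
open Pool.Agent.Var35 (ev ev_mul norm_ev_le Ml Ll Ml_apply Ll_apply vaughan conv_sum abs_Ml_le
  abs_mu_sub_Ml_le mu_sub_Ml_zero lam_le lam_zero beta_le beta_zero)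

lemma MVT_mem (R : ℕ) (x : Σ p : ℕ, DirichletCharacter ℂ p) (hR : 1 ≤ R) (hx : x ∈ MVT_F R) :
    R < x.1 ∧ x.1 ≤ 2 * R ∧ 1 < x.1 ∧ x.2 ≠ 1 := by
  unfold MVT_F at hx
  rw [mem_sigma, Finset.mem_Ioc] at hx
  have h1 : x.2.IsPrimitive := by
    have := hx.2
    simpa [Prm] using this
  refine ⟨hx.1.1, hx.1.2, by omega, ?_⟩
  intro h
  rw [h, DirichletCharacter.isPrimitive_def] at h1
  have : NeZero x.1 := ⟨by omega⟩
  rw [DirichletCharacter.conductor_one] at h1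
  omega

lemma MVT_card (r : ℕ) (hr : 1 ≤ r) : ((Prm r).card : ℝ) ≤ Nat.totient r := by
  have : NeZero r := ⟨by omega⟩
  have h1 : (Prm r).card ≤ Fintype.card (DirichletCharacter ℂ r) := card_le_univ _
  have h2 : Nat.card (DirichletCharacter ℂ r) = r.totient :=
    DirichletCharacter.card_eq_totient_of_hasEnoughRootsOfUnity ℂ r
  rw [Nat.card_eq_fintype_card] at h2
  rw [h2] at h1
  exact_mod_cast h1

lemma MVT_decomp (x : Σ p : ℕ, DirichletCharacter ℂ p) (U u : ℕ) :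
    psiC x.2 u = ∑ n ∈ Finset.Icc 1 u, ((Ll U n : ℝ) : ℂ) * ev x n
        + ∑ m ∈ Finset.Icc 1 u, ∑ k ∈ Finset.Icc 1 (u / m), ((Ml U m : ℝ) : ℂ) * ((Real.log k : ℝ) : ℂ) * ev x (m * k)
        - ∑ m ∈ Finset.Icc 1 u, ∑ k ∈ Finset.Icc 1 (u / m), (((Ml U * Ll U) m : ℝ) : ℂ) * ((1 : ℝ) : ℂ) * ev x (m * k)
        + ∑ m ∈ Finset.Icc 1 u, ∑ k ∈ Finset.Icc 1 (u / m),
          ((((μ : ArithmeticFunction ℝ) - Ml U) m : ℝ) : ℂ) * ((((Λ - Ll U) * (ζ : ArithmeticFunction ℝ)) k : ℝ) : ℂ) * ev x (m * k) := by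
  have h0 : psiC x.2 u = ∑ n ∈ Finset.Icc 1 u, ((Λ n : ℝ) : ℂ) * ev x n := rfl
  have h1 : ∑ n ∈ Finset.Icc 1 u, ((Λ n : ℝ) : ℂ) * ev x n
      = ∑ n ∈ Finset.Icc 1 u, ((Ll U n : ℝ) : ℂ) * ev x n
        + ∑ n ∈ Finset.Icc 1 u, (((Ml U * ArithmeticFunction.log) n : ℝ) : ℂ) * ev x n
        - ∑ n ∈ Finset.Icc 1 u, ((((Ml U * Ll U) * (ζ : ArithmeticFunction ℝ)) n : ℝ) : ℂ) * ev x n
        + ∑ n ∈ Finset.Icc 1 u, (((((μ : ArithmeticFunction ℝ) - Ml U) * ((Λ - Ll U) * (ζ : ArithmeticFunction ℝ))) n : ℝ) : ℂ) * ev x n := by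
    rw [← sum_add_distrib, ← sum_sub_distrib, ← sum_add_distrib]
    refine sum_congr rfl fun n _ => ?_
    have h2 := congrArg (fun F : ArithmeticFunction ℝ => F n) (vaughan U)
    have hsub : ∀ (F G : ArithmeticFunction ℝ) (n : ℕ), (F - G) n = F n - G n := fun _ _ _ => rfl
    simp only [ArithmeticFunction.add_apply] at h2
    rw [hsub (Ll U + Ml U * ArithmeticFunction.log) (Ml U * Ll U * (ζ : ArithmeticFunction ℝ)),
      ArithmeticFunction.add_apply] at h2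
    rw [h2]
    push_cast
    ring
  rw [h0, h1, conv_sum, conv_sum, conv_sum]
  have h3 : ∑ m ∈ Finset.Icc 1 u, ∑ k ∈ Finset.Icc 1 (u / m),
        (((Ml U * Ll U) m : ℝ) : ℂ) * ((((ζ : ArithmeticFunction ℝ)) k : ℝ) : ℂ) * ev x (m * k)
      = ∑ m ∈ Finset.Icc 1 u, ∑ k ∈ Finset.Icc 1 (u / m),
        (((Ml U * Ll U) m : ℝ) : ℂ) * ((1 : ℝ) : ℂ) * ev x (m * k) := by
    refine sum_congr rfl fun m _ => sum_congr rfl fun k hk => ?_
    rw [Finset.mem_Icc] at hk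
    have : ((ζ : ArithmeticFunction ℝ)) k = 1 := by
      rw [ArithmeticFunction.natCoe_apply, ArithmeticFunction.zeta_apply, if_neg (by omega)]
      simp
    rw [this]
  rw [h3]
  rfl

lemma MVT_filter_card (u U : ℕ) : (((Finset.Icc 1 u).filter (fun n => n ≤ U)).card : ℝ) ≤ U := by
  have h7 : (Finset.Icc 1 u).filter (fun n => n ≤ U) ⊆ Finset.Icc 1 U := by
    intro n hn; rw [mem_filter, Finset.mem_Icc] at hn; rw [Finset.mem_Icc]; omega
  have := card_le_card h7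
  rw [Nat.card_Icc, Nat.add_sub_cancel] at this
  exact_mod_cast this

/-- the first three terms -/
lemma MVT_S123 (R : ℕ) (hR : 1 ≤ R) (x : Σ p : ℕ, DirichletCharacter ℂ p) (hx : x ∈ MVT_F R)
    (U u N : ℕ) (hU : 1 ≤ U) (hu : u ≤ N) (Lg : ℝ) (hLg : Real.log N ≤ Lg) (hLg0 : 1 ≤ Lg) :
    ‖∑ n ∈ Finset.Icc 1 u, ((Ll U n : ℝ) : ℂ) * ev x n‖
    + ‖∑ m ∈ Finset.Icc 1 u, ∑ k ∈ Finset.Icc 1 (u / m), ((Ml U m : ℝ) : ℂ) * ((Real.log k : ℝ) : ℂ) * ev x (m * k)‖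
    + ‖∑ m ∈ Finset.Icc 1 u, ∑ k ∈ Finset.Icc 1 (u / m), (((Ml U * Ll U) m : ℝ) : ℂ) * ((1 : ℝ) : ℂ) * ev x (m * k)‖
    ≤ 7 * (U:ℝ) ^ 2 * R * Lg := by
  obtain ⟨hx1, hx2, hx3, hx4⟩ := MVT_mem R x hR hx
  have hRr : (1:ℝ) ≤ R := by exact_mod_cast hR
  have hUr : (1:ℝ) ≤ U := by exact_mod_cast hU
  have hxr : (x.1 : ℝ) ≤ 2 * R := by exact_mod_cast hx2
  have hx0 : (0:ℝ) ≤ x.1 := by positivity
  have e1 : ‖∑ n ∈ Finset.Icc 1 u, ((Ll U n : ℝ) : ℂ) * ev x n‖ ≤ U * Lg := by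
    have h2 : ∑ n ∈ Finset.Icc 1 u, ((Ll U n : ℝ) : ℂ) * ev x n
        = ∑ n ∈ (Finset.Icc 1 u).filter (fun n => n ≤ U), ((Ll U n : ℝ) : ℂ) * ev x n := by
      rw [sum_filter]
      refine sum_congr rfl fun n _ => ?_
      split_ifs with h
      · rfl
      · rw [Ll_apply, if_neg h]; simp
    rw [h2]
    refine (norm_sum_le _ _).trans ?_
    calc ∑ n ∈ (Finset.Icc 1 u).filter (fun n => n ≤ U), ‖((Ll U n : ℝ) : ℂ) * ev x n‖
        ≤ ∑ n ∈ (Finset.Icc 1 u).filter (fun n => n ≤ U), Lg := by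
          refine sum_le_sum fun n hn => ?_
          rw [mem_filter, Finset.mem_Icc] at hn
          rw [norm_mul, Complex.norm_real, Real.norm_eq_abs, Ll_apply, if_pos hn.2,
            abs_of_nonneg ArithmeticFunction.vonMangoldt_nonneg]
          have h3 : Λ n ≤ Real.log n := ArithmeticFunction.vonMangoldt_le_log
          have h4 : Real.log n ≤ Real.log N :=
            Real.log_le_log (by exact_mod_cast hn.1.1) (by exact_mod_cast hn.1.2.trans hu)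
          have h5 := norm_ev_le x n
          have h6 : (0:ℝ) ≤ Λ n := ArithmeticFunction.vonMangoldt_nonneg
          nlinarith [norm_nonneg (ev x n)]
      _ = (((Finset.Icc 1 u).filter (fun n => n ≤ U)).card : ℝ) * Lg := by rw [sum_const, nsmul_eq_mul]
      _ ≤ U * Lg := mul_le_mul_of_nonneg_right (MVT_filter_card u U) (by linarith)
  have e2 : ‖∑ m ∈ Finset.Icc 1 u, ∑ k ∈ Finset.Icc 1 (u / m), ((Ml U m : ℝ) : ℂ) * ((Real.log k : ℝ) : ℂ) * ev x (m * k)‖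
      ≤ U * (2 * Lg * (2 * R)) := by
    have h2 : ∑ m ∈ Finset.Icc 1 u, ∑ k ∈ Finset.Icc 1 (u / m), ((Ml U m : ℝ) : ℂ) * ((Real.log k : ℝ) : ℂ) * ev x (m * k)
        = ∑ m ∈ (Finset.Icc 1 u).filter (fun n => n ≤ U), ((Ml U m : ℝ) : ℂ) * (ev x m * ∑ k ∈ Finset.Icc 1 (u / m), ((Real.log k : ℝ) : ℂ) * x.2 (k : ZMod x.1)) := by
      rw [sum_filter]
      refine sum_congr rfl fun m _ => ?_
      split_ifs with h
      · rw [mul_sum, mul_sum]
        refine sum_congr rfl fun k _ => ?_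
        rw [ev_mul]; unfold ev; ring
      · rw [Ml_apply, if_neg h]; simp
    rw [h2]
    refine (norm_sum_le _ _).trans ?_
    calc ∑ m ∈ (Finset.Icc 1 u).filter (fun n => n ≤ U), ‖((Ml U m : ℝ) : ℂ) * (ev x m * ∑ k ∈ Finset.Icc 1 (u / m), ((Real.log k : ℝ) : ℂ) * x.2 (k : ZMod x.1))‖
        ≤ ∑ m ∈ (Finset.Icc 1 u).filter (fun n => n ≤ U), 2 * Lg * (2 * R) := by
          refine sum_le_sum fun m hm => ?_
          rw [mem_filter, Finset.mem_Icc] at hm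
          rw [norm_mul, norm_mul, Complex.norm_real, Real.norm_eq_abs]
          have h3 := abs_Ml_le U m
          have h4 := norm_ev_le x m
          have h5 := MVT_type1_log hx3 x.2 hx4 (u / m)
          have h6 : 1 ≤ u / m := by rw [Nat.one_le_div_iff (by omega)]; exact hm.1.2
          have h7 : Real.log (u / m : ℕ) ≤ Lg := by
            refine le_trans ?_ hLg
            exact Real.log_le_log (by exact_mod_cast h6) (by exact_mod_cast (Nat.div_le_self u m).trans hu)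
          have h8 : 0 ≤ Real.log (u / m : ℕ) := Real.log_natCast_nonneg _
          have h9 : ‖∑ k ∈ Finset.Icc 1 (u / m), ((Real.log k : ℝ) : ℂ) * x.2 (k : ZMod x.1)‖ ≤ 2 * Lg * (2 * R) := by
            refine h5.trans ?_
            exact mul_le_mul (by linarith) hxr hx0 (by linarith)
          have h10 : ‖ev x m‖ * ‖∑ k ∈ Finset.Icc 1 (u / m), ((Real.log k : ℝ) : ℂ) * x.2 (k : ZMod x.1)‖ ≤ 1 * (2 * Lg * (2 * R)) :=
            mul_le_mul h4 h9 (norm_nonneg _) zero_le_one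
          calc |Ml U m| * (‖ev x m‖ * ‖∑ k ∈ Finset.Icc 1 (u / m), ((Real.log k : ℝ) : ℂ) * x.2 (k : ZMod x.1)‖)
              ≤ 1 * (1 * (2 * Lg * (2 * R))) := mul_le_mul h3 h10 (by positivity) zero_le_one
            _ = _ := by ring
      _ = (((Finset.Icc 1 u).filter (fun n => n ≤ U)).card : ℝ) * (2 * Lg * (2 * R)) := by rw [sum_const, nsmul_eq_mul]
      _ ≤ U * (2 * Lg * (2 * R)) := mul_le_mul_of_nonneg_right (MVT_filter_card u U) (by positivity)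
  have e3 : ‖∑ m ∈ Finset.Icc 1 u, ∑ k ∈ Finset.Icc 1 (u / m), (((Ml U * Ll U) m : ℝ) : ℂ) * ((1 : ℝ) : ℂ) * ev x (m * k)‖
      ≤ (U * U) * (Lg * (2 * R)) := by
    have h2 : ∑ m ∈ Finset.Icc 1 u, ∑ k ∈ Finset.Icc 1 (u / m), (((Ml U * Ll U) m : ℝ) : ℂ) * ((1 : ℝ) : ℂ) * ev x (m * k)
        = ∑ m ∈ (Finset.Icc 1 u).filter (fun n => n ≤ U * U), (((Ml U * Ll U) m : ℝ) : ℂ) * (ev x m * ∑ k ∈ Finset.Icc 1 (u / m), x.2 (k : ZMod x.1)) := by
      rw [sum_filter]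
      refine sum_congr rfl fun m _ => ?_
      split_ifs with h
      · rw [mul_sum, mul_sum]
        refine sum_congr rfl fun k _ => ?_
        rw [ev_mul]; unfold ev; simp
      · rw [lam_zero U m (by omega)]; simp
    rw [h2]
    refine (norm_sum_le _ _).trans ?_
    calc ∑ m ∈ (Finset.Icc 1 u).filter (fun n => n ≤ U * U), ‖(((Ml U * Ll U) m : ℝ) : ℂ) * (ev x m * ∑ k ∈ Finset.Icc 1 (u / m), x.2 (k : ZMod x.1))‖
        ≤ ∑ m ∈ (Finset.Icc 1 u).filter (fun n => n ≤ U * U), Lg * (2 * R) := by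
          refine sum_le_sum fun m hm => ?_
          rw [mem_filter, Finset.mem_Icc] at hm
          rw [norm_mul, norm_mul, Complex.norm_real, Real.norm_eq_abs]
          have h3 : |(Ml U * Ll U) m| ≤ Lg := by
            refine (lam_le U m).trans (le_trans ?_ hLg)
            exact Real.log_le_log (by exact_mod_cast hm.1.1) (by exact_mod_cast hm.1.2.trans hu)
          have h4 := norm_ev_le x m
          have h5 := MVT_type1 hx3 x.2 hx4 (u / m)
          have h10 : ‖ev x m‖ * ‖∑ k ∈ Finset.Icc 1 (u / m), x.2 (k : ZMod x.1)‖ ≤ 1 * (2 * R) :=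
            mul_le_mul h4 (h5.trans hxr) (norm_nonneg _) zero_le_one
          calc |(Ml U * Ll U) m| * (‖ev x m‖ * ‖∑ k ∈ Finset.Icc 1 (u / m), x.2 (k : ZMod x.1)‖)
              ≤ Lg * (1 * (2 * R)) := mul_le_mul h3 h10 (by positivity) (by linarith)
            _ = _ := by ring
      _ = (((Finset.Icc 1 u).filter (fun n => n ≤ U * U)).card : ℝ) * (Lg * (2 * R)) := by rw [sum_const, nsmul_eq_mul]
      _ ≤ (U * U) * (Lg * (2 * R)) := by
          refine mul_le_mul_of_nonneg_right ?_ (by positivity)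
          have := MVT_filter_card u (U * U)
          push_cast at this
          exact this
  have hL0 : 0 ≤ Lg := by linarith
  have f1 : U * Lg ≤ (U:ℝ) ^ 2 * R * Lg := by
    have : (U:ℝ) * 1 ≤ (U:ℝ) ^ 2 * R := by
      rw [sq, mul_assoc]
      refine mul_le_mul_of_nonneg_left ?_ (by positivity)
      nlinarith
    nlinarith
  have f2 : U * (2 * Lg * (2 * R)) ≤ 4 * ((U:ℝ) ^ 2 * R * Lg) := by
    have : (U:ℝ) ≤ (U:ℝ) ^ 2 := by nlinarith
    have h : (U:ℝ) * (R * Lg) ≤ (U:ℝ) ^ 2 * (R * Lg) := mul_le_mul_of_nonneg_right this (by positivity)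
    nlinarith
  have f3 : (U:ℝ) * U * (Lg * (2 * R)) = 2 * ((U:ℝ) ^ 2 * R * Lg) := by ring
  rw [f3] at e3
  have := add_le_add (add_le_add (e1.trans f1) (e2.trans f2)) e3
  linarith

lemma MVT_S4 (R : ℕ) (hR : 1 ≤ R) (U u N : ℕ) (hU : 1 ≤ U) (hu : u ≤ N) (hN : 1 ≤ N) :
    ∑ x ∈ MVT_F R, MVT_w x * ‖∑ m ∈ Finset.Icc 1 u, ∑ k ∈ Finset.Icc 1 (u / m),
      ((((μ : ArithmeticFunction ℝ) - Ml U) m : ℝ) : ℂ) * ((((Λ - Ll U) * (ζ : ArithmeticFunction ℝ)) k : ℝ) : ℂ) * ev x (m * k)‖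
      ≤ 44 * (2 + Real.log N) ^ 2 * 1 * (2 + Real.log N) *
        (N + 2 * (N * ((2 * R : ℕ):ℝ) / Real.sqrt U) + Real.sqrt N * ((2 * R : ℕ):ℝ) ^ 2) := by
  have hlN : 0 ≤ Real.log N := Real.log_natCast_nonneg N
  have hUr : (1:ℝ) ≤ U := by exact_mod_cast hU
  have hsqU : 0 < Real.sqrt U := Real.sqrt_pos.mpr (by linarith)
  refine MVT_type2 R hR U u N hU hu (fun m => ((μ : ArithmeticFunction ℝ) - Ml U) m)
      (fun k => ((Λ - Ll U) * (ζ : ArithmeticFunction ℝ)) k) 1 (2 + Real.log N)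
      (N + 2 * (N * ((2 * R : ℕ):ℝ) / Real.sqrt U) + Real.sqrt N * ((2 * R : ℕ):ℝ) ^ 2) zero_le_one (by linarith) ?_ ?_ ?_ ?_ (by positivity)
  · intro m hm; exact mu_sub_Ml_zero U m hm
  · intro m _; exact abs_mu_sub_Ml_le U m
  · intro k hk1 hk2
    refine (beta_le U k).trans ?_
    have : Real.log k ≤ Real.log N := Real.log_le_log (by exact_mod_cast hk1) (by exact_mod_cast hk2)
    linarith
  · intro M hUM hMN hc2
    obtain ⟨k, hk1, hk2, hk3⟩ := hc2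
    set P : ℕ := 2 * R
    have hkU : U < k := by
      by_contra h
      push Not at h
      exact hk3 (beta_zero U k h)
    have hMr : (U:ℝ) ≤ M := by exact_mod_cast hUM
    have hur : (u:ℝ) ≤ N := by exact_mod_cast hu
    have h6 : Real.sqrt ((u / M : ℕ):ℝ) ≤ Real.sqrt N / Real.sqrt U := by
      rw [← Real.sqrt_div (by positivity)]
      refine Real.sqrt_le_sqrt ?_
      have h7 : ((u / M : ℕ):ℝ) ≤ (u:ℝ) / M := Nat.cast_div_le
      refine h7.trans ?_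
      exact div_le_div₀ (by linarith) hur (by linarith) hMr
    have h5 : Real.sqrt M ≤ Real.sqrt N / Real.sqrt U := by
      rw [← Real.sqrt_div (by positivity)]
      refine Real.sqrt_le_sqrt ?_
      rw [le_div_iff₀ (by linarith)]
      have h7 : M * (u / M) ≤ u := Nat.mul_div_le u M
      have h8 : M * U ≤ M * (u / M) := Nat.mul_le_mul_left M (hkU.le.trans hk2)
      have h9 : M * U ≤ N := (h8.trans h7).trans hu
      exact_mod_cast h9
    have h8 : Real.sqrt N * P * Real.sqrt ((u / M : ℕ):ℝ) ≤ N * P / Real.sqrt U := by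
      calc Real.sqrt N * P * Real.sqrt ((u / M : ℕ):ℝ) ≤ Real.sqrt N * P * (Real.sqrt N / Real.sqrt U) :=
            mul_le_mul_of_nonneg_left h6 (by positivity)
        _ = (Real.sqrt N * Real.sqrt N) * P / Real.sqrt U := by ring
        _ = N * P / Real.sqrt U := by rw [Real.mul_self_sqrt (by positivity)]
    have h9 : Real.sqrt N * P * Real.sqrt M ≤ N * P / Real.sqrt U := by
      calc Real.sqrt N * P * Real.sqrt M ≤ Real.sqrt N * P * (Real.sqrt N / Real.sqrt U) :=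
            mul_le_mul_of_nonneg_left h5 (by positivity)
        _ = (Real.sqrt N * Real.sqrt N) * P / Real.sqrt U := by ring
        _ = N * P / Real.sqrt U := by rw [Real.mul_self_sqrt (by positivity)]
    linarith

/-- general form -/
lemma MVT_gen (R : ℕ) (hR : 1 ≤ R) (U u N : ℕ) (hU : 1 ≤ U) (hu : u ≤ N) (hN : 1 ≤ N) :
    ∑ r ∈ Ioc R (2 * R), (1 / (r.totient : ℝ)) * ∑ χ ∈ Prm r, ‖psiC χ u‖ ≤
      7 * (U:ℝ) ^ 2 * (R:ℝ) ^ 2 * (2 + Real.log N)
      + 44 * (2 + Real.log N) ^ 3 * (N / R + 4 * (N / Real.sqrt U) + 4 * (R * Real.sqrt N)) := by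
  have hlN : 0 ≤ Real.log N := Real.log_natCast_nonneg N
  set Lg := 2 + Real.log N with hLg
  have hLg1 : 1 ≤ Lg := by linarith
  have hRr : (1:ℝ) ≤ R := by exact_mod_cast hR
  have hUr : (1:ℝ) ≤ U := by exact_mod_cast hU
  have hsqU : 0 < Real.sqrt U := Real.sqrt_pos.mpr (by linarith)
  have h1 : ∑ r ∈ Ioc R (2 * R), (1 / (r.totient : ℝ)) * ∑ χ ∈ Prm r, ‖psiC χ u‖
      = ∑ x ∈ MVT_F R, (1 / (x.1.totient : ℝ)) * ‖psiC x.2 u‖ := by
    unfold MVT_F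
    rw [sum_sigma]
    refine sum_congr rfl fun r _ => ?_
    rw [mul_sum]
  rw [h1]
  set S4 : (Σ p : ℕ, DirichletCharacter ℂ p) → ℂ := fun x => ∑ m ∈ Finset.Icc 1 u, ∑ k ∈ Finset.Icc 1 (u / m),
      ((((μ : ArithmeticFunction ℝ) - Ml U) m : ℝ) : ℂ) * ((((Λ - Ll U) * (ζ : ArithmeticFunction ℝ)) k : ℝ) : ℂ) * ev x (m * k) with hS4
  have h2 : ∀ x ∈ MVT_F R, (1 / (x.1.totient : ℝ)) * ‖psiC x.2 u‖
      ≤ (1 / (x.1.totient : ℝ)) * (7 * (U:ℝ) ^ 2 * R * Lg) + (1 / (R:ℝ)) * (MVT_w x * ‖S4 x‖) := by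
    intro x hx
    obtain ⟨hx1, hx2, hx3, hx4⟩ := MVT_mem R x hR hx
    have hφ : 0 < x.1.totient := Nat.totient_pos.mpr (by omega)
    have hφr : (0:ℝ) < x.1.totient := by exact_mod_cast hφ
    have h3 := MVT_S123 R hR x hx U u N hU hu Lg (by linarith) hLg1
    have h4 : ‖psiC x.2 u‖ ≤ 7 * (U:ℝ) ^ 2 * R * Lg + ‖S4 x‖ := by
      rw [MVT_decomp x U u]
      refine (norm_add_le _ _).trans (add_le_add ?_ le_rfl)
      refine (norm_sub_le _ _).trans (le_trans ?_ h3)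
      exact add_le_add (norm_add_le _ _) le_rfl
    have h5 : (1 / (x.1.totient : ℝ)) * ‖psiC x.2 u‖
        ≤ (1 / (x.1.totient : ℝ)) * (7 * (U:ℝ) ^ 2 * R * Lg + ‖S4 x‖) :=
      mul_le_mul_of_nonneg_left h4 (by positivity)
    refine h5.trans ?_
    rw [mul_add]
    refine add_le_add le_rfl ?_
    rw [← mul_assoc]
    refine mul_le_mul_of_nonneg_right ?_ (norm_nonneg _)
    unfold MVT_w
    rw [div_mul_div_comm, one_mul, div_le_div_iff₀ hφr (by positivity)]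
    have : (R:ℝ) ≤ x.1 := by exact_mod_cast hx1.le
    nlinarith
  refine (sum_le_sum h2).trans ?_
  rw [sum_add_distrib, ← mul_sum, ← sum_mul]
  have h6 : ∑ x ∈ MVT_F R, 1 / (x.1.totient : ℝ) ≤ R := by
    unfold MVT_F
    rw [sum_sigma]
    calc ∑ r ∈ Ioc R (2 * R), ∑ χ ∈ Prm r, 1 / (r.totient : ℝ)
        ≤ ∑ r ∈ Ioc R (2 * R), (1:ℝ) := by
          refine sum_le_sum fun r hr => ?_
          rw [Finset.mem_Ioc] at hr
          rw [sum_const, nsmul_eq_mul]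
          have hφ : 0 < r.totient := Nat.totient_pos.mpr (by omega)
          have hφr : (0:ℝ) < r.totient := by exact_mod_cast hφ
          rw [mul_one_div, div_le_one hφr]
          exact MVT_card r (by omega)
      _ = R := by
          rw [sum_const, nsmul_eq_mul, mul_one, Nat.card_Ioc]
          congr 1
          omega
  have h7 := MVT_S4 R hR U u N hU hu hN
  have h8 : (∑ x ∈ MVT_F R, 1 / (x.1.totient : ℝ)) * (7 * (U:ℝ) ^ 2 * R * Lg) ≤ R * (7 * (U:ℝ) ^ 2 * R * Lg) :=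
    mul_le_mul_of_nonneg_right h6 (by positivity)
  have h9 : (1 / (R:ℝ)) * ∑ x ∈ MVT_F R, MVT_w x * ‖S4 x‖
      ≤ (1 / (R:ℝ)) * (44 * Lg ^ 2 * 1 * Lg * (N + 2 * (N * ((2 * R : ℕ):ℝ) / Real.sqrt U) + Real.sqrt N * ((2 * R : ℕ):ℝ) ^ 2)) :=
    mul_le_mul_of_nonneg_left h7 (by positivity)
  refine (add_le_add h8 h9).trans (le_of_eq ?_)
  push_cast
  have hR0 : (R:ℝ) ≠ 0 := by positivity
  have hs0 : Real.sqrt (U:ℝ) ≠ 0 := hsqU.ne'
  field_simp
  ring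

theorem mvt : ∃ C : ℝ, 0 < C ∧ ∃ K : ℕ, ∀ N : ℕ, 3 ≤ N → ∀ u : ℕ, u ≤ 3 * N → ∀ R : ℕ, 1 ≤ R →
    (R : ℝ) ≤ (N : ℝ) ^ (49 / 100 : ℝ) →
      ∑ r ∈ Ioc R (2 * R), (1 / (r.totient : ℝ)) * ∑ χ ∈ Prm r, ‖psiC χ u‖ ≤
        C * Real.log N ^ K * (N / R + (N : ℝ) ^ (999 / 1000 : ℝ)) := by
  refine ⟨200000, by norm_num, 3, ?_⟩
  intro N hN u hu R hR hRN
  have hNr : (3:ℝ) ≤ N := by exact_mod_cast hN
  have hN1 : (1:ℝ) ≤ N := by linarith
  have hN0 : (0:ℝ) < N := by linarith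
  have hRr : (1:ℝ) ≤ R := by exact_mod_cast hR
  set V : ℝ := (N:ℝ) ^ (1 / 400 : ℝ) with hV
  have hV1 : 1 ≤ V := Real.one_le_rpow hN1 (by norm_num)
  set U : ℕ := ⌊V⌋₊ with hU
  have hU1 : 1 ≤ U := by rw [hU, Nat.one_le_floor_iff]; exact hV1
  have hUr : (1:ℝ) ≤ U := by exact_mod_cast hU1
  have hUV : (U:ℝ) ≤ V := Nat.floor_le (by linarith)
  have hVU : V ≤ 2 * U := by
    have := Nat.lt_floor_add_one V
    rw [← hU] at this
    linarith
  have hgen := MVT_gen R hR U u (3 * N) hU1 hu (by omega)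
  refine hgen.trans ?_
  push_cast
  -- logs
  have hlog3 : 1 ≤ Real.log N := by
    have h1 : Real.exp 1 ≤ N := by
      have := Real.exp_one_lt_d9
      linarith
    have := Real.log_le_log (Real.exp_pos 1) h1
    rwa [Real.log_exp] at this
  have hlog3' : Real.log 3 ≤ 2 := by
    have h1 : (3:ℝ) ≤ Real.exp 2 := by
      have h2 : (2:ℝ) + 1 ≤ Real.exp 2 := Real.add_one_le_exp 2
      linarith
    have := Real.log_le_log (by norm_num) h1
    rwa [Real.log_exp] at this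
  have hLg : 2 + Real.log (3 * N) ≤ 5 * Real.log N := by
    rw [Real.log_mul (by norm_num) (by positivity)]
    linarith
  have hLg0 : 0 ≤ 2 + Real.log (3 * N) := by
    rw [Real.log_mul (by norm_num) (by positivity)]
    have : 0 ≤ Real.log 3 := Real.log_nonneg (by norm_num)
    linarith
  set L := Real.log N with hL
  set G : ℝ := (N:ℝ) ^ (999 / 1000 : ℝ) with hG
  have hG1 : 1 ≤ G := Real.one_le_rpow hN1 (by norm_num)
  have hL3 : L ≤ L ^ 3 := by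
    have : L ^ 1 ≤ L ^ 3 := pow_le_pow_right₀ hlog3 (by norm_num)
    simpa using this
  -- first term
  have t1 : (U:ℝ) ^ 2 * (R:ℝ) ^ 2 ≤ G := by
    have h1 : (U:ℝ) ^ 2 ≤ V ^ 2 := pow_le_pow_left₀ (by positivity) hUV 2
    have h2 : (R:ℝ) ^ 2 ≤ ((N : ℝ) ^ (49 / 100 : ℝ)) ^ 2 := pow_le_pow_left₀ (by positivity) hRN 2
    refine (mul_le_mul h1 h2 (by positivity) (by positivity)).trans ?_
    rw [hV, hG, ← Real.rpow_natCast, ← Real.rpow_natCast, ← Real.rpow_mul hN0.le, ← Real.rpow_mul hN0.le,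
      ← Real.rpow_add hN0]
    refine Real.rpow_le_rpow_of_exponent_le hN1 ?_
    norm_num
  -- second term
  have hsqU : 0 < Real.sqrt U := Real.sqrt_pos.mpr (by linarith)
  have t2 : (N:ℝ) / Real.sqrt U ≤ 2 * G := by
    rw [div_le_iff₀ hsqU]
    have h1 : Real.sqrt (V / 2) ≤ Real.sqrt U := Real.sqrt_le_sqrt (by linarith)
    have h2 : (N:ℝ) ≤ 2 * G * Real.sqrt (V / 2) := by
      have h3 : Real.sqrt (V / 2) = V ^ (1 / 2 : ℝ) / Real.sqrt 2 := by
        rw [Real.sqrt_div (by linarith), Real.sqrt_eq_rpow V]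
      have h4 : Real.sqrt 2 ≤ 2 := by
        rw [Real.sqrt_le_left (by norm_num)]; norm_num
      have h5 : 0 < Real.sqrt 2 := Real.sqrt_pos.mpr (by norm_num)
      have h6 : V ^ (1 / 2 : ℝ) / 2 ≤ Real.sqrt (V / 2) := by
        rw [h3]
        exact div_le_div_of_nonneg_left (by positivity) h5 h4
      have h7 : (N:ℝ) ≤ G * V ^ (1 / 2 : ℝ) := by
        rw [hG, hV, ← Real.rpow_mul hN0.le, ← Real.rpow_add hN0]
        nth_rewrite 1 [← Real.rpow_one (N:ℝ)]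
        refine Real.rpow_le_rpow_of_exponent_le hN1 ?_
        norm_num
      have h8 : 2 * G * (V ^ (1 / 2 : ℝ) / 2) ≤ 2 * G * Real.sqrt (V / 2) :=
        mul_le_mul_of_nonneg_left h6 (by positivity)
      linarith
    refine h2.trans ?_
    exact mul_le_mul_of_nonneg_left h1 (by positivity)
  -- third term
  have t3 : (R:ℝ) * Real.sqrt (3 * N) ≤ 2 * G := by
    have h1 : Real.sqrt (3 * N) ≤ 2 * (N:ℝ) ^ (1 / 2 : ℝ) := by
      rw [Real.sqrt_mul (by norm_num), Real.sqrt_eq_rpow (N:ℝ)]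
      refine mul_le_mul_of_nonneg_right ?_ (by positivity)
      rw [Real.sqrt_le_left (by norm_num)]; norm_num
    have h2 : (R:ℝ) * Real.sqrt (3 * N) ≤ (N : ℝ) ^ (49 / 100 : ℝ) * (2 * (N:ℝ) ^ (1 / 2 : ℝ)) :=
      mul_le_mul hRN h1 (Real.sqrt_nonneg _) (by positivity)
    refine h2.trans ?_
    have h3 : (N : ℝ) ^ (49 / 100 : ℝ) * (2 * (N:ℝ) ^ (1 / 2 : ℝ)) = 2 * ((N : ℝ) ^ (49 / 100 : ℝ) * (N:ℝ) ^ (1 / 2 : ℝ)) := by ring
    rw [h3, ← Real.rpow_add hN0]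
    refine mul_le_mul_of_nonneg_left ?_ (by norm_num)
    rw [hG]
    refine Real.rpow_le_rpow_of_exponent_le hN1 ?_
    norm_num
  have hNR : 0 ≤ (N:ℝ) / R := by positivity
  have t4 : 3 * (N:ℝ) / R = 3 * (N / R) := by ring
  have t5 : 3 * (N:ℝ) / Real.sqrt U = 3 * (N / Real.sqrt U) := by ring
  rw [t4, t5]
  have s1 : 7 * (U:ℝ) ^ 2 * (R:ℝ) ^ 2 * (2 + Real.log (3 * N)) ≤ 35 * (L ^ 3 * G) := by
    calc 7 * (U:ℝ) ^ 2 * (R:ℝ) ^ 2 * (2 + Real.log (3 * N)) = 7 * ((U:ℝ) ^ 2 * (R:ℝ) ^ 2) * (2 + Real.log (3 * N)) := by ring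
      _ ≤ 7 * G * (5 * L) := mul_le_mul (by linarith) hLg hLg0 (by positivity)
      _ = 35 * (L * G) := by ring
      _ ≤ 35 * (L ^ 3 * G) := by
          have := mul_le_mul_of_nonneg_right hL3 (by linarith : (0:ℝ) ≤ G)
          linarith
  have s2 : 44 * (2 + Real.log (3 * N)) ^ 3 * (3 * (N / R) + 4 * (3 * (N / Real.sqrt U)) + 4 * (R * Real.sqrt (3 * N)))
      ≤ 5500 * L ^ 3 * (3 * (N / R) + 32 * G) := by
    have h1 : (2 + Real.log (3 * N)) ^ 3 ≤ (5 * L) ^ 3 := pow_le_pow_left₀ hLg0 hLg 3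
    have h2 : 3 * (N / R) + 4 * (3 * (N / Real.sqrt U)) + 4 * (R * Real.sqrt (3 * N)) ≤ 3 * ((N:ℝ) / R) + 32 * G := by
      linarith
    have h3 : (0:ℝ) ≤ 3 * (N / R) + 4 * (3 * (N / Real.sqrt U)) + 4 * (R * Real.sqrt (3 * N)) := by positivity
    calc 44 * (2 + Real.log (3 * N)) ^ 3 * (3 * (N / R) + 4 * (3 * (N / Real.sqrt U)) + 4 * (R * Real.sqrt (3 * N)))
        ≤ 44 * (5 * L) ^ 3 * (3 * (N / R) + 32 * G) :=
          mul_le_mul (mul_le_mul_of_nonneg_left h1 (by norm_num)) h2 h3 (by positivity)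
      _ = 5500 * L ^ 3 * (3 * (N / R) + 32 * G) := by ring
  have hL30 : 0 ≤ L ^ 3 := by positivity
  have p1 : 0 ≤ L ^ 3 * (N / R) := by positivity
  have p2 : 0 ≤ L ^ 3 * G := by positivity
  have := add_le_add s1 s2
  refine this.trans ?_
  have hfin : 35 * (L ^ 3 * G) + 5500 * L ^ 3 * (3 * (N / R) + 32 * G) = 16500 * (L ^ 3 * (N / R)) + 176035 * (L ^ 3 * G) := by ring
  rw [hfin]
  nlinarith

end Pool.Agent.BG
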