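import Pool.Agent.Lib_helper23.BGF.BVAUX
/-! Block RED: `Emax_le`, from progressions to characters. -/

set_option autoImplicit false

namespace Pool.Agent.BG

open Finset Filter Complex
open scoped ArithmeticFunction.vonMangoldt Classical

theorem RED_psi_eq (u : ℕ) : Chebyshev.psi u = ∑ n ∈ Icc 1 u, (Λ n : ℝ) := by
  unfold Chebyshev.psi
  rw [Nat.floor_natCast, BVDPNT_Ioc]

theorem RED_th_eq (u : ℕ) : th u = ∑ n ∈ Icc 1 u, if n.Prime then (Λ n : ℝ) else 0 := by
  unfold th
  rw [Finset.sum_filter]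
  apply Finset.sum_congr rfl
  intro n _
  split_ifs with h
  · rw [ArithmeticFunction.vonMangoldt_apply_prime h]
  · rfl

theorem RED_diff (u : ℕ) : ∑ n ∈ Icc 1 u, (if n.Prime then 0 else (Λ n : ℝ)) ≤
    2 * Real.sqrt u * Real.log (u + 2) := by
  have h1 : ∑ n ∈ Icc 1 u, (if n.Prime then 0 else (Λ n : ℝ)) =
      Chebyshev.psi u - Chebyshev.theta u := by
    rw [RED_psi_eq, ← BVDPNT_th_eq, RED_th_eq, ← Finset.sum_sub_distrib]
    apply Finset.sum_congr rfl
    intro n _
    split_ifs <;> simp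
  rw [h1]
  rcases Nat.eq_zero_or_pos u with h0 | h0
  · subst h0
    simp
  · have h2 := Chebyshev.abs_psi_sub_theta_le_sqrt_mul_log (x := u) (by exact_mod_cast h0)
    refine (le_abs_self _).trans (h2.trans ?_)
    apply mul_le_mul_of_nonneg_left _ (by positivity)
    apply Real.log_le_log (by exact_mod_cast h0)
    linarith

/-- the sum of `Λ` over `n ≤ u`, `n = a` in `ZMod q` -/
theorem RED_orth (u q : ℕ) [NeZero q] (a : ZMod q) (ha : IsUnit a) :
    ∑ χ : DirichletCharacter ℂ q, χ a⁻¹ * psiC χ u =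
      (q.totient : ℂ) * ((∑ n ∈ Icc 1 u, if a = (n : ZMod q) then (Λ n : ℝ) else 0 : ℝ) : ℂ) := by
  unfold psiC
  simp_rw [Finset.mul_sum]
  rw [Finset.sum_comm]
  push_cast
  rw [Finset.mul_sum]
  apply Finset.sum_congr rfl
  intro n _
  have h := DirichletCharacter.sum_char_inv_mul_char_eq ℂ ha (n : ZMod q)
  have h1 : ∑ χ : DirichletCharacter ℂ q, χ a⁻¹ * (((Λ n : ℝ) : ℂ) * χ (n : ZMod q)) =
      ((Λ n : ℝ) : ℂ) * ∑ χ : DirichletCharacter ℂ q, χ a⁻¹ * χ (n : ZMod q) := by
    rw [Finset.mul_sum]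
    apply Finset.sum_congr rfl
    intro χ _
    ring
  rw [h1, h]
  split_ifs <;> simp [mul_comm]

theorem RED_one (u q : ℕ) [NeZero q] :
    psiC (1 : DirichletCharacter ℂ q) u =
      ((∑ n ∈ Icc 1 u, if Nat.Coprime n q then (Λ n : ℝ) else 0 : ℝ) : ℂ) := by
  unfold psiC
  push_cast
  apply Finset.sum_congr rfl
  intro n _
  split_ifs with h
  · rw [MulChar.one_apply ((ZMod.isUnit_iff_coprime n q).mpr h), mul_one]
  · rw [MulChar.map_nonunit _ (fun h' => h ((ZMod.isUnit_iff_coprime n q).mp h')), mul_zero]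
    rfl

theorem RED_main (u q : ℕ) [NeZero q] (a : ℕ) (ha : Nat.Coprime q a) :
    |thAP u q a - th u / q.totient| ≤ (1 / (q.totient : ℝ)) *
      ∑ χ ∈ (univ : Finset (DirichletCharacter ℂ q)).filter (fun χ => χ ≠ 1), ‖psiC χ u‖
      + 4 * (Real.sqrt u + Real.log q + 1) * Real.log (u + 2) := by
  have hqpos : 0 < q := Nat.pos_of_ne_zero (NeZero.ne q)
  have hφ : (1 : ℝ) ≤ q.totient := by
    exact_mod_cast Nat.totient_pos.mpr hqpos
  have hφ0 : (0 : ℝ) < q.totient := by linarith
  have hau : IsUnit (a : ZMod q) := (ZMod.isUnit_iff_coprime a q).mpr ha.symm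
  set Sa : ℝ := ∑ n ∈ Icc 1 u, if (a : ZMod q) = (n : ZMod q) then (Λ n : ℝ) else 0 with hSa
  set P1 : ℝ := ∑ n ∈ Icc 1 u, if Nat.Coprime n q then (Λ n : ℝ) else 0 with hP1
  have hL0 : ∀ n : ℕ, 0 ≤ (Λ n : ℝ) := fun n => ArithmeticFunction.vonMangoldt_nonneg
  have hdiff := RED_diff u
  set Df : ℝ := ∑ n ∈ Icc 1 u, (if n.Prime then 0 else (Λ n : ℝ)) with hDf
  have hDf0 : 0 ≤ Df := Finset.sum_nonneg (fun n _ => by split_ifs; exacts [le_rfl, hL0 n])
  -- step 1
  have h1 : |Sa - P1 / q.totient| ≤ (1 / (q.totient : ℝ)) *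
      ∑ χ ∈ (univ : Finset (DirichletCharacter ℂ q)).filter (fun χ => χ ≠ 1), ‖psiC χ u‖ := by
    have e1 := RED_orth u q (a : ZMod q) hau
    rw [← hSa] at e1
    have e2 : ∑ χ : DirichletCharacter ℂ q, χ (a : ZMod q)⁻¹ * psiC χ u =
        (1 : DirichletCharacter ℂ q) (a : ZMod q)⁻¹ * psiC (1 : DirichletCharacter ℂ q) u +
        ∑ χ ∈ (univ : Finset (DirichletCharacter ℂ q)).filter (fun χ => χ ≠ 1),
          χ (a : ZMod q)⁻¹ * psiC χ u := by
      rw [← Finset.add_sum_erase univ _ (Finset.mem_univ (1 : DirichletCharacter ℂ q))]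
      congr 1
      apply Finset.sum_congr _ (fun _ _ => rfl)
      ext χ
      simp
    have hinv : IsUnit ((a : ZMod q)⁻¹) := by
      have := ZMod.isUnit_inv (n := (a : ℤ)) (m := q) (by simpa using hau)
      simpa using this
    rw [e2, MulChar.one_apply hinv, one_mul, RED_one, ← hP1] at e1
    have e3 : (((q.totient : ℝ) * Sa - P1 : ℝ) : ℂ) =
        ∑ χ ∈ (univ : Finset (DirichletCharacter ℂ q)).filter (fun χ => χ ≠ 1),
          χ (a : ZMod q)⁻¹ * psiC χ u := by
      push_cast
      rw [← e1]; ring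
    have e4 : |(q.totient : ℝ) * Sa - P1| ≤
        ∑ χ ∈ (univ : Finset (DirichletCharacter ℂ q)).filter (fun χ => χ ≠ 1), ‖psiC χ u‖ := by
      rw [← Real.norm_eq_abs, ← Complex.norm_real, e3]
      refine (norm_sum_le _ _).trans (Finset.sum_le_sum ?_)
      intro χ _
      rw [norm_mul]
      calc _ ≤ 1 * ‖psiC χ u‖ :=
            mul_le_mul_of_nonneg_right (DirichletCharacter.norm_le_one χ _) (norm_nonneg _)
        _ = _ := one_mul _
    have e5 : Sa - P1 / q.totient = (1 / (q.totient : ℝ)) * ((q.totient : ℝ) * Sa - P1) := by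
      field_simp
    rw [e5, abs_mul, abs_of_nonneg (by positivity : (0 : ℝ) ≤ 1 / (q.totient : ℝ))]
    exact mul_le_mul_of_nonneg_left e4 (by positivity)
  -- step 2
  have h2 : |thAP u q a - Sa| ≤ Df := by
    have e1 : thAP u q a = ∑ n ∈ Icc 1 u, if (a : ZMod q) = (n : ZMod q) ∧ n.Prime
        then (Λ n : ℝ) else 0 := by
      unfold thAP
      rw [Finset.sum_filter]
      apply Finset.sum_congr rfl
      intro n _
      have : (n.Prime ∧ n ≡ a [MOD q]) ↔ ((a : ZMod q) = (n : ZMod q) ∧ n.Prime) := by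
        rw [ZMod.natCast_eq_natCast_iff]
        constructor
        · rintro ⟨h1, h2⟩; exact ⟨h2.symm, h1⟩
        · rintro ⟨h1, h2⟩; exact ⟨h2, h1.symm⟩
      by_cases hc : n.Prime ∧ n ≡ a [MOD q]
      · rw [if_pos hc, if_pos (this.mp hc), ArithmeticFunction.vonMangoldt_apply_prime hc.1]
      · rw [if_neg hc, if_neg (fun h => hc (this.mpr h))]
    rw [e1, hSa, ← Finset.sum_sub_distrib]
    refine (Finset.abs_sum_le_sum_abs _ _).trans (Finset.sum_le_sum ?_)
    intro n _
    have := hL0 n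
    by_cases hp : n.Prime <;> by_cases hc : (a : ZMod q) = (n : ZMod q) <;>
      simp [hp, hc, this, abs_of_nonneg]
  -- step 3
  have h3 : |P1 - th u| ≤ Df + Real.log q := by
    have e1 : P1 - th u = ∑ n ∈ Icc 1 u, ((if Nat.Coprime n q then (Λ n : ℝ) else 0) -
        (if n.Prime then (Λ n : ℝ) else 0)) := by
      rw [hP1, RED_th_eq, Finset.sum_sub_distrib]
    have e2 : ∀ n ∈ Icc 1 u, |(if Nat.Coprime n q then (Λ n : ℝ) else 0) -
        (if n.Prime then (Λ n : ℝ) else 0)| ≤ (if n.Prime then 0 else (Λ n : ℝ)) +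
          (if n.Prime ∧ n ∣ q then Real.log n else 0) := by
      intro n _
      have := hL0 n
      by_cases hp : n.Prime
      · by_cases hc : Nat.Coprime n q
        · have : ¬ (n ∣ q) := by
            intro hd
            exact (Nat.Prime.coprime_iff_not_dvd hp).mp hc hd
          rw [if_pos hc, if_pos hp, if_pos hp, if_neg (fun h => this h.2)]
          simp
        · have hd : n ∣ q := by
            by_contra hd
            exact hc ((Nat.Prime.coprime_iff_not_dvd hp).mpr hd)
          have : 0 ≤ Real.log n := Real.log_natCast_nonneg n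
          rw [if_neg hc, if_pos hp, if_pos hp, if_pos ⟨hp, hd⟩,
            ArithmeticFunction.vonMangoldt_apply_prime hp, zero_sub, abs_neg, abs_of_nonneg this,
            zero_add]
      · have hf : ¬ (n.Prime ∧ n ∣ q) := fun h => hp h.1
        rw [if_neg hp, if_neg hp, if_neg hf, sub_zero, add_zero]
        split_ifs
        · exact (abs_of_nonneg this).le
        · rw [abs_zero]; exact this
    rw [e1]
    refine (Finset.abs_sum_le_sum_abs _ _).trans ((Finset.sum_le_sum e2).trans ?_)
    rw [Finset.sum_add_distrib]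
    have e3 : ∑ n ∈ Icc 1 u, (if n.Prime ∧ n ∣ q then Real.log n else 0) ≤ Real.log q := by
      rw [← Finset.sum_filter]
      calc ∑ n ∈ (Icc 1 u).filter (fun n => n.Prime ∧ n ∣ q), Real.log n
          ≤ ∑ n ∈ q.primeFactors, Real.log n := by
            apply Finset.sum_le_sum_of_subset_of_nonneg
            · intro n hn
              rw [mem_filter] at hn
              rw [Nat.mem_primeFactors]
              exact ⟨hn.2.1, hn.2.2, hqpos.ne'⟩
            · intro n _ _
              exact Real.log_natCast_nonneg n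
        _ = Real.log (∏ n ∈ q.primeFactors, (n : ℝ)) := by
            rw [Real.log_prod]
            intro n hn
            have := (Nat.prime_of_mem_primeFactors hn).pos
            positivity
        _ ≤ Real.log q := by
            apply Real.log_le_log
            · apply Finset.prod_pos
              intro n hn
              have := (Nat.prime_of_mem_primeFactors hn).pos
              positivity
            · have := Nat.le_of_dvd hqpos (Nat.prod_primeFactors_dvd q)
              have h2 : ((∏ p ∈ q.primeFactors, p : ℕ) : ℝ) ≤ q := Nat.cast_le.mpr this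
              push_cast at h2
              exact h2
    linarith
  have h4 : |P1 / q.totient - th u / q.totient| ≤ Df + Real.log q := by
    rw [← sub_div, abs_div, abs_of_pos hφ0]
    refine (div_le_self (abs_nonneg _) hφ).trans h3
  have hlq : 0 ≤ Real.log q := Real.log_natCast_nonneg q
  have hsq : 0 ≤ Real.sqrt u := Real.sqrt_nonneg _
  have hlu : 1 / 2 ≤ Real.log ((u : ℝ) + 2) := by
    have h1 : (1 / 2 : ℝ) ≤ Real.log 2 := by
      have := Real.log_two_gt_d9
      linarith
    refine h1.trans (Real.log_le_log (by norm_num) ?_)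
    have : (0 : ℝ) ≤ u := Nat.cast_nonneg u
    linarith
  have e : thAP u q a - th u / q.totient = (thAP u q a - Sa) + (Sa - P1 / q.totient) +
      (P1 / q.totient - th u / q.totient) := by ring
  rw [e]
  have e2 := abs_add_three (thAP u q a - Sa) (Sa - P1 / q.totient)
    (P1 / q.totient - th u / q.totient)
  have e3 : 2 * Df + Real.log q ≤ 4 * (Real.sqrt u + Real.log q + 1) * Real.log (u + 2) := by
    nlinarith [mul_nonneg hlq (by linarith : (0:ℝ) ≤ Real.log ((u : ℝ) + 2) - 1 / 2)]
  linarith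

theorem Emax_le : ∃ C : ℝ, 0 < C ∧ ∀ u q : ℕ, 1 ≤ q →
    Emax u q ≤ (1 / (q.totient : ℝ)) *
      ∑ χ ∈ (univ : Finset (DirichletCharacter ℂ q)).filter (fun χ => χ ≠ 1), ‖psiC χ u‖
      + C * (Real.sqrt u + Real.log q + 1) * Real.log (u + 2) := by
  refine ⟨4, by norm_num, ?_⟩
  intro u q hq
  have : NeZero q := ⟨by omega⟩
  apply BVDPNT_Emax_le_of
  · have h1 : 0 ≤ ∑ χ ∈ (univ : Finset (DirichletCharacter ℂ q)).filter (fun χ => χ ≠ 1),
        ‖psiC χ u‖ := Finset.sum_nonneg (fun χ _ => norm_nonneg _)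
    have h2 : 0 ≤ Real.log q := Real.log_natCast_nonneg q
    have h3 : 0 ≤ Real.log ((u : ℝ) + 2) := Real.log_nonneg (by
      have : (0 : ℝ) ≤ u := Nat.cast_nonneg u
      linarith)
    have h4 := Real.sqrt_nonneg (u : ℝ)
    positivity
  · intro a _ ha
    convert RED_main u q a ha

end Pool.Agent.BG
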