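import Pool.Agent.Lib_helper23.BGF.COND
import Pool.Agent.Lib_helper23.BGF.GOODSWN
import Pool.Agent.Lib_helper23.BGF.MVT
import Pool.Agent.Lib_helper23.BGF.RED
/-! Block BV: the Bombieri-Vinogradov theorem for infinitely many `N`. -/

set_option autoImplicit false

namespace Pool.Agent.BG

open Finset Filter Complex
open scoped ArithmeticFunction.vonMangoldt Classical

theorem BV_dyadic (f : ℕ → ℝ) (hf : ∀ n, 0 ≤ f n) (Bd : ℝ) (hBd : 0 ≤ Bd) (Q : ℕ) :
    ∀ J Y : ℕ, Q < 2 ^ J * Y → (∀ R, Y ≤ R → R ≤ Q → ∑ r ∈ Ioc R (2 * R), f r ≤ Bd) →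
      ∑ r ∈ Ioc Y Q, f r ≤ J * Bd := by
  intro J
  induction J with
  | zero =>
    intro Y hQ _
    rw [pow_zero, one_mul] at hQ
    rw [Finset.Ioc_eq_empty (by omega)]
    simp
  | succ J ih =>
    intro Y hQ h
    by_cases hY : Y ≤ Q
    · have h1 := h Y le_rfl hY
      have h2 := ih (2 * Y) (by rw [pow_succ] at hQ; rw [← mul_assoc]; exact hQ)
        (fun R hR hRQ => h R (by omega) hRQ)
      have h3 : ∑ r ∈ Ioc Y Q, f r ≤ ∑ r ∈ Ioc Y (2 * Y), f r + ∑ r ∈ Ioc (2 * Y) Q, f r := by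
        rw [← Finset.sum_union (Finset.disjoint_left.mpr (fun a ha hb => by
          rw [mem_Ioc] at ha hb; omega))]
        apply Finset.sum_le_sum_of_subset_of_nonneg
        · intro r hr
          rw [mem_Ioc] at hr
          rw [Finset.mem_union, mem_Ioc, mem_Ioc]
          omega
        · intro r _ _
          exact hf r
      push_cast
      linarith
    · rw [Finset.Ioc_eq_empty (by omega)]
      simp only [Finset.sum_empty]
      positivity

theorem BV_small (u Y : ℕ) (X : ℝ) (hX : 0 ≤ X)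
    (h : ∀ (r : ℕ) [NeZero r] (χ : DirichletCharacter ℂ r),
      χ.IsPrimitive → χ ≠ 1 → r ≤ Y → ‖psiC χ u‖ ≤ X) :
    ∑ r ∈ Ioc 1 Y, (1 / (r.totient : ℝ)) * ∑ χ ∈ Prm r, ‖psiC χ u‖ ≤ Y * X := by
  have h1 : ∀ r ∈ Ioc 1 Y, (1 / (r.totient : ℝ)) * ∑ χ ∈ Prm r, ‖psiC χ u‖ ≤ X := by
    intro r hr
    rw [mem_Ioc] at hr
    have : NeZero r := ⟨by omega⟩
    have hφ0 : (0 : ℝ) < r.totient := by
      exact_mod_cast Nat.totient_pos.mpr (by omega)
    have h2 : ∀ χ ∈ Prm r, ‖psiC χ u‖ ≤ X := by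
      intro χ hχ
      unfold Prm at hχ
      rw [mem_filter] at hχ
      apply h r χ hχ.2 _ hr.2
      intro h1
      have h3 := DirichletCharacter.eq_one_iff_conductor_eq_one.mp h1
      have h4 := hχ.2
      unfold DirichletCharacter.IsPrimitive at h4
      omega
    have h3 := Finset.sum_le_card_nsmul _ _ _ h2
    rw [nsmul_eq_mul] at h3
    have hcard : (Prm r).card ≤ r.totient := by
      unfold Prm
      refine (Finset.card_filter_le _ _).trans ?_
      rw [Finset.card_univ, ← Nat.card_eq_fintype_card,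
        DirichletCharacter.card_eq_totient_of_hasEnoughRootsOfUnity]
    have hcard' : ((Prm r).card : ℝ) ≤ r.totient := by exact_mod_cast hcard
    rw [one_div, inv_mul_le_iff₀ hφ0]
    exact h3.trans (mul_le_mul_of_nonneg_right hcard' hX)
  refine (Finset.sum_le_card_nsmul _ _ _ h1).trans ?_
  rw [nsmul_eq_mul, Nat.card_Ioc]
  apply mul_le_mul_of_nonneg_right _ hX
  exact_mod_cast Nat.sub_le Y 1

theorem BV (A : ℕ) : ∃ᶠ N : ℕ in atTop, ∀ u : ℕ, u ≤ 3 * N →
    ∑ q ∈ sqf ((N : ℝ) ^ (49 / 100 : ℝ)), Emax u q ≤ N / Real.log N ^ A := by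
  obtain ⟨C1, hC1, hE⟩ := Emax_le
  obtain ⟨C2, hC2, hG⟩ := cond_group
  obtain ⟨C3, hC3, K, hM⟩ := mvt
  set B := K + A + 4 with hB
  set A' := A + B + 3 with hA'
  have hSW := SW A' B
  have hlog : Tendsto (fun N : ℕ => Real.log N) atTop atTop :=
    Real.tendsto_log_atTop.comp tendsto_natCast_atTop_atTop
  have ev1 : ∀ᶠ N : ℕ in atTop, 3 ≤ N := eventually_ge_atTop 3
  have ev2 : ∀ᶠ N : ℕ in atTop, 2 * (4 * C2 + 24 * C2 * C3) ≤ Real.log N :=
    hlog.eventually_ge_atTop _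
  set C4 := 12 * C2 * C3 + 8 * C2 + 15 * C1 with hC4
  have hC4p : 0 < C4 := by positivity
  have ev3 : ∀ᶠ N : ℕ in atTop, C4 * Real.log N ^ (K + 3 + A) ≤
      (N : ℝ) ^ (1 / 1000 : ℝ) / 2 := by
    have h1 := isLittleO_log_rpow_rpow_atTop ((K + 3 + A : ℕ) : ℝ)
      (show (0 : ℝ) < 1 / 1000 by norm_num)
    have h2 := h1.bound (show (0 : ℝ) < 1 / (2 * C4) by positivity)
    have h3 := (tendsto_natCast_atTop_atTop (R := ℝ)).eventually h2
    filter_upwards [h3, ev1] with N hN hN3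
    have hN0 : (0 : ℝ) < N := by positivity
    have hl0 : 0 ≤ Real.log N := Real.log_natCast_nonneg N
    rw [Real.rpow_natCast, Real.norm_eq_abs, Real.norm_eq_abs, abs_of_nonneg (by positivity),
      abs_of_nonneg (by positivity)] at hN
    calc C4 * Real.log N ^ (K + 3 + A) ≤ C4 * (1 / (2 * C4) * (N : ℝ) ^ (1 / 1000 : ℝ)) :=
          mul_le_mul_of_nonneg_left hN hC4p.le
      _ = _ := by field_simp
  refine (hSW.and_eventually (ev1.and (ev2.and ev3))).mono ?_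
  rintro N ⟨hsw, hN3, hN2, hN4⟩ u hu
  have hN3' : (3 : ℝ) ≤ N := by exact_mod_cast hN3
  have hN0 : (0 : ℝ) < N := by linarith
  set l := Real.log N with hl
  have hl1 : 1 < l := by
    rw [hl, Real.lt_log_iff_exp_lt hN0]
    exact Real.exp_one_lt_three.trans_le hN3'
  have hu' : (u : ℝ) ≤ 3 * N := by exact_mod_cast hu
  have hu0 : (0 : ℝ) ≤ u := Nat.cast_nonneg u
  set Q := ⌊(N : ℝ) ^ (49 / 100 : ℝ)⌋₊ with hQ
  have hNp1 : 1 ≤ (N : ℝ) ^ (49 / 100 : ℝ) := Real.one_le_rpow (by linarith) (by norm_num)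
  have hQ1 : 1 ≤ Q := by
    rw [hQ, Nat.one_le_floor_iff]
    exact hNp1
  have hQle : (Q : ℝ) ≤ (N : ℝ) ^ (49 / 100 : ℝ) := Nat.floor_le (by positivity)
  have hQN : (Q : ℝ) ≤ N := by
    refine hQle.trans ?_
    have : (N : ℝ) ^ (49 / 100 : ℝ) ≤ (N : ℝ) ^ (1 : ℝ) :=
      Real.rpow_le_rpow_of_exponent_le (by linarith) (by norm_num)
    rwa [Real.rpow_one] at this
  have hlQ : Real.log Q ≤ l := Real.log_le_log (by exact_mod_cast hQ1) hQN
  have hlQ0 : 0 ≤ Real.log Q := Real.log_natCast_nonneg Q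
  have hcube : (3 : ℝ) * l = Real.log ((N : ℝ) ^ 3) := by
    rw [Real.log_pow, hl]; norm_num
  have hN33 : 3 * (N : ℝ) + 2 ≤ (N : ℝ) ^ 3 := by
    nlinarith [mul_nonneg (sub_nonneg.mpr hN3') (sub_nonneg.mpr hN3')]
  have hlu2 : Real.log ((u : ℝ) + 2) ≤ 3 * l := by
    rw [hcube]
    exact Real.log_le_log (by linarith) (by linarith)
  have hlu1 : Real.log ((u : ℝ) + 1) ≤ 3 * l := by
    rw [hcube]
    exact Real.log_le_log (by linarith) (by linarith)
  have hlu20 : 0 ≤ Real.log ((u : ℝ) + 2) := Real.log_nonneg (by linarith)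
  have hlu10 : 0 ≤ Real.log ((u : ℝ) + 1) := Real.log_nonneg (by linarith)
  -- step 1
  have hstep1 : ∑ q ∈ sqf ((N : ℝ) ^ (49 / 100 : ℝ)), Emax u q ≤
      (∑ q ∈ (Icc 1 Q).filter Squarefree, (1 / (q.totient : ℝ)) *
        ∑ χ ∈ (univ : Finset (DirichletCharacter ℂ q)).filter (fun χ => χ ≠ 1), ‖psiC χ u‖)
      + 15 * C1 * (N : ℝ) ^ (99 / 100 : ℝ) * l := by
    unfold sqf
    rw [← hQ]
    have h1 : ∀ q ∈ (Icc 1 Q).filter Squarefree, Emax u q ≤ (1 / (q.totient : ℝ)) *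
        ∑ χ ∈ (univ : Finset (DirichletCharacter ℂ q)).filter (fun χ => χ ≠ 1), ‖psiC χ u‖ +
        15 * C1 * Real.sqrt N * l := by
      intro q hq
      rw [mem_filter, mem_Icc] at hq
      refine (hE u q hq.1.1).trans ?_
      have h2 : Real.log q ≤ l := by
        refine (Real.log_le_log (by exact_mod_cast hq.1.1) ?_).trans hlQ
        exact_mod_cast hq.1.2
      have h3 : l ≤ 2 * Real.sqrt N := by
        have := Real.log_le_rpow_div hN0.le (show (0 : ℝ) < 1 / 2 by norm_num)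
        rw [← Real.sqrt_eq_rpow] at this
        linarith
      have h4 : Real.sqrt u ≤ 2 * Real.sqrt N := by
        rw [show (2 : ℝ) * Real.sqrt N = Real.sqrt (4 * N) by
          rw [Real.sqrt_mul (by norm_num), show (4 : ℝ) = 2 ^ 2 by norm_num,
            Real.sqrt_sq (by norm_num)]]
        exact Real.sqrt_le_sqrt (by linarith)
      have h5 : 1 ≤ Real.sqrt N := by
        rw [Real.one_le_sqrt]; linarith
      have h6 : C1 * (Real.sqrt u + Real.log q + 1) * Real.log (u + 2) ≤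
          C1 * (5 * Real.sqrt N) * (3 * l) := by
        apply mul_le_mul _ hlu2 hlu20 (by positivity)
        apply mul_le_mul_of_nonneg_left _ hC1.le
        linarith
      have h7 : C1 * (5 * Real.sqrt N) * (3 * l) = 15 * C1 * Real.sqrt N * l := by ring
      linarith
    refine (Finset.sum_le_sum h1).trans ?_
    rw [Finset.sum_add_distrib]
    apply add_le_add le_rfl
    rw [Finset.sum_const, nsmul_eq_mul]
    have hc : ((Icc 1 Q).filter Squarefree).card ≤ Q := by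
      refine (Finset.card_filter_le _ _).trans ?_
      rw [Nat.card_Icc]; omega
    have hc' : (((Icc 1 Q).filter Squarefree).card : ℝ) ≤ (N : ℝ) ^ (49 / 100 : ℝ) :=
      (Nat.cast_le.mpr hc).trans hQle
    calc (((Icc 1 Q).filter Squarefree).card : ℝ) * (15 * C1 * Real.sqrt N * l)
        ≤ (N : ℝ) ^ (49 / 100 : ℝ) * (15 * C1 * Real.sqrt N * l) :=
          mul_le_mul_of_nonneg_right hc' (by positivity)
      _ = 15 * C1 * ((N : ℝ) ^ (49 / 100 : ℝ) * (N : ℝ) ^ (1 / 2 : ℝ)) * l := by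
          rw [Real.sqrt_eq_rpow]; ring
      _ = _ := by
          rw [← Real.rpow_add hN0]; norm_num
  -- step 2
  have hstep2 := hG u Q hQ1
  set M := ∑ r ∈ (Ioc 1 Q).filter Squarefree, (1 / (r.totient : ℝ)) *
    ∑ χ ∈ Prm r, ‖psiC χ u‖ with hMdef
  -- step 3: bound M
  set Y := ⌊l ^ B⌋₊ with hY
  have hlB1 : 1 ≤ l ^ B := one_le_pow₀ hl1.le
  have hY1 : 1 ≤ Y := by
    rw [hY, Nat.one_le_floor_iff]; exact hlB1
  have hYle : (Y : ℝ) ≤ l ^ B := Nat.floor_le (by positivity)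
  have hYge : l ^ B / 2 ≤ (Y : ℝ) := by
    have h1 := Nat.lt_floor_add_one (l ^ B)
    rw [← hY] at h1
    have h2 : (1 : ℝ) ≤ Y := by exact_mod_cast hY1
    linarith
  have hfn : ∀ r : ℕ, 0 ≤ (1 / (r.totient : ℝ)) * ∑ χ ∈ Prm r, ‖psiC χ u‖ := by
    intro r
    have : 0 ≤ ∑ χ ∈ Prm r, ‖psiC χ u‖ := Finset.sum_nonneg (fun χ _ => norm_nonneg _)
    positivity
  have hM1 : ∑ r ∈ Ioc 1 Y, (1 / (r.totient : ℝ)) * ∑ χ ∈ Prm r, ‖psiC χ u‖ ≤
      Y * (N / l ^ A') := by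
    apply BV_small u Y _ (by positivity)
    intro r _ χ h1 h2 h3
    apply hsw r χ h1 h2 _ u hu
    have : (r : ℝ) ≤ Y := by exact_mod_cast h3
    exact this.trans hYle
  have hM2 : ∑ r ∈ Ioc Y Q, (1 / (r.totient : ℝ)) * ∑ χ ∈ Prm r, ‖psiC χ u‖ ≤
      (3 * l) * (C3 * l ^ K * (2 * N / l ^ B + (N : ℝ) ^ (999 / 1000 : ℝ))) := by
    have hJ : Q < 2 ^ (Nat.log 2 Q + 1) * Y := by
      have h1 := Nat.lt_pow_succ_log_self (b := 2) (by norm_num) Q
      calc Q < 2 ^ (Nat.log 2 Q + 1) := h1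
        _ = 2 ^ (Nat.log 2 Q + 1) * 1 := (mul_one _).symm
        _ ≤ _ := Nat.mul_le_mul_left _ hY1
    have hBd : 0 ≤ C3 * l ^ K * (2 * N / l ^ B + (N : ℝ) ^ (999 / 1000 : ℝ)) := by positivity
    have h1 := BV_dyadic (fun r => (1 / (r.totient : ℝ)) * ∑ χ ∈ Prm r, ‖psiC χ u‖) hfn _ hBd Q
      (Nat.log 2 Q + 1) Y hJ ?_
    · refine h1.trans ?_
      apply mul_le_mul_of_nonneg_right _ hBd
      have h2 : (Nat.log 2 Q : ℝ) * Real.log 2 ≤ l := by
        have h3 := Nat.pow_log_le_self 2 (show Q ≠ 0 by omega)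
        have h4 : ((2 : ℝ)) ^ (Nat.log 2 Q) ≤ Q := by exact_mod_cast h3
        have h5 := Real.log_le_log (by positivity) h4
        rw [Real.log_pow] at h5
        exact h5.trans hlQ
      have h3 := Real.log_two_gt_d9
      have h4 : (0 : ℝ) ≤ (Nat.log 2 Q : ℝ) := Nat.cast_nonneg _
      push_cast
      nlinarith
    · intro R hYR hRQ
      have hR1 : 1 ≤ R := hY1.trans hYR
      have hR0 : (0 : ℝ) < R := by exact_mod_cast hR1
      have hRle : (R : ℝ) ≤ (N : ℝ) ^ (49 / 100 : ℝ) := by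
        refine le_trans ?_ hQle
        exact_mod_cast hRQ
      refine (hM N hN3 u hu R hR1 hRle).trans ?_
      apply mul_le_mul_of_nonneg_left _ (by positivity)
      apply add_le_add _ le_rfl
      rw [div_le_div_iff₀ hR0 (by positivity)]
      have h2 : l ^ B / 2 ≤ R := hYge.trans (by exact_mod_cast hYR)
      calc (N : ℝ) * l ^ B = 2 * N * (l ^ B / 2) := by ring
        _ ≤ 2 * N * R := mul_le_mul_of_nonneg_left h2 (by positivity)
  have hMle : M ≤ l ^ B * (N / l ^ A') +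
      (3 * l) * (C3 * l ^ K * (2 * N / l ^ B + (N : ℝ) ^ (999 / 1000 : ℝ))) := by
    have h1 : M ≤ ∑ r ∈ Ioc 1 Y, (1 / (r.totient : ℝ)) * ∑ χ ∈ Prm r, ‖psiC χ u‖ +
        ∑ r ∈ Ioc Y Q, (1 / (r.totient : ℝ)) * ∑ χ ∈ Prm r, ‖psiC χ u‖ := by
      rw [hMdef, ← Finset.sum_union (Finset.disjoint_left.mpr (fun a ha hb => by
        rw [mem_Ioc] at ha hb; omega))]
      apply Finset.sum_le_sum_of_subset_of_nonneg
      · intro r hr
        rw [mem_filter, mem_Ioc] at hr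
        rw [Finset.mem_union, mem_Ioc, mem_Ioc]
        omega
      · intro r _ _
        exact hfn r
    have h2 : (Y : ℝ) * (N / l ^ A') ≤ l ^ B * (N / l ^ A') :=
      mul_le_mul_of_nonneg_right hYle (by positivity)
    linarith
  -- assemble
  have hM0 : 0 ≤ M := Finset.sum_nonneg (fun r _ => hfn r)
  have hsq : (1 + Real.log Q) ^ 2 ≤ (2 * l) ^ 2 :=
    pow_le_pow_left₀ (by positivity) (by linarith) 2
  have hmain : C2 * (1 + Real.log Q) ^ 2 * M ≤ C2 * (2 * l) ^ 2 * (l ^ B * (N / l ^ A') +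
      (3 * l) * (C3 * l ^ K * (2 * N / l ^ B + (N : ℝ) ^ (999 / 1000 : ℝ)))) := by
    apply mul_le_mul _ hMle hM0 (by positivity)
    exact mul_le_mul_of_nonneg_left hsq hC2.le
  have hsec : C2 * Q * (1 + Real.log Q) * (1 + Real.log (u + 1)) ≤
      C2 * (N : ℝ) ^ (49 / 100 : ℝ) * (2 * l) * (4 * l) := by
    apply mul_le_mul _ (by linarith) (by linarith) (by positivity)
    apply mul_le_mul _ (by linarith) (by linarith) (by positivity)
    exact mul_le_mul_of_nonneg_left hQle hC2.le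
  have hl0 : 0 < l := by linarith
  -- powers of N
  have hp1 : (N : ℝ) ^ (99 / 100 : ℝ) ≤ (N : ℝ) ^ (999 / 1000 : ℝ) :=
    Real.rpow_le_rpow_of_exponent_le (by linarith) (by norm_num)
  have hp2 : (N : ℝ) ^ (49 / 100 : ℝ) ≤ (N : ℝ) ^ (999 / 1000 : ℝ) :=
    Real.rpow_le_rpow_of_exponent_le (by linarith) (by norm_num)
  have hp3 : (N : ℝ) ^ (999 / 1000 : ℝ) * (N : ℝ) ^ (1 / 1000 : ℝ) = N := by
    rw [← Real.rpow_add hN0]; norm_num
  set P := (N : ℝ) ^ (999 / 1000 : ℝ) with hP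
  have hP0 : 0 < P := by positivity
  have hpow1 : l ^ B * (N / l ^ A') * (2 * l) ^ 2 = 4 * (N / l ^ (A + 1)) := by
    rw [hA']
    have : l ^ (A + B + 3) = l ^ (A + 1) * (l ^ B * l ^ 2) := by ring
    rw [this]
    field_simp
    ring
  have hpow2 : (3 * l) * (C3 * l ^ K * (2 * N / l ^ B)) * (2 * l) ^ 2 =
      24 * C3 * (N / l ^ (A + 1)) := by
    rw [hB]
    have : l ^ (K + A + 4) = l ^ (A + 1) * (l ^ K * l ^ 3) := by ring
    rw [this]
    field_simp
    ring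
  have hlK : l ^ 2 ≤ l ^ (K + 3) := pow_le_pow_right₀ hl1.le (by omega)
  have hlK1 : l ≤ l ^ (K + 3) := by
    calc l = l ^ 1 := (pow_one l).symm
      _ ≤ _ := pow_le_pow_right₀ hl1.le (by omega)
  have htot : ∑ q ∈ sqf ((N : ℝ) ^ (49 / 100 : ℝ)), Emax u q ≤
      (4 * C2 + 24 * C2 * C3) * (N / l ^ (A + 1)) + C4 * l ^ (K + 3) * P := by
    have e1 : C2 * (2 * l) ^ 2 * (l ^ B * (N / l ^ A') +
        (3 * l) * (C3 * l ^ K * (2 * N / l ^ B + P))) =
        (4 * C2 + 24 * C2 * C3) * (N / l ^ (A + 1)) + 12 * C2 * C3 * l ^ (K + 3) * P := by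
      calc _ = C2 * (l ^ B * (N / l ^ A') * (2 * l) ^ 2) +
            C2 * ((3 * l) * (C3 * l ^ K * (2 * N / l ^ B)) * (2 * l) ^ 2) +
            12 * C2 * C3 * l ^ (K + 3) * P := by ring
        _ = _ := by rw [hpow1, hpow2]; ring
    have e2 : C2 * (N : ℝ) ^ (49 / 100 : ℝ) * (2 * l) * (4 * l) ≤ 8 * C2 * l ^ (K + 3) * P := by
      calc _ = 8 * C2 * ((N : ℝ) ^ (49 / 100 : ℝ) * l ^ 2) := by ring
        _ ≤ 8 * C2 * (P * l ^ (K + 3)) := by
            apply mul_le_mul_of_nonneg_left _ (by positivity)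
            exact mul_le_mul hp2 hlK (by positivity) (by positivity)
        _ = _ := by ring
    have e3 : 15 * C1 * (N : ℝ) ^ (99 / 100 : ℝ) * l ≤ 15 * C1 * l ^ (K + 3) * P := by
      calc _ = 15 * C1 * ((N : ℝ) ^ (99 / 100 : ℝ) * l) := by ring
        _ ≤ 15 * C1 * (P * l ^ (K + 3)) := by
            apply mul_le_mul_of_nonneg_left _ (by positivity)
            exact mul_le_mul hp1 hlK1 (by positivity) (by positivity)
        _ = _ := by ring
    rw [hC4]
    linarith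
  refine htot.trans ?_
  have f1 : (4 * C2 + 24 * C2 * C3) * (N / l ^ (A + 1)) ≤ (N / l ^ A) / 2 := by
    have : (N : ℝ) / l ^ A = l * (N / l ^ (A + 1)) := by
      rw [pow_succ]; field_simp
    rw [this]
    have h0 : 0 ≤ (N : ℝ) / l ^ (A + 1) := by positivity
    nlinarith
  have f2 : C4 * l ^ (K + 3) * P ≤ (N / l ^ A) / 2 := by
    rw [div_div, le_div_iff₀ (by positivity)]
    calc C4 * l ^ (K + 3) * P * (l ^ A * 2) = 2 * P * (C4 * l ^ (K + 3 + A)) := by ring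
      _ ≤ 2 * P * ((N : ℝ) ^ (1 / 1000 : ℝ) / 2) :=
          mul_le_mul_of_nonneg_left hN4 (by positivity)
      _ = P * (N : ℝ) ^ (1 / 1000 : ℝ) := by ring
      _ = N := hp3
  linarith

end Pool.Agent.BG
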