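import Pool.Agent.Lib_helper23.BGF.Common
/-! Block ERRSIZE -/

set_option autoImplicit false

namespace Pool.Agent.BG

open Finset Filter
open scoped Classical

variable {M k : ℕ}

theorem size_sum (P : Fin M → ℕ) (hP : ∀ j, (P j).Prime) (hinj : Function.Injective P) (E : ℕ)
    (Z : ℝ) (hZ1 : 1 ≤ Z) :
    ∑ U ∈ (univ : Finset (Finset (Fin M))).filter (fun U => (pr P U : ℝ) ≤ Z),
      ∏ j ∈ U, ((E : ℝ) / P j) ≤ (1 + Real.log Z) ^ E :=
  ES_size P hP hinj E Z hZ1

theorem abs_sum (P : Fin M → ℕ) (hP : ∀ j, (P j).Prime) (hinj : Function.Injective P) (E : ℕ)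
    (B Z : ℝ) (hB : 0 ≤ B) (hZ1 : 1 ≤ Z) (c : Vec M k → ℝ)
    (hc : ∀ x, |c x| ≤ B * (E : ℝ) ^ sc x) (hZ : ∀ x, c x ≠ 0 → (dv P x : ℝ) ≤ Z) :
    ∑ x, |c x| ≤ B * Z * (1 + Real.log Z) ^ (k * E) := by
  have hP0 : ∀ j, (0 : ℝ) < P j := fun j => by exact_mod_cast (hP j).pos
  set G : Finset (Fin M) → ℝ := fun U => if (pr P U : ℝ) ≤ Z then B else 0 with hG
  have h1 : ∀ x : Vec M k, |c x| ≤ G (univ.filter (fun j => x j ≠ none)) *
      ∏ j, (fun (_ : Fin M) (t : Option (Fin k)) => if t = none then (1 : ℝ) else E) j (x j) := by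
    intro x
    have e1 := ES_dv P x
    have e2 := ES_sc x (E : ℝ)
    by_cases h0 : c x = 0
    · rw [h0, abs_zero]
      refine mul_nonneg (by simp only [hG]; split_ifs <;> simp [hB])
        (Finset.prod_nonneg (fun j _ => ?_))
      dsimp only
      split_ifs <;> positivity
    · have h2 := hZ x h0
      rw [e1] at h2
      simp only [hG]
      rw [if_pos h2]
      have h3 := hc x
      rw [e2] at h3
      exact h3
  refine (Finset.sum_le_sum (fun x _ => h1 x)).trans ?_
  refine (ES_fib (fun (_ : Fin M) (t : Option (Fin k)) => t ≠ none)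
    (fun x => univ.filter (fun j => x j ≠ none)) (fun z j => by simp)
    (fun (_ : Fin M) (t : Option (Fin k)) => if t = none then (1 : ℝ) else E)
    (fun j t => by split_ifs <;> positivity) G
    (fun U => by simp only [hG]; split_ifs <;> simp [hB]) (fun _ => ((k * E : ℕ) : ℝ))
    (fun _ => 1) (fun j => ?_) (fun j => ?_)).trans ?_
  · rw [Fintype.sum_option]
    simp
  · rw [Fintype.sum_option]
    simp
  have h4 : ∀ U : Finset (Fin M), G U * ((∏ j ∈ U, ((k * E : ℕ) : ℝ)) * ∏ j ∈ Uᶜ, (1 : ℝ)) ≤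
      if (pr P U : ℝ) ≤ Z then B * Z * ∏ j ∈ U, (((k * E : ℕ) : ℝ) / P j) else 0 := by
    intro U
    simp only [hG]
    by_cases hU : (pr P U : ℝ) ≤ Z
    · rw [if_pos hU, if_pos hU]
      rw [Finset.prod_const_one, mul_one, Finset.prod_div_distrib]
      have h5 : ∏ j ∈ U, (P j : ℝ) = pr P U := by unfold pr; push_cast; rfl
      rw [h5]
      have h6 : (0 : ℝ) < pr P U := by exact_mod_cast ES_pr_pos P hP U
      have h7 : 0 ≤ ∏ j ∈ U, (((k * E : ℕ) : ℝ)) := Finset.prod_nonneg (fun j _ => by positivity)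
      rw [mul_assoc]
      refine mul_le_mul_of_nonneg_left ?_ hB
      rw [mul_div_assoc', le_div_iff₀ h6, mul_comm Z]
      exact mul_le_mul_of_nonneg_left hU h7
    · rw [if_neg hU, if_neg hU, zero_mul]
  refine (Finset.sum_le_sum (fun U _ => h4 U)).trans ?_
  rw [← Finset.sum_filter, ← Finset.mul_sum]
  refine mul_le_mul_of_nonneg_left (ES_size P hP hinj (k * E) Z hZ1) (by positivity)

theorem ERRSIZE_dv2 (P : Fin M → ℕ) (x y : Vec M k) :
    dv2 P x y = pr P (univ.filter (fun j => ¬ (x j = none ∧ y j = none))) := by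
  unfold dv2 pr
  rw [Finset.prod_filter]
  refine Finset.prod_congr rfl (fun j _ => ?_)
  by_cases h : x j = none ∧ y j = none
  · rw [if_pos h, if_neg (not_not.mpr h)]
  · rw [if_neg h, if_pos h]

theorem ERRSIZE_dv2_le (P : Fin M → ℕ) (hP : ∀ j, (P j).Prime) (x y : Vec M k) :
    dv2 P x y ≤ dv P x * dv P y := by
  unfold dv2 dv
  rw [← Finset.prod_mul_distrib]
  refine Finset.prod_le_prod' (fun j _ => ?_)
  have := (hP j).pos
  by_cases h1 : x j = none <;> by_cases h2 : y j = none <;> simp [h1, h2] <;> nlinarith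

theorem ERRSIZE_pr_sqf (P : Fin M → ℕ) (hP : ∀ j, (P j).Prime) (hinj : Function.Injective P)
    (U : Finset (Fin M)) : Squarefree (pr P U) := by
  unfold pr
  refine (Finset.squarefree_prod_of_pairwise_isCoprime ?_ ?_)
  · intro i _ j _ hij
    rw [Function.onFun]
    exact Nat.coprime_iff_isRelPrime.mp ((Nat.coprime_primes (hP i) (hP j)).mpr (fun h => hij (hinj h)))
  · intro j _
    exact (hP j).prime.squarefree

theorem ERRSIZE_card_pr (P : Fin M → ℕ) (hP : ∀ j, (P j).Prime) (hinj : Function.Injective P)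
    (U : Finset (Fin M)) : (pr P U).primeFactors = U.image P := by
  ext p
  rw [Nat.mem_primeFactors, Finset.mem_image]
  constructor
  · rintro ⟨hp, hd, _⟩
    obtain ⟨i, hi, hd⟩ := (Prime.dvd_finsetProd_iff hp.prime P).mp hd
    exact ⟨i, hi, ((Nat.prime_dvd_prime_iff_eq hp (hP i)).mp hd).symm⟩
  · rintro ⟨i, hi, rfl⟩
    exact ⟨hP i, Finset.dvd_prod_of_mem P hi, (ES_pr_pos P hP U).ne'⟩

theorem err_sum (P : Fin M → ℕ) (hP : ∀ j, (P j).Prime) (hinj : Function.Injective P) (W : ℕ)
    (hW : Squarefree W) (hPW : ∀ j, Nat.Coprime (P j) W) (E : ℕ) (hE : 1 ≤ E)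
    (B Z : ℝ) (hB : 0 ≤ B) (hZ1 : 1 ≤ Z) (c : Vec M k → ℝ)
    (hc : ∀ x, |c x| ≤ B * (E : ℝ) ^ sc x) (hZ : ∀ x, c x ≠ 0 → (dv P x : ℝ) ≤ Z)
    (F : ℕ → ℝ) (hF : ∀ q, 0 ≤ F q) :
    ∑ x, ∑ y, |c x| * |c y| * F (W * dv2 P x y) ≤
      B ^ 2 * ∑ q ∈ sqf (W * Z ^ 2),
        ((((k + 1) ^ 2 * E ^ 2 : ℕ) : ℝ)) ^ q.primeFactors.card * F q := by
  have hP0 : ∀ j, (0 : ℝ) < P j := fun j => by exact_mod_cast (hP j).pos
  have hW0 : 0 < W := Nat.pos_of_ne_zero hW.ne_zero
  set C : ℝ := (((k + 1) ^ 2 * E ^ 2 : ℕ) : ℝ) with hC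
  have hC1 : 1 ≤ C := by
    rw [hC]
    have : 1 ≤ (k + 1) ^ 2 * E ^ 2 := Nat.one_le_iff_ne_zero.mpr (by positivity)
    exact_mod_cast this
  -- one function into pairs
  set p : Fin M → Option (Fin k) × Option (Fin k) → Prop :=
    fun _ t => ¬ (t.1 = none ∧ t.2 = none) with hp
  set w : Fin M → Option (Fin k) × Option (Fin k) → ℝ :=
    fun _ t => (if t.1 = none then (1 : ℝ) else E) * (if t.2 = none then (1 : ℝ) else E) with hw
  set G : Finset (Fin M) → ℝ := fun U => if (pr P U : ℝ) ≤ Z ^ 2 then B ^ 2 * F (W * pr P U) else 0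
    with hG
  have h1 : ∀ x y : Vec M k, |c x| * |c y| * F (W * dv2 P x y) ≤
      G (univ.filter (fun j => p j (x j, y j))) * ∏ j, w j (x j, y j) := by
    intro x y
    have e0 : dv2 P x y = pr P (univ.filter (fun j => p j (x j, y j))) := ERRSIZE_dv2 P x y
    have e2 : ∏ j, w j (x j, y j) = (E : ℝ) ^ sc x * (E : ℝ) ^ sc y := by
      rw [ES_sc, ES_sc, ← Finset.prod_mul_distrib]
    have hw0 : 0 ≤ ∏ j, w j (x j, y j) := by rw [e2]; positivity
    by_cases h0 : c x = 0 ∨ c y = 0
    · have : |c x| * |c y| * F (W * dv2 P x y) = 0 := by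
        rcases h0 with h0 | h0 <;> simp [h0]
      rw [this]
      refine mul_nonneg ?_ hw0
      simp only [hG]
      split_ifs
      · exact mul_nonneg (by positivity) (hF _)
      · exact le_rfl
    · push Not at h0
      have h2 := hZ x h0.1
      have h3 := hZ y h0.2
      have h4 : (dv2 P x y : ℝ) ≤ Z ^ 2 := by
        have : (dv2 P x y : ℝ) ≤ (dv P x : ℝ) * dv P y := by
          exact_mod_cast ERRSIZE_dv2_le P hP x y
        refine this.trans ?_
        rw [sq]
        exact mul_le_mul h2 h3 (Nat.cast_nonneg _) (by linarith)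
      rw [e0] at h4 ⊢
      simp only [hG]
      rw [if_pos h4, e2]
      have h5 : |c x| * |c y| ≤ (B * (E : ℝ) ^ sc x) * (B * (E : ℝ) ^ sc y) :=
        mul_le_mul (hc x) (hc y) (abs_nonneg _) (by positivity)
      calc |c x| * |c y| * F (W * pr P (univ.filter (fun j => p j (x j, y j))))
          ≤ (B * (E : ℝ) ^ sc x) * (B * (E : ℝ) ^ sc y) *
            F (W * pr P (univ.filter (fun j => p j (x j, y j)))) :=
            mul_le_mul_of_nonneg_right h5 (hF _)
        _ = _ := by ring
  have h2 : ∑ x : Vec M k, ∑ y : Vec M k, |c x| * |c y| * F (W * dv2 P x y) ≤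
      ∑ z : Fin M → Option (Fin k) × Option (Fin k),
        G (univ.filter (fun j => p j (z j))) * ∏ j, w j (z j) := by
    rw [← Finset.sum_product']
    refine ES_inj _ _ (fun xy => fun j => (xy.1 j, xy.2 j)) (fun _ _ => Finset.mem_univ _) ?_
      _ _ ?_ ?_
    · rintro ⟨x, y⟩ _ ⟨x', y'⟩ _ h
      simp only [Prod.mk.injEq]
      constructor
      · funext j
        exact congrArg Prod.fst (congrFun h j)
      · funext j
        exact congrArg Prod.snd (congrFun h j)
    · rintro ⟨x, y⟩ _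
      exact h1 x y
    · intro z _
      refine mul_nonneg ?_ (Finset.prod_nonneg (fun j _ => ?_))
      · simp only [hG]
        split_ifs
        · exact mul_nonneg (by positivity) (hF _)
        · exact le_rfl
      · simp only [hw]
        split_ifs <;> positivity
  refine h2.trans ?_
  refine (ES_fib p (fun z => univ.filter (fun j => p j (z j))) (fun z j => by simp) w
    (fun j t => by simp only [hw]; split_ifs <;> positivity) G
    (fun U => by
      simp only [hG]
      split_ifs
      · exact mul_nonneg (by positivity) (hF _)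
      · exact le_rfl) (fun _ => C) (fun _ => 1) (fun j => ?_) (fun j => ?_)).trans ?_
  · refine (Finset.sum_le_sum (g := fun t => w j t) (fun t _ => ?_)).trans ?_
    · split_ifs
      · exact le_rfl
      · show 0 ≤ w j t
        simp only [hw]
        split_ifs <;> positivity
    rw [← Finset.univ_product_univ, Finset.sum_product]
    have h4 : ∑ t : Option (Fin k), (if t = none then (1 : ℝ) else E) = 1 + k * E := by
      rw [Fintype.sum_option]
      simp
    have h5 : ∀ x : Option (Fin k), ∑ y : Option (Fin k), w j (x, y) =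
        (if x = none then (1 : ℝ) else E) * (1 + k * E) := by
      intro x
      rw [← h4, Finset.mul_sum]
    rw [Finset.sum_congr rfl (fun x _ => h5 x), ← Finset.sum_mul, h4]
    rw [hC]
    push_cast
    have hE' : (1 : ℝ) ≤ E := by exact_mod_cast hE
    have h5 : 1 + (k : ℝ) * E ≤ (k + 1) * E := by nlinarith
    have h6 : 0 ≤ 1 + (k : ℝ) * E := by positivity
    calc (1 + (k : ℝ) * E) * (1 + k * E) ≤ ((k + 1) * E) * ((k + 1) * E) :=
          mul_le_mul h5 h5 h6 (by positivity)
      _ = _ := by ring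
  · rw [Finset.sum_eq_single (none, none)]
    · simp [hp, hw]
    · rintro ⟨t1, t2⟩ _ hne
      have hpt : p j (t1, t2) := by
        rintro ⟨h1, h2⟩
        exact hne (Prod.ext h1 h2)
      rw [if_pos hpt]
    · intro h
      exact absurd (Finset.mem_univ _) h
  have h3 : ∀ U : Finset (Fin M), G U * ((∏ j ∈ U, C) * ∏ j ∈ Uᶜ, (1 : ℝ)) ≤
      if (pr P U : ℝ) ≤ Z ^ 2 then B ^ 2 * (C ^ U.card * F (W * pr P U)) else 0 := by
    intro U
    simp only [hG]
    rw [Finset.prod_const_one, mul_one, Finset.prod_const]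
    by_cases hU : (pr P U : ℝ) ≤ Z ^ 2
    · rw [if_pos hU, if_pos hU]
      apply le_of_eq
      ring
    · rw [if_neg hU, if_neg hU, zero_mul]
  refine (Finset.sum_le_sum (fun U _ => h3 U)).trans ?_
  rw [← Finset.sum_filter, ← Finset.mul_sum]
  refine mul_le_mul_of_nonneg_left ?_ (by positivity)
  have hcop : ∀ U : Finset (Fin M), Nat.Coprime W (pr P U) := by
    intro U
    unfold pr
    exact Nat.Coprime.prod_right (fun j _ => (hPW j).symm)
  refine ES_inj _ _ (fun U => W * pr P U) ?_ ?_ _ _ ?_ ?_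
  · intro U hU
    have hU' : (pr P U : ℝ) ≤ Z ^ 2 := (Finset.mem_filter.mp hU).2
    unfold sqf
    rw [Finset.mem_filter, Finset.mem_Icc]
    refine ⟨⟨Nat.one_le_iff_ne_zero.mpr (Nat.mul_ne_zero hW0.ne' (ES_pr_pos P hP U).ne'), ?_⟩, ?_⟩
    · apply Nat.le_floor
      push_cast
      exact mul_le_mul_of_nonneg_left hU' (Nat.cast_nonneg _)
    · exact (Nat.squarefree_mul (hcop U)).mpr ⟨hW, ERRSIZE_pr_sqf P hP hinj U⟩
  · intro U _ V _ h
    exact ES_pr_inj P hP hinj (Nat.eq_of_mul_eq_mul_left hW0 h)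
  · intro U _
    refine mul_le_mul_of_nonneg_right ?_ (hF _)
    refine pow_le_pow_right₀ hC1 ?_
    have h4 : U.card = (pr P U).primeFactors.card := by
      rw [ERRSIZE_card_pr P hP hinj U, Finset.card_image_of_injective U hinj]
    rw [h4]
    exact Finset.card_le_card (Nat.primeFactors_mono (dvd_mul_left _ _)
      (Nat.mul_ne_zero hW0.ne' (ES_pr_pos P hP U).ne'))
  · intro q _
    exact mul_nonneg (by positivity) (hF _)

theorem ERRSIZE_al (p : ℕ) (hp : p.Prime) : 0 ≤ 1 / ((p : ℝ) - 1) ∧ 1 / ((p : ℝ) - 1) ≤ 1 ∧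
    1 / ((p : ℝ) - 1) ≤ 2 / p ∧ (1 + 1 / ((p : ℝ) - 1)) * (1 / p) = 1 / ((p : ℝ) - 1) := by
  have hp2 : (2 : ℝ) ≤ p := by exact_mod_cast hp.two_le
  have h1 : (0 : ℝ) < p - 1 := by linarith
  refine ⟨by positivity, ?_, ?_, ?_⟩
  · rw [div_le_one h1]; linarith
  · rw [div_le_div_iff₀ h1 (by linarith)]; linarith
  · field_simp
    ring

theorem cv_size (P : Fin M → ℕ) (hP : ∀ j, (P j).Prime) (hinj : Function.Injective P)
    (g : ℕ → ℝ)
    (hg0 : ∀ a, 0 ≤ g a) (hg1 : ∀ a, g a ≤ 1) (Z : ℝ) (hZ1 : 1 ≤ Z) :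
    (∀ x : Vec M k, |cv P g Z x| ≤ (1 + Real.log Z) ^ (2 * k) * (2 : ℝ) ^ sc x) ∧
      ∀ x : Vec M k, cv P g Z x ≠ 0 → (dv P x : ℝ) ≤ Z := by
  have hP0 : ∀ j, (0 : ℝ) < P j := fun j => by exact_mod_cast (hP j).pos
  have hlog : 0 ≤ Real.log Z := Real.log_nonneg hZ1
  constructor
  · intro x
    set w : Fin M → Option (Fin k) → ℝ := fun j t =>
      (if t = none then (1 : ℝ) else (1 + al P j)) * |Al (-(1 / (P j : ℝ))) (x j) t| with hw
    have hal0 : ∀ j, 0 ≤ al P j := fun j => (ERRSIZE_al (P j) (hP j)).1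
    have hw0 : ∀ j t, 0 ≤ w j t := by
      intro j t
      simp only [hw]
      refine mul_nonneg ?_ (abs_nonneg _)
      split_ifs
      · exact zero_le_one
      · linarith [hal0 j]
    set G : Finset (Fin M) → ℝ := fun U => if (pr P U : ℝ) ≤ Z then 1 else 0 with hG
    have hG0 : ∀ U, 0 ≤ G U := by
      intro U
      simp only [hG]
      split_ifs <;> norm_num
    have h1 : ∀ s : Vec M k, |yv P g Z s * ∏ j, Al (-(1 / (P j : ℝ))) (x j) (s j)| ≤
        G (univ.filter (fun j => x j = none ∧ s j ≠ none)) * ∏ j, w j (s j) := by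
      intro s
      rw [abs_mul, Finset.abs_prod]
      have e1 : |yv P g Z s| ≤ (if (dv P s : ℝ) ≤ Z then 1 else 0) *
          ∏ j, (if s j = none then (1 : ℝ) else (1 + al P j)) := by
        unfold yv
        rw [abs_mul, Finset.abs_prod]
        refine mul_le_mul ?_ ?_ (Finset.prod_nonneg (fun _ _ => abs_nonneg _)) ?_
        · unfold Yv
          split_ifs
          · rw [Finset.abs_prod]
            refine Finset.prod_le_one (fun i _ => abs_nonneg _) (fun i _ => ?_)
            rw [abs_of_nonneg (hg0 _)]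
            exact hg1 _
          · simp
        · refine Finset.prod_le_prod (fun _ _ => abs_nonneg _) (fun j _ => ?_)
          split_ifs
          · simp
          · rw [abs_neg, abs_of_nonneg (by linarith [hal0 j])]
        · split_ifs <;> norm_num
      have e2 : (if (dv P s : ℝ) ≤ Z then (1 : ℝ) else 0) ≤
          G (univ.filter (fun j => x j = none ∧ s j ≠ none)) := by
        simp only [hG]
        by_cases h : (dv P s : ℝ) ≤ Z
        · rw [if_pos h, if_pos]
          rw [ES_dv] at h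
          refine le_trans (Nat.cast_le.mpr (ES_pr_mono P (fun j => (hP j).pos) ?_)) h
          intro j hj
          simp only [Finset.mem_filter, Finset.mem_univ, true_and] at hj ⊢
          exact hj.2
        · rw [if_neg h]
          split_ifs <;> norm_num
      calc |yv P g Z s| * ∏ j, |Al (-(1 / (P j : ℝ))) (x j) (s j)|
          ≤ ((if (dv P s : ℝ) ≤ Z then 1 else 0) *
          ∏ j, (if s j = none then (1 : ℝ) else (1 + al P j))) *
            ∏ j, |Al (-(1 / (P j : ℝ))) (x j) (s j)| :=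
            mul_le_mul_of_nonneg_right e1 (Finset.prod_nonneg (fun _ _ => abs_nonneg _))
        _ = (if (dv P s : ℝ) ≤ Z then 1 else 0) * ∏ j, w j (s j) := by
            rw [mul_assoc, ← Finset.prod_mul_distrib]
        _ ≤ _ := mul_le_mul_of_nonneg_right e2 (Finset.prod_nonneg (fun j _ => hw0 j _))
    have h2 : |cv P g Z x| ≤ ∑ s : Vec M k,
        G (univ.filter (fun j => x j = none ∧ s j ≠ none)) * ∏ j, w j (s j) := by
      unfold cv itr
      exact (Finset.abs_sum_le_sum_abs _ _).trans (Finset.sum_le_sum (fun s _ => h1 s))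
    refine h2.trans ?_
    refine (ES_fib (fun j t => x j = none ∧ t ≠ none)
      (fun s => univ.filter (fun j => x j = none ∧ s j ≠ none)) (fun z j => by simp) w hw0 G hG0
      (fun j => ((2 * k : ℕ) : ℝ) / P j) (fun j => if x j = none then 1 else 2)
      (fun j => ?_) (fun j => ?_)).trans ?_
    · obtain ⟨a1, a2, a3, a4⟩ := ERRSIZE_al (P j) (hP j)
      rw [Fintype.sum_option]
      rcases hx : x j with _ | i
      · simp [hw, hx, Al, al]
        rw [one_div, one_div] at a4
        rw [a4]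
        rw [one_div] at a3
        calc (k : ℝ) * ((P j : ℝ) - 1)⁻¹ ≤ k * (2 / P j) :=
              mul_le_mul_of_nonneg_left a3 (Nat.cast_nonneg _)
          _ = _ := by ring
      · simp
        positivity
    · obtain ⟨a1, a2, a3, a4⟩ := ERRSIZE_al (P j) (hP j)
      rw [Fintype.sum_option]
      rcases hx : x j with _ | i
      · simp [hw, hx, Al]
      · have h5 : ∀ l : Fin k, w j (some l) = if i = l then 1 + al P j else 0 := by
          intro l
          by_cases h : i = l <;> simp [hw, hx, Al, h]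
        simp [hx, h5]
        simp [hw, hx, Al]
        unfold al
        linarith
    · have h3 : ∀ U : Finset (Fin M), G U * ((∏ j ∈ U, ((2 * k : ℕ) : ℝ) / P j) *
          ∏ j ∈ Uᶜ, (if x j = none then (1 : ℝ) else 2)) ≤
          (if (pr P U : ℝ) ≤ Z then (2 : ℝ) ^ sc x * ∏ j ∈ U, ((2 * k : ℕ) : ℝ) / P j else 0) := by
        intro U
        simp only [hG]
        split_ifs with h
        · rw [one_mul, mul_comm]
          refine mul_le_mul_of_nonneg_right ?_ (Finset.prod_nonneg (fun j _ => by positivity))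
          rw [ES_sc]
          have : ∏ j, (if x j = none then (1 : ℝ) else 2) =
              (∏ j ∈ Uᶜ, (if x j = none then (1 : ℝ) else 2)) *
                ∏ j ∈ U, (if x j = none then (1 : ℝ) else 2) := by
            rw [mul_comm, Finset.prod_mul_prod_compl]
          rw [this]
          have h6 : 1 ≤ ∏ j ∈ U, (if x j = none then (1 : ℝ) else 2) := by
            refine Finset.one_le_prod (fun j _ => ?_)
            split_ifs <;> norm_num
          have h7 : 0 ≤ ∏ j ∈ Uᶜ, (if x j = none then (1 : ℝ) else 2) := by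
            refine Finset.prod_nonneg (fun j _ => ?_)
            split_ifs <;> norm_num
          nlinarith
        · rw [zero_mul]
      refine (Finset.sum_le_sum (fun U _ => h3 U)).trans ?_
      rw [← Finset.sum_filter, ← Finset.mul_sum, mul_comm]
      exact mul_le_mul_of_nonneg_right (ES_size P hP hinj (2 * k) Z hZ1) (by positivity)
  · intro x hx
    unfold cv itr at hx
    obtain ⟨s, _, hs⟩ := Finset.exists_ne_zero_of_sum_ne_zero hx
    have h1 : yv P g Z s ≠ 0 := left_ne_zero_of_mul hs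
    have h2 : ∏ j, Al (-(1 / (P j : ℝ))) (x j) (s j) ≠ 0 := right_ne_zero_of_mul hs
    have h3 : (dv P s : ℝ) ≤ Z := by
      by_contra h
      apply h1
      unfold yv Yv
      rw [if_neg h, zero_mul]
    refine le_trans (Nat.cast_le.mpr ?_) h3
    rw [ES_dv, ES_dv]
    refine ES_pr_mono P (fun j => (hP j).pos) ?_
    intro j hj
    simp only [Finset.mem_filter, Finset.mem_univ, true_and] at hj ⊢
    intro hsj
    have h4 := Finset.prod_ne_zero_iff.mp h2 j (Finset.mem_univ j)
    rw [hsj] at h4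
    rcases hx : x j with _ | i
    · exact hj hx
    · rw [hx] at h4
      exact h4 rfl

end Pool.Agent.BG
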