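import Pool.Agent.Lib_helper23.BGF.D2
set_option autoImplicit false

namespace Pool.Agent.BG

open Finset Filter
open scoped Classical

variable {M k : ℕ}

theorem MUP_al_nonneg (P : Fin M → ℕ) (hP : ∀ j, (P j).Prime) (j : Fin M) : 0 ≤ al P j := by
  have h : (2 : ℝ) ≤ P j := by exact_mod_cast (hP j).two_le
  exact div_nonneg zero_le_one (by linarith)

theorem MUP_pr_pos (P : Fin M → ℕ) (hP : ∀ j, (P j).Prime) (U : Finset (Fin M)) :
    1 ≤ pr P U := Nat.one_le_iff_ne_zero.2 (prod_ne_zero_iff.2 fun j _ => (hP j).ne_zero)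

theorem MUP_di_pos (P : Fin M → ℕ) (hP : ∀ j, (P j).Prime) (r : Vec M k) (i : Fin k) :
    1 ≤ di P r i := by
  refine Nat.one_le_iff_ne_zero.2 (prod_ne_zero_iff.2 fun j _ => ?_)
  split_ifs
  · exact (hP j).ne_zero
  · exact one_ne_zero

/-- the indices added for the form `i` -/
noncomputable def MUP_U (r s : Vec M k) (i : Fin k) : Finset (Fin M) :=
  univ.filter (fun j => r j = none ∧ s j = some i)

/-- `s` extends `r` -/
def MUP_Ext (r s : Vec M k) : Prop := ∀ j i, r j = some i → s j = some i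

/-- the local weights -/
noncomputable def MUP_b (P : Fin M → ℕ) (F : Finset (Fin k)) (i : Fin k) (j : Fin M) : ℝ :=
  if i ∈ F then al P j else al P j ^ 2

/-- the weights of a set -/
noncomputable def MUP_a (P : Fin M → ℕ) (g : ℕ → ℝ) (F : Finset (Fin k)) (i : Fin k)
    (U : Finset (Fin M)) : ℝ :=
  (if i ∈ F then g (pr P U) else 1) * ∏ j ∈ U, MUP_b P F i j

theorem MUP_prodTl_ext (P : Fin M → ℕ) (hP : ∀ j, (P j).Prime) (F : Finset (Fin k))
    (r s : Vec M k) (h : MUP_Ext r s) :
    |∏ j, Tl F (al P j) (r j) (s j)| = ∏ i, ∏ j ∈ MUP_U r s i, MUP_b P F i j := by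
  have e : ∀ i : Fin k, ∏ j ∈ MUP_U r s i, MUP_b P F i j =
      ∏ j, if (r j = none ∧ s j = some i) then MUP_b P F i j else 1 := by
    intro i
    rw [MUP_U, prod_filter]
  simp only [e]
  rw [Finset.prod_comm, Finset.abs_prod]
  refine prod_congr rfl fun j _ => ?_
  rcases hr : r j with _ | a
  · rcases hs : s j with _ | b
    · simp [Tl]
    · rw [prod_eq_single b]
      · simp only [Tl, MUP_b, and_self, if_true]
        have hα := MUP_al_nonneg P hP j
        by_cases hb : b ∈ F
        · simp [hb, abs_of_nonneg hα]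
        · simp [hb, abs_of_nonneg hα]
      · intro i _ hi
        have : ¬ (b = i) := fun h => hi h.symm
        simp [this]
      · simp
  · have hs : s j = some a := h j a hr
    simp [hs, Tl]

theorem MUP_prodTl_not (P : Fin M → ℕ) (F : Finset (Fin k)) (r s : Vec M k)
    (h : ¬ MUP_Ext r s) : ∏ j, Tl F (al P j) (r j) (s j) = 0 := by
  simp only [MUP_Ext, not_forall] at h
  obtain ⟨j, i, hr, hs⟩ := h
  refine prod_eq_zero (mem_univ j) ?_
  rw [hr]
  rcases hs' : s j with _ | b
  · rfl
  · have : ¬ (i = b) := fun h => hs (by rw [hs', h])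
    simp [Tl, this]

theorem MUP_di (P : Fin M → ℕ) (r s : Vec M k) (h : MUP_Ext r s) (i : Fin k) :
    di P s i = di P r i * pr P (MUP_U r s i) := by
  simp only [di, pr, MUP_U, prod_filter]
  rw [← prod_mul_distrib]
  refine prod_congr rfl fun j _ => ?_
  rcases hr : r j with _ | a
  · simp
  · have hs := h j a hr
    simp [hs]

theorem MUP_inj (r s s' : Vec M k) (h : MUP_Ext r s) (h' : MUP_Ext r s')
    (e : MUP_U r s = MUP_U r s') : s = s' := by
  funext j
  rcases hr : r j with _ | a
  · have key : ∀ i, s j = some i ↔ s' j = some i := by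
      intro i
      have := congrArg (fun f => j ∈ f i) e
      simpa [MUP_U, hr] using this
    rcases hs : s j with _ | b
    · rcases hs' : s' j with _ | b'
      · rfl
      · have := (key b').2 hs'
        rw [hs] at this
        cases this
    · exact ((key b).1 hs).symm
  · rw [h j a hr, h' j a hr]

theorem MUP_b_nonneg (P : Fin M → ℕ) (hP : ∀ j, (P j).Prime) (F : Finset (Fin k)) (i : Fin k)
    (j : Fin M) : 0 ≤ MUP_b P F i j := by
  have := MUP_al_nonneg P hP j
  unfold MUP_b
  split_ifs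
  · exact this
  · positivity

theorem MUP_a_nonneg (P : Fin M → ℕ) (hP : ∀ j, (P j).Prime) (g : ℕ → ℝ) (hg : GHyp g)
    (F : Finset (Fin k)) (i : Fin k) (U : Finset (Fin M)) : 0 ≤ MUP_a P g F i U := by
  refine mul_nonneg ?_ (prod_nonneg fun j _ => MUP_b_nonneg P hP F i j)
  split_ifs
  · exact hg.1 _
  · exact zero_le_one

/-- sum over all families of sets -/
theorem MUP_sum_all (P : Fin M → ℕ) (g : ℕ → ℝ) (F : Finset (Fin k)) :
    ∑ U : Fin k → Finset (Fin M), ∏ i, MUP_a P g F i (U i) =
      Gsum P g ^ F.card * (∏ j, (1 + al P j ^ 2)) ^ Fᶜ.card := by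
  have h1 : ∑ U : Fin k → Finset (Fin M), ∏ i, MUP_a P g F i (U i) =
      ∏ i : Fin k, ∑ U : Finset (Fin M), MUP_a P g F i U := by
    rw [Finset.prod_univ_sum]
    simp
  rw [h1, ← Finset.prod_mul_prod_compl F]
  congr 1
  · rw [← prod_const]
    refine prod_congr rfl fun i hi => ?_
    simp only [MUP_a, MUP_b, hi, if_true, Gsum]
  · rw [← prod_const]
    refine prod_congr rfl fun i hi => ?_
    have hi' : i ∉ F := by simpa using hi
    simp only [MUP_a, MUP_b, hi', if_false, one_mul]
    rw [Finset.prod_one_add, powerset_univ]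

theorem MUP_Gsum_nonneg (P : Fin M → ℕ) (hP : ∀ j, (P j).Prime) (f : ℕ → ℝ) (hf : ∀ a, 0 ≤ f a) :
    0 ≤ Gsum P f :=
  sum_nonneg fun U _ => mul_nonneg (hf _) (prod_nonneg fun j _ => MUP_al_nonneg P hP j)

theorem MUP_E_le (P : Fin M → ℕ) (n : ℕ) (hn : n ≤ k) :
    (∏ j, (1 + al P j ^ 2)) ^ n ≤ Real.exp (k * Sg2 P) := by
  have hS : 0 ≤ Sg2 P := sum_nonneg fun j _ => sq_nonneg _
  have h1 : ∏ j, (1 + al P j ^ 2) ≤ Real.exp (Sg2 P) := by
    rw [Sg2, Real.exp_sum]
    refine prod_le_prod (fun j _ => by positivity) fun j _ => ?_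
    have := Real.add_one_le_exp (al P j ^ 2)
    linarith
  have h0 : 0 ≤ ∏ j, (1 + al P j ^ 2) := prod_nonneg fun j _ => by positivity
  calc (∏ j, (1 + al P j ^ 2)) ^ n ≤ (Real.exp (Sg2 P)) ^ n := pow_le_pow_left₀ h0 h1 n
    _ = Real.exp (n * Sg2 P) := by rw [← Real.exp_nat_mul]
    _ ≤ Real.exp (k * Sg2 P) := Real.exp_le_exp.2
        (mul_le_mul_of_nonneg_right (by exact_mod_cast hn) hS)

theorem MUP_prod_g (P : Fin M → ℕ) (hP : ∀ j, (P j).Prime) (g : ℕ → ℝ) (hg : GHyp g)
    (F : Finset (Fin k)) (r s : Vec M k) (hr : Avoid F r) (h : MUP_Ext r s) :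
    ∏ i, g (di P s i) ≤ (∏ i ∈ Fᶜ, g (di P r i)) * ∏ i ∈ F, g (pr P (MUP_U r s i)) := by
  obtain ⟨g0, g1, gone, gm⟩ := hg
  rw [← Finset.prod_mul_prod_compl F, mul_comm]
  refine mul_le_mul ?_ ?_ (prod_nonneg fun i _ => g0 _) (prod_nonneg fun i _ => g0 _)
  · refine prod_le_prod (fun i _ => g0 _) fun i _ => ?_
    rw [MUP_di P r s h]
    exact gm _ _ (MUP_di_pos P hP r i) (MUP_pr_pos P hP _)
  · refine prod_le_prod (fun i _ => g0 _) fun i hi => ?_
    rw [MUP_di P r s h]
    have : di P r i = 1 := by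
      refine prod_eq_one fun j _ => ?_
      rw [if_neg (hr j i hi)]
    rw [this, one_mul]

theorem MUP_term (P : Fin M → ℕ) (hP : ∀ j, (P j).Prime) (g : ℕ → ℝ) (hg : GHyp g) (Z : ℝ)
    (F : Finset (Fin k)) (r s : Vec M k) (hr : Avoid F r) (h : MUP_Ext r s) :
    |Yv P g Z s * ∏ j, Tl F (al P j) (r j) (s j)| ≤
      (∏ i ∈ Fᶜ, g (di P r i)) * ∏ i, MUP_a P g F i (MUP_U r s i) := by
  have hg' := hg
  obtain ⟨g0, g1, gone, gm⟩ := hg
  rw [abs_mul, MUP_prodTl_ext P hP F r s h]
  have e : ∏ i, MUP_a P g F i (MUP_U r s i) =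
      (∏ i ∈ F, g (pr P (MUP_U r s i))) * ∏ i, ∏ j ∈ MUP_U r s i, MUP_b P F i j := by
    simp only [MUP_a]
    rw [prod_mul_distrib]
    congr 1
    rw [← Finset.prod_mul_prod_compl F]
    rw [prod_congr rfl (fun i hi => if_pos hi),
      prod_eq_one (s := Fᶜ) (fun i hi => if_neg (by simpa using hi)), mul_one]
  rw [e, ← mul_assoc]
  refine mul_le_mul_of_nonneg_right ?_
    (prod_nonneg fun i _ => prod_nonneg fun j _ => MUP_b_nonneg P hP F i j)
  have hpos : 0 ≤ ∏ i, g (di P s i) := prod_nonneg fun i _ => g0 _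
  have : |Yv P g Z s| ≤ ∏ i, g (di P s i) := by
    unfold Yv
    split_ifs
    · rw [abs_of_nonneg hpos]
    · rw [abs_zero]
      exact hpos
  exact this.trans (MUP_prod_g P hP g hg' F r s hr h)

theorem MUP_Mf_ext (P : Fin M → ℕ) (g : ℕ → ℝ) (Z : ℝ) (F : Finset (Fin k)) (r : Vec M k) :
    Mf P g Z F r = ∑ s ∈ (univ : Finset (Vec M k)).filter (fun s => MUP_Ext r s),
      Yv P g Z s * ∏ j, Tl F (al P j) (r j) (s j) := by
  unfold Mf
  rw [sum_filter]
  refine sum_congr rfl fun s _ => ?_
  split_ifs with h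
  · rfl
  · rw [MUP_prodTl_not P F r s h, mul_zero]

/-- sum over a class of extensions is at most the sum over families of sets in a class -/
theorem MUP_sum_le (P : Fin M → ℕ) (hP : ∀ j, (P j).Prime) (g : ℕ → ℝ) (hg : GHyp g)
    (F : Finset (Fin k)) (r : Vec M k) (A : Finset (Vec M k)) (hA : ∀ s ∈ A, MUP_Ext r s)
    (B : Finset (Fin k → Finset (Fin M))) (hB : ∀ s ∈ A, MUP_U r s ∈ B) :
    ∑ s ∈ A, ∏ i, MUP_a P g F i (MUP_U r s i) ≤ ∑ U ∈ B, ∏ i, MUP_a P g F i (U i) := by
  have hinj : Set.InjOn (MUP_U r) (A : Set (Vec M k)) := by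
    intro s hs s' hs' e
    exact MUP_inj r s s' (hA s hs) (hA s' hs') e
  rw [← sum_image (s := A) (g := MUP_U r) (f := fun U => ∏ i, MUP_a P g F i (U i)) hinj]
  refine sum_le_sum_of_subset_of_nonneg ?_ fun U _ _ =>
    prod_nonneg fun i _ => MUP_a_nonneg P hP g hg F i _
  intro U hU
  obtain ⟨s, hs, rfl⟩ := mem_image.1 hU
  exact hB s hs

theorem Mf_upper (P : Fin M → ℕ) (hP : ∀ j, (P j).Prime) (hinj : Function.Injective P)
    (g : ℕ → ℝ) (hg : GHyp g) (Z : ℝ) (F : Finset (Fin k)) (r : Vec M k) (hr : Avoid F r) :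
    |Mf P g Z F r| ≤ (∏ i ∈ Fᶜ, g (di P r i)) * Gsum P g ^ F.card * Real.exp (k * Sg2 P) := by
  rw [MUP_Mf_ext]
  have hc0 : 0 ≤ ∏ i ∈ Fᶜ, g (di P r i) := prod_nonneg fun i _ => hg.1 _
  calc |∑ s ∈ (univ : Finset (Vec M k)).filter (fun s => MUP_Ext r s),
        Yv P g Z s * ∏ j, Tl F (al P j) (r j) (s j)|
      ≤ ∑ s ∈ (univ : Finset (Vec M k)).filter (fun s => MUP_Ext r s),
        |Yv P g Z s * ∏ j, Tl F (al P j) (r j) (s j)| := abs_sum_le_sum_abs _ _
    _ ≤ ∑ s ∈ (univ : Finset (Vec M k)).filter (fun s => MUP_Ext r s),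
        (∏ i ∈ Fᶜ, g (di P r i)) * ∏ i, MUP_a P g F i (MUP_U r s i) :=
        sum_le_sum fun s hs => MUP_term P hP g hg Z F r s hr (mem_filter.1 hs).2
    _ = (∏ i ∈ Fᶜ, g (di P r i)) *
        ∑ s ∈ (univ : Finset (Vec M k)).filter (fun s => MUP_Ext r s),
          ∏ i, MUP_a P g F i (MUP_U r s i) := by rw [mul_sum]
    _ ≤ (∏ i ∈ Fᶜ, g (di P r i)) *
        ∑ U : Fin k → Finset (Fin M), ∏ i, MUP_a P g F i (U i) := by
        refine mul_le_mul_of_nonneg_left ?_ hc0
        exact MUP_sum_le P hP g hg F r _ (fun s hs => (mem_filter.1 hs).2) univ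
          (fun s _ => mem_univ _)
    _ = (∏ i ∈ Fᶜ, g (di P r i)) *
        (Gsum P g ^ F.card * (∏ j, (1 + al P j ^ 2)) ^ Fᶜ.card) := by rw [MUP_sum_all]
    _ ≤ (∏ i ∈ Fᶜ, g (di P r i)) * (Gsum P g ^ F.card * Real.exp (k * Sg2 P)) := by
        refine mul_le_mul_of_nonneg_left ?_ hc0
        refine mul_le_mul_of_nonneg_left ?_ (pow_nonneg (MUP_Gsum_nonneg P hP g hg.1) _)
        refine MUP_E_le P _ ?_
        simpa using card_le_univ (Fᶜ : Finset (Fin k))
    _ = (∏ i ∈ Fᶜ, g (di P r i)) * Gsum P g ^ F.card * Real.exp (k * Sg2 P) := by ring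

/-- sets containing a given index -/
theorem MUP_erase (P : Fin M → ℕ) (hP : ∀ j, (P j).Prime) (f : ℕ → ℝ) (hf : ∀ a, 0 ≤ f a)
    (hm : ∀ a b : ℕ, 1 ≤ a → 1 ≤ b → f (a * b) ≤ f a) (j : Fin M) :
    ∑ U ∈ (univ : Finset (Finset (Fin M))).filter (fun U => j ∈ U),
      f (pr P U) * ∏ l ∈ U, al P l ≤ al P j * Gsum P f := by
  have hinj : Set.InjOn (fun U : Finset (Fin M) => U.erase j)
      (((univ : Finset (Finset (Fin M))).filter (fun U => j ∈ U) : Finset (Finset (Fin M))) :
        Set (Finset (Fin M))) := by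
    intro U hU V hV e
    simp only [coe_filter, mem_univ, true_and, Set.mem_setOf_eq] at hU hV
    have := congrArg (insert j) e
    simpa [insert_erase hU, insert_erase hV] using this
  calc ∑ U ∈ (univ : Finset (Finset (Fin M))).filter (fun U => j ∈ U),
        f (pr P U) * ∏ l ∈ U, al P l
      ≤ ∑ U ∈ (univ : Finset (Finset (Fin M))).filter (fun U => j ∈ U),
        al P j * (f (pr P (U.erase j)) * ∏ l ∈ U.erase j, al P l) := by
        refine sum_le_sum fun U hU => ?_
        have hj : j ∈ U := (mem_filter.1 hU).2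
        have e1 : pr P U = pr P (U.erase j) * P j := by
          simp only [pr]
          rw [prod_erase_mul _ _ hj]
        have e2 : ∏ l ∈ U, al P l = al P j * ∏ l ∈ U.erase j, al P l :=
          (mul_prod_erase _ _ hj).symm
        rw [e1, e2]
        have h1 := hm (pr P (U.erase j)) (P j) (MUP_pr_pos P hP _) (hP j).one_le
        have h2 : 0 ≤ al P j * ∏ l ∈ U.erase j, al P l :=
          mul_nonneg (MUP_al_nonneg P hP j) (prod_nonneg fun l _ => MUP_al_nonneg P hP l)
        calc f (pr P (U.erase j) * P j) * (al P j * ∏ l ∈ U.erase j, al P l)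
            ≤ f (pr P (U.erase j)) * (al P j * ∏ l ∈ U.erase j, al P l) :=
              mul_le_mul_of_nonneg_right h1 h2
          _ = al P j * (f (pr P (U.erase j)) * ∏ l ∈ U.erase j, al P l) := by ring
    _ = al P j * ∑ U ∈ (univ : Finset (Finset (Fin M))).filter (fun U => j ∈ U),
        (fun V => f (pr P V) * ∏ l ∈ V, al P l) (U.erase j) := by rw [mul_sum]
    _ = al P j * ∑ V ∈ ((univ : Finset (Finset (Fin M))).filter (fun U => j ∈ U)).image
          (fun U => U.erase j), f (pr P V) * ∏ l ∈ V, al P l := by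
        rw [sum_image hinj]
    _ ≤ al P j * Gsum P f := by
        refine mul_le_mul_of_nonneg_left ?_ (MUP_al_nonneg P hP j)
        exact sum_le_sum_of_subset_of_nonneg (subset_univ _) fun U _ _ =>
          mul_nonneg (hf _) (prod_nonneg fun j _ => MUP_al_nonneg P hP j)

/-- sets disjoint from the support of `r` -/
theorem MLO_disj (P : Fin M → ℕ) (hP : ∀ j, (P j).Prime) (f : ℕ → ℝ) (hf : ∀ a, 0 ≤ f a)
    (hm : ∀ a b : ℕ, 1 ≤ a → 1 ≤ b → f (a * b) ≤ f a) (r : Vec M k) :
    Gsum P f * (1 - ∑ j, if r j = none then 0 else al P j) ≤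
      ∑ U ∈ (univ : Finset (Finset (Fin M))).filter (fun U => ∀ j ∈ U, r j = none),
        f (pr P U) * ∏ l ∈ U, al P l := by
  have hn : ∀ U : Finset (Fin M), 0 ≤ f (pr P U) * ∏ l ∈ U, al P l := fun U =>
    mul_nonneg (hf _) (prod_nonneg fun j _ => MUP_al_nonneg P hP j)
  have h1 : ∑ U ∈ (univ : Finset (Finset (Fin M))).filter (fun U => ¬ ∀ j ∈ U, r j = none),
      f (pr P U) * ∏ l ∈ U, al P l ≤ ∑ j, (if r j = none then 0 else al P j) * Gsum P f := by
    calc ∑ U ∈ (univ : Finset (Finset (Fin M))).filter (fun U => ¬ ∀ j ∈ U, r j = none),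
        f (pr P U) * ∏ l ∈ U, al P l
        ≤ ∑ U : Finset (Fin M), ∑ j, if (r j ≠ none ∧ j ∈ U) then
            f (pr P U) * ∏ l ∈ U, al P l else 0 := by
          rw [sum_filter]
          refine sum_le_sum fun U _ => ?_
          split_ifs with h
          · exact sum_nonneg fun j _ => by
              split_ifs
              · exact hn U
              · exact le_rfl
          · push Not at h
            obtain ⟨j, hj, hrj⟩ := h
            refine le_trans (le_of_eq ?_) (single_le_sum (f := fun j =>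
              if (r j ≠ none ∧ j ∈ U) then f (pr P U) * ∏ l ∈ U, al P l else 0)
              (fun j _ => ?_) (mem_univ j))
            · simp [hj, hrj]
            · split_ifs
              · exact hn U
              · exact le_rfl
      _ = ∑ j, ∑ U : Finset (Fin M), if (r j ≠ none ∧ j ∈ U) then
            f (pr P U) * ∏ l ∈ U, al P l else 0 := sum_comm
      _ ≤ ∑ j, (if r j = none then 0 else al P j) * Gsum P f := by
          refine sum_le_sum fun j _ => ?_
          by_cases hrj : r j = none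
          · simp [hrj]
          · simp only [hrj, ne_eq, not_false_eq_true, true_and, if_false]
            rw [← sum_filter]
            exact MUP_erase P hP f hf hm j
  have h2 := sum_filter_add_sum_filter_not (univ : Finset (Finset (Fin M)))
    (fun U => ∀ j ∈ U, r j = none) (fun U => f (pr P U) * ∏ l ∈ U, al P l)
  have h3 : Gsum P f = ∑ U : Finset (Fin M), f (pr P U) * ∏ l ∈ U, al P l := rfl
  rw [← sum_mul] at h1
  rw [← h3] at h2
  linarith

theorem MLO_dv (P : Fin M → ℕ) (r : Vec M k) (U : Finset (Fin M)) (m : Fin k)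
    (hU : ∀ j ∈ U, r j = none) :
    dv P (fun j => if j ∈ U then some m else r j) = dv P r * pr P U := by
  have e : pr P U = ∏ j, if j ∈ U then P j else 1 := by
    rw [pr, ← prod_filter]
    congr 1
    ext j
    simp
  rw [e]
  simp only [dv]
  rw [← prod_mul_distrib]
  refine prod_congr rfl fun j _ => ?_
  by_cases hj : j ∈ U
  · simp [hj, hU j hj]
  · simp [hj]

theorem MLO_U (r : Vec M k) (U : Finset (Fin M)) (m i : Fin k) (hU : ∀ j ∈ U, r j = none) :
    MUP_U r (fun j => if j ∈ U then some m else r j) i = if i = m then U else ∅ := by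
  ext j
  simp only [MUP_U, mem_filter, mem_univ, true_and]
  by_cases hj : j ∈ U
  · by_cases hi : i = m
    · simp [hj, hi, hU j hj]
    · have hi' : ¬ (m = i) := fun h => hi h.symm
      simp [hj, hi, hi']
  · by_cases hi : i = m
    · simp only [hj, if_false, hi, if_true, iff_false, not_and]
      intro h
      rw [h]
      simp
    · simp only [hj, if_false, hi, notMem_empty, iff_false, not_and]
      intro h
      rw [h]
      simp

theorem MLO_ext (r : Vec M k) (U : Finset (Fin M)) (m : Fin k) (hU : ∀ j ∈ U, r j = none) :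
    MUP_Ext r (fun j => if j ∈ U then some m else r j) := by
  intro j i hr
  by_cases hj : j ∈ U
  · rw [hU j hj] at hr
    cases hr
  · simpa [hj] using hr

theorem Mf_lower (P : Fin M → ℕ) (hP : ∀ j, (P j).Prime) (hinj : Function.Injective P)
    (g : ℕ → ℝ) (hg : GHyp g) (Z : ℝ) (m : Fin k) (r : Vec M k) (hr : Avoid {m} r)
    (hZ : ∀ U : Finset (Fin M), g (pr P U) ≠ 0 → (dv P r : ℝ) * pr P U ≤ Z) :
    (∏ i ∈ ({m} : Finset (Fin k))ᶜ, g (di P r i)) * Gsum P g *
      (1 - (∑ j, if r j = none then 0 else al P j) - (Real.exp (k * Sg2 P) - 1)) ≤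
      Mf P g Z {m} r := by
  have hg' := hg
  obtain ⟨g0, g1, gone, gm⟩ := hg
  set cc := ∏ i ∈ ({m} : Finset (Fin k))ᶜ, g (di P r i) with hcc
  have hc0 : 0 ≤ cc := prod_nonneg fun i _ => g0 _
  set T : Vec M k → ℝ := fun s => Yv P g Z s * ∏ j, Tl {m} (al P j) (r j) (s j) with hT
  set X := (univ : Finset (Vec M k)).filter (fun s => MUP_Ext r s) with hX
  set p : Vec M k → Prop := fun s => ∀ i, i ≠ m → MUP_U r s i = ∅ with hp
  have hsplit : Mf P g Z {m} r = ∑ s ∈ X.filter p, T s + ∑ s ∈ X.filter (fun s => ¬ p s), T s := by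
    rw [MUP_Mf_ext, sum_filter_add_sum_filter_not]
  -- the main part
  have hmain : cc * ∑ U ∈ (univ : Finset (Finset (Fin M))).filter (fun U => ∀ j ∈ U, r j = none),
      g (pr P U) * ∏ l ∈ U, al P l ≤ ∑ s ∈ X.filter p, T s := by
    set D := (univ : Finset (Finset (Fin M))).filter (fun U => ∀ j ∈ U, r j = none) with hD
    set φ : Finset (Fin M) → Vec M k := fun U j => if j ∈ U then some m else r j with hφ
    have hinj : Set.InjOn φ (D : Set (Finset (Fin M))) := by
      intro U hU V hV e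
      have hU' : ∀ j ∈ U, r j = none := (mem_filter.1 hU).2
      have hV' : ∀ j ∈ V, r j = none := (mem_filter.1 hV).2
      have e2 := congrArg (fun s => MUP_U r s m) e
      simpa [hφ, MLO_U r U m m hU', MLO_U r V m m hV'] using e2
    have hval : ∀ U ∈ D, T (φ U) = cc * (g (pr P U) * ∏ l ∈ U, al P l) := by
      intro U hU
      have hU' : ∀ j ∈ U, r j = none := (mem_filter.1 hU).2
      have hext := MLO_ext r U m hU'
      have hTl : ∏ j, Tl {m} (al P j) (r j) (φ U j) = ∏ l ∈ U, al P l := by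
        rw [← prod_subset (subset_univ U)]
        · refine prod_congr rfl fun j hj => ?_
          simp [hφ, hj, hU' j hj, Tl]
        · intro j _ hj
          rcases hrj : r j with _ | a
          · simp [hφ, hj, hrj, Tl]
          · simp [hφ, hj, hrj, Tl]
      have hY : Yv P g Z (φ U) = cc * g (pr P U) := by
        have hprod : ∏ i, g (di P (φ U) i) = cc * g (pr P U) := by
          rw [← Finset.prod_mul_prod_compl ({m} : Finset (Fin k)), mul_comm]
          congr 1
          · refine prod_congr rfl fun i hi => ?_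
            have hi' : i ≠ m := by simpa using hi
            rw [MUP_di P r (φ U) hext i, MLO_U r U m i hU', if_neg hi']
            simp [pr]
          · rw [prod_singleton, MUP_di P r (φ U) hext m, MLO_U r U m m hU', if_pos rfl]
            have : di P r m = 1 := prod_eq_one fun j _ => by
              rw [if_neg (hr j m (mem_singleton_self m))]
            rw [this, one_mul]
        unfold Yv
        by_cases hgU : g (pr P U) = 0
        · rw [hprod, hgU]
          simp
        · have := hZ U hgU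
          rw [MLO_dv P r U m hU', if_pos (by push_cast; exact this), hprod]
      simp only [hT]
      rw [hTl, hY]
      ring
    rw [mul_sum, ← sum_congr rfl hval, ← sum_image (f := T) hinj]
    refine sum_le_sum_of_subset_of_nonneg ?_ ?_
    · intro s hs
      obtain ⟨U, hU, rfl⟩ := mem_image.1 hs
      have hU' : ∀ j ∈ U, r j = none := (mem_filter.1 hU).2
      refine mem_filter.2 ⟨mem_filter.2 ⟨mem_univ _, MLO_ext r U m hU'⟩, ?_⟩
      intro i hi
      simp only [hφ]
      rw [MLO_U r U m i hU', if_neg hi]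
    · intro s hs _
      have hps : p s := (mem_filter.1 hs).2
      have hexts : MUP_Ext r s := (mem_filter.1 (mem_filter.1 hs).1).2
      refine mul_nonneg ?_ (prod_nonneg fun j _ => ?_)
      · unfold Yv
        split_ifs
        · exact prod_nonneg fun i _ => g0 _
        · exact le_rfl
      · rcases hrj : r j with _ | a
        · rcases hsj : s j with _ | b
          · simp [Tl]
          · by_cases hb : b = m
            · simp [Tl, hb, MUP_al_nonneg P hP j]
            · exfalso
              have h1 : j ∈ MUP_U r s b := by simp [MUP_U, hrj, hsj]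
              rw [hps b hb] at h1
              simp at h1
        · rw [hexts j a hrj]
          simp [Tl]
  -- the rest
  have hrest : |∑ s ∈ X.filter (fun s => ¬ p s), T s| ≤
      cc * (Gsum P g * (Real.exp (k * Sg2 P) - 1)) := by
    set B := (univ : Finset (Fin k → Finset (Fin M))).filter
      (fun U => ¬ ∀ i, i ≠ m → U i = ∅) with hB
    have hBsum : ∑ U ∈ B, ∏ i, MUP_a P g {m} i (U i) =
        Gsum P g * (∏ j, (1 + al P j ^ 2)) ^ ({m} : Finset (Fin k))ᶜ.card - Gsum P g := by
      have h1 := sum_filter_add_sum_filter_not (univ : Finset (Fin k → Finset (Fin M)))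
        (fun U => ∀ i, i ≠ m → U i = ∅) (fun U => ∏ i, MUP_a P g {m} i (U i))
      rw [MUP_sum_all, card_singleton, pow_one] at h1
      have h2 : ∑ U ∈ (univ : Finset (Fin k → Finset (Fin M))).filter
          (fun U => ∀ i, i ≠ m → U i = ∅), ∏ i, MUP_a P g {m} i (U i) = Gsum P g := by
        have e : (univ : Finset (Fin k → Finset (Fin M))).filter
            (fun U => ∀ i, i ≠ m → U i = ∅) =
            Fintype.piFinset (fun i : Fin k => if i = m then univ else {∅}) := by
          ext U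
          simp only [mem_filter, mem_univ, true_and, Fintype.mem_piFinset]
          refine forall_congr' fun i => ?_
          by_cases hi : i = m
          · simp [hi]
          · simp [hi]
        rw [e, ← Finset.prod_univ_sum, ← Finset.prod_mul_prod_compl ({m} : Finset (Fin k)),
          prod_singleton, prod_eq_one (s := ({m} : Finset (Fin k))ᶜ), mul_one]
        · simp [MUP_a, MUP_b, Gsum]
        · intro i hi
          have hi' : i ≠ m := by simpa using hi
          simp [hi', MUP_a]
      linarith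
    have hsum : ∑ s ∈ X.filter (fun s => ¬ p s), ∏ i, MUP_a P g {m} i (MUP_U r s i) ≤
        Gsum P g * (Real.exp (k * Sg2 P) - 1) := by
      refine (MUP_sum_le P hP g hg' {m} r _ ?_ B ?_).trans ?_
      · intro s hs
        exact (mem_filter.1 (mem_filter.1 hs).1).2
      · intro s hs
        exact mem_filter.2 ⟨mem_univ _, (mem_filter.1 hs).2⟩
      · rw [hBsum]
        have h1 := MUP_E_le (k := k) P ({m} : Finset (Fin k))ᶜ.card
          (by simpa using card_le_univ (({m} : Finset (Fin k))ᶜ))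
        have h2 := mul_le_mul_of_nonneg_left h1 (MUP_Gsum_nonneg P hP g g0)
        linarith
    calc |∑ s ∈ X.filter (fun s => ¬ p s), T s| ≤ ∑ s ∈ X.filter (fun s => ¬ p s), |T s| :=
          abs_sum_le_sum_abs _ _
      _ ≤ ∑ s ∈ X.filter (fun s => ¬ p s), cc * ∏ i, MUP_a P g {m} i (MUP_U r s i) :=
          sum_le_sum fun s hs => MUP_term P hP g hg' Z {m} r s hr
            (mem_filter.1 (mem_filter.1 hs).1).2
      _ = cc * ∑ s ∈ X.filter (fun s => ¬ p s), ∏ i, MUP_a P g {m} i (MUP_U r s i) := by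
          rw [mul_sum]
      _ ≤ cc * (Gsum P g * (Real.exp (k * Sg2 P) - 1)) := mul_le_mul_of_nonneg_left hsum hc0
  have h3 := mul_le_mul_of_nonneg_left (MLO_disj P hP g g0 gm r) hc0
  have h4 := neg_abs_le (∑ s ∈ X.filter (fun s => ¬ p s), T s)
  rw [hsplit]
  nlinarith

end Pool.Agent.BG
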