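import Pool.Agent.Lib_helper23.BGF.INV
import Pool.Agent.Lib_helper23.BGF.MUPMLO
/-! Upper bounds for the quadratic forms. -/

set_option autoImplicit false

namespace Pool.Agent.BG

open Finset
open scoped Classical

variable {M k : ℕ}

/-- the set of indices assigned to the form `i` -/
noncomputable def SUMU_S (s : Vec M k) (i : Fin k) : Finset (Fin M) :=
  univ.filter (fun j => s j = some i)

lemma SUMU_di (P : Fin M → ℕ) (s : Vec M k) (i : Fin k) : di P s i = pr P (SUMU_S s i) := by
  unfold di pr SUMU_S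
  rw [Finset.prod_filter]

lemma SUMU_S_inj : Function.Injective (fun (s : Vec M k) (i : Fin k) => SUMU_S s i) := by
  intro s s' h
  funext j
  have h1 : ∀ i, s j = some i ↔ s' j = some i := by
    intro i
    have h2 := congrFun h i
    simp only at h2
    have h3 : j ∈ SUMU_S s i ↔ j ∈ SUMU_S s' i := by rw [h2]
    simpa [SUMU_S] using h3
  rcases hs : s j with _ | i
  · rcases hs' : s' j with _ | i'
    · rfl
    · have := (h1 i').2 hs'
      rw [hs] at this
      exact absurd this (by simp)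
  · exact ((h1 i).1 hs).symm

lemma SUMU_beta (s : Vec M k) (β : Fin M → ℝ) :
    ∏ j, (if s j = none then 1 else β j) = ∏ i, ∏ j ∈ SUMU_S s i, β j := by
  have e1 : ∀ i, ∏ j ∈ SUMU_S s i, β j = ∏ j, if s j = some i then β j else 1 := by
    intro i
    unfold SUMU_S
    rw [Finset.prod_filter]
  simp only [e1]
  rw [Finset.prod_comm]
  refine Finset.prod_congr rfl fun j _ => ?_
  rcases hs : s j with _ | i
  · rw [if_pos rfl]
    symm
    apply Finset.prod_eq_one
    intro i _
    rw [if_neg (by simp)]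
  · rw [if_neg (by simp)]
    rw [Finset.prod_eq_single i]
    · rw [if_pos rfl]
    · intro i' _ hne
      rw [if_neg]
      intro h
      exact hne (Option.some_injective _ h).symm
    · intro h; exact absurd (Finset.mem_univ _) h

/-- sums over vectors are at most products of one-dimensional sums -/
lemma SUMU_core (P : Fin M → ℕ) (F : Finset (Fin k)) (G : ℕ → ℝ) (hG : ∀ a, 0 ≤ G a)
    (β : Fin M → ℝ) (hβ : ∀ j, 0 ≤ β j) :
    ∑ r ∈ (univ : Finset (Vec M k)).filter (fun r => Avoid F r),
      (∏ i ∈ Fᶜ, G (di P r i)) * (∏ j, if r j = none then 1 else β j) ≤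
    (∑ U : Finset (Fin M), G (pr P U) * ∏ j ∈ U, β j) ^ (Fᶜ).card := by
  set T : Fin k → Finset (Finset (Fin M)) := fun i => if i ∈ F then {∅} else univ with hT
  set f : Fin k → Finset (Fin M) → ℝ := fun i U =>
    if i ∈ F then 1 else G (pr P U) * ∏ j ∈ U, β j with hf
  have hf0 : ∀ i U, 0 ≤ f i U := by
    intro i U
    simp only [hf]
    split_ifs
    · norm_num
    · exact mul_nonneg (hG _) (Finset.prod_nonneg fun j _ => hβ j)
  have e1 : ∏ i, ∑ U ∈ T i, f i U =
      (∑ U : Finset (Fin M), G (pr P U) * ∏ j ∈ U, β j) ^ (Fᶜ).card := by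
    have e2 : ∀ i, ∑ U ∈ T i, f i U =
        if i ∈ Fᶜ then ∑ U : Finset (Fin M), G (pr P U) * ∏ j ∈ U, β j else 1 := by
      intro i
      simp only [hT, hf]
      by_cases hi : i ∈ F
      · simp [hi]
      · simp [hi]
    rw [Finset.prod_congr rfl fun i _ => e2 i, Finset.prod_ite_mem, Finset.univ_inter,
      Finset.prod_const]
  rw [← e1, Finset.prod_univ_sum]
  have hmem : ∀ r ∈ (univ : Finset (Vec M k)).filter (fun r => Avoid F r),
      (fun i => SUMU_S r i) ∈ Fintype.piFinset T := by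
    intro r hr
    have hr2 := (Finset.mem_filter.1 hr).2
    rw [Fintype.mem_piFinset]
    intro i
    simp only [hT]
    split_ifs with hi
    · rw [Finset.mem_singleton]
      unfold SUMU_S
      rw [Finset.filter_eq_empty_iff]
      intro j _
      exact hr2 j i hi
    · exact Finset.mem_univ _
  have e3 : ∀ r ∈ (univ : Finset (Vec M k)).filter (fun r => Avoid F r),
      (∏ i ∈ Fᶜ, G (di P r i)) * (∏ j, if r j = none then 1 else β j) =
      ∏ i, f i (SUMU_S r i) := by
    intro r hr
    have hr2 := (Finset.mem_filter.1 hr).2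
    rw [SUMU_beta]
    have e4 : ∏ i, f i (SUMU_S r i) = ∏ i, ((if i ∈ Fᶜ then G (di P r i) else 1) *
        ∏ j ∈ SUMU_S r i, β j) := by
      refine Finset.prod_congr rfl fun i _ => ?_
      simp only [hf]
      by_cases hi : i ∈ F
      · rw [if_pos hi, if_neg (by simpa using hi)]
        have : SUMU_S r i = ∅ := by
          unfold SUMU_S
          rw [Finset.filter_eq_empty_iff]
          intro j _
          exact hr2 j i hi
        rw [this]
        simp
      · rw [if_neg hi, if_pos (by simpa using hi), SUMU_di]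
    rw [e4, Finset.prod_mul_distrib, Finset.prod_ite_mem, Finset.univ_inter]
  rw [Finset.sum_congr rfl e3]
  rw [← Finset.sum_image (f := fun x : Fin k → Finset (Fin M) => ∏ i, f i (x i))
    (g := fun (r : Vec M k) (i : Fin k) => SUMU_S r i) (SUMU_S_inj.injOn)]
  apply Finset.sum_le_sum_of_subset_of_nonneg
  · intro x hx
    obtain ⟨r, hr, rfl⟩ := Finset.mem_image.1 hx
    exact hmem r hr
  · intro x _ _
    exact Finset.prod_nonneg fun i _ => hf0 i _

lemma SUMU_pr_pos (P : Fin M → ℕ) (hP : ∀ j, (P j).Prime) (U : Finset (Fin M)) : 1 ≤ pr P U :=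
  Finset.prod_pos fun j _ => (hP j).pos

/-- perturbation of the weights -/
lemma SUMU_perturb (P : Fin M → ℕ) (hP : ∀ j, (P j).Prime) (g : ℕ → ℝ) (hg : GHyp g)
    (hα : ∀ j, 0 ≤ al P j) (c : ℝ) (hc : 0 ≤ c) :
    ∑ U : Finset (Fin M), g (pr P U) ^ 2 * ∏ j ∈ U, (al P j * (1 + c * al P j)) ≤
      Gsum P (fun a => g a ^ 2) * Real.exp (c * Sg2 P) := by
  have e1 : ∀ U : Finset (Fin M), g (pr P U) ^ 2 * ∏ j ∈ U, (al P j * (1 + c * al P j)) ≤
      ∑ T ∈ U.powerset, (∏ j ∈ T, (c * al P j ^ 2)) * (g (pr P (U \ T)) ^ 2 *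
        ∏ j ∈ U \ T, al P j) := by
    intro U
    have e2 : ∏ j ∈ U, (al P j * (1 + c * al P j)) =
        ∑ T ∈ U.powerset, (∏ j ∈ T, (c * al P j ^ 2)) * ∏ j ∈ U \ T, al P j := by
      rw [← Finset.prod_add]
      refine Finset.prod_congr rfl fun j _ => by ring
    rw [e2, Finset.mul_sum]
    refine Finset.sum_le_sum fun T hT => ?_
    have hTU := Finset.mem_powerset.1 hT
    have e3 : pr P U = pr P (U \ T) * pr P T := by
      unfold pr
      rw [Finset.prod_sdiff hTU]
    have e4 : g (pr P U) ≤ g (pr P (U \ T)) := by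
      rw [e3]
      exact hg.2.2.2 _ _ (SUMU_pr_pos P hP _) (SUMU_pr_pos P hP _)
    have e5 : g (pr P U) ^ 2 ≤ g (pr P (U \ T)) ^ 2 := pow_le_pow_left₀ (hg.1 _) e4 2
    have e6 : 0 ≤ (∏ j ∈ T, (c * al P j ^ 2)) * ∏ j ∈ U \ T, al P j :=
      mul_nonneg (Finset.prod_nonneg fun j _ => mul_nonneg hc (sq_nonneg _))
        (Finset.prod_nonneg fun j _ => hα j)
    calc g (pr P U) ^ 2 * ((∏ j ∈ T, (c * al P j ^ 2)) * ∏ j ∈ U \ T, al P j)
        ≤ g (pr P (U \ T)) ^ 2 * ((∏ j ∈ T, (c * al P j ^ 2)) * ∏ j ∈ U \ T, al P j) :=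
          mul_le_mul_of_nonneg_right e5 e6
      _ = _ := by ring
  refine (Finset.sum_le_sum fun U _ => e1 U).trans ?_
  have e7 : ∑ U : Finset (Fin M), ∑ T ∈ U.powerset, (∏ j ∈ T, (c * al P j ^ 2)) *
      (g (pr P (U \ T)) ^ 2 * ∏ j ∈ U \ T, al P j) =
      ∑ T : Finset (Fin M), ∑ U ∈ univ.filter (fun U => T ⊆ U), (∏ j ∈ T, (c * al P j ^ 2)) *
      (g (pr P (U \ T)) ^ 2 * ∏ j ∈ U \ T, al P j) := by
    apply Finset.sum_comm'
    intro U T
    simp
  rw [e7]
  have e8 : ∀ T : Finset (Fin M), ∑ U ∈ univ.filter (fun U => T ⊆ U),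
      (∏ j ∈ T, (c * al P j ^ 2)) * (g (pr P (U \ T)) ^ 2 * ∏ j ∈ U \ T, al P j) ≤
      (∏ j ∈ T, (c * al P j ^ 2)) * Gsum P (fun a => g a ^ 2) := by
    intro T
    rw [← Finset.mul_sum]
    apply mul_le_mul_of_nonneg_left _ (Finset.prod_nonneg fun j _ => mul_nonneg hc (sq_nonneg _))
    have hinj : Set.InjOn (fun U : Finset (Fin M) => U \ T)
        ((univ.filter (fun U => T ⊆ U) : Finset (Finset (Fin M))) : Set (Finset (Fin M))) := by
      intro U hU U' hU' h
      have h1 := (Finset.mem_filter.1 (Finset.mem_coe.1 hU)).2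
      have h2 := (Finset.mem_filter.1 (Finset.mem_coe.1 hU')).2
      simp only at h
      rw [← Finset.sdiff_union_of_subset h1, ← Finset.sdiff_union_of_subset h2, h]
    rw [← Finset.sum_image (f := fun V : Finset (Fin M) => g (pr P V) ^ 2 * ∏ j ∈ V, al P j) hinj]
    unfold Gsum
    apply Finset.sum_le_sum_of_subset_of_nonneg (Finset.subset_univ _)
    intro V _ _
    exact mul_nonneg (sq_nonneg _) (Finset.prod_nonneg fun j _ => hα j)
  refine (Finset.sum_le_sum fun T _ => e8 T).trans ?_
  rw [← Finset.sum_mul, mul_comm]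
  apply mul_le_mul_of_nonneg_left
  · have e9 : ∑ T : Finset (Fin M), ∏ j ∈ T, (c * al P j ^ 2) = ∏ j, (1 + c * al P j ^ 2) := by
      rw [Finset.prod_one_add, Finset.powerset_univ]
    rw [e9]
    unfold Sg2
    rw [Finset.mul_sum, Real.exp_sum]
    apply Finset.prod_le_prod
    · intro j _
      have := mul_nonneg hc (sq_nonneg (al P j))
      linarith
    · intro j _
      have := Real.add_one_le_exp (c * al P j ^ 2)
      linarith
  · unfold Gsum
    exact Finset.sum_nonneg fun V _ => mul_nonneg (sq_nonneg _) (Finset.prod_nonneg fun j _ => hα j)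

lemma SUMU_al (P : Fin M → ℕ) (hP : ∀ j, (P j).Prime) (j : Fin M) :
    0 ≤ al P j ∧ al P j ≤ 1 ∧ (1 + al P j) ^ 2 * (1 / (P j : ℝ)) = al P j * (1 + al P j) := by
  have h2 : (2:ℝ) ≤ P j := by exact_mod_cast (hP j).two_le
  have h3 : (0:ℝ) < (P j : ℝ) - 1 := by linarith
  have h4 : (0:ℝ) < P j := by linarith
  unfold al
  refine ⟨by positivity, ?_, ?_⟩
  · rw [div_le_one h3]; linarith
  · have h5 : 1 + 1 / ((P j : ℝ) - 1) = P j / ((P j : ℝ) - 1) := by field_simp; ring
    rw [h5]
    field_simp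

lemma SUMU_avoid_empty (r : Vec M k) : Avoid ∅ r := by
  intro j i hi
  exact absurd hi (Finset.notMem_empty _)

theorem sum_upper_one (P : Fin M → ℕ) (hP : ∀ j, (P j).Prime) (hinj : Function.Injective P)
    (g : ℕ → ℝ) (hg : GHyp g) (Z : ℝ) :
    ∑ s : Vec M k, yv P g Z s ^ 2 * ∏ j, om (1 / (P j : ℝ)) (s j) ≤
      (Gsum P (fun a => g a ^ 2) * Real.exp (Sg2 P)) ^ k := by
  have hal := SUMU_al P hP
  have e1 : ∀ s : Vec M k, yv P g Z s ^ 2 * ∏ j, om (1 / (P j : ℝ)) (s j) ≤
      (∏ i ∈ (∅ : Finset (Fin k))ᶜ, (fun a => g a ^ 2) (di P s i)) *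
        (∏ j, if s j = none then 1 else (al P j * (1 + 1 * al P j))) := by
    intro s
    have e2 : Yv P g Z s ^ 2 ≤ ∏ i ∈ (∅ : Finset (Fin k))ᶜ, (fun a => g a ^ 2) (di P s i) := by
      rw [Finset.compl_empty]
      simp only
      rw [Finset.prod_pow]
      unfold Yv
      split_ifs
      · exact le_refl _
      · rw [zero_pow (by norm_num)]; positivity
    unfold yv
    rw [mul_pow, ← Finset.prod_pow, mul_assoc, ← Finset.prod_mul_distrib]
    have e3 : ∏ j, ((if s j = none then (1:ℝ) else -(1 + al P j)) ^ 2 *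
        om (1 / (P j : ℝ)) (s j)) =
        ∏ j, if s j = none then 1 else (al P j * (1 + 1 * al P j)) := by
      refine Finset.prod_congr rfl fun j _ => ?_
      rcases hs : s j with _ | i
      · simp [om]
      · rw [if_neg (by simp), if_neg (by simp)]
        simp only [om]
        rw [neg_sq, one_mul]
        exact (hal j).2.2
    rw [e3]
    apply mul_le_mul_of_nonneg_right e2
    apply Finset.prod_nonneg
    intro j _
    split_ifs
    · norm_num
    · have := (hal j).1
      positivity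
  refine (Finset.sum_le_sum fun s _ => e1 s).trans ?_
  have e4 := SUMU_core (k := k) P ∅ (fun a => g a ^ 2) (fun a => sq_nonneg _)
    (fun j => al P j * (1 + 1 * al P j)) (fun j => by have := (hal j).1; positivity)
  have e5 : (univ : Finset (Vec M k)).filter (fun r => Avoid ∅ r) = univ := by
    rw [Finset.filter_true_of_mem]
    intro r _
    exact SUMU_avoid_empty r
  rw [e5] at e4
  refine e4.trans ?_
  rw [Finset.compl_empty, Finset.card_univ, Fintype.card_fin]
  apply pow_le_pow_left₀
  · apply Finset.sum_nonneg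
    intro U _
    apply mul_nonneg (sq_nonneg _)
    apply Finset.prod_nonneg
    intro j _
    have := (hal j).1
    positivity
  · have := SUMU_perturb P hP g hg (fun j => (hal j).1) 1 (by norm_num)
    rw [one_mul] at this
    exact this

theorem sum_upper_pair (P : Fin M → ℕ) (hP : ∀ j, (P j).Prime) (hinj : Function.Injective P)
    (g : ℕ → ℝ) (hg : GHyp g) (Z : ℝ) (a b : Fin k) (hab : a ≠ b) :
    ∑ r ∈ (univ : Finset (Vec M k)).filter (fun r => Avoid {a, b} r),
      tr (al P) (restr {a, b} (cv P g Z)) r ^ 2 *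
        (∏ j, if r j = none then 1 else al P j * (1 + al P j)) ≤
      Gsum P g ^ 4 * Real.exp (2 * k * Sg2 P) *
        (Gsum P (fun a => g a ^ 2) * Real.exp (7 * Sg2 P)) ^ (k - 2) := by
  have hal := SUMU_al P hP
  have hcard : ({a, b} : Finset (Fin k)).card = 2 := Finset.card_pair hab
  have hG1 : 0 ≤ Gsum P g := by
    unfold Gsum
    exact Finset.sum_nonneg fun U _ => mul_nonneg (hg.1 _)
      (Finset.prod_nonneg fun j _ => (hal j).1)
  have e1 : ∀ r ∈ (univ : Finset (Vec M k)).filter (fun r => Avoid {a, b} r),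
      tr (al P) (restr {a, b} (cv P g Z)) r ^ 2 *
        (∏ j, if r j = none then 1 else al P j * (1 + al P j)) ≤
      (Gsum P g ^ 4 * Real.exp (2 * k * Sg2 P)) *
      ((∏ i ∈ ({a, b} : Finset (Fin k))ᶜ, (fun a => g a ^ 2) (di P r i)) *
        (∏ j, if r j = none then 1 else (al P j * (1 + 7 * al P j)))) := by
    intro r hr
    have hav := (Finset.mem_filter.1 hr).2
    rw [tr_restr P hP g Z {a, b} r, if_pos hav, mul_pow, ← Finset.prod_pow]
    have e2 := Mf_upper P hP hinj g hg Z {a, b} r hav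
    rw [hcard] at e2
    have e3 : Mf P g Z {a, b} r ^ 2 ≤ (∏ i ∈ ({a, b} : Finset (Fin k))ᶜ,
        (fun a => g a ^ 2) (di P r i)) * (Gsum P g ^ 4 * Real.exp (2 * k * Sg2 P)) := by
      have e4 : Mf P g Z {a, b} r ^ 2 ≤ ((∏ i ∈ ({a, b} : Finset (Fin k))ᶜ, g (di P r i)) *
          Gsum P g ^ 2 * Real.exp (k * Sg2 P)) ^ 2 := by
        rw [← sq_abs]
        exact pow_le_pow_left₀ (abs_nonneg _) e2 2
      refine e4.trans (le_of_eq ?_)
      simp only
      rw [Finset.prod_pow]
      have e5 : Real.exp (2 * k * Sg2 P) = Real.exp (k * Sg2 P) ^ 2 := by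
        rw [← Real.exp_nat_mul]
        congr 1
        push_cast
        ring
      rw [e5]
      ring
    have hprod0 : 0 ≤ ∏ j, (if r j = none then (1:ℝ) else -(1 + al P j)) ^ 2 :=
      Finset.prod_nonneg fun j _ => sq_nonneg _
    have hprod1 : 0 ≤ ∏ j, if r j = none then (1:ℝ) else al P j * (1 + al P j) := by
      apply Finset.prod_nonneg
      intro j _
      split_ifs
      · norm_num
      · have := (hal j).1
        positivity
    have e6 : (∏ j, (if r j = none then (1:ℝ) else -(1 + al P j)) ^ 2) *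
        (∏ j, if r j = none then (1:ℝ) else al P j * (1 + al P j)) ≤
        ∏ j, if r j = none then 1 else (al P j * (1 + 7 * al P j)) := by
      rw [← Finset.prod_mul_distrib]
      apply Finset.prod_le_prod
      · intro j _
        apply mul_nonneg (sq_nonneg _)
        split_ifs
        · norm_num
        · have := (hal j).1
          positivity
      · intro j _
        split_ifs with hj
        · norm_num
        · have h0 := (hal j).1
          have h1 := (hal j).2.1
          have h2 : (1 + al P j) ^ 3 ≤ 1 + 7 * al P j := by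
            have h3 : al P j ^ 2 ≤ al P j := by nlinarith
            have h4 : al P j ^ 3 ≤ al P j := by nlinarith [mul_nonneg h0 h0]
            nlinarith
          calc (-(1 + al P j)) ^ 2 * (al P j * (1 + al P j)) = al P j * (1 + al P j) ^ 3 := by ring
            _ ≤ al P j * (1 + 7 * al P j) := mul_le_mul_of_nonneg_left h2 h0
    have hpos : 0 ≤ (∏ i ∈ ({a, b} : Finset (Fin k))ᶜ, (fun a => g a ^ 2) (di P r i)) *
        (Gsum P g ^ 4 * Real.exp (2 * k * Sg2 P)) :=
      mul_nonneg (Finset.prod_nonneg fun i _ => sq_nonneg _) (by positivity)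
    calc (∏ j, (if r j = none then (1:ℝ) else -(1 + al P j)) ^ 2) * Mf P g Z {a, b} r ^ 2 *
          (∏ j, if r j = none then (1:ℝ) else al P j * (1 + al P j))
        = ((∏ j, (if r j = none then (1:ℝ) else -(1 + al P j)) ^ 2) *
          (∏ j, if r j = none then (1:ℝ) else al P j * (1 + al P j))) *
          Mf P g Z {a, b} r ^ 2 := by ring
      _ ≤ ((∏ j, (if r j = none then (1:ℝ) else -(1 + al P j)) ^ 2) *
          (∏ j, if r j = none then (1:ℝ) else al P j * (1 + al P j))) *
          ((∏ i ∈ ({a, b} : Finset (Fin k))ᶜ,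
        (fun a => g a ^ 2) (di P r i)) * (Gsum P g ^ 4 * Real.exp (2 * k * Sg2 P))) :=
          mul_le_mul_of_nonneg_left e3 (mul_nonneg hprod0 hprod1)
      _ ≤ (∏ j, if r j = none then 1 else (al P j * (1 + 7 * al P j))) *
          ((∏ i ∈ ({a, b} : Finset (Fin k))ᶜ,
        (fun a => g a ^ 2) (di P r i)) * (Gsum P g ^ 4 * Real.exp (2 * k * Sg2 P))) :=
          mul_le_mul_of_nonneg_right e6 hpos
      _ = _ := by ring
  refine (Finset.sum_le_sum e1).trans ?_
  rw [← Finset.mul_sum]
  apply mul_le_mul_of_nonneg_left _ (by positivity)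
  have e4 := SUMU_core (k := k) P {a, b} (fun a => g a ^ 2) (fun a => sq_nonneg _)
    (fun j => al P j * (1 + 7 * al P j)) (fun j => by have := (hal j).1; positivity)
  refine e4.trans ?_
  have hcc : (({a, b} : Finset (Fin k))ᶜ).card = k - 2 := by
    rw [Finset.card_compl, hcard, Fintype.card_fin]
  rw [hcc]
  apply pow_le_pow_left₀
  · apply Finset.sum_nonneg
    intro U _
    apply mul_nonneg (sq_nonneg _)
    apply Finset.prod_nonneg
    intro j _
    have := (hal j).1
    positivity
  · exact SUMU_perturb P hP g hg (fun j => (hal j).1) 7 (by norm_num)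

end Pool.Agent.BG
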