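import Pool.Agent.Lib_helper23.BG.Defs

/-! Further definitions for the sieve. -/

set_option autoImplicit false

namespace Pool.Agent.BG

open Finset Filter
open scoped Classical

variable {M k : ℕ}

/-- monotonicity hypotheses on the weight function `g` -/
def GHyp (g : ℕ → ℝ) : Prop :=
  (∀ a, 0 ≤ g a) ∧ (∀ a, g a ≤ 1) ∧ g 1 = 1 ∧ ∀ a b : ℕ, 1 ≤ a → 1 ≤ b → g (a * b) ≤ g a

/-- `P` enumerates the primes up to `N` that do not divide `W` -/
def Enum (P : Fin M → ℕ) (W N : ℕ) : Prop :=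
  Function.Injective P ∧ ∀ p : ℕ, (∃ j, P j = p) ↔ p.Prime ∧ p ≤ N ∧ ¬ p ∣ W

/-- the conditions on the modulus `W` and the residue class `ν` -/
def Setup (k w₀ : ℕ) (h : Fin k → ℕ) (W ν : ℕ) : Prop :=
  Function.Injective h ∧ Squarefree W ∧ (∀ p : ℕ, p.Prime → p ≤ w₀ → p ∣ W) ∧
    (∀ p : ℕ, p.Prime → ∀ i l, i ≠ l → ((p : ℤ) ∣ (h i : ℤ) - h l) → p ∣ W) ∧
    ∀ i, Nat.Coprime (ν + h i) W

/-- the level of distribution, at the scale `N` -/
def Good (A D N : ℕ) : Prop := ∀ u : ℕ, u ≤ 3 * N →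
  ∑ q ∈ sqf ((N : ℝ) ^ (49 / 100 : ℝ)), (D : ℝ) ^ q.primeFactors.card * Emax u q ≤
    N / Real.log N ^ A

/-- the weight function -/
noncomputable def gg (J k N : ℕ) : ℕ → ℝ := gst J (1 / (2000 * k * (J + 1)) * Real.log N)

/-- the length of the weights -/
noncomputable def ZZ (N : ℕ) : ℝ := (N : ℝ) ^ (1 / 400 : ℝ)

/-- the sieve weights -/
noncomputable def ww {M k : ℕ} (P : Fin M → ℕ) (h : Fin k → ℕ) (J N n : ℕ) : ℝ :=
  Wn P h (cv P (gg J k N) (ZZ N)) n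

end Pool.Agent.BG
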