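import Pool.Agent.Lib_helper23.BG.Defs
set_option autoImplicit false

namespace Pool.Agent.BG

open Finset Filter
open scoped Classical

variable {M k : ℕ}

/-- bilinear form -/
noncomputable def TENS_B (α : Fin M → ℝ) (u v : Vec M k → ℝ) : ℝ :=
  ∑ x, ∑ y, u x * v y * ∏ j, Kl (α j) (x j) (y j)

/-- the bilinear form as a linear map -/
noncomputable def TENS_L (α : Fin M → ℝ) :
    (Vec M k → ℝ) →ₗ[ℝ] (Vec M k → ℝ) →ₗ[ℝ] ℝ :=
  LinearMap.mk₂ ℝ (TENS_B α)
    (by
      intro u u' v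
      simp only [TENS_B, Pi.add_apply, add_mul, sum_add_distrib])
    (by
      intro c u v
      simp only [TENS_B, Pi.smul_apply, smul_eq_mul, mul_sum]
      refine sum_congr rfl fun x _ => sum_congr rfl fun y _ => by ring)
    (by
      intro u v v'
      simp only [TENS_B, Pi.add_apply, mul_add, add_mul, sum_add_distrib])
    (by
      intro c u v
      simp only [TENS_B, Pi.smul_apply, smul_eq_mul, mul_sum]
      refine sum_congr rfl fun x _ => sum_congr rfl fun y _ => by ring)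

theorem TENS_L_apply (α : Fin M → ℝ) (u v : Vec M k → ℝ) : TENS_L α u v = TENS_B α u v := rfl

theorem TENS_Kl_comm (α : ℝ) (a b : Option (Fin k)) : Kl α a b = Kl α b a := by
  cases a <;> cases b <;> simp [Kl, eq_comm]

theorem TENS_L_comm (α : Fin M → ℝ) (u v : Vec M k → ℝ) : TENS_L α u v = TENS_L α v u := by
  simp only [TENS_L_apply, TENS_B]
  rw [sum_comm]
  refine sum_congr rfl fun x _ => sum_congr rfl fun y _ => ?_
  rw [mul_comm (u y)]
  congr 1
  exact prod_congr rfl fun j _ => TENS_Kl_comm _ _ _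

theorem TENS_sum_cons (f : Vec (M + 1) k → ℝ) :
    ∑ x, f x = ∑ a : Option (Fin k), ∑ x : Vec M k, f (Fin.cons a x : Vec (M + 1) k) := by
  rw [← (Fin.consEquiv (fun _ : Fin (M + 1) => Option (Fin k))).sum_comp f, Fintype.sum_prod_type]
  rfl

/-- slices -/
def TENS_sl (c : Vec (M + 1) k → ℝ) (a : Option (Fin k)) : Vec M k → ℝ :=
  fun x => c (Fin.cons a x : Vec (M + 1) k)

theorem TENS_B_succ (α : Fin (M + 1) → ℝ) (c : Vec (M + 1) k → ℝ) :
    TENS_B α c c = ∑ a : Option (Fin k), ∑ b : Option (Fin k),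
      Kl (α 0) a b * TENS_L (Fin.tail α) (TENS_sl c a) (TENS_sl c b) := by
  simp only [TENS_B, TENS_L_apply]
  rw [TENS_sum_cons]
  refine sum_congr rfl fun a _ => ?_
  simp only [TENS_sum_cons (M := M)]
  rw [sum_comm]
  refine sum_congr rfl fun b _ => ?_
  rw [mul_sum]
  refine sum_congr rfl fun x _ => ?_
  rw [mul_sum]
  refine sum_congr rfl fun y _ => ?_
  simp only [Fin.prod_univ_succ, Fin.cons_zero, Fin.cons_succ, TENS_sl, Fin.tail]
  ring

theorem TENS_B_succ' (α : Fin (M + 1) → ℝ) (c : Vec (M + 1) k → ℝ) :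
    TENS_B α c c =
      TENS_L (Fin.tail α) (TENS_sl c none + α 0 • ∑ i : Fin k, TENS_sl c (some i))
        (TENS_sl c none + α 0 • ∑ i : Fin k, TENS_sl c (some i))
      + α 0 * ∑ i : Fin k, TENS_L (Fin.tail α) (TENS_sl c (some i)) (TENS_sl c (some i))
      - α 0 ^ 2 * TENS_L (Fin.tail α) (∑ i : Fin k, TENS_sl c (some i))
          (∑ i : Fin k, TENS_sl c (some i)) := by
  rw [TENS_B_succ]
  set S := ∑ i : Fin k, TENS_sl c (some i) with hS
  set L := TENS_L (M := M) (k := k) (Fin.tail α) with hL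
  have e1 : ∑ b : Fin k, Kl (α 0) none (some b) * L (TENS_sl c none) (TENS_sl c (some b)) =
      α 0 * L (TENS_sl c none) S := by
    rw [hS, map_sum, mul_sum]
    exact sum_congr rfl fun i _ => by simp [Kl]
  have e2 : ∑ b : Fin k, Kl (α 0) (some b) none * L (TENS_sl c (some b)) (TENS_sl c none) =
      α 0 * L (TENS_sl c none) S := by
    rw [hS, map_sum, mul_sum]
    refine sum_congr rfl fun i _ => ?_
    rw [hL, TENS_L_comm]
    simp [Kl]
  have e3 : ∑ a : Fin k, ∑ b : Fin k,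
      Kl (α 0) (some a) (some b) * L (TENS_sl c (some a)) (TENS_sl c (some b)) =
      α 0 * ∑ i : Fin k, L (TENS_sl c (some i)) (TENS_sl c (some i)) := by
    rw [mul_sum]
    refine sum_congr rfl fun i _ => ?_
    rw [sum_eq_single i]
    · simp [Kl]
    · intro b _ hb
      simp [Kl, Ne.symm hb]
    · simp
  have e0 : L S (TENS_sl c none) = L (TENS_sl c none) S := by rw [hL, TENS_L_comm]
  simp only [Fintype.sum_option, sum_add_distrib, e1, e2, e3]
  simp only [map_add, map_smul, LinearMap.add_apply, LinearMap.smul_apply, smul_eq_mul, e0]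
  simp only [Kl]
  ring

/-- the diagonal form -/
noncomputable def TENS_R (α β : Fin M → ℝ) (u : Vec M k → ℝ) : ℝ :=
  ∑ r, tr α u r ^ 2 * ∏ j, om (β j) (r j)

theorem TENS_tr_add (α : Fin M → ℝ) (u v : Vec M k → ℝ) (r : Vec M k) :
    tr α (u + v) r = tr α u r + tr α v r := by
  simp only [tr, Pi.add_apply, add_mul, sum_add_distrib]

theorem TENS_tr_smul (α : Fin M → ℝ) (a : ℝ) (v : Vec M k → ℝ) (r : Vec M k) :
    tr α (a • v) r = a * tr α v r := by
  simp only [tr, Pi.smul_apply, smul_eq_mul, mul_sum, mul_assoc]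

theorem TENS_tr_sum (α : Fin M → ℝ) (v : Fin k → Vec M k → ℝ) (r : Vec M k) :
    tr α (∑ i, v i) r = ∑ i, tr α (v i) r := by
  simp only [tr, Finset.sum_apply, sum_mul]
  rw [sum_comm]

theorem TENS_tr_succ (α : Fin (M + 1) → ℝ) (c : Vec (M + 1) k → ℝ) (a : Option (Fin k))
    (r : Vec M k) :
    tr α c (Fin.cons a r : Vec (M + 1) k) =
      ∑ b : Option (Fin k), Al (α 0) a b * tr (Fin.tail α) (TENS_sl c b) r := by
  simp only [tr]
  rw [TENS_sum_cons]
  refine sum_congr rfl fun b _ => ?_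
  rw [mul_sum]
  refine sum_congr rfl fun x _ => ?_
  simp only [Fin.prod_univ_succ, Fin.cons_zero, Fin.cons_succ, TENS_sl, Fin.tail]
  ring

theorem TENS_tr_none (α : Fin (M + 1) → ℝ) (c : Vec (M + 1) k → ℝ) (r : Vec M k) :
    tr α c (Fin.cons none r : Vec (M + 1) k) =
      tr (Fin.tail α) (TENS_sl c none + α 0 • ∑ i : Fin k, TENS_sl c (some i)) r := by
  rw [TENS_tr_succ, TENS_tr_add, TENS_tr_smul, TENS_tr_sum, Fintype.sum_option, mul_sum]
  simp [Al]

theorem TENS_tr_some (α : Fin (M + 1) → ℝ) (c : Vec (M + 1) k → ℝ) (i : Fin k) (r : Vec M k) :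
    tr α c (Fin.cons (some i) r : Vec (M + 1) k) = tr (Fin.tail α) (TENS_sl c (some i)) r := by
  rw [TENS_tr_succ, Fintype.sum_option, sum_eq_single i]
  · simp [Al]
  · intro b _ hb
    simp [Al, Ne.symm hb]
  · simp

theorem TENS_R_succ (α β : Fin (M + 1) → ℝ) (c : Vec (M + 1) k → ℝ) :
    TENS_R α β c =
      TENS_R (Fin.tail α) (Fin.tail β) (TENS_sl c none + α 0 • ∑ i : Fin k, TENS_sl c (some i))
      + β 0 * ∑ i : Fin k, TENS_R (Fin.tail α) (Fin.tail β) (TENS_sl c (some i)) := by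
  simp only [TENS_R]
  rw [TENS_sum_cons, Fintype.sum_option]
  congr 1
  · refine sum_congr rfl fun r _ => ?_
    rw [TENS_tr_none]
    simp only [Fin.prod_univ_succ, Fin.cons_zero, Fin.cons_succ, om, Fin.tail, one_mul]
  · rw [mul_sum]
    refine sum_congr rfl fun i _ => ?_
    rw [mul_sum]
    refine sum_congr rfl fun r _ => ?_
    rw [TENS_tr_some]
    simp only [Fin.prod_univ_succ, Fin.cons_zero, Fin.cons_succ, om, Fin.tail]
    ring

theorem TENS_R_nonneg (α β : Fin M → ℝ) (hβ : ∀ j, 0 ≤ β j) (u : Vec M k → ℝ) :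
    0 ≤ TENS_R α β u := by
  refine sum_nonneg fun r _ => mul_nonneg (sq_nonneg _) (prod_nonneg fun j _ => ?_)
  cases r j <;> simp [om, hβ]

theorem TENS_cs (L : (Vec M k → ℝ) →ₗ[ℝ] (Vec M k → ℝ) →ₗ[ℝ] ℝ) (hc : ∀ u v, L u v = L v u)
    (hp : ∀ u, 0 ≤ L u u) (v : Fin k → Vec M k → ℝ) :
    L (∑ i, v i) (∑ i, v i) ≤ k * ∑ i, L (v i) (v i) := by
  have h : 0 ≤ ∑ i, ∑ j, L (v i - v j) (v i - v j) :=
    sum_nonneg fun i _ => sum_nonneg fun j _ => hp _
  have e : ∀ i j, L (v i - v j) (v i - v j) =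
      L (v i) (v i) + L (v j) (v j) - 2 * L (v i) (v j) := by
    intro i j
    simp only [map_sub, LinearMap.sub_apply]
    rw [hc (v j) (v i)]
    ring
  have e2 : ∑ i, ∑ j, L (v i) (v j) = L (∑ i, v i) (∑ i, v i) := by
    simp only [map_sum, LinearMap.sum_apply]
    rw [sum_comm]
  simp only [e, sum_sub_distrib, sum_add_distrib, ← mul_sum, e2, sum_const, card_univ,
    Fintype.card_fin, nsmul_eq_mul] at h
  linarith

theorem TENS_main : ∀ (M : ℕ) (α : Fin M → ℝ) (_ : ∀ j, 0 ≤ α j) (_ : ∀ j, (k : ℝ) * α j ≤ 1)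
    (c : Vec M k → ℝ), TENS_B α c c ≤ TENS_R α α c ∧
      TENS_R α (fun j => α j * (1 - k * α j)) c ≤ TENS_B α c c := by
  intro M
  induction M with
  | zero =>
    intro α _ _ c
    simp [TENS_B, TENS_R, tr, sq]
  | succ M ih =>
    intro α h0 h1 c
    have h0' : ∀ j, 0 ≤ Fin.tail α j := fun j => h0 _
    have h1' : ∀ j, (k : ℝ) * Fin.tail α j ≤ 1 := fun j => h1 _
    have hU : ∀ u, TENS_L (Fin.tail α) u u ≤ TENS_R (Fin.tail α) (Fin.tail α) u := fun u =>
      (ih (Fin.tail α) h0' h1' u).1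
    have hLo : ∀ u, TENS_R (Fin.tail α) (fun j => Fin.tail α j * (1 - k * Fin.tail α j)) u ≤
      TENS_L (Fin.tail α) u u := fun u => (ih (Fin.tail α) h0' h1' u).2
    have hp : ∀ u : Vec M k → ℝ, 0 ≤ TENS_L (Fin.tail α) u u := fun u =>
      (TENS_R_nonneg _ _ (fun j => mul_nonneg (h0' j) (by linarith [h1' j])) u).trans (hLo u)
    have htail : Fin.tail (fun j => α j * (1 - k * α j)) =
      (fun j => Fin.tail α j * (1 - k * Fin.tail α j)) := rfl
    constructor
    · rw [TENS_B_succ', TENS_R_succ]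
      have a1 := hU (TENS_sl c none + α 0 • ∑ i : Fin k, TENS_sl c (some i))
      have a2 : ∑ i : Fin k, TENS_L (Fin.tail α) (TENS_sl c (some i)) (TENS_sl c (some i)) ≤
        ∑ i : Fin k, TENS_R (Fin.tail α) (Fin.tail α) (TENS_sl c (some i)) :=
        sum_le_sum fun i _ => hU _
      have a3 := hp (∑ i : Fin k, TENS_sl c (some i))
      have a4 := mul_le_mul_of_nonneg_left a2 (h0 0)
      have a5 := mul_nonneg (sq_nonneg (α 0)) a3
      linarith
    · rw [TENS_B_succ', TENS_R_succ, htail]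
      have a1 := hLo (TENS_sl c none + α 0 • ∑ i : Fin k, TENS_sl c (some i))
      have a2 : ∑ i : Fin k, TENS_R (Fin.tail α)
          (fun j => Fin.tail α j * (1 - k * Fin.tail α j)) (TENS_sl c (some i)) ≤
        ∑ i : Fin k, TENS_L (Fin.tail α) (TENS_sl c (some i)) (TENS_sl c (some i)) :=
        sum_le_sum fun i _ => hLo _
      have a3 := TENS_cs (TENS_L (Fin.tail α)) (TENS_L_comm _) hp
        (fun i : Fin k => TENS_sl c (some i))
      have a4 := mul_le_mul_of_nonneg_left a2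
        (mul_nonneg (h0 0) (by linarith [h1 0] : (0 : ℝ) ≤ 1 - k * α 0))
      have a5 := mul_le_mul_of_nonneg_left a3 (sq_nonneg (α 0))
      nlinarith

theorem tensor_upper (α : Fin M → ℝ) (h0 : ∀ j, 0 ≤ α j) (h1 : ∀ j, (k : ℝ) * α j ≤ 1)
    (c : Vec M k → ℝ) :
    ∑ x, ∑ y, c x * c y * ∏ j, Kl (α j) (x j) (y j) ≤ ∑ r, tr α c r ^ 2 * ∏ j, om (α j) (r j) :=
  (TENS_main M α h0 h1 c).1

theorem tensor_lower (α : Fin M → ℝ) (h0 : ∀ j, 0 ≤ α j) (h1 : ∀ j, (k : ℝ) * α j ≤ 1)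
    (c : Vec M k → ℝ) :
    ∑ r, tr α c r ^ 2 * ∏ j, om (α j * (1 - k * α j)) (r j) ≤
      ∑ x, ∑ y, c x * c y * ∏ j, Kl (α j) (x j) (y j) :=
  (TENS_main M α h0 h1 c).2

end Pool.Agent.BG
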