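import Pool.Agent.Lib_helper23.BGF.NUM
/-! Common lemmas for the assembly. -/

set_option autoImplicit false

namespace Pool.Agent.BG

open Finset Filter
open scoped Classical

lemma FL_log_pow (m : ℕ) (C δ : ℝ) (hδ : 0 < δ) :
    ∀ᶠ N : ℕ in atTop, C * Real.log N ^ m ≤ (N : ℝ) ^ δ := by
  have h1 := (isLittleO_log_rpow_rpow_atTop (m : ℝ) hδ)
  have h2 := h1.def (c := 1 / (|C| + 1)) (by positivity)
  have h3 := tendsto_natCast_atTop_atTop (R := ℝ) |>.eventually h2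
  filter_upwards [h3, eventually_ge_atTop 1] with N hN hN1
  have hN1' : (1:ℝ) ≤ N := by exact_mod_cast hN1
  have hl : 0 ≤ Real.log N := Real.log_nonneg hN1'
  rw [Real.norm_of_nonneg (by positivity), Real.norm_of_nonneg (by positivity),
    Real.rpow_natCast] at hN
  have h4 : C * Real.log N ^ m ≤ (|C| + 1) * Real.log N ^ m := by
    apply mul_le_mul_of_nonneg_right _ (by positivity)
    have := le_abs_self C
    linarith
  refine h4.trans ?_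
  calc (|C| + 1) * Real.log N ^ m ≤ (|C| + 1) * (1 / (|C| + 1) * (N : ℝ) ^ δ) :=
        mul_le_mul_of_nonneg_left hN (by positivity)
    _ = (N : ℝ) ^ δ := by field_simp

lemma FL_log_large (K : ℝ) : ∀ᶠ N : ℕ in atTop, K ≤ Real.log N :=
  (Real.tendsto_log_atTop.comp tendsto_natCast_atTop_atTop).eventually_ge_atTop K

/-- facts about an enumeration -/
lemma FL_enum {M k w₀ : ℕ} {h : Fin k → ℕ} {W ν N : ℕ} {P : Fin M → ℕ}
    (hs : Setup k w₀ h W ν) (hE : Enum P W N) :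
    (∀ j, (P j).Prime) ∧ Function.Injective P ∧ (∀ j, Nat.Coprime (P j) W) ∧
      (∀ j i l, i ≠ l → ¬ ((P j : ℤ) ∣ (h i : ℤ) - h l)) ∧ (∀ j, P j ≤ N) ∧
      (∀ j, w₀ < P j) := by
  have h1 : ∀ j, (P j).Prime ∧ P j ≤ N ∧ ¬ P j ∣ W := fun j => (hE.2 (P j)).1 ⟨j, rfl⟩
  refine ⟨fun j => (h1 j).1, hE.1, fun j => ((h1 j).1.coprime_iff_not_dvd).2 (h1 j).2.2, ?_,
    fun j => (h1 j).2.1, ?_⟩
  · intro j i l hil hd
    exact (h1 j).2.2 (hs.2.2.2.1 (P j) (h1 j).1 i l hil hd)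
  · intro j
    by_contra hcon
    push Not at hcon
    exact (h1 j).2.2 (hs.2.2.1 (P j) (h1 j).1 hcon)

lemma FL_setup {k w₀ w₁ : ℕ} {h : Fin k → ℕ} {W ν : ℕ} (hs : Setup k w₀ h W ν)
    (hw : w₁ ≤ w₀) : Setup k w₁ h W ν :=
  ⟨hs.1, hs.2.1, fun p hp hle => hs.2.2.1 p hp (hle.trans hw), hs.2.2.2.1, hs.2.2.2.2⟩

/-- the conclusions of `num` for our parameters -/
def FL_Num (J k N M : ℕ) (P : Fin M → ℕ) (f : ℝ) : Prop :=
  let ℓ := Real.log N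
  let u : ℝ := 1 / (2000 * k * (J + 1))
  let g := gg J k N
  (99 / 100) * (f * ℓ * u * (J / 2 + 1)) ≤ Gsum P g ∧
  (99 / 100) * (f * ℓ * u) ≤ Gsum P (fun a => g a ^ 2) ∧
  Gsum P (fun a => g a ^ 2 * Real.log a) ≤ (101 / 100) * (f * ℓ * u * ((J + 1) * u * ℓ)) ∧
  Gsum P (fun a => g a ^ 2 * Real.log a ^ 2) ≤ (101 / 100) * (f * ℓ * u * (2 ^ J * (u * ℓ) ^ 2)) ∧
  (99 / 100) * (f * (6 / 25 * ℓ)) ≤
    Gsum P (fun n => if (n : ℝ) ≤ (N : ℝ) ^ (6 / 25 : ℝ) then 1 else 0) ∧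
  1 ≤ Gsum P g ∧ 1 ≤ Gsum P (fun a => g a ^ 2) ∧ Sg2 P ≤ 1 / (10 ^ 4 * k ^ 2)

lemma FL_num (J k : ℕ) (hk : 650 * 2 ^ J ≤ k) : ∃ w₀ : ℕ, k + 1 ≤ w₀ ∧
    ∀ (h : Fin k → ℕ) (W ν : ℕ), Setup k w₀ h W ν → ∀ᶠ N : ℕ in atTop,
      ∀ (M : ℕ) (P : Fin M → ℕ), Enum P W N → FL_Num J k N M P ((W.totient : ℝ) / W) := by
  have h2J : 0 < 2 ^ J := by positivity
  have hk0 : 0 < k := by omega
  have hkr : (0:ℝ) < k := by exact_mod_cast hk0
  have hu0 : (0:ℝ) < 1 / (2000 * k * (J + 1)) := by positivity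
  have hu1 : 2 ^ J * (1 / (2000 * k * (J + 1)) : ℝ) ≤ 1 := by
    rw [mul_one_div, div_le_one (by positivity)]
    have h1 : (650 : ℝ) * 2 ^ J ≤ k := by exact_mod_cast hk
    have h2 : (0:ℝ) < 2 ^ J := by positivity
    have h3 : (0:ℝ) ≤ J := by positivity
    nlinarith
  obtain ⟨w1, hw1⟩ := num (1 / 100) (by norm_num) (by norm_num) J (1 / (2000 * k * (J + 1))) hu0 hu1
  obtain ⟨w2, hw2⟩ := Sg2_le (1 / (10 ^ 4 * k ^ 2)) (by positivity)
  refine ⟨max (k + 1) (max w1 w2), le_max_left _ _, fun h W ν hs => ?_⟩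
  have hWpos : 0 < W := Nat.pos_of_ne_zero hs.2.1.ne_zero
  have hWr : (0:ℝ) < W := by exact_mod_cast hWpos
  have hφr : (0:ℝ) < W.totient := by exact_mod_cast Nat.totient_pos.2 hWpos
  have e1 := hw1 W hWpos (FL_setup hs (w₁ := w1) (by simp)).2.2.1
  have e2 : ∀ (N M : ℕ) (P : Fin M → ℕ), Enum P W N → Sg2 P ≤ 1 / (10 ^ 4 * k ^ 2) :=
    fun N M P hE => hw2 M W N P (FL_setup hs (w₁ := w2) (by simp)).2.2.1 hE
  have e3 := FL_log_large (100 / 99 / ((W.totient : ℝ) / W * (1 / (2000 * k * (J + 1)))))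
  filter_upwards [e1, e3, eventually_ge_atTop 2] with N h1 h3 hN M P hE
  obtain ⟨n1, -, n3, -, n5, n6, n7⟩ := h1 M P hE
  have h4 := e2 N M P hE
  have hf : (0:ℝ) < (W.totient : ℝ) / W := by positivity
  rw [div_le_iff₀ (by positivity)] at h3
  have hG2 : 1 ≤ Gsum P (fun a => gg J k N a ^ 2) := by
    refine le_trans ?_ n3
    nlinarith
  have hG1 : 1 ≤ Gsum P (gg J k N) := by
    refine le_trans ?_ n1
    have hJ : (0:ℝ) ≤ J := by positivity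
    have : (1:ℝ) ≤ (99 / 100) * (((W.totient : ℝ) / W * Real.log N * (1 / (2000 * k * (J + 1))))) := by
      nlinarith
    nlinarith
  refine ⟨?_, ?_, ?_, ?_, ?_, hG1, hG2, h4⟩
  · refine le_trans (le_of_eq ?_) n1
    norm_num
  · refine le_trans (le_of_eq ?_) n3
    norm_num
  · refine n5.trans (le_of_eq ?_)
    norm_num
  · refine n6.trans (le_of_eq ?_)
    norm_num
  · refine le_trans (le_of_eq ?_) n7
    norm_num

/-- bounds for `e^{k Sg2}` -/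
lemma FL_exp {x : ℝ} (hx : 0 ≤ x) (hx1 : x ≤ 1) : Real.exp x ≤ 1 + 2 * x := by
  have h := Real.abs_exp_sub_one_le (x := x) (by rw [abs_of_nonneg hx]; exact hx1)
  rw [abs_of_nonneg hx] at h
  have := abs_le.1 h
  linarith [this.2]

lemma FL_Sg2_nonneg {M : ℕ} (P : Fin M → ℕ) : 0 ≤ Sg2 P :=
  Finset.sum_nonneg fun j _ => sq_nonneg _

lemma FL_ZZ_one {N : ℕ} (hN : 1 ≤ N) : 1 ≤ ZZ N :=
  Real.one_le_rpow (by exact_mod_cast hN) (by norm_num)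

lemma FL_ZZ_log {N : ℕ} (hN : 1 ≤ N) : Real.log (ZZ N) = 1 / 400 * Real.log N := by
  unfold ZZ
  rw [Real.log_rpow (by exact_mod_cast hN)]

lemma FL_gg_hyp (J k : ℕ) {N : ℕ} (hN : 1 ≤ N) : GHyp (gg J k N) := by
  apply gst_hyp
  have : 0 ≤ Real.log N := Real.log_nonneg (by exact_mod_cast hN)
  positivity

end Pool.Agent.BG
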