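import Pool.Agent.Lib_helper23.BGF.BVAUX
import Pool.Agent.Lib_helper23.BGF.ERRSIZE
import Pool.Agent.Lib_helper23.BGF.FLem
/-! Common lemmas for the prime sums. -/

set_option autoImplicit false

namespace Pool.Agent.BG

open Finset Filter
open scoped Classical

variable {M k : ℕ}

/-- restriction of the coefficients does not change the weight when `n + h m` is a prime that
is larger than all `P j` -/
lemma FL_restrict (P : Fin M → ℕ) (h : Fin k → ℕ) (F : Finset (Fin k)) (c c' : Vec M k → ℝ)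
    (n : ℕ) (hcc : ∀ x, Avoid F x → c' x = c x)
    (hno : ∀ x, Sat P h n x → ¬ Avoid F x → c x = 0 ∧ c' x = 0) :
    Wn P h c n = Wn P h c' n := by
  unfold Wn
  congr 1
  refine Finset.sum_congr rfl fun x _ => ?_
  by_cases hs : Sat P h n x
  · rw [if_pos hs, if_pos hs]
    by_cases ha : Avoid F x
    · exact (hcc x ha).symm
    · obtain ⟨h1, h2⟩ := hno x hs ha
      rw [h1, h2]
  · rw [if_neg hs, if_neg hs]

lemma FL_sat_prime (P : Fin M → ℕ) (hP : ∀ j, (P j).Prime) (h : Fin k → ℕ) (m : Fin k) (n : ℕ)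
    (hn : (n + h m).Prime) (hbig : ∀ j, P j < n + h m) (x : Vec M k) (hs : Sat P h n x) :
    ∀ j, x j ≠ some m := by
  intro j hj
  have h1 := hs j m hj
  have h2 := (Nat.prime_dvd_prime_iff_eq (hP j) hn).1 h1
  have h3 := hbig j
  omega

lemma FL_Wn_nonneg (P : Fin M → ℕ) (h : Fin k → ℕ) (c : Vec M k → ℝ) (n : ℕ) :
    0 ≤ Wn P h c n := sq_nonneg _

lemma FL_Emax_nonneg (u q : ℕ) : 0 ≤ Emax u q := NNReal.coe_nonneg _

/-- the error term in the prime sums -/
lemma FL_err {w₀ A D : ℕ} {h : Fin k → ℕ} {W ν N : ℕ} {P : Fin M → ℕ}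
    (hs : Setup k w₀ h W ν) (hE : Enum P W N) (hgood : Good A D N) (hD : D = 4 * (k + 1) ^ 2)
    (m : Fin k) (hN : N + h m ≤ 3 * N) (hN2 : 2 * N + h m ≤ 3 * N)
    (B Z : ℝ) (hB : 0 ≤ B) (hZ1 : 1 ≤ Z) (hlev : W * Z ^ 2 ≤ (N : ℝ) ^ (49 / 100 : ℝ))
    (c : Vec M k → ℝ) (hc : ∀ x, |c x| ≤ B * (2 : ℝ) ^ sc x) (hZ : ∀ x, c x ≠ 0 → (dv P x : ℝ) ≤ Z) :
    ∑ x, ∑ y, |c x| * |c y| *
        (Emax (2 * N + h m) (W * dv2 P x y) + Emax (N + h m) (W * dv2 P x y)) ≤
      B ^ 2 * (2 * (N / Real.log N ^ A)) := by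
  obtain ⟨hP, hinj, hPW, hd, hPN, hPw⟩ := FL_enum hs hE
  have h1 := err_sum P hP hinj W hs.2.1 hPW 2 (by norm_num) B Z hB hZ1 c
    (fun x => by exact_mod_cast hc x) hZ
    (fun q => Emax (2 * N + h m) q + Emax (N + h m) q)
    (fun q => add_nonneg (FL_Emax_nonneg _ _) (FL_Emax_nonneg _ _))
  refine h1.trans (mul_le_mul_of_nonneg_left ?_ (sq_nonneg _))
  have h2 : ((((k + 1) ^ 2 * 2 ^ 2 : ℕ) : ℝ)) = (D : ℝ) := by
    rw [hD]; push_cast; ring
  rw [h2]
  have hsub : sqf (W * Z ^ 2) ⊆ sqf ((N : ℝ) ^ (49 / 100 : ℝ)) := by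
    unfold sqf
    apply Finset.filter_subset_filter
    apply Finset.Icc_subset_Icc_right
    exact Nat.floor_le_floor hlev
  calc ∑ q ∈ sqf (W * Z ^ 2), (D : ℝ) ^ q.primeFactors.card *
        (Emax (2 * N + h m) q + Emax (N + h m) q)
      ≤ ∑ q ∈ sqf ((N : ℝ) ^ (49 / 100 : ℝ)), (D : ℝ) ^ q.primeFactors.card *
        (Emax (2 * N + h m) q + Emax (N + h m) q) := by
        apply Finset.sum_le_sum_of_subset_of_nonneg hsub
        intro q _ _
        have := FL_Emax_nonneg (2 * N + h m) q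
        have := FL_Emax_nonneg (N + h m) q
        positivity
    _ = ∑ q ∈ sqf ((N : ℝ) ^ (49 / 100 : ℝ)), (D : ℝ) ^ q.primeFactors.card *
          Emax (2 * N + h m) q + ∑ q ∈ sqf ((N : ℝ) ^ (49 / 100 : ℝ)),
          (D : ℝ) ^ q.primeFactors.card * Emax (N + h m) q := by
        rw [← Finset.sum_add_distrib]
        refine Finset.sum_congr rfl fun q _ => by ring
    _ ≤ 2 * (N / Real.log N ^ A) := by
        have e1 := hgood (2 * N + h m) hN2
        have e2 := hgood (N + h m) hN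
        linarith

/-- `log (2 N + h) ≤ (1 + 1/1000) log N` -/
lemma FL_log_two (h : ℕ) : ∀ᶠ N : ℕ in atTop,
    Real.log ((2 * N + h : ℕ) : ℝ) ≤ (1 + 1 / 1000) * Real.log N := by
  filter_upwards [FL_log_large (1000 * Real.log 3), eventually_ge_atTop (h + 1)] with N h1 hN
  have hNr : (0:ℝ) < N := by exact_mod_cast (show 0 < N by omega)
  have h2 : ((2 * N + h : ℕ) : ℝ) ≤ 3 * N := by
    exact_mod_cast (show 2 * N + h ≤ 3 * N by omega)
  have h3 : (0:ℝ) < ((2 * N + h : ℕ) : ℝ) := by exact_mod_cast (show 0 < 2 * N + h by omega)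
  calc Real.log ((2 * N + h : ℕ) : ℝ) ≤ Real.log (3 * N) := Real.log_le_log h3 h2
    _ = Real.log 3 + Real.log N := Real.log_mul (by norm_num) hNr.ne'
    _ ≤ _ := by linarith

/-- window of theta -/
lemma FL_th (h : ℕ) : ∀ᶠ N : ℕ in atTop,
    (999 / 1000 : ℝ) * N ≤ th (2 * N + h) - th (N + h) ∧
      th (2 * N + h) - th (N + h) ≤ (1001 / 1000) * N := by
  have h1 := th_window h
  have h2 := h1.eventually (eventually_ge_nhds (show (999 / 1000 : ℝ) < 1 by norm_num))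
  have h3 := h1.eventually (eventually_le_nhds (show (1 : ℝ) < 1001 / 1000 by norm_num))
  filter_upwards [h2, h3, eventually_ge_atTop 1] with N h4 h5 hN
  have hNr : (0:ℝ) < N := by exact_mod_cast hN
  rw [le_div_iff₀ hNr] at h4
  rw [div_le_iff₀ hNr] at h5
  exact ⟨h4, h5⟩

/-- a power of the logarithm in the error terms -/
lemma FL_logB {N : ℕ} (Z : ℝ) (hZ1 : 1 ≤ Z) (hZ : 1 + Real.log Z ≤ Real.log N) (m A : ℕ)
    (hm : m + 10 ≤ A) (hN : 1 ≤ Real.log N) (hN1 : 1 ≤ N) :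
    (1 + Real.log Z) ^ m * (2 * (N / Real.log N ^ A)) ≤ 2 * (N / Real.log N ^ 10) := by
  have h0 : 0 ≤ Real.log Z := Real.log_nonneg hZ1
  have h1 : (1 + Real.log Z) ^ m ≤ Real.log N ^ m := pow_le_pow_left₀ (by linarith) hZ m
  have h2 : Real.log N ^ m * Real.log N ^ 10 ≤ Real.log N ^ A := by
    rw [← pow_add]
    exact pow_le_pow_right₀ hN hm
  have hNr : (0:ℝ) < N := by exact_mod_cast hN1
  calc (1 + Real.log Z) ^ m * (2 * (N / Real.log N ^ A))
      ≤ Real.log N ^ m * (2 * (N / Real.log N ^ A)) :=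
        mul_le_mul_of_nonneg_right h1 (by positivity)
    _ = 2 * N * (Real.log N ^ m / Real.log N ^ A) := by ring
    _ ≤ 2 * N * (1 / Real.log N ^ 10) := by
        apply mul_le_mul_of_nonneg_left _ (by positivity)
        rw [div_le_div_iff₀ (by positivity) (by positivity)]
        linarith
    _ = 2 * (N / Real.log N ^ 10) := by ring

end Pool.Agent.BG
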