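import Pool.Agent.Lib_helper23.BG.Defs
/-! Block INV: the transforms -/

set_option autoImplicit false

namespace Pool.Agent.BG

open Finset Filter
open scoped Classical

variable {M k : ℕ}

theorem INV_sum_prod (f : Fin M → Option (Fin k) → ℝ) :
    ∑ x : Vec M k, ∏ j, f j (x j) = ∏ j, ∑ t, f j t := by
  rw [Finset.prod_univ_sum]
  rw [Fintype.piFinset_univ]

theorem INV_comp (A B C : Fin M → Option (Fin k) → Option (Fin k) → ℝ)
    (h : ∀ j r s, ∑ t, A j r t * B j t s = C j r s) (r s : Vec M k) :
    ∑ x : Vec M k, (∏ j, A j (r j) (x j)) * (∏ j, B j (x j) (s j)) = ∏ j, C j (r j) (s j) := by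
  have h1 : ∀ x : Vec M k, (∏ j, A j (r j) (x j)) * (∏ j, B j (x j) (s j)) =
      ∏ j, (fun j t => A j (r j) t * B j t (s j)) j (x j) := by
    intro x
    rw [← Finset.prod_mul_distrib]
  rw [Finset.sum_congr rfl (fun x _ => h1 x),
    INV_sum_prod (fun j t => A j (r j) t * B j t (s j))]
  exact Finset.prod_congr rfl (fun j _ => h j _ _)

theorem INV_delta (r s : Vec M k) :
    (∏ j, (if r j = s j then (1 : ℝ) else 0)) = if r = s then 1 else 0 := by
  by_cases h : r = s
  · subst h; simp
  · rw [if_neg h]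
    obtain ⟨j, hj⟩ := Function.ne_iff.mp h
    exact Finset.prod_eq_zero (Finset.mem_univ j) (if_neg hj)

theorem INV_local (a : ℝ) (r s : Option (Fin k)) :
    ∑ t, Al a r t * Al (-a) t s = if r = s then 1 else 0 := by
  rw [Fintype.sum_option]
  rcases r with _ | i <;> rcases s with _ | l
  · simp [Al]
  · simp [Al]
  · simp [Al]
  · simp [Al]

theorem INV_local' (a : ℝ) (r s : Option (Fin k)) :
    ∑ t, Al (-a) r t * Al a t s = if r = s then 1 else 0 := by
  have := INV_local (-a) r s
  rwa [neg_neg] at this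

theorem tr_itr (α : Fin M → ℝ) (y : Vec M k → ℝ) : tr α (itr α y) = y := by
  funext r
  unfold tr itr
  have h1 : ∀ x : Vec M k, (∑ s, y s * ∏ j, Al (-(α j)) (x j) (s j)) * ∏ j, Al (α j) (r j) (x j) =
      ∑ s, y s * ((∏ j, Al (α j) (r j) (x j)) * ∏ j, Al (-(α j)) (x j) (s j)) := by
    intro x
    rw [Finset.sum_mul]
    exact Finset.sum_congr rfl (fun s _ => by ring)
  rw [Finset.sum_congr rfl (fun x _ => h1 x), Finset.sum_comm]
  have h2 : ∀ s : Vec M k, ∑ x : Vec M k,
      y s * ((∏ j, Al (α j) (r j) (x j)) * ∏ j, Al (-(α j)) (x j) (s j)) =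
      y s * if r = s then 1 else 0 := by
    intro s
    rw [← Finset.mul_sum]
    rw [INV_comp (fun j => Al (α j)) (fun j => Al (-(α j)))
      (fun j r s => if r = s then (1 : ℝ) else 0) (fun j r s => INV_local (α j) r s)]
    rw [INV_delta]
  rw [Finset.sum_congr rfl (fun s _ => h2 s)]
  simp

theorem itr_tr (α : Fin M → ℝ) (c : Vec M k → ℝ) : itr α (tr α c) = c := by
  have h := tr_itr (fun j => -(α j)) c
  have h1 : itr (fun j => -(α j)) c = tr α c := by
    funext x; unfold itr tr; simp
  have h2 : tr (fun j => -(α j)) (tr α c) = itr α (tr α c) := by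
    funext x; unfold itr; rfl
  rw [h1, h2] at h
  exact h

theorem INV_avoid (F : Finset (Fin k)) (x : Vec M k) :
    (∏ j, (if ∀ i ∈ F, x j ≠ some i then (1 : ℝ) else 0)) = if Avoid F x then 1 else 0 := by
  by_cases h : Avoid F x
  · rw [if_pos h]
    exact Finset.prod_eq_one (fun j _ => if_pos (h j))
  · rw [if_neg h]
    unfold Avoid at h
    push Not at h
    obtain ⟨j, i, hi, hj⟩ := h
    refine Finset.prod_eq_zero (Finset.mem_univ j) (if_neg ?_)
    push Not
    exact ⟨i, hi, hj⟩

theorem INV_local_restr (F : Finset (Fin k)) (p : ℕ) (hp : p.Prime) (r s : Option (Fin k)) :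
    (if s = none then (1 : ℝ) else -(1 + 1 / ((p : ℝ) - 1))) *
      (∑ t, Al (1 / ((p : ℝ) - 1)) r t *
        ((if ∀ i ∈ F, t ≠ some i then (1 : ℝ) else 0) * Al (-(1 / (p : ℝ))) t s)) =
      (if ∀ i ∈ F, r ≠ some i then (1 : ℝ) else 0) *
        ((if r = none then (1 : ℝ) else -(1 + 1 / ((p : ℝ) - 1))) *
          Tl F (1 / ((p : ℝ) - 1)) r s) := by
  have hp1 : (1 : ℝ) < p := by exact_mod_cast hp.one_lt
  have hp0 : (p : ℝ) ≠ 0 := by positivity
  have hp2 : (p : ℝ) - 1 ≠ 0 := by linarith
  rw [Fintype.sum_option]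
  rcases r with _ | i <;> rcases s with _ | l
  · simp [Al, Tl]
  · by_cases hl : l ∈ F
    · have h3 : ∀ t : Fin k, Al (1 / ((p : ℝ) - 1)) none (some t) *
        ((if ∀ i ∈ F, some t ≠ some i then (1 : ℝ) else 0) * Al (-(1 / (p : ℝ))) (some t) (some l))
          = 0 := by
        intro t
        by_cases htl : t = l
        · subst htl
          rw [if_neg]
          · simp
          · push Not
            exact ⟨t, hl, rfl⟩
        · simp [Al, htl]
      rw [Finset.sum_congr rfl (fun t _ => h3 t)]
      simp [Al, Tl, hl]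
      field_simp
      ring
    · have h3 : ∀ t : Fin k, Al (1 / ((p : ℝ) - 1)) none (some t) *
        ((if ∀ i ∈ F, some t ≠ some i then (1 : ℝ) else 0) * Al (-(1 / (p : ℝ))) (some t) (some l))
          = if t = l then 1 / ((p : ℝ) - 1) else 0 := by
        intro t
        by_cases htl : t = l
        · subst htl
          rw [if_pos]
          · simp [Al]
          · intro i hi h
            injection h with h
            subst h
            exact hl hi
        · simp [Al, htl]
      rw [Finset.sum_congr rfl (fun t _ => h3 t)]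
      simp [Al, Tl, hl]
      field_simp
      ring
  · simp [Al, Tl]
  · by_cases hi : i ∈ F
    · have h3 : ∀ t : Fin k, Al (1 / ((p : ℝ) - 1)) (some i) (some t) *
        ((if ∀ i ∈ F, some t ≠ some i then (1 : ℝ) else 0) * Al (-(1 / (p : ℝ))) (some t) (some l))
          = 0 := by
        intro t
        by_cases htl : i = t
        · subst htl
          rw [if_neg]
          · simp
          · push Not
            exact ⟨i, hi, rfl⟩
        · simp [Al, htl]
      rw [Finset.sum_congr rfl (fun t _ => h3 t)]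
      rw [if_neg (show ¬ ∀ l ∈ F, some i ≠ some l by push Not; exact ⟨i, hi, rfl⟩)]
      simp [Al]
    · have h3 : ∀ t : Fin k, Al (1 / ((p : ℝ) - 1)) (some i) (some t) *
        ((if ∀ i ∈ F, some t ≠ some i then (1 : ℝ) else 0) * Al (-(1 / (p : ℝ))) (some t) (some l))
          = if i = t then (if i = l then 1 else 0) else 0 := by
        intro t
        by_cases htl : i = t
        · subst htl
          rw [if_pos]
          · simp [Al]
          · intro m hm h
            injection h with h
            subst h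
            exact hi hm
        · simp [Al, htl]
      rw [Finset.sum_congr rfl (fun t _ => h3 t)]
      rw [if_pos (show ∀ l ∈ F, some i ≠ some l by
        intro m hm h
        injection h with h
        subst h
        exact hi hm)]
      by_cases hil : i = l
      · subst hil; simp [Al, Tl]
      · simp [Al, Tl, hil]

theorem tr_restr (P : Fin M → ℕ) (hP : ∀ j, (P j).Prime) (g : ℕ → ℝ) (Z : ℝ)
    (F : Finset (Fin k)) (r : Vec M k) :
    tr (al P) (restr F (cv P g Z)) r =
      if Avoid F r then (∏ j, if r j = none then 1 else -(1 + al P j)) * Mf P g Z F r else 0 := by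
  have hA : tr (al P) (restr F (cv P g Z)) r =
      ∑ s, Yv P g Z s * ∏ j, ((if s j = none then (1 : ℝ) else -(1 + al P j)) *
      (∑ t, Al (al P j) (r j) t *
        ((if ∀ i ∈ F, t ≠ some i then (1 : ℝ) else 0) * Al (-(1 / (P j : ℝ))) t (s j)))) := by
    unfold tr restr cv itr
    have h1 : ∀ x : Vec M k, (if Avoid F x then
        ∑ s, yv P g Z s * ∏ j, Al (-(1 / (P j : ℝ))) (x j) (s j) else 0) *
          ∏ j, Al (al P j) (r j) (x j) =
        ∑ s, yv P g Z s * (∏ j, (fun j t => Al (al P j) (r j) t *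
        ((if ∀ i ∈ F, t ≠ some i then (1 : ℝ) else 0) * Al (-(1 / (P j : ℝ))) t (s j))) j (x j)) := by
      intro x
      have h2 : ∀ s : Vec M k, (∏ j, (fun j t => Al (al P j) (r j) t *
        ((if ∀ i ∈ F, t ≠ some i then (1 : ℝ) else 0) * Al (-(1 / (P j : ℝ))) t (s j))) j (x j)) =
          (∏ j, Al (al P j) (r j) (x j)) * ((if Avoid F x then 1 else 0) *
            ∏ j, Al (-(1 / (P j : ℝ))) (x j) (s j)) := by
        intro s
        rw [← INV_avoid, ← Finset.prod_mul_distrib, ← Finset.prod_mul_distrib]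
      simp_rw [h2]
      by_cases hx : Avoid F x
      · simp only [hx, if_true, one_mul]
        rw [Finset.sum_mul]
        exact Finset.sum_congr rfl (fun s _ => by ring)
      · simp [hx]
    rw [Finset.sum_congr rfl (fun x _ => h1 x), Finset.sum_comm]
    refine Finset.sum_congr rfl (fun s _ => ?_)
    rw [← Finset.mul_sum, INV_sum_prod (fun j t => Al (al P j) (r j) t *
        ((if ∀ i ∈ F, t ≠ some i then (1 : ℝ) else 0) * Al (-(1 / (P j : ℝ))) t (s j)))]
    unfold yv
    rw [mul_assoc, ← Finset.prod_mul_distrib]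
  rw [hA]
  have hB : ∀ s : Vec M k, (∏ j, ((if s j = none then (1 : ℝ) else -(1 + al P j)) *
      (∑ t, Al (al P j) (r j) t *
        ((if ∀ i ∈ F, t ≠ some i then (1 : ℝ) else 0) * Al (-(1 / (P j : ℝ))) t (s j))))) =
      (if Avoid F r then 1 else 0) * ((∏ j, if r j = none then 1 else -(1 + al P j)) *
        ∏ j, Tl F (al P j) (r j) (s j)) := by
    intro s
    rw [← INV_avoid, ← Finset.prod_mul_distrib, ← Finset.prod_mul_distrib]
    exact Finset.prod_congr rfl (fun j _ => INV_local_restr F (P j) (hP j) (r j) (s j))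
  simp_rw [hB]
  unfold Mf
  by_cases hr : Avoid F r
  · simp only [hr, if_true, one_mul]
    rw [Finset.mul_sum]
    exact Finset.sum_congr rfl (fun s _ => by ring)
  · simp [hr]

end Pool.Agent.BG
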