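import Pool.Agent.Lib_helper23.BGF.CHEB
import Pool.Agent.Lib_helper23.BGF.INV
import Pool.Agent.Lib_helper23.BGF.MUPMLO
set_option autoImplicit false

namespace Pool.Agent.BG

open Finset Filter
open scoped Classical

variable {M k : ℕ}

theorem SUML_al_nonneg (P : Fin M → ℕ) (hP : ∀ j, (P j).Prime) (j : Fin M) : 0 ≤ al P j := by
  have h : (2 : ℝ) ≤ P j := by exact_mod_cast (hP j).two_le
  exact div_nonneg zero_le_one (by linarith)

theorem SUML_pr_pos (P : Fin M → ℕ) (hP : ∀ j, (P j).Prime) (U : Finset (Fin M)) :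
    1 ≤ pr P U := Nat.one_le_iff_ne_zero.2 (prod_ne_zero_iff.2 fun j _ => (hP j).ne_zero)

/-- the weight of a set -/
noncomputable def SUML_mu (P : Fin M → ℕ) (f : ℕ → ℝ) (U : Finset (Fin M)) : ℝ :=
  f (pr P U) * ∏ j ∈ U, al P j

theorem SUML_mu_nonneg (P : Fin M → ℕ) (hP : ∀ j, (P j).Prime) (f : ℕ → ℝ) (hf : ∀ a, 0 ≤ f a)
    (U : Finset (Fin M)) : 0 ≤ SUML_mu P f U :=
  mul_nonneg (hf _) (prod_nonneg fun j _ => SUML_al_nonneg P hP j)

/-- sets containing a given index -/
theorem SUML_erase (P : Fin M → ℕ) (hP : ∀ j, (P j).Prime) (f : ℕ → ℝ) (hf : ∀ a, 0 ≤ f a)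
    (hm : ∀ a b : ℕ, 1 ≤ a → 1 ≤ b → f (a * b) ≤ f a) (j : Fin M) :
    ∑ U ∈ (univ : Finset (Finset (Fin M))).filter (fun U => j ∈ U), SUML_mu P f U ≤
      al P j * Gsum P f := by
  have hinj : Set.InjOn (fun U : Finset (Fin M) => U.erase j)
      (((univ : Finset (Finset (Fin M))).filter (fun U => j ∈ U) : Finset (Finset (Fin M))) :
        Set (Finset (Fin M))) := by
    intro U hU V hV e
    have hU' : j ∈ U := (mem_filter.1 hU).2
    have hV' : j ∈ V := (mem_filter.1 hV).2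
    have := congrArg (insert j) e
    simpa [insert_erase hU', insert_erase hV'] using this
  calc ∑ U ∈ (univ : Finset (Finset (Fin M))).filter (fun U => j ∈ U), SUML_mu P f U
      ≤ ∑ U ∈ (univ : Finset (Finset (Fin M))).filter (fun U => j ∈ U),
        al P j * SUML_mu P f (U.erase j) := by
        refine sum_le_sum fun U hU => ?_
        have hj : j ∈ U := (mem_filter.1 hU).2
        have e1 : pr P U = pr P (U.erase j) * P j := by
          simp only [pr]
          rw [prod_erase_mul _ _ hj]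
        have e2 : ∏ l ∈ U, al P l = al P j * ∏ l ∈ U.erase j, al P l :=
          (mul_prod_erase _ _ hj).symm
        unfold SUML_mu
        rw [e1, e2]
        have h1 := hm (pr P (U.erase j)) (P j) (SUML_pr_pos P hP _) (hP j).one_le
        have h2 : 0 ≤ al P j * ∏ l ∈ U.erase j, al P l :=
          mul_nonneg (SUML_al_nonneg P hP j) (prod_nonneg fun l _ => SUML_al_nonneg P hP l)
        calc f (pr P (U.erase j) * P j) * (al P j * ∏ l ∈ U.erase j, al P l)
            ≤ f (pr P (U.erase j)) * (al P j * ∏ l ∈ U.erase j, al P l) :=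
              mul_le_mul_of_nonneg_right h1 h2
          _ = al P j * (f (pr P (U.erase j)) * ∏ l ∈ U.erase j, al P l) := by ring
    _ = al P j * ∑ U ∈ (univ : Finset (Finset (Fin M))).filter (fun U => j ∈ U),
        (fun V => SUML_mu P f V) (U.erase j) := by rw [mul_sum]
    _ = al P j * ∑ V ∈ ((univ : Finset (Finset (Fin M))).filter (fun U => j ∈ U)).image
          (fun U => U.erase j), SUML_mu P f V := by
        rw [sum_image hinj]
    _ ≤ al P j * Gsum P f := by
        refine mul_le_mul_of_nonneg_left ?_ (SUML_al_nonneg P hP j)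
        exact sum_le_sum_of_subset_of_nonneg (subset_univ _) fun U _ _ =>
          SUML_mu_nonneg P hP f hf U

/-- tuples with a given index in the components from `I` -/
theorem SUML_mem (P : Fin M → ℕ) (hP : ∀ j, (P j).Prime) (f : ℕ → ℝ) (hf : ∀ a, 0 ≤ f a)
    (hm : ∀ a b : ℕ, 1 ≤ a → 1 ≤ b → f (a * b) ≤ f a) (j : Fin M) (I : Finset (Fin k)) :
    ∑ U ∈ (univ : Finset (Fin k → Finset (Fin M))).filter (fun U => ∀ i ∈ I, j ∈ U i),
      ∏ i, SUML_mu P f (U i) ≤ al P j ^ I.card * Gsum P f ^ k := by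
  have e : (univ : Finset (Fin k → Finset (Fin M))).filter (fun U => ∀ i ∈ I, j ∈ U i) =
      Fintype.piFinset (fun i : Fin k =>
        if i ∈ I then (univ : Finset (Finset (Fin M))).filter (fun U => j ∈ U) else univ) := by
    ext U
    simp only [mem_filter, mem_univ, true_and, Fintype.mem_piFinset]
    refine forall_congr' fun i => ?_
    by_cases hi : i ∈ I
    · simp [hi]
    · simp [hi]
  rw [e, ← Finset.prod_univ_sum]
  have hb : (∏ i : Fin k, ((if i ∈ I then al P j else 1) * Gsum P f)) =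
      al P j ^ I.card * Gsum P f ^ k := by
    rw [prod_mul_distrib, prod_const, card_univ, Fintype.card_fin]
    congr 1
    rw [prod_ite_mem, univ_inter, prod_const]
  rw [← hb]
  refine prod_le_prod (fun i _ => sum_nonneg fun U _ => SUML_mu_nonneg P hP f hf U) fun i _ => ?_
  by_cases hi : i ∈ I
  · simp only [hi, if_true]
    exact SUML_erase P hP f hf hm j
  · simp only [hi, if_false, one_mul]
    exact le_of_eq rfl

theorem SUML_total (P : Fin M → ℕ) (f : ℕ → ℝ) :
    ∑ U : Fin k → Finset (Fin M), ∏ i, SUML_mu P f (U i) = Gsum P f ^ k := by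
  have h := Finset.prod_univ_sum (fun _ : Fin k => (univ : Finset (Finset (Fin M))))
    (fun _ U => SUML_mu P f U)
  rw [Fintype.piFinset_univ] at h
  rw [← h, prod_const, card_univ, Fintype.card_fin]
  rfl

/-- the sum with the `α`-terms -/
theorem SUML_alpha (P : Fin M → ℕ) (hP : ∀ j, (P j).Prime) (f : ℕ → ℝ) (hf : ∀ a, 0 ≤ f a)
    (hm : ∀ a b : ℕ, 1 ≤ a → 1 ≤ b → f (a * b) ≤ f a) :
    ∑ U : Fin k → Finset (Fin M), (∏ i, SUML_mu P f (U i)) * ∑ i, ∑ j ∈ U i, al P j ≤
      k * Sg2 P * Gsum P f ^ k := by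
  have e : ∑ U : Fin k → Finset (Fin M), (∏ i, SUML_mu P f (U i)) * ∑ i, ∑ j ∈ U i, al P j =
      ∑ i : Fin k, ∑ j, al P j * ∑ U ∈ (univ : Finset (Fin k → Finset (Fin M))).filter
        (fun U => ∀ l ∈ ({i} : Finset (Fin k)), j ∈ U l), ∏ i, SUML_mu P f (U i) := by
    have e1 : ∀ U : Fin k → Finset (Fin M),
        (∏ i, SUML_mu P f (U i)) * ∑ i, ∑ j ∈ U i, al P j =
        ∑ i, ∑ j, al P j * (if j ∈ U i then ∏ i, SUML_mu P f (U i) else 0) := by
      intro U
      rw [mul_sum]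
      refine sum_congr rfl fun i _ => ?_
      rw [mul_sum]
      simp only [mul_ite, mul_zero]
      rw [← sum_filter]
      have : (univ : Finset (Fin M)).filter (fun j => j ∈ U i) = U i := by
        ext j
        simp
      rw [this]
      exact sum_congr rfl fun j _ => mul_comm _ _
    simp only [e1]
    rw [sum_comm]
    refine sum_congr rfl fun i _ => ?_
    rw [sum_comm]
    refine sum_congr rfl fun j _ => ?_
    rw [← mul_sum, sum_filter]
    simp
  rw [e]
  calc ∑ i : Fin k, ∑ j, al P j * ∑ U ∈ (univ : Finset (Fin k → Finset (Fin M))).filter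
        (fun U => ∀ l ∈ ({i} : Finset (Fin k)), j ∈ U l), ∏ i, SUML_mu P f (U i)
      ≤ ∑ i : Fin k, ∑ j, al P j * (al P j * Gsum P f ^ k) := by
        refine sum_le_sum fun i _ => sum_le_sum fun j _ => ?_
        refine mul_le_mul_of_nonneg_left ?_ (SUML_al_nonneg P hP j)
        have := SUML_mem P hP f hf hm j ({i} : Finset (Fin k))
        simpa using this
    _ = k * Sg2 P * Gsum P f ^ k := by
        rw [sum_const, card_univ, Fintype.card_fin, nsmul_eq_mul, mul_assoc, Sg2, sum_mul]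
        congr 1
        exact sum_congr rfl fun j _ => by ring

/-- the tuples that are not pairwise disjoint -/
theorem SUML_nondisj (P : Fin M → ℕ) (hP : ∀ j, (P j).Prime) (f : ℕ → ℝ) (hf : ∀ a, 0 ≤ f a)
    (hm : ∀ a b : ℕ, 1 ≤ a → 1 ≤ b → f (a * b) ≤ f a) :
    ∑ U ∈ (univ : Finset (Fin k → Finset (Fin M))).filter
      (fun U => ∃ i l, i ≠ l ∧ ∃ j, j ∈ U i ∧ j ∈ U l), ∏ i, SUML_mu P f (U i) ≤
      (k : ℝ) ^ 2 * Sg2 P * Gsum P f ^ k := by
  have hn : ∀ U : Fin k → Finset (Fin M), 0 ≤ ∏ i, SUML_mu P f (U i) := fun U =>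
    prod_nonneg fun i _ => SUML_mu_nonneg P hP f hf _
  set Φ : Fin k → Fin k → Fin M → (Fin k → Finset (Fin M)) → ℝ := fun i l j U =>
    if (i ≠ l ∧ j ∈ U i ∧ j ∈ U l) then (∏ i, SUML_mu P f (U i)) else 0 with hΦ
  have hΦ0 : ∀ i l j U, 0 ≤ Φ i l j U := by
    intro i l j U
    simp only [hΦ]
    split_ifs
    · exact hn U
    · exact le_rfl
  calc ∑ U ∈ (univ : Finset (Fin k → Finset (Fin M))).filter
          (fun U => ∃ i l, i ≠ l ∧ ∃ j, j ∈ U i ∧ j ∈ U l), ∏ i, SUML_mu P f (U i)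
      ≤ ∑ U : Fin k → Finset (Fin M), ∑ i, ∑ l, ∑ j, Φ i l j U := by
        rw [sum_filter]
        refine sum_le_sum fun U _ => ?_
        split_ifs with h
        · obtain ⟨i, l, hil, j, hj1, hj2⟩ := h
          calc ∏ i, SUML_mu P f (U i) = Φ i l j U := by simp [hΦ, hil, hj1, hj2]
            _ ≤ ∑ j, Φ i l j U :=
              single_le_sum (f := fun j => Φ i l j U) (fun j _ => hΦ0 i l j U) (mem_univ j)
            _ ≤ ∑ l, ∑ j, Φ i l j U :=
              single_le_sum (f := fun l => ∑ j, Φ i l j U)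
                (fun l _ => sum_nonneg fun j _ => hΦ0 i l j U) (mem_univ l)
            _ ≤ ∑ i, ∑ l, ∑ j, Φ i l j U :=
              single_le_sum (f := fun i => ∑ l, ∑ j, Φ i l j U)
                (fun i _ => sum_nonneg fun l _ => sum_nonneg fun j _ => hΦ0 i l j U) (mem_univ i)
        · exact sum_nonneg fun i _ => sum_nonneg fun l _ => sum_nonneg fun j _ => hΦ0 i l j U
    _ = ∑ i, ∑ l, ∑ j, ∑ U : Fin k → Finset (Fin M), Φ i l j U := by
        rw [sum_comm]
        refine sum_congr rfl fun i _ => ?_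
        rw [sum_comm]
        refine sum_congr rfl fun l _ => ?_
        rw [sum_comm]
    _ ≤ ∑ i : Fin k, ∑ l : Fin k, ∑ j, al P j ^ 2 * Gsum P f ^ k := by
        refine sum_le_sum fun i _ => sum_le_sum fun l _ => sum_le_sum fun j _ => ?_
        have hG : 0 ≤ Gsum P f := sum_nonneg fun U _ => SUML_mu_nonneg P hP f hf U
        by_cases hil : i = l
        · simp only [hΦ, hil, ne_eq, not_true_eq_false, false_and, if_false, sum_const_zero]
          positivity
        · have := SUML_mem P hP f hf hm j ({i, l} : Finset (Fin k))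
          rw [card_pair hil, sum_filter] at this
          simpa [hΦ, hil] using this
    _ = (k : ℝ) ^ 2 * Sg2 P * Gsum P f ^ k := by
        simp only [sum_const, card_univ, Fintype.card_fin, nsmul_eq_mul, Sg2, ← sum_mul]
        ring

/-- the tuples with large product -/
theorem SUML_big (P : Fin M → ℕ) (hP : ∀ j, (P j).Prime)
    (g : ℕ → ℝ) (hg : GHyp g) (Z' : ℝ) (hZ' : 1 < Z')
    (h1 : k * Gsum P (fun a => g a ^ 2 * Real.log a) ≤
      Gsum P (fun a => g a ^ 2) * (Real.log Z' / 2)) (hG : 0 < Gsum P (fun a => g a ^ 2)) :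
    ∑ U ∈ (univ : Finset (Fin k → Finset (Fin M))).filter
      (fun U => Real.log Z' < ∑ i, Real.log (pr P (U i))),
      ∏ i, SUML_mu P (fun a => g a ^ 2) (U i) ≤
      Gsum P (fun a => g a ^ 2) ^ k *
        (4 * k * Gsum P (fun a => g a ^ 2 * Real.log a ^ 2) /
          (Gsum P (fun a => g a ^ 2) * Real.log Z' ^ 2)) := by
  have e1 : ∑ U : Finset (Fin M), SUML_mu P (fun a => g a ^ 2) U * Real.log (pr P U) =
      Gsum P (fun a => g a ^ 2 * Real.log a) := by
    unfold Gsum
    exact sum_congr rfl fun U _ => by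
      simp only [SUML_mu]
      ring
  have e2 : ∑ U : Finset (Fin M), SUML_mu P (fun a => g a ^ 2) U * Real.log (pr P U) ^ 2 =
      Gsum P (fun a => g a ^ 2 * Real.log a ^ 2) := by
    unfold Gsum
    exact sum_congr rfl fun U _ => by
      simp only [SUML_mu]
      ring
  have e0 : ∑ U : Finset (Fin M), SUML_mu P (fun a => g a ^ 2) U =
      Gsum P (fun a => g a ^ 2) := rfl
  have := cheb (ι := Finset (Fin M)) k (SUML_mu P (fun a => g a ^ 2))
    (fun U => Real.log (pr P U)) (SUML_mu_nonneg P hP _ fun a => sq_nonneg _)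
    (fun U => Real.log_nonneg (by exact_mod_cast SUML_pr_pos P hP U)) (Real.log Z')
    (Real.log_pos hZ') (by rw [e0]; exact hG) (by rw [e0, e1]; exact h1)
  rw [e0, e2] at this
  exact this

/-- the vector of a tuple -/
noncomputable def SUML_r (m : Fin k) (U : Fin k → Finset (Fin M)) : Vec M k := fun j =>
  if h : ∃ i, i ≠ m ∧ j ∈ U i then some h.choose else none

/-- pairwise disjoint tuples (outside `m`) -/
def SUML_D (m : Fin k) (U : Fin k → Finset (Fin M)) : Prop :=
  ∀ i l j, i ≠ m → l ≠ m → j ∈ U i → j ∈ U l → i = l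

theorem SUML_r_some (m : Fin k) (U : Fin k → Finset (Fin M)) (hD : SUML_D m U) (j : Fin M)
    (i : Fin k) : SUML_r m U j = some i ↔ i ≠ m ∧ j ∈ U i := by
  unfold SUML_r
  split_ifs with h
  · have hs := h.choose_spec
    constructor
    · intro e
      have e' : h.choose = i := Option.some_injective _ e
      rw [← e']
      exact hs
    · rintro ⟨hi, hj⟩
      rw [hD _ _ j hs.1 hi hs.2 hj]
  · constructor
    · intro e
      cases e
    · intro h'
      exact absurd ⟨i, h'⟩ h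

theorem SUML_prod {A : Type} [CommMonoid A] (r : Vec M k) (F : Fin M → A) :
    (∏ j, if r j = none then 1 else F j) =
      ∏ i : Fin k, ∏ j ∈ univ.filter (fun j => r j = some i), F j := by
  simp only [prod_filter]
  rw [Finset.prod_comm]
  refine prod_congr rfl fun j _ => ?_
  rcases hr : r j with _ | a
  · simp
  · rw [prod_eq_single a]
    · simp
    · intro b _ hb
      have : ¬ (a = b) := fun h => hb h.symm
      simp [this]
    · simp

theorem SUML_filter (m : Fin k) (U : Fin k → Finset (Fin M)) (hD : SUML_D m U) (i : Fin k) :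
    univ.filter (fun j => SUML_r m U j = some i) = if i = m then ∅ else U i := by
  ext j
  simp only [mem_filter, mem_univ, true_and, SUML_r_some m U hD]
  by_cases hi : i = m
  · simp [hi]
  · simp [hi]

theorem SUML_prod' {A : Type} [CommMonoid A] (m : Fin k) (U : Fin k → Finset (Fin M))
    (hD : SUML_D m U) (F : Fin M → A) :
    (∏ j, if SUML_r m U j = none then 1 else F j) =
      ∏ i ∈ ({m} : Finset (Fin k))ᶜ, ∏ j ∈ U i, F j := by
  rw [SUML_prod, ← Finset.prod_mul_prod_compl ({m} : Finset (Fin k)), prod_singleton,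
    SUML_filter m U hD m, if_pos rfl, prod_empty, one_mul]
  refine prod_congr rfl fun i hi => ?_
  have hi' : i ≠ m := by simpa using hi
  rw [SUML_filter m U hD i, if_neg hi']

theorem SUML_sum' (m : Fin k) (U : Fin k → Finset (Fin M))
    (hD : SUML_D m U) (F : Fin M → ℝ) :
    (∑ j, if SUML_r m U j = none then 0 else F j) =
      ∑ i ∈ ({m} : Finset (Fin k))ᶜ, ∑ j ∈ U i, F j := by
  have := SUML_prod' (A := Multiplicative ℝ) m U hD (fun j => Multiplicative.ofAdd (F j))
  have h2 := congrArg Multiplicative.toAdd this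
  simp only [toAdd_prod, toAdd_ofAdd] at h2
  rw [← h2]
  refine sum_congr rfl fun j _ => ?_
  split_ifs <;> rfl

theorem SUML_di (P : Fin M → ℕ) (m : Fin k) (U : Fin k → Finset (Fin M)) (hD : SUML_D m U)
    (i : Fin k) (hi : i ≠ m) : di P (SUML_r m U) i = pr P (U i) := by
  simp only [di, pr]
  rw [← prod_filter, SUML_filter m U hD i, if_neg hi]

theorem SUML_one_sub (s : Finset (Fin M)) (x : Fin M → ℝ) (h0 : ∀ j, 0 ≤ x j)
    (h1 : ∀ j, x j ≤ 1) :
    1 - ∑ j ∈ s, x j ≤ ∏ j ∈ s, (1 - x j) ∧ ∏ j ∈ s, (1 - x j) ≤ 1 ∧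
      0 ≤ ∏ j ∈ s, (1 - x j) := by
  induction s using Finset.induction_on with
  | empty => simp
  | insert a s ha ih =>
    rw [sum_insert ha, prod_insert ha]
    obtain ⟨i1, i2, i3⟩ := ih
    have ha0 := h0 a
    have ha1 := h1 a
    have hs : 0 ≤ ∑ j ∈ s, x j := sum_nonneg fun j _ => h0 j
    refine ⟨?_, ?_, ?_⟩
    · nlinarith
    · nlinarith
    · nlinarith

/-- the bound for one vector -/
theorem SUML_point (P : Fin M → ℕ) (hP : ∀ j, (P j).Prime) (hinj : Function.Injective P)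
    (g : ℕ → ℝ) (hg : GHyp g) (Z Z' : ℝ) (hk : ∀ j, (k : ℝ) * al P j ≤ 1)
    (hZ : ∀ U : Finset (Fin M), g (pr P U) ≠ 0 → Z' * pr P U ≤ Z) (m : Fin k)
    (r : Vec M k) (hr : Avoid {m} r) (hrZ : (dv P r : ℝ) ≤ Z') :
    (∏ i ∈ ({m} : Finset (Fin k))ᶜ, g (di P r i)) ^ 2 * Gsum P g ^ 2 *
      (∏ j, if r j = none then 1 else al P j) *
      (1 - 2 * (Real.exp (k * Sg2 P) - 1) - (k + 2) * ∑ j, if r j = none then 0 else al P j) ≤
      tr (al P) (restr {m} (cv P g Z)) r ^ 2 * ∏ j, om (al P j * (1 - k * al P j)) (r j) := by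
  have hlow := Mf_lower P hP hinj g hg Z m r hr (by
    intro U hU
    have h1 := hZ U hU
    have h2 : (0 : ℝ) ≤ pr P U := Nat.cast_nonneg _
    exact (mul_le_mul_of_nonneg_right hrZ h2).trans h1)
  have hα : ∀ j, 0 ≤ al P j := SUML_al_nonneg P hP
  rw [tr_restr P hP g Z {m} r, if_pos hr]
  set c := ∏ i ∈ ({m} : Finset (Fin k))ᶜ, g (di P r i) with hc
  set G := Gsum P g with hGdef
  set S := ∑ j, (if r j = none then 0 else al P j) with hS
  set e := Real.exp (k * Sg2 P) - 1 with he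
  set Y := Mf P g Z {m} r with hY
  set Q := ∏ j, (if r j = none then (1 : ℝ) else -(1 + al P j)) with hQ
  have hom : ∏ j, om (al P j * (1 - k * al P j)) (r j) =
      (∏ j, if r j = none then 1 else al P j) *
        ∏ j ∈ univ.filter (fun j => r j ≠ none), (1 - k * al P j) := by
    rw [prod_filter, ← prod_mul_distrib]
    refine prod_congr rfl fun j _ => ?_
    rcases r j with _ | a <;> simp [om]
  set a := ∏ j, (if r j = none then (1 : ℝ) else al P j) with ha
  set q := ∏ j ∈ univ.filter (fun j => r j ≠ none), (1 - k * al P j) with hq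
  have hS' : S = ∑ j ∈ univ.filter (fun j => r j ≠ none), al P j := by
    rw [sum_filter]
    refine sum_congr rfl fun j _ => ?_
    by_cases h : r j = none <;> simp [h]
  obtain ⟨q1, q2, q3⟩ := SUML_one_sub (univ.filter (fun j => r j ≠ none))
    (fun j => (k : ℝ) * al P j) (fun j => mul_nonneg (Nat.cast_nonneg _) (hα j)) hk
  rw [← mul_sum, ← hS'] at q1
  have hG0 : 0 ≤ G := sum_nonneg fun U _ => mul_nonneg (hg.1 _) (prod_nonneg fun j _ => hα j)
  have hc0 : 0 ≤ c := prod_nonneg fun i _ => hg.1 _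
  have hS0 : 0 ≤ S := by
    rw [hS']
    exact sum_nonneg fun j _ => hα j
  have he0 : 0 ≤ e := by
    have : 0 ≤ (k : ℝ) * Sg2 P :=
      mul_nonneg (Nat.cast_nonneg _) (sum_nonneg fun j _ => sq_nonneg _)
    have := Real.one_le_exp this
    linarith
  have ha0 : 0 ≤ a := prod_nonneg fun j _ => by
    split_ifs
    · exact zero_le_one
    · exact hα j
  have hQ1 : 1 ≤ Q ^ 2 := by
    rw [hQ, ← prod_pow]
    calc (1 : ℝ) = ∏ j : Fin M, (1 : ℝ) := by simp
      _ ≤ ∏ j, (if r j = none then (1 : ℝ) else -(1 + al P j)) ^ 2 := by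
        refine prod_le_prod (fun _ _ => zero_le_one) fun j _ => ?_
        have := hα j
        split_ifs
        · norm_num
        · nlinarith
  set A := c * G with hA
  have hA0 : 0 ≤ A := mul_nonneg hc0 hG0
  -- the square of the inner sum
  have hY2 : 0 ≤ 1 - 2 * (S + e) → A ^ 2 * (1 - 2 * (S + e)) ≤ Y ^ 2 := by
    intro hx
    have h1 : 0 ≤ 1 - S - e := by nlinarith
    have h2 : 0 ≤ A * (1 - S - e) := mul_nonneg hA0 h1
    have h3 : (A * (1 - S - e)) ^ 2 ≤ Y ^ 2 := pow_le_pow_left₀ h2 hlow 2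
    have h4 : A ^ 2 * (1 - 2 * (S + e)) ≤ (A * (1 - S - e)) ^ 2 := by
      have : (A * (1 - S - e)) ^ 2 = A ^ 2 * (1 - 2 * (S + e)) + (A * (S + e)) ^ 2 := by ring
      rw [this]
      nlinarith [sq_nonneg (A * (S + e))]
    exact h4.trans h3
  have hmain : A ^ 2 * (1 - 2 * e - (k + 2) * S) ≤ Y ^ 2 * q := by
    by_cases hx : 0 ≤ 1 - 2 * (S + e)
    · have h1 := hY2 hx
      have h2 : A ^ 2 * (1 - 2 * (S + e)) * q ≤ Y ^ 2 * q := mul_le_mul_of_nonneg_right h1 q3
      have h3 : A ^ 2 * (1 - 2 * (S + e)) * (1 - k * S) ≤ A ^ 2 * (1 - 2 * (S + e)) * q :=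
        mul_le_mul_of_nonneg_left q1 (mul_nonneg (sq_nonneg _) hx)
      have h4 : A ^ 2 * (1 - 2 * e - (k + 2) * S) ≤ A ^ 2 * (1 - 2 * (S + e)) * (1 - k * S) := by
        have h5 : 0 ≤ A ^ 2 * (2 * (S + e) * (k * S)) := by positivity
        nlinarith
      linarith
    · push Not at hx
      have h1 : 1 - 2 * e - (k + 2) * S ≤ 0 := by
        have : 0 ≤ (k : ℝ) * S := by positivity
        nlinarith
      have h2 : A ^ 2 * (1 - 2 * e - (k + 2) * S) ≤ 0 :=
        mul_nonpos_of_nonneg_of_nonpos (sq_nonneg _) h1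
      have h3 : 0 ≤ Y ^ 2 * q := mul_nonneg (sq_nonneg _) q3
      linarith
  rw [hom]
  have h6 : a * (A ^ 2 * (1 - 2 * e - (k + 2) * S)) ≤ a * (Y ^ 2 * q) :=
    mul_le_mul_of_nonneg_left hmain ha0
  have h7 : 0 ≤ a * (Y ^ 2 * q) := mul_nonneg ha0 (mul_nonneg (sq_nonneg _) q3)
  have h8 : a * (Y ^ 2 * q) ≤ Q ^ 2 * (a * (Y ^ 2 * q)) := by nlinarith
  calc c ^ 2 * G ^ 2 * a * (1 - 2 * e - (k + 2) * S)
      = a * (A ^ 2 * (1 - 2 * e - (k + 2) * S)) := by rw [hA]; ring
    _ ≤ Q ^ 2 * (a * (Y ^ 2 * q)) := h6.trans h8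
    _ = (Q * Y) ^ 2 * (a * q) := by ring

theorem sum_lower (P : Fin M → ℕ) (hP : ∀ j, (P j).Prime) (hinj : Function.Injective P)
    (g : ℕ → ℝ) (hg : GHyp g) (Z Z' : ℝ) (hZ' : 1 < Z') (hk : ∀ j, (k : ℝ) * al P j ≤ 1)
    (hZ : ∀ U : Finset (Fin M), g (pr P U) ≠ 0 → Z' * pr P U ≤ Z) (m : Fin k)
    (h1 : k * Gsum P (fun a => g a ^ 2 * Real.log a) ≤
      Gsum P (fun a => g a ^ 2) * (Real.log Z' / 2)) :
    Gsum P g ^ 2 * Gsum P (fun a => g a ^ 2) ^ (k - 1) *
      (1 - 2 * (Real.exp (k * Sg2 P) - 1) - (2 * k ^ 2 + 2 * k) * Sg2 P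
        - 4 * k * Gsum P (fun a => g a ^ 2 * Real.log a ^ 2) /
          (Gsum P (fun a => g a ^ 2) * Real.log Z' ^ 2)) ≤
    ∑ r : Vec M k, tr (al P) (restr {m} (cv P g Z)) r ^ 2 *
      ∏ j, om (al P j * (1 - k * al P j)) (r j) := by
  have hg' := hg
  obtain ⟨g0, g1, gone, gm⟩ := hg
  have hα : ∀ j, 0 ≤ al P j := SUML_al_nonneg P hP
  set f : ℕ → ℝ := fun a => g a ^ 2 with hf
  have hf0 : ∀ a, 0 ≤ f a := fun a => sq_nonneg _
  have hfm : ∀ a b : ℕ, 1 ≤ a → 1 ≤ b → f (a * b) ≤ f a := fun a b ha hb =>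
    pow_le_pow_left₀ (g0 _) (gm a b ha hb) 2
  set G := Gsum P g with hGdef
  set G2 := Gsum P f with hG2def
  have hG2 : 0 < G2 := by
    have h2 : SUML_mu P f ∅ ≤ G2 :=
      single_le_sum (f := fun U => SUML_mu P f U) (fun U _ => SUML_mu_nonneg P hP f hf0 U)
        (mem_univ ∅)
    have h3 : SUML_mu P f ∅ = 1 := by simp [SUML_mu, pr, hf, gone]
    linarith
  set T : Vec M k → ℝ := fun r => tr (al P) (restr {m} (cv P g Z)) r ^ 2 *
      ∏ j, om (al P j * (1 - k * al P j)) (r j) with hT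
  have hT0 : ∀ r, 0 ≤ T r := fun r => mul_nonneg (sq_nonneg _) (prod_nonneg fun j _ => by
    rcases r j with _ | a
    · simp [om]
    · exact mul_nonneg (hα j) (by linarith [hk j]))
  set e := Real.exp (k * Sg2 P) - 1 with he
  have he0 : 0 ≤ e := by
    have : 0 ≤ (k : ℝ) * Sg2 P :=
      mul_nonneg (Nat.cast_nonneg _) (sum_nonneg fun j _ => sq_nonneg _)
    have := Real.one_le_exp this
    linarith
  set full : (Fin k → Finset (Fin M)) → ℝ := fun U => ∏ i, SUML_mu P f (U i) with hfull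
  have hfull0 : ∀ U, 0 ≤ full U := fun U => prod_nonneg fun i _ => SUML_mu_nonneg P hP f hf0 _
  set D := (univ : Finset (Fin k → Finset (Fin M))).filter (fun U => SUML_D m U ∧
    (∏ i ∈ ({m} : Finset (Fin k))ᶜ, (pr P (U i) : ℝ)) ≤ Z') with hD
  set aa : (Fin k → Finset (Fin M)) → ℝ := fun U => ∑ i, ∑ j ∈ U i, al P j with haa
  have hstep1 : ∑ U ∈ D, full U * (1 - 2 * e - (k + 2) * aa U) * G ^ 2 ≤ G2 * ∑ r, T r := by
    have hr : ∀ U ∈ D, full U * (1 - 2 * e - (k + 2) * aa U) * G ^ 2 ≤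
        SUML_mu P f (U m) * T (SUML_r m U) := by
      intro U hU
      obtain ⟨hUD, hUZ⟩ := (mem_filter.1 hU).2
      have hav : Avoid {m} (SUML_r m U) := by
        intro j i hi h
        rw [mem_singleton] at hi
        rw [SUML_r_some m U hUD] at h
        exact h.1 hi
      have hdv : (dv P (SUML_r m U) : ℝ) = ∏ i ∈ ({m} : Finset (Fin k))ᶜ, (pr P (U i) : ℝ) := by
        have : dv P (SUML_r m U) = ∏ i ∈ ({m} : Finset (Fin k))ᶜ, pr P (U i) := by
          simp only [dv, pr]
          exact SUML_prod' m U hUD P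
        rw [this]
        push_cast
        rfl
      have hp := SUML_point P hP hinj g hg' Z Z' hk hZ m (SUML_r m U) hav
        (by rw [hdv]; exact hUZ)
      have e1 : ∏ i ∈ ({m} : Finset (Fin k))ᶜ, g (di P (SUML_r m U) i) =
          ∏ i ∈ ({m} : Finset (Fin k))ᶜ, g (pr P (U i)) :=
        prod_congr rfl fun i hi => by
          rw [SUML_di P m U hUD i (by simpa using hi)]
      rw [e1, SUML_prod' m U hUD (al P), SUML_sum' m U hUD (al P)] at hp
      have e2 : full U = SUML_mu P f (U m) *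
          ((∏ i ∈ ({m} : Finset (Fin k))ᶜ, g (pr P (U i))) ^ 2 *
            ∏ i ∈ ({m} : Finset (Fin k))ᶜ, ∏ j ∈ U i, al P j) := by
        simp only [hfull]
        rw [← Finset.prod_mul_prod_compl ({m} : Finset (Fin k)), prod_singleton]
        congr 1
        rw [← prod_pow, ← prod_mul_distrib]
        rfl
      have haa' : ∑ i ∈ ({m} : Finset (Fin k))ᶜ, ∑ j ∈ U i, al P j ≤ aa U := by
        refine sum_le_sum_of_subset_of_nonneg (subset_univ _) fun i _ _ =>
          sum_nonneg fun j _ => hα j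
      set bb := (∏ i ∈ ({m} : Finset (Fin k))ᶜ, g (pr P (U i))) with hbb
      set cc := ∏ i ∈ ({m} : Finset (Fin k))ᶜ, ∏ j ∈ U i, al P j with hcc
      have hcc0 : 0 ≤ cc := prod_nonneg fun i _ => prod_nonneg fun j _ => hα j
      have hmu0 : 0 ≤ SUML_mu P f (U m) := SUML_mu_nonneg P hP f hf0 _
      have hp2 : bb ^ 2 * G ^ 2 * cc * (1 - 2 * e - (k + 2) * aa U) ≤ T (SUML_r m U) := by
        refine le_trans ?_ hp
        refine mul_le_mul_of_nonneg_left ?_ (by positivity)
        have : ((k : ℝ) + 2) * ∑ i ∈ ({m} : Finset (Fin k))ᶜ, ∑ j ∈ U i, al P j ≤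
          (k + 2) * aa U := mul_le_mul_of_nonneg_left haa' (by positivity)
        linarith
      calc full U * (1 - 2 * e - (k + 2) * aa U) * G ^ 2
          = SUML_mu P f (U m) * (bb ^ 2 * G ^ 2 * cc * (1 - 2 * e - (k + 2) * aa U)) := by
            rw [e2]; ring
        _ ≤ _ := mul_le_mul_of_nonneg_left hp2 hmu0
    have hinjD : Set.InjOn (fun U : Fin k → Finset (Fin M) => ((SUML_r m U, U m) :
        Vec M k × Finset (Fin M))) (D : Set (Fin k → Finset (Fin M))) := by
      intro U hU V hV h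
      have hU' := (mem_filter.1 hU).2.1
      have hV' := (mem_filter.1 hV).2.1
      simp only [Prod.mk.injEq] at h
      funext i
      by_cases hi : i = m
      · rw [hi]
        exact h.2
      · have e1 := SUML_filter m U hU' i
        have e2 := SUML_filter m V hV' i
        rw [if_neg hi] at e1 e2
        rw [← e1, ← e2, h.1]
    calc ∑ U ∈ D, full U * (1 - 2 * e - (k + 2) * aa U) * G ^ 2
        ≤ ∑ U ∈ D, SUML_mu P f (U m) * T (SUML_r m U) := sum_le_sum hr
      _ = ∑ x ∈ D.image (fun U : Fin k → Finset (Fin M) => ((SUML_r m U, U m) :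
        Vec M k × Finset (Fin M))), SUML_mu P f x.2 * T x.1 := by rw [sum_image hinjD]
      _ ≤ ∑ x : Vec M k × Finset (Fin M), SUML_mu P f x.2 * T x.1 :=
          sum_le_sum_of_subset_of_nonneg (subset_univ _) fun x _ _ =>
            mul_nonneg (SUML_mu_nonneg P hP f hf0 _) (hT0 _)
      _ = G2 * ∑ r, T r := by
          rw [Fintype.sum_prod_type, mul_sum]
          refine sum_congr rfl fun r _ => ?_
          change ∑ V : Finset (Fin M), SUML_mu P f V * T r = G2 * T r
          rw [← sum_mul]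
          rfl
  -- the sum over good tuples
  have htot : ∑ U, full U = G2 ^ k := SUML_total P f
  have hDsum : G2 ^ k * (1 - (k : ℝ) ^ 2 * Sg2 P -
      4 * k * Gsum P (fun a => g a ^ 2 * Real.log a ^ 2) / (G2 * Real.log Z' ^ 2)) ≤
      ∑ U ∈ D, full U := by
    set N1 := (univ : Finset (Fin k → Finset (Fin M))).filter
      (fun U => ∃ i l, i ≠ l ∧ ∃ j, j ∈ U i ∧ j ∈ U l) with hN1
    set N2 := (univ : Finset (Fin k → Finset (Fin M))).filter
      (fun U => Real.log Z' < ∑ i, Real.log (pr P (U i))) with hN2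
    have hcov : (univ : Finset (Fin k → Finset (Fin M))) ⊆ D ∪ (N1 ∪ N2) := by
      intro U _
      by_cases hU1 : U ∈ N1
      · exact mem_union_right _ (mem_union_left _ hU1)
      by_cases hU2 : U ∈ N2
      · exact mem_union_right _ (mem_union_right _ hU2)
      refine mem_union_left _ (mem_filter.2 ⟨mem_univ _, ?_, ?_⟩)
      · intro i l j hi hl hji hjl
        by_contra hil
        exact hU1 (mem_filter.2 ⟨mem_univ _, i, l, hil, j, hji, hjl⟩)
      · have hU2' : ¬ Real.log Z' < ∑ i, Real.log (pr P (U i)) := fun h =>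
          hU2 (mem_filter.2 ⟨mem_univ _, h⟩)
        push Not at hU2'
        have hpos : ∀ i, (0 : ℝ) < pr P (U i) := fun i => by
          exact_mod_cast (SUML_pr_pos P hP (U i))
        have h3 : Real.log (∏ i ∈ ({m} : Finset (Fin k))ᶜ, (pr P (U i) : ℝ)) ≤ Real.log Z' := by
          rw [Real.log_prod (fun i _ => (hpos i).ne')]
          refine le_trans ?_ hU2'
          exact sum_le_sum_of_subset_of_nonneg (subset_univ _) fun i _ _ =>
            Real.log_nonneg (by exact_mod_cast SUML_pr_pos P hP (U i))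
        exact (Real.log_le_log_iff (prod_pos fun i _ => hpos i) (by linarith)).1 h3
    have hle : ∑ U, full U ≤ ∑ U ∈ D, full U + (∑ U ∈ N1, full U + ∑ U ∈ N2, full U) := by
      calc ∑ U, full U ≤ ∑ U ∈ D ∪ (N1 ∪ N2), full U :=
            sum_le_sum_of_subset_of_nonneg hcov fun U _ _ => hfull0 U
        _ ≤ ∑ U ∈ D, full U + ∑ U ∈ N1 ∪ N2, full U := by
            have := sum_union_inter (s₁ := D) (s₂ := N1 ∪ N2) (f := full)
            have h0 : 0 ≤ ∑ U ∈ D ∩ (N1 ∪ N2), full U := sum_nonneg fun U _ => hfull0 U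
            linarith
        _ ≤ ∑ U ∈ D, full U + (∑ U ∈ N1, full U + ∑ U ∈ N2, full U) := by
            have := sum_union_inter (s₁ := N1) (s₂ := N2) (f := full)
            have h0 : 0 ≤ ∑ U ∈ N1 ∩ N2, full U := sum_nonneg fun U _ => hfull0 U
            linarith
    have hb1 : ∑ U ∈ N1, full U ≤ (k : ℝ) ^ 2 * Sg2 P * G2 ^ k := SUML_nondisj P hP f hf0 hfm
    have hb2 : ∑ U ∈ N2, full U ≤ G2 ^ k *
        (4 * k * Gsum P (fun a => g a ^ 2 * Real.log a ^ 2) / (G2 * Real.log Z' ^ 2)) :=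
      SUML_big P hP g hg' Z' hZ' h1 hG2
    rw [htot] at hle
    nlinarith
  have hα2 : ∑ U ∈ D, full U * aa U ≤ k * Sg2 P * G2 ^ k := by
    refine le_trans ?_ (SUML_alpha P hP f hf0 hfm)
    exact sum_le_sum_of_subset_of_nonneg (subset_univ _) fun U _ _ =>
      mul_nonneg (hfull0 U) (sum_nonneg fun i _ => sum_nonneg fun j _ => hα j)
  have hDle : ∑ U ∈ D, full U ≤ G2 ^ k := by
    rw [← htot]
    exact sum_le_sum_of_subset_of_nonneg (subset_univ _) fun U _ _ => hfull0 U
  have hexp : ∑ U ∈ D, full U * (1 - 2 * e - (k + 2) * aa U) * G ^ 2 =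
      G ^ 2 * ((1 - 2 * e) * ∑ U ∈ D, full U - (k + 2) * ∑ U ∈ D, full U * aa U) := by
    rw [mul_sum, mul_sum, ← sum_sub_distrib, mul_sum]
    exact sum_congr rfl fun U _ => by ring
  rw [hexp] at hstep1
  set R := 4 * k * Gsum P (fun a => g a ^ 2 * Real.log a ^ 2) / (G2 * Real.log Z' ^ 2) with hR
  have hfin : G ^ 2 * (G2 ^ k * (1 - 2 * e - (2 * k ^ 2 + 2 * k) * Sg2 P - R)) ≤
      G2 * ∑ r, T r := by
    refine le_trans (mul_le_mul_of_nonneg_left ?_ (sq_nonneg G)) hstep1
    have h5 : 2 * e * ∑ U ∈ D, full U ≤ 2 * e * G2 ^ k :=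
      mul_le_mul_of_nonneg_left hDle (by positivity)
    have h6 : ((k : ℝ) + 2) * ∑ U ∈ D, full U * aa U ≤ (k + 2) * (k * Sg2 P * G2 ^ k) :=
      mul_le_mul_of_nonneg_left hα2 (by positivity)
    nlinarith
  have hkpos : 1 ≤ k := by
    have := m.isLt
    omega
  have hpow : G2 ^ k = G2 * G2 ^ (k - 1) := by
    rw [← pow_succ']
    congr 1
    omega
  rw [hpow] at hfin
  have h7 : G2 * (G ^ 2 * G2 ^ (k - 1) * (1 - 2 * e - (2 * k ^ 2 + 2 * k) * Sg2 P - R)) ≤
      G2 * ∑ r, T r := by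
    refine le_trans (le_of_eq ?_) hfin
    ring
  exact le_of_mul_le_mul_left h7 hG2

end Pool.Agent.BG
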