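import Pool.Agent.Lib_helper23.BGF.D2
set_option autoImplicit false

namespace Pool.Agent.BG

open Finset Filter
open scoped Classical

variable {M k : ℕ}

/-! ### tails of `∑ 1/(n-1)^2` -/

theorem VAS_tail (δ : ℝ) (hδ : 0 < δ) : ∃ w₀ : ℕ, ∀ T : Finset ℕ, (∀ n ∈ T, w₀ < n) →
    ∑ n ∈ T, 1 / ((n : ℝ) - 1) ^ 2 ≤ δ := by
  have hs : Summable (fun n : ℕ => 1 / ((n : ℝ) - 1) ^ 2) := by
    rw [← summable_nat_add_iff 1]
    have h := Real.summable_one_div_nat_pow.mpr (by norm_num : 1 < 2)
    refine h.congr ?_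
    intro n
    push_cast
    congr 2
    ring
  obtain ⟨s, hs⟩ := (summable_iff_vanishing_norm.mp hs) δ hδ
  refine ⟨s.sup id, ?_⟩
  intro T hT
  have hd : Disjoint T s := by
    rw [Finset.disjoint_left]
    intro n hn hns
    have h1 := hT n hn
    have h2 : n ≤ s.sup id := Finset.le_sup (f := id) hns
    omega
  exact (le_abs_self _).trans (hs T hd).le

/-! ### Sg2 -/

theorem Sg2_le (ε : ℝ) (hε : 0 < ε) : ∃ w₀ : ℕ, ∀ (M W N : ℕ) (P : Fin M → ℕ),
    (∀ p : ℕ, p.Prime → p ≤ w₀ → p ∣ W) → Enum P W N → Sg2 P ≤ ε := by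
  obtain ⟨w₀, hw⟩ := VAS_tail ε hε
  refine ⟨w₀, ?_⟩
  intro M W N P hW hE
  have h := hw (univ.image P) (by
    intro n hn
    rw [mem_image] at hn
    obtain ⟨j, -, hj⟩ := hn
    have h1 := (hE.2 n).mp ⟨j, hj⟩
    by_contra hlt
    push Not at hlt
    exact h1.2.2 (hW n h1.1 hlt))
  rw [Finset.sum_image (fun a _ b _ hab => hE.1 hab)] at h
  unfold Sg2 al
  refine le_trans (le_of_eq ?_) h
  apply sum_congr rfl
  intro j _
  rw [div_pow, one_pow]

/-! ### Gsum_eq_VW -/

theorem VAS_mem_sqf (x : ℝ) (a : ℕ) : a ∈ sqf x ↔ 1 ≤ a ∧ (a : ℝ) ≤ x ∧ Squarefree a := by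
  unfold sqf
  rw [mem_filter, mem_Icc]
  constructor
  · rintro ⟨⟨h1, h2⟩, h3⟩
    exact ⟨h1, (Nat.le_floor_iff' (by omega)).mp h2, h3⟩
  · rintro ⟨h1, h2, h3⟩
    exact ⟨⟨h1, (Nat.le_floor_iff' (by omega)).mpr h2⟩, h3⟩

theorem VAS_dvd_pr (P : Fin M → ℕ) (hP : ∀ j, (P j).Prime) (hinj : Function.Injective P)
    (U : Finset (Fin M)) (j : Fin M) : P j ∣ pr P U ↔ j ∈ U := by
  unfold pr
  constructor
  · intro h
    obtain ⟨i, hi, hd⟩ := (Prime.dvd_finsetProd_iff (hP j).prime P).mp h
    have := (Nat.prime_dvd_prime_iff_eq (hP j) (hP i)).mp hd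
    rw [hinj this]
    exact hi
  · intro h
    exact Finset.dvd_prod_of_mem P h

theorem VAS_totient_pr (P : Fin M → ℕ) (hP : ∀ j, (P j).Prime) (hinj : Function.Injective P)
    (U : Finset (Fin M)) : ((pr P U).totient : ℝ) = ∏ j ∈ U, ((P j : ℝ) - 1) := by
  unfold pr
  induction U using Finset.induction_on with
  | empty => simp
  | insert i s hi ih =>
    rw [Finset.prod_insert hi, Finset.prod_insert hi, Nat.totient_mul, Nat.cast_mul, ih,
      Nat.totient_prime (hP i), Nat.cast_sub (hP i).one_le, Nat.cast_one]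
    apply Nat.Coprime.prod_right
    intro j hj
    rw [Nat.coprime_primes (hP i) (hP j)]
    intro h
    exact hi (hinj h ▸ hj)

theorem VAS_squarefree_pr (P : Fin M → ℕ) (hP : ∀ j, (P j).Prime) (hinj : Function.Injective P)
    (U : Finset (Fin M)) : Squarefree (pr P U) := by
  unfold pr
  induction U using Finset.induction_on with
  | empty => simp
  | insert i s hi ih =>
    rw [Finset.prod_insert hi, Nat.squarefree_mul_iff]
    refine ⟨?_, (hP i).squarefree, ih⟩
    apply Nat.Coprime.prod_right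
    intro j hj
    rw [Nat.coprime_primes (hP i) (hP j)]
    intro h
    exact hi (hinj h ▸ hj)

theorem Gsum_eq_VW (P : Fin M → ℕ) (W N : ℕ) (hE : Enum P W N) (x : ℝ) (hx : x ≤ N) :
    Gsum P (fun a => if (a : ℝ) ≤ x then 1 else 0) = VW W x := by
  have hP : ∀ j, (P j).Prime := fun j => ((hE.2 (P j)).mp ⟨j, rfl⟩).1
  have hinj := hE.1
  have hPW : ∀ j, ¬ P j ∣ W := fun j => ((hE.2 (P j)).mp ⟨j, rfl⟩).2.2
  unfold Gsum VW
  have h1 : ∑ U : Finset (Fin M), (fun a : ℕ => if (a : ℝ) ≤ x then (1 : ℝ) else 0) (pr P U) *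
      ∏ j ∈ U, al P j = ∑ U ∈ (univ : Finset (Finset (Fin M))).filter
        (fun U => (pr P U : ℝ) ≤ x), ∏ j ∈ U, al P j := by
    rw [Finset.sum_filter]
    apply sum_congr rfl
    intro U _
    by_cases h : (pr P U : ℝ) ≤ x
    · simp [h]
    · simp [h]
  rw [h1]
  refine Finset.sum_nbij (fun U => pr P U) ?_ ?_ ?_ ?_
  · intro U hU
    rw [mem_filter] at hU
    rw [mem_filter, VAS_mem_sqf]
    refine ⟨⟨?_, hU.2, VAS_squarefree_pr P hP hinj U⟩, ?_⟩
    · unfold pr
      exact Nat.one_le_iff_ne_zero.mpr (Finset.prod_ne_zero_iff.mpr (fun j _ => (hP j).ne_zero))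
    · unfold pr
      apply Nat.Coprime.prod_left
      intro j _
      exact (Nat.Prime.coprime_iff_not_dvd (hP j)).mpr (hPW j)
  · intro U _ V _ hUV
    ext j
    rw [← VAS_dvd_pr P hP hinj U j, ← VAS_dvd_pr P hP hinj V j]
    simp only at hUV
    rw [hUV]
  · intro a ha
    rw [Finset.mem_coe, mem_filter, VAS_mem_sqf] at ha
    obtain ⟨⟨ha1, hax, hasq⟩, hcop⟩ := ha
    have hpr : pr P (univ.filter (fun j => P j ∣ a)) = a := by
      unfold pr
      have h2 : ∏ j ∈ univ.filter (fun j => P j ∣ a), P j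
          = ∏ p ∈ (univ.filter (fun j => P j ∣ a)).image P, p := by
        rw [Finset.prod_image (fun a _ b _ hab => hinj hab)]
      rw [h2]
      have h3 : (univ.filter (fun j => P j ∣ a)).image P = a.primeFactors := by
        ext p
        rw [mem_image, Nat.mem_primeFactors]
        constructor
        · rintro ⟨j, hj, rfl⟩
          rw [mem_filter] at hj
          exact ⟨hP j, hj.2, by omega⟩
        · rintro ⟨hp, hpa, -⟩
          have hpN : p ≤ N := by
            have h4 : (p : ℝ) ≤ N := by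
              have : p ≤ a := Nat.le_of_dvd (by omega) hpa
              have : (p : ℝ) ≤ a := by exact_mod_cast this
              linarith
            exact_mod_cast h4
          have hpW : ¬ p ∣ W := by
            intro h
            exact hp.one_lt.ne' (Nat.dvd_one.mp (hcop ▸ Nat.dvd_gcd hpa h))
          obtain ⟨j, hj⟩ := (hE.2 p).mpr ⟨hp, hpN, hpW⟩
          refine ⟨j, ?_, hj⟩
          rw [mem_filter, hj]
          exact ⟨mem_univ _, hpa⟩
      rw [h3]
      exact Nat.prod_primeFactors_of_squarefree hasq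
    refine ⟨univ.filter (fun j => P j ∣ a), ?_, hpr⟩
    rw [Finset.mem_coe, mem_filter]
    refine ⟨mem_univ _, ?_⟩
    rw [hpr]
    exact hax
  · intro U _
    rw [VAS_totient_pr P hP hinj U]
    unfold al
    rw [Finset.prod_div_distrib, Finset.prod_const_one]

/-! ### VW_asymp -/

/-- `∑ 1/m` over `m ≤ n` coprime to `W` -/
noncomputable def VAS_H (W n : ℕ) : ℝ := ∑ m ∈ (Icc 1 n).filter (fun m => m.Coprime W), 1 / (m : ℝ)

theorem VAS_H_mono (W : ℕ) {m n : ℕ} (h : m ≤ n) : VAS_H W m ≤ VAS_H W n := by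
  unfold VAS_H
  apply Finset.sum_le_sum_of_subset_of_nonneg
  · apply Finset.filter_subset_filter
    exact Finset.Icc_subset_Icc le_rfl h
  · intro i _ _
    positivity

theorem VAS_H_nonneg (W n : ℕ) : 0 ≤ VAS_H W n := by
  unfold VAS_H
  positivity

theorem VAS_block_card (W K : ℕ) :
    ((Ico (K * W + 1) (K * W + 1 + W)).filter (fun m => m.Coprime W)).card = W.totient := by
  have h := Nat.filter_coprime_Ico_eq_totient W (K * W + 1)
  rw [← h]
  congr 1
  ext m
  simp only [mem_filter, Nat.coprime_comm]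

theorem VAS_H_succ (W K : ℕ) :
    VAS_H W ((K + 1) * W) = VAS_H W (K * W) +
      ∑ m ∈ (Ico (K * W + 1) (K * W + 1 + W)).filter (fun m => m.Coprime W), 1 / (m : ℝ) := by
  unfold VAS_H
  rw [← Finset.sum_union]
  · congr 1
    ext m
    simp only [mem_union, mem_filter, mem_Icc, mem_Ico]
    have : (K + 1) * W = K * W + W := by ring
    rw [this]
    constructor
    · rintro ⟨h1, h2⟩
      by_cases h : m ≤ K * W
      · left; exact ⟨⟨h1.1, h⟩, h2⟩
      · right; exact ⟨⟨by omega, by omega⟩, h2⟩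
    · rintro (⟨h1, h2⟩ | ⟨h1, h2⟩)
      · exact ⟨⟨h1.1, by omega⟩, h2⟩
      · exact ⟨⟨by omega, by omega⟩, h2⟩
  · rw [Finset.disjoint_left]
    intro m hm hm'
    rw [mem_filter, mem_Icc] at hm
    rw [mem_filter, mem_Ico] at hm'
    omega

theorem VAS_H_lower (W : ℕ) (hW : 0 < W) (K : ℕ) :
    ((W.totient : ℝ) / W) * (harmonic K : ℝ) ≤ VAS_H W (K * W) := by
  have hW0 : (0 : ℝ) < W := by exact_mod_cast hW
  induction K with
  | zero => simp [VAS_H]
  | succ K ih =>
    rw [VAS_H_succ, harmonic_succ]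
    push_cast
    have h1 : ((W.totient : ℝ) / W) * ((K : ℝ) + 1)⁻¹ ≤
        ∑ m ∈ (Ico (K * W + 1) (K * W + 1 + W)).filter (fun m => m.Coprime W), 1 / (m : ℝ) := by
      calc ((W.totient : ℝ) / W) * ((K : ℝ) + 1)⁻¹
          = ∑ m ∈ (Ico (K * W + 1) (K * W + 1 + W)).filter (fun m => m.Coprime W),
              1 / (((K : ℝ) + 1) * W) := by
            rw [sum_const, VAS_block_card, nsmul_eq_mul]
            field_simp
        _ ≤ _ := by
            apply sum_le_sum
            intro m hm
            rw [mem_filter, mem_Ico] at hm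
            apply one_div_le_one_div_of_le
            · have : 0 < m := by omega
              exact_mod_cast this
            · have h2 : m ≤ (K + 1) * W := by
                have : (K + 1) * W = K * W + W := by ring
                omega
              exact_mod_cast h2
    nlinarith

theorem VAS_H_upper (W : ℕ) (hW : 0 < W) (K : ℕ) :
    VAS_H W ((K + 1) * W) ≤ W.totient + ((W.totient : ℝ) / W) * (harmonic K : ℝ) := by
  have hW0 : (0 : ℝ) < W := by exact_mod_cast hW
  induction K with
  | zero =>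
    rw [VAS_H_succ]
    have h0 : VAS_H W (0 * W) = 0 := by simp [VAS_H]
    rw [h0, zero_add]
    simp only [harmonic_zero, Rat.cast_zero, mul_zero, add_zero]
    calc ∑ m ∈ (Ico (0 * W + 1) (0 * W + 1 + W)).filter (fun m => m.Coprime W), 1 / (m : ℝ)
        ≤ ∑ m ∈ (Ico (0 * W + 1) (0 * W + 1 + W)).filter (fun m => m.Coprime W), (1 : ℝ) := by
          apply sum_le_sum
          intro m hm
          rw [mem_filter, mem_Ico] at hm
          rw [div_le_one]
          · have : 1 ≤ m := by omega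
            exact_mod_cast this
          · have : 0 < m := by omega
            exact_mod_cast this
      _ = W.totient := by
          rw [sum_const, VAS_block_card, nsmul_eq_mul, mul_one]
  | succ K ih =>
    rw [VAS_H_succ, harmonic_succ]
    push_cast
    have h1 : ∑ m ∈ (Ico ((K + 1) * W + 1) ((K + 1) * W + 1 + W)).filter (fun m => m.Coprime W),
        1 / (m : ℝ) ≤ ((W.totient : ℝ) / W) * ((K : ℝ) + 1)⁻¹ := by
      calc _ ≤ ∑ m ∈ (Ico ((K + 1) * W + 1) ((K + 1) * W + 1 + W)).filter
              (fun m => m.Coprime W), 1 / (((K : ℝ) + 1) * W) := by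
            apply sum_le_sum
            intro m hm
            rw [mem_filter, mem_Ico] at hm
            apply one_div_le_one_div_of_le (by positivity)
            have h2 : (K + 1) * W ≤ m := by omega
            exact_mod_cast h2
        _ = ((W.totient : ℝ) / W) * ((K : ℝ) + 1)⁻¹ := by
            rw [sum_const, VAS_block_card, nsmul_eq_mul]
            field_simp
    nlinarith

/-- bounds for `H` -/
theorem VAS_H_bounds (W : ℕ) (hW : 0 < W) (x : ℝ) (hx : 1 ≤ x) :
    ((W.totient : ℝ) / W) * (Real.log x - Real.log W) ≤ VAS_H W ⌊x⌋₊ ∧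
    VAS_H W ⌊x⌋₊ ≤ W.totient + ((W.totient : ℝ) / W) * (1 + Real.log x) := by
  have hW0 : (0 : ℝ) < W := by exact_mod_cast hW
  set n := ⌊x⌋₊ with hn
  set K := n / W with hK
  have hKn : K * W ≤ n := Nat.div_mul_le_self n W
  have hnK : n < (K + 1) * W := by
    have := Nat.lt_div_mul_add (a := n) hW
    have h2 : (K + 1) * W = n / W * W + W := by rw [hK]; ring
    omega
  have hφ : 0 ≤ (W.totient : ℝ) / W := by positivity
  have hx0 : 0 < x := by linarith
  constructor
  · have h1 := VAS_H_lower W hW K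
    have h2 := VAS_H_mono W hKn
    have h3 : Real.log ((K : ℝ) + 1) ≤ (harmonic K : ℝ) := by
      have := log_add_one_le_harmonic K
      simpa using this
    have h4 : Real.log x - Real.log W ≤ Real.log ((K : ℝ) + 1) := by
      rw [← Real.log_div hx0.ne' hW0.ne']
      apply Real.log_le_log (by positivity)
      rw [div_le_iff₀ hW0]
      have h5 : x < n + 1 := Nat.lt_floor_add_one x
      have h6 : ((n + 1 : ℕ) : ℝ) ≤ (((K + 1) * W : ℕ) : ℝ) := by exact_mod_cast hnK
      push_cast at h6
      linarith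
    calc ((W.totient : ℝ) / W) * (Real.log x - Real.log W)
        ≤ ((W.totient : ℝ) / W) * (harmonic K : ℝ) :=
          mul_le_mul_of_nonneg_left (h4.trans h3) hφ
      _ ≤ VAS_H W n := h1.trans h2
  · have h1 := VAS_H_upper W hW K
    have h2 := VAS_H_mono W hnK.le
    have h3 : (harmonic K : ℝ) ≤ 1 + Real.log x := by
      rcases Nat.eq_zero_or_pos K with h0 | hpos
      · rw [h0]
        simp only [harmonic_zero, Rat.cast_zero]
        have := Real.log_nonneg hx
        linarith
      · have h4 := harmonic_le_one_add_log K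
        have h5 : Real.log (K : ℝ) ≤ Real.log x := by
          apply Real.log_le_log (by exact_mod_cast hpos)
          have h6 : K ≤ n := Nat.div_le_self n W
          have h7 : (n : ℝ) ≤ x := Nat.floor_le hx0.le
          have h8 : (K : ℝ) ≤ n := by exact_mod_cast h6
          linarith
        linarith
    calc VAS_H W n ≤ _ := h2
      _ ≤ _ := h1
      _ ≤ _ := by
          have := mul_le_mul_of_nonneg_left h3 hφ
          linarith

/-- multiples of `D` -/
theorem VAS_mult (W n D : ℕ) (hD : 0 < D) :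
    ∑ m ∈ ((Icc 1 n).filter (fun m => m.Coprime W)).filter (fun m => D ∣ m), 1 / (m : ℝ) ≤
      (1 / (D : ℝ)) * VAS_H W n := by
  have hD0 : (0 : ℝ) < D := by exact_mod_cast hD
  set A := ((Icc 1 n).filter (fun m => m.Coprime W)).filter (fun m => D ∣ m) with hA
  have hdiv : ∀ m ∈ A, D * (m / D) = m := by
    intro m hm
    rw [hA, mem_filter] at hm
    exact Nat.mul_div_cancel' hm.2
  calc ∑ m ∈ A, 1 / (m : ℝ) = ∑ m ∈ A, (1 / (D : ℝ)) * (1 / ((m / D : ℕ) : ℝ)) := by
        apply sum_congr rfl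
        intro m hm
        have h := hdiv m hm
        have h2 : (m : ℝ) = D * ((m / D : ℕ) : ℝ) := by exact_mod_cast h.symm
        rw [h2, one_div_mul_one_div]
    _ = (1 / (D : ℝ)) * ∑ m ∈ A, 1 / ((m / D : ℕ) : ℝ) := by rw [mul_sum]
    _ = (1 / (D : ℝ)) * ∑ b ∈ A.image (fun m => m / D), 1 / (b : ℝ) := by
        rw [Finset.sum_image]
        intro a ha b hb hab
        simp only at hab
        rw [← hdiv a ha, ← hdiv b hb, hab]
    _ ≤ (1 / (D : ℝ)) * VAS_H W n := by
        apply mul_le_mul_of_nonneg_left _ (by positivity)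
        unfold VAS_H
        apply Finset.sum_le_sum_of_subset_of_nonneg
        · intro b hb
          rw [mem_image] at hb
          obtain ⟨m, hm, rfl⟩ := hb
          have h := hdiv m hm
          rw [hA, mem_filter, mem_filter, mem_Icc] at hm
          obtain ⟨⟨⟨h1, h2⟩, h3⟩, h4⟩ := hm
          rw [mem_filter, mem_Icc]
          refine ⟨⟨?_, ?_⟩, ?_⟩
          · exact Nat.div_pos (Nat.le_of_dvd (by omega) h4) hD
          · exact (Nat.div_le_self m D).trans h2
          · exact Nat.Coprime.coprime_dvd_left ⟨D, by rw [mul_comm]; exact h.symm⟩ h3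
        · intro i _ _
          positivity

/-- the relevant primes -/
noncomputable def VAS_T (W n : ℕ) : Finset ℕ := (Icc 1 n).filter (fun p => p.Prime ∧ ¬ p ∣ W)

theorem VAS_lower (W n : ℕ) (x : ℝ) (hn : n = ⌊x⌋₊) (δ : ℝ)
    (hT : ∑ p ∈ VAS_T W n, 1 / ((p : ℝ) - 1) ^ 2 ≤ δ) :
    (1 - δ) * VAS_H W n ≤ VW W x := by
  have hH := VAS_H_nonneg W n
  -- squarefree part
  have hsplit : VAS_H W n = ∑ m ∈ ((Icc 1 n).filter (fun m => m.Coprime W)).filter
        (fun m => Squarefree m), 1 / (m : ℝ) +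
      ∑ m ∈ ((Icc 1 n).filter (fun m => m.Coprime W)).filter
        (fun m => ¬ Squarefree m), 1 / (m : ℝ) := by
    unfold VAS_H
    rw [Finset.sum_filter_add_sum_filter_not]
  have h1 : ∑ m ∈ ((Icc 1 n).filter (fun m => m.Coprime W)).filter
        (fun m => ¬ Squarefree m), 1 / (m : ℝ) ≤ δ * VAS_H W n := by
    calc ∑ m ∈ ((Icc 1 n).filter (fun m => m.Coprime W)).filter
          (fun m => ¬ Squarefree m), 1 / (m : ℝ)
        ≤ ∑ m ∈ ((Icc 1 n).filter (fun m => m.Coprime W)).filter (fun m => ¬ Squarefree m),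
            ∑ p ∈ VAS_T W n, (if p * p ∣ m then 1 / (m : ℝ) else 0) := by
          apply sum_le_sum
          intro m hm
          rw [mem_filter, mem_filter, mem_Icc] at hm
          obtain ⟨⟨⟨h1, h2⟩, h3⟩, h4⟩ := hm
          rw [Nat.squarefree_iff_prime_squarefree] at h4
          push Not at h4
          obtain ⟨p, hp, hpm⟩ := h4
          have hpT : p ∈ VAS_T W n := by
            unfold VAS_T
            rw [mem_filter, mem_Icc]
            have hpd : p ∣ m := (Dvd.intro _ rfl).trans hpm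
            refine ⟨⟨hp.one_le, (Nat.le_of_dvd (by omega) hpd).trans h2⟩, hp, ?_⟩
            intro h
            exact hp.one_lt.ne' (Nat.dvd_one.mp (h3 ▸ Nat.dvd_gcd hpd h))
          have h5 := Finset.single_le_sum (f := fun p => (if p * p ∣ m then 1 / (m : ℝ) else 0))
            (fun i _ => by positivity) hpT
          simpa [hpm] using h5
      _ ≤ ∑ m ∈ ((Icc 1 n).filter (fun m => m.Coprime W)),
            ∑ p ∈ VAS_T W n, (if p * p ∣ m then 1 / (m : ℝ) else 0) := by
          apply Finset.sum_le_sum_of_subset_of_nonneg (Finset.filter_subset _ _)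
          intro i _ _
          exact Finset.sum_nonneg (fun p _ => by positivity)
      _ = ∑ p ∈ VAS_T W n, ∑ m ∈ ((Icc 1 n).filter (fun m => m.Coprime W)).filter
            (fun m => p * p ∣ m), 1 / (m : ℝ) := by
          rw [sum_comm]
          apply sum_congr rfl
          intro p _
          rw [← Finset.sum_filter]
      _ ≤ ∑ p ∈ VAS_T W n, 1 / ((p : ℝ) - 1) ^ 2 * VAS_H W n := by
          apply sum_le_sum
          intro p hp
          unfold VAS_T at hp
          rw [mem_filter] at hp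
          have hp2 : (2 : ℝ) ≤ p := by exact_mod_cast hp.2.1.two_le
          refine (VAS_mult W n (p * p) (Nat.mul_pos hp.2.1.pos hp.2.1.pos)).trans ?_
          apply mul_le_mul_of_nonneg_right _ hH
          apply one_div_le_one_div_of_le
          · have : 0 < (p : ℝ) - 1 := by linarith
            positivity
          · push_cast
            nlinarith
      _ = (∑ p ∈ VAS_T W n, 1 / ((p : ℝ) - 1) ^ 2) * VAS_H W n := by rw [sum_mul]
      _ ≤ δ * VAS_H W n := mul_le_mul_of_nonneg_right hT hH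
  have h2 : ∑ m ∈ ((Icc 1 n).filter (fun m => m.Coprime W)).filter
        (fun m => Squarefree m), 1 / (m : ℝ) ≤ VW W x := by
    unfold VW
    have hset : ((Icc 1 n).filter (fun m => m.Coprime W)).filter (fun m => Squarefree m)
        = (sqf x).filter (fun a => Nat.Coprime a W) := by
      ext m
      unfold sqf
      simp only [mem_filter, hn]
      tauto
    rw [hset]
    apply sum_le_sum
    intro m hm
    rw [mem_filter, VAS_mem_sqf] at hm
    apply one_div_le_one_div_of_le
    · exact_mod_cast Nat.totient_pos.mpr (by omega)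
    · exact_mod_cast Nat.totient_le m
  linarith

theorem VAS_inv_totient (a : ℕ) (ha : Squarefree a) :
    1 / (a.totient : ℝ) = (1 / (a : ℝ)) * ∑ t ∈ a.primeFactors.powerset,
      ∏ p ∈ t, 1 / ((p : ℝ) - 1) := by
  have h1 : ∑ t ∈ a.primeFactors.powerset, ∏ p ∈ t, 1 / ((p : ℝ) - 1)
      = ∏ p ∈ a.primeFactors, (1 + 1 / ((p : ℝ) - 1)) := by
    rw [Finset.prod_one_add]
  rw [h1]
  have hprod := Nat.prod_primeFactors_of_squarefree ha
  have htot : (a.totient : ℝ) = ∏ p ∈ a.primeFactors, ((p : ℝ) - 1) := by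
    have h2 := Nat.totient_eq_prod_factorization
      (n := a) (by rintro rfl; exact not_squarefree_zero ha)
    rw [h2, Finsupp.prod, Nat.support_factorization, Nat.cast_prod]
    apply prod_congr rfl
    intro p hp
    have hpp := Nat.prime_of_mem_primeFactors hp
    have hf : a.factorization p = 1 := by
      have h3 := (Nat.squarefree_iff_factorization_le_one
        (by rintro rfl; exact not_squarefree_zero ha)).mp ha p
      have h4 : 0 < a.factorization p :=
        hpp.factorization_pos_of_dvd (by rintro rfl; exact not_squarefree_zero ha)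
          (Nat.dvd_of_mem_primeFactors hp)
      omega
    rw [hf]
    simp only [Nat.sub_self, pow_zero, one_mul]
    rw [Nat.cast_sub hpp.one_le, Nat.cast_one]
  have ha2 : (a : ℝ) = ∏ p ∈ a.primeFactors, (p : ℝ) := by
    rw [← Nat.cast_prod, hprod]
  rw [htot]
  rw [ha2]
  rw [one_div, one_div, ← Finset.prod_inv_distrib, ← Finset.prod_inv_distrib,
    ← Finset.prod_mul_distrib]
  apply prod_congr rfl
  intro p hp
  have hpp := Nat.prime_of_mem_primeFactors hp
  have hp2 : (2 : ℝ) ≤ p := by exact_mod_cast hpp.two_le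
  have h3 : (p : ℝ) ≠ 0 := by linarith
  have h4 : (p : ℝ) - 1 ≠ 0 := by linarith
  field_simp
  ring

theorem VAS_upper (W n : ℕ) (x : ℝ) (hn : n = ⌊x⌋₊) (δ : ℝ)
    (hT : ∑ p ∈ VAS_T W n, 1 / ((p : ℝ) - 1) ^ 2 ≤ δ) :
    VW W x ≤ Real.exp δ * VAS_H W n := by
  have hH := VAS_H_nonneg W n
  set S := (sqf x).filter (fun a => Nat.Coprime a W) with hS
  have hsub : ∀ a ∈ S, a.primeFactors ⊆ VAS_T W n := by
    intro a ha p hp
    rw [hS, mem_filter] at ha
    have ha1 := (mem_filter.mp ha.1).1
    rw [mem_Icc] at ha1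
    have hpp := Nat.prime_of_mem_primeFactors hp
    have hpd := Nat.dvd_of_mem_primeFactors hp
    unfold VAS_T
    rw [mem_filter, mem_Icc]
    refine ⟨⟨hpp.one_le, ?_⟩, hpp, ?_⟩
    · rw [hn]
      exact (Nat.le_of_dvd (by omega) hpd).trans ha1.2
    · intro h
      exact hpp.one_lt.ne' (Nat.dvd_one.mp (ha.2 ▸ Nat.dvd_gcd hpd h))
  have hpos : ∀ t ∈ (VAS_T W n).powerset, 0 ≤ ∏ p ∈ t, 1 / ((p : ℝ) - 1) := by
    intro t ht
    apply prod_nonneg
    intro p hp
    have h1 := (mem_powerset.mp ht) hp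
    unfold VAS_T at h1
    rw [mem_filter] at h1
    have hp2 : (2 : ℝ) ≤ p := by exact_mod_cast h1.2.1.two_le
    have : 0 < (p : ℝ) - 1 := by linarith
    positivity
  calc VW W x = ∑ a ∈ S, (1 / (a : ℝ)) * ∑ t ∈ a.primeFactors.powerset,
        ∏ p ∈ t, 1 / ((p : ℝ) - 1) := by
        unfold VW
        apply sum_congr rfl
        intro a ha
        rw [mem_filter, VAS_mem_sqf] at ha
        exact VAS_inv_totient a ha.1.2.2
    _ = ∑ a ∈ S, ∑ t ∈ (VAS_T W n).powerset, (if t ⊆ a.primeFactors then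
          (1 / (a : ℝ)) * ∏ p ∈ t, 1 / ((p : ℝ) - 1) else 0) := by
        apply sum_congr rfl
        intro a ha
        rw [mul_sum, ← Finset.sum_filter]
        apply sum_congr _ (fun _ _ => rfl)
        ext t
        rw [mem_filter, mem_powerset, mem_powerset]
        constructor
        · intro h
          exact ⟨h.trans (hsub a ha), h⟩
        · exact fun h => h.2
    _ = ∑ t ∈ (VAS_T W n).powerset, (∏ p ∈ t, 1 / ((p : ℝ) - 1)) *
          ∑ a ∈ S.filter (fun a => t ⊆ a.primeFactors), 1 / (a : ℝ) := by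
        rw [sum_comm]
        apply sum_congr rfl
        intro t _
        rw [mul_sum, ← Finset.sum_filter]
        apply sum_congr rfl
        intro a _
        ring
    _ ≤ ∑ t ∈ (VAS_T W n).powerset, (∏ p ∈ t, 1 / ((p : ℝ) - 1)) *
          ((∏ p ∈ t, 1 / (p : ℝ)) * VAS_H W n) := by
        apply sum_le_sum
        intro t ht
        apply mul_le_mul_of_nonneg_left _ (hpos t ht)
        have htp : ∀ p ∈ t, p.Prime := by
          intro p hp
          have h1 := (mem_powerset.mp ht) hp
          unfold VAS_T at h1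
          rw [mem_filter] at h1
          exact h1.2.1
        have h2 := VAS_mult W n (∏ p ∈ t, p) (Finset.prod_pos (fun p hp => (htp p hp).pos))
        have h3 : (1 / ((∏ p ∈ t, p : ℕ) : ℝ)) = ∏ p ∈ t, 1 / (p : ℝ) := by
          rw [Nat.cast_prod, Finset.prod_div_distrib, Finset.prod_const_one]
        rw [h3] at h2
        refine le_trans ?_ h2
        apply Finset.sum_le_sum_of_subset_of_nonneg
        · intro a ha
          rw [mem_filter, hS, mem_filter] at ha
          obtain ⟨⟨ha1, ha2⟩, ha3⟩ := ha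
          have ha4 := (mem_filter.mp ha1)
          rw [mem_filter, mem_filter, hn]
          refine ⟨⟨ha4.1, ha2⟩, ?_⟩
          have h5 := Nat.prod_primeFactors_of_squarefree ha4.2
          rw [← h5]
          exact Finset.prod_dvd_prod_of_subset _ _ _ ha3
        · intro i _ _
          positivity
    _ = (∑ t ∈ (VAS_T W n).powerset, ∏ p ∈ t, (1 / ((p : ℝ) - 1)) * (1 / (p : ℝ))) *
          VAS_H W n := by
        rw [sum_mul]
        apply sum_congr rfl
        intro t _
        rw [Finset.prod_mul_distrib]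
        ring
    _ = (∏ p ∈ VAS_T W n, (1 + (1 / ((p : ℝ) - 1)) * (1 / (p : ℝ)))) * VAS_H W n := by
        rw [Finset.prod_one_add]
    _ ≤ Real.exp δ * VAS_H W n := by
        apply mul_le_mul_of_nonneg_right _ hH
        calc ∏ p ∈ VAS_T W n, (1 + (1 / ((p : ℝ) - 1)) * (1 / (p : ℝ)))
            ≤ ∏ p ∈ VAS_T W n, Real.exp (1 / ((p : ℝ) - 1) ^ 2) := by
              apply Finset.prod_le_prod
              · intro p hp
                unfold VAS_T at hp
                rw [mem_filter] at hp
                have hp2 : (2 : ℝ) ≤ p := by exact_mod_cast hp.2.1.two_le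
                have : 0 < (p : ℝ) - 1 := by linarith
                positivity
              · intro p hp
                unfold VAS_T at hp
                rw [mem_filter] at hp
                have hp2 : (2 : ℝ) ≤ p := by exact_mod_cast hp.2.1.two_le
                have h0 : 0 < (p : ℝ) - 1 := by linarith
                have h1 := Real.add_one_le_exp (1 / ((p : ℝ) - 1) ^ 2)
                have h2 : (1 / ((p : ℝ) - 1)) * (1 / (p : ℝ)) ≤ 1 / ((p : ℝ) - 1) ^ 2 := by
                  rw [one_div_mul_one_div]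
                  apply one_div_le_one_div_of_le (by positivity)
                  nlinarith
                linarith
          _ = Real.exp (∑ p ∈ VAS_T W n, 1 / ((p : ℝ) - 1) ^ 2) := by
              rw [Real.exp_sum]
          _ ≤ Real.exp δ := Real.exp_le_exp.mpr hT

theorem VW_asymp (ε : ℝ) (hε : 0 < ε) : ∃ w₀ : ℕ, ∀ W : ℕ, 0 < W →
    (∀ p : ℕ, p.Prime → p ≤ w₀ → p ∣ W) → ∃ C : ℝ, ∀ x : ℝ, 1 ≤ x →
      (1 - ε) * (W.totient / W) * Real.log x - C ≤ VW W x ∧
      VW W x ≤ (1 + ε) * (W.totient / W) * Real.log x + C := by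
  set δ := min (min ε 1) (Real.log (1 + ε)) with hδ
  have hlog : 0 < Real.log (1 + ε) := Real.log_pos (by linarith)
  have hδ0 : 0 < δ := lt_min (lt_min hε one_pos) hlog
  have hδε : δ ≤ ε := (min_le_left _ _).trans (min_le_left _ _)
  have hδ1 : δ ≤ 1 := (min_le_left _ _).trans (min_le_right _ _)
  have hexp : Real.exp δ ≤ 1 + ε := by
    have h1 : δ ≤ Real.log (1 + ε) := min_le_right _ _
    calc Real.exp δ ≤ Real.exp (Real.log (1 + ε)) := Real.exp_le_exp.mpr h1
      _ = 1 + ε := Real.exp_log (by linarith)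
  obtain ⟨w₀, hw⟩ := VAS_tail δ hδ0
  refine ⟨w₀, ?_⟩
  intro W hW hdiv
  have hW0 : (0 : ℝ) < W := by exact_mod_cast hW
  have hW1 : (1 : ℝ) ≤ W := by exact_mod_cast hW
  have hlW : 0 ≤ Real.log W := Real.log_nonneg hW1
  set φ := (W.totient : ℝ) / W with hφ
  have hφ0 : 0 ≤ φ := by positivity
  refine ⟨φ * Real.log W + (1 + ε) * (W.totient + φ), ?_⟩
  intro x hx
  have hlx : 0 ≤ Real.log x := Real.log_nonneg hx
  have hT : ∑ p ∈ VAS_T W ⌊x⌋₊, 1 / ((p : ℝ) - 1) ^ 2 ≤ δ := by
    apply hw
    intro p hp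
    unfold VAS_T at hp
    rw [mem_filter] at hp
    by_contra h
    push Not at h
    exact hp.2.2 (hdiv p hp.2.1 h)
  obtain ⟨hb1, hb2⟩ := VAS_H_bounds W hW x hx
  have hlow := VAS_lower W ⌊x⌋₊ x rfl δ hT
  have hup := VAS_upper W ⌊x⌋₊ x rfl δ hT
  have ht0 : (0 : ℝ) ≤ W.totient := by positivity
  constructor
  · have h1 : (1 - δ) * (φ * (Real.log x - Real.log W)) ≤ (1 - δ) * VAS_H W ⌊x⌋₊ :=
      mul_le_mul_of_nonneg_left hb1 (by linarith)
    have h2 : (1 - ε) * φ * Real.log x ≤ (1 - δ) * (φ * Real.log x) := by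
      have h3 : 0 ≤ φ * Real.log x := mul_nonneg hφ0 hlx
      nlinarith
    have h3 : (1 - δ) * (φ * Real.log W) ≤ φ * Real.log W := by
      have h4 : 0 ≤ φ * Real.log W := mul_nonneg hφ0 hlW
      nlinarith
    have h5 : 0 ≤ (1 + ε) * (W.totient + φ) := by positivity
    nlinarith
  · have h1 : Real.exp δ * VAS_H W ⌊x⌋₊ ≤ (1 + ε) * (W.totient + φ * (1 + Real.log x)) := by
      calc Real.exp δ * VAS_H W ⌊x⌋₊ ≤ (1 + ε) * VAS_H W ⌊x⌋₊ :=
            mul_le_mul_of_nonneg_right hexp (VAS_H_nonneg _ _)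
        _ ≤ _ := mul_le_mul_of_nonneg_left hb2 (by linarith)
    have h2 : 0 ≤ φ * Real.log W := mul_nonneg hφ0 hlW
    nlinarith

end Pool.Agent.BG
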