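import Pool.Agent.Lib_helper23.BG.Defs
/-! Common lemmas for the blocks ERRSIZE and PAIR -/

set_option autoImplicit false

namespace Pool.Agent.BG

open Finset Filter
open scoped Classical

variable {M k : ℕ}

/-- sum over functions, grouped by the set of active indices -/
theorem ES_fiber {τ : Type} [Fintype τ] (p : Fin M → τ → Prop) (w : Fin M → τ → ℝ)
    (G : Finset (Fin M) → ℝ) :
    ∑ z : Fin M → τ, G (univ.filter (fun j => p j (z j))) * ∏ j, w j (z j) =
      ∑ U : Finset (Fin M), G U * ∏ j, (if j ∈ U then ∑ t ∈ univ.filter (p j), w j t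
        else ∑ t ∈ univ.filter (fun t => ¬ p j t), w j t) := by
  rw [← Finset.sum_fiberwise_of_maps_to (s := univ) (t := (univ : Finset (Finset (Fin M))))
    (g := fun z : Fin M → τ => univ.filter (fun j => p j (z j))) (fun _ _ => Finset.mem_univ _)]
  refine Finset.sum_congr rfl (fun U _ => ?_)
  have h1 : (univ : Finset (Fin M → τ)).filter (fun z => univ.filter (fun j => p j (z j)) = U) =
      Fintype.piFinset (fun j => if j ∈ U then univ.filter (p j)
        else univ.filter (fun t => ¬ p j t)) := by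
    ext z
    simp only [Finset.mem_filter, Finset.mem_univ, true_and, Fintype.mem_piFinset]
    constructor
    · intro h j
      by_cases hj : j ∈ U
      · rw [if_pos hj]
        rw [← h] at hj
        simpa using hj
      · rw [if_neg hj]
        rw [← h] at hj
        simpa using hj
    · intro h
      ext j
      have := h j
      by_cases hj : j ∈ U
      · rw [if_pos hj] at this
        simp only [Finset.mem_filter, Finset.mem_univ, true_and] at this ⊢
        exact ⟨fun _ => hj, fun _ => this⟩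
      · rw [if_neg hj] at this
        simp only [Finset.mem_filter, Finset.mem_univ, true_and] at this ⊢
        exact ⟨fun h' => absurd h' this, fun h' => absurd h' hj⟩
  have h2 : ∀ z ∈ (univ : Finset (Fin M → τ)).filter
      (fun z => univ.filter (fun j => p j (z j)) = U),
      G (univ.filter (fun j => p j (z j))) * ∏ j, w j (z j) = G U * ∏ j, w j (z j) := by
    intro z hz
    rw [(Finset.mem_filter.mp hz).2]
  rw [Finset.sum_congr rfl h2, ← Finset.mul_sum, h1]
  congr 1
  have h3 := Finset.prod_univ_sum (fun j : Fin M => if j ∈ U then univ.filter (p j)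
        else univ.filter (fun t => ¬ p j t)) w
  rw [← h3]
  refine Finset.prod_congr rfl (fun j _ => ?_)
  split_ifs <;> rfl

/-- upper bound for a sum over functions, grouped by the set of active indices -/
theorem ES_fib {τ : Type} [Fintype τ] (p : Fin M → τ → Prop) (S : (Fin M → τ) → Finset (Fin M))
    (hS : ∀ z j, j ∈ S z ↔ p j (z j)) (w : Fin M → τ → ℝ) (hw : ∀ j t, 0 ≤ w j t)
    (G : Finset (Fin M) → ℝ) (hG : ∀ U, 0 ≤ G U) (a b : Fin M → ℝ)
    (ha : ∀ j, ∑ t, (if p j t then w j t else 0) ≤ a j)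
    (hb : ∀ j, ∑ t, (if p j t then 0 else w j t) ≤ b j) :
    ∑ z : Fin M → τ, G (S z) * ∏ j, w j (z j) ≤
      ∑ U : Finset (Fin M), G U * ((∏ j ∈ U, a j) * ∏ j ∈ Uᶜ, b j) := by
  have h1 : ∀ z : Fin M → τ, S z = univ.filter (fun j => p j (z j)) := by
    intro z
    ext j
    simp [hS z j]
  simp_rw [h1]
  rw [ES_fiber p w G]
  refine Finset.sum_le_sum (fun U _ => mul_le_mul_of_nonneg_left ?_ (hG U))
  have h2 : (∏ j ∈ U, a j) * ∏ j ∈ Uᶜ, b j = ∏ j, (if j ∈ U then a j else b j) := by
    rw [Finset.prod_ite]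
    congr 1
    · congr 1
      ext j; simp
    · congr 1
      ext j; simp
  rw [h2]
  refine Finset.prod_le_prod (fun j _ => ?_) (fun j _ => ?_)
  · split_ifs
    · exact Finset.sum_nonneg (fun t _ => hw j t)
    · exact Finset.sum_nonneg (fun t _ => hw j t)
  · split_ifs
    · rw [Finset.sum_filter]
      exact ha j
    · rw [Finset.sum_filter]
      refine le_trans (le_of_eq ?_) (hb j)
      refine Finset.sum_congr rfl (fun t _ => ?_)
      by_cases h : p j t <;> simp [h]

/-- comparison of sums along an injective map -/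
theorem ES_inj {α β : Type*} (s : Finset α) (t : Finset β) (φ : α → β)
    (hmap : ∀ x ∈ s, φ x ∈ t) (hinj : ∀ x ∈ s, ∀ y ∈ s, φ x = φ y → x = y) (f : α → ℝ)
    (g : β → ℝ) (hfg : ∀ x ∈ s, f x ≤ g (φ x)) (hg : ∀ y ∈ t, 0 ≤ g y) :
    ∑ x ∈ s, f x ≤ ∑ y ∈ t, g y := by
  calc ∑ x ∈ s, f x ≤ ∑ x ∈ s, g (φ x) := Finset.sum_le_sum hfg
    _ = ∑ y ∈ s.image φ, g y := by
        rw [Finset.sum_image]
        intro x hx y hy h
        exact hinj x hx y hy h
    _ ≤ ∑ y ∈ t, g y := by
        apply Finset.sum_le_sum_of_subset_of_nonneg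
        · intro y hy
          obtain ⟨x, hx, rfl⟩ := Finset.mem_image.mp hy
          exact hmap x hx
        · intro y hy _
          exact hg y hy

theorem ES_pr_mono (P : Fin M → ℕ) (hP : ∀ j, 1 ≤ P j) {U V : Finset (Fin M)} (h : V ⊆ U) :
    pr P V ≤ pr P U :=
  Finset.prod_le_prod_of_subset_of_one_le' h (fun i _ _ => hP i)

/-- submultiplicativity of the truncated sums -/
theorem ES_submul (P : Fin M → ℕ) (hP : ∀ j, 1 ≤ P j) (a b : Fin M → ℝ) (ha : ∀ j, 0 ≤ a j)
    (hb : ∀ j, 0 ≤ b j) (Z : ℝ) :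
    ∑ U ∈ (univ : Finset (Finset (Fin M))).filter (fun U => (pr P U : ℝ) ≤ Z),
      ∏ j ∈ U, (a j + b j) ≤
    (∑ U ∈ (univ : Finset (Finset (Fin M))).filter (fun U => (pr P U : ℝ) ≤ Z), ∏ j ∈ U, a j) *
    (∑ U ∈ (univ : Finset (Finset (Fin M))).filter (fun U => (pr P U : ℝ) ≤ Z), ∏ j ∈ U, b j) := by
  simp_rw [Finset.prod_add]
  rw [Finset.sum_mul_sum, Finset.sum_sigma', ← Finset.sum_product']
  refine ES_inj _ _ (fun x => (x.2, x.1 \ x.2)) ?_ ?_ _ _ ?_ ?_
  · rintro ⟨U, V⟩ hx
    simp only [Finset.mem_sigma, Finset.mem_filter, Finset.mem_univ, true_and,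
      Finset.mem_powerset] at hx
    simp only [Finset.mem_product, Finset.mem_filter, Finset.mem_univ, true_and]
    exact ⟨(Nat.cast_le.mpr (ES_pr_mono P hP hx.2)).trans hx.1,
      (Nat.cast_le.mpr (ES_pr_mono P hP Finset.sdiff_subset)).trans hx.1⟩
  · rintro ⟨U, V⟩ hx ⟨U', V'⟩ hy h
    simp only [Finset.mem_sigma, Finset.mem_filter, Finset.mem_univ, true_and,
      Finset.mem_powerset] at hx hy
    simp only [Prod.mk.injEq] at h
    obtain ⟨rfl, h2⟩ := h
    have : U = U' := by
      rw [← Finset.sdiff_union_of_subset hx.2, h2, Finset.sdiff_union_of_subset hy.2]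
    subst this
    rfl
  · rintro ⟨U, V⟩ hx
    exact le_rfl
  · rintro ⟨U, V⟩ hx
    exact mul_nonneg (Finset.prod_nonneg (fun j _ => ha j)) (Finset.prod_nonneg (fun j _ => hb j))

theorem ES_pr_inj (P : Fin M → ℕ) (hP : ∀ j, (P j).Prime) (hinj : Function.Injective P)
    {U V : Finset (Fin M)} (h : pr P U = pr P V) : U = V := by
  have key : ∀ U : Finset (Fin M), ∀ j, j ∈ U ↔ P j ∣ pr P U := by
    intro U j
    constructor
    · intro hj
      exact Finset.dvd_prod_of_mem P hj
    · intro hj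
      obtain ⟨i, hi, hd⟩ := (Prime.dvd_finsetProd_iff (hP j).prime P).mp hj
      have := (Nat.prime_dvd_prime_iff_eq (hP j) (hP i)).mp hd
      rw [hinj this]
      exact hi
  ext j
  rw [key U j, key V j, h]

theorem ES_pr_pos (P : Fin M → ℕ) (hP : ∀ j, (P j).Prime) (U : Finset (Fin M)) : 0 < pr P U :=
  Finset.prod_pos (fun j _ => (hP j).pos)

/-- the sum of reciprocals -/
theorem ES_one (P : Fin M → ℕ) (hP : ∀ j, (P j).Prime) (hinj : Function.Injective P)
    (Z : ℝ) (hZ1 : 1 ≤ Z) :
    ∑ U ∈ (univ : Finset (Finset (Fin M))).filter (fun U => (pr P U : ℝ) ≤ Z),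
      ∏ j ∈ U, ((1 : ℝ) / P j) ≤ 1 + Real.log Z := by
  have h1 : ∑ U ∈ (univ : Finset (Finset (Fin M))).filter (fun U => (pr P U : ℝ) ≤ Z),
      ∏ j ∈ U, ((1 : ℝ) / P j) ≤ ∑ n ∈ Icc 1 ⌊Z⌋₊, ((n : ℝ))⁻¹ := by
    refine ES_inj _ _ (fun U => pr P U) ?_ ?_ _ _ ?_ ?_
    · intro U hU
      rw [Finset.mem_Icc]
      exact ⟨ES_pr_pos P hP U, Nat.le_floor (Finset.mem_filter.mp hU).2⟩
    · intro U _ V _ h
      exact ES_pr_inj P hP hinj h
    · intro U _
      apply le_of_eq
      unfold pr
      push_cast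
      rw [← Finset.prod_inv_distrib]
      exact Finset.prod_congr rfl (fun j _ => one_div _)
    · intro n _
      positivity
  refine h1.trans ?_
  have h2 := harmonic_floor_le_one_add_log Z hZ1
  rw [harmonic_eq_sum_Icc] at h2
  push_cast at h2
  exact h2

/-- the basic estimate -/
theorem ES_size (P : Fin M → ℕ) (hP : ∀ j, (P j).Prime) (hinj : Function.Injective P) (E : ℕ)
    (Z : ℝ) (hZ1 : 1 ≤ Z) :
    ∑ U ∈ (univ : Finset (Finset (Fin M))).filter (fun U => (pr P U : ℝ) ≤ Z),
      ∏ j ∈ U, ((E : ℝ) / P j) ≤ (1 + Real.log Z) ^ E := by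
  have hP0 : ∀ j, (0 : ℝ) < P j := fun j => by exact_mod_cast (hP j).pos
  have hlog : 0 ≤ Real.log Z := Real.log_nonneg hZ1
  induction E with
  | zero =>
      rw [pow_zero]
      have h1 : ∀ U ∈ (univ : Finset (Finset (Fin M))).filter (fun U => (pr P U : ℝ) ≤ Z),
          ∏ j ∈ U, (((0 : ℕ) : ℝ) / P j) = if U = ∅ then 1 else 0 := by
        intro U _
        by_cases hU : U = ∅
        · subst hU; simp
        · rw [if_neg hU]
          obtain ⟨j, hj⟩ := Finset.nonempty_iff_ne_empty.mpr hU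
          exact Finset.prod_eq_zero hj (by simp)
      rw [Finset.sum_congr rfl h1, Finset.sum_ite_eq']
      split_ifs <;> simp
  | succ E ih =>
      have h1 : ∀ j, (((E + 1 : ℕ) : ℝ) / P j) = (E : ℝ) / P j + 1 / P j := by
        intro j; push_cast; ring
      simp_rw [h1]
      refine (ES_submul P (fun j => (hP j).pos) _ _
        (fun j => div_nonneg (Nat.cast_nonneg _) (hP0 j).le)
        (fun j => div_nonneg zero_le_one (hP0 j).le) Z).trans ?_
      rw [pow_succ]
      refine mul_le_mul ih (ES_one P hP hinj Z hZ1) ?_ (by positivity)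
      exact Finset.sum_nonneg (fun U _ => Finset.prod_nonneg
        (fun j _ => div_nonneg zero_le_one (hP0 j).le))

theorem ES_dv (P : Fin M → ℕ) (x : Vec M k) :
    dv P x = pr P (univ.filter (fun j => x j ≠ none)) := by
  unfold dv pr
  rw [Finset.prod_filter]
  refine Finset.prod_congr rfl (fun j _ => ?_)
  by_cases h : x j = none <;> simp [h]

theorem ES_sc (x : Vec M k) (E : ℝ) : E ^ sc x = ∏ j, if x j = none then 1 else E := by
  unfold sc
  rw [Finset.card_filter, ← Finset.prod_pow_eq_pow_sum]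
  refine Finset.prod_congr rfl (fun j _ => ?_)
  by_cases h : x j = none <;> simp [h]

end Pool.Agent.BG
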