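import Pool.Agent.Lib_helper23.BGF.VAS
set_option autoImplicit false

namespace Pool.Agent.BG

open Finset Filter
open scoped Classical

variable {M k : ℕ}

/-- the coefficients of the step function -/
noncomputable def NUM_c (J j : ℕ) : ℝ := if j = J then (1 / 2 : ℝ) ^ J else (1 / 2) ^ (j + 1)

/-- the coefficients of the square of the step function -/
noncomputable def NUM_d (J j : ℕ) : ℝ :=
  if j = J then (1 / 4 : ℝ) ^ J else (3 / 4) * (1 / 4) ^ j

/-- step function with coefficients `c` -/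
noncomputable def NUM_st (c : ℕ → ℝ) (J : ℕ) (v : ℝ) (a : ℕ) : ℝ :=
  ∑ j ∈ range (J + 1), c j * (if Real.log a ≤ 2 ^ j * v then 1 else 0)

theorem NUM_gst_eq (J : ℕ) (v : ℝ) (a : ℕ) : gst J v a = NUM_st (NUM_c J) J v a := rfl

theorem NUM_c_nonneg (J j : ℕ) : 0 ≤ NUM_c J j := by
  unfold NUM_c; split_ifs <;> positivity

theorem NUM_d_nonneg (J j : ℕ) : 0 ≤ NUM_d J j := by
  unfold NUM_d; split_ifs <;> positivity

/-- tail sums of `NUM_c` -/
theorem NUM_c_tail (J m : ℕ) (hm : m ≤ J) :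
    ∑ j ∈ Finset.Ico m (J + 1), NUM_c J j = (1 / 2 : ℝ) ^ m := by
  induction hm using Nat.decreasingInduction with
  | self => simp [NUM_c]
  | of_succ m hm ih =>
    rw [Finset.sum_eq_sum_Ico_succ_bot (by omega), ih]
    have : m ≠ J := by omega
    simp only [NUM_c, this, if_false]
    ring

/-- tail sums of `NUM_d` -/
theorem NUM_d_tail (J m : ℕ) (hm : m ≤ J) :
    ∑ j ∈ Finset.Ico m (J + 1), NUM_d J j = (1 / 4 : ℝ) ^ m := by
  induction hm using Nat.decreasingInduction with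
  | self => simp [NUM_d]
  | of_succ m hm ih =>
    rw [Finset.sum_eq_sum_Ico_succ_bot (by omega), ih]
    have : m ≠ J := by omega
    simp only [NUM_d, this, if_false]
    ring

/-- value of a step function: zero outside, or a tail sum -/
theorem NUM_st_zero (c : ℕ → ℝ) (J : ℕ) (v : ℝ) (hv : 0 ≤ v) (a : ℕ)
    (ha : 2 ^ J * v < Real.log a) : NUM_st c J v a = 0 := by
  unfold NUM_st
  refine sum_eq_zero fun j hj => ?_
  have hj' : j ≤ J := by simpa [Nat.lt_succ_iff] using hj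
  have h2 : (2 : ℝ) ^ j * v ≤ 2 ^ J * v :=
    mul_le_mul_of_nonneg_right (pow_le_pow_right₀ (by norm_num) hj') hv
  rw [if_neg (by linarith), mul_zero]

theorem NUM_st_tail (c : ℕ → ℝ) (J : ℕ) (v : ℝ) (hv : 0 ≤ v) (a m : ℕ) (hm : m ≤ J)
    (h1 : Real.log a ≤ 2 ^ m * v) (h2 : ∀ j < m, 2 ^ j * v < Real.log a) :
    NUM_st c J v a = ∑ j ∈ Finset.Ico m (J + 1), c j := by
  unfold NUM_st
  rw [Finset.range_eq_Ico, ← Finset.sum_Ico_consecutive _ (Nat.zero_le m) (by omega : m ≤ J + 1)]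
  have hz : ∑ j ∈ Finset.Ico 0 m, c j * (if Real.log a ≤ 2 ^ j * v then (1 : ℝ) else 0) = 0 := by
    refine sum_eq_zero fun j hj => ?_
    have hj' : j < m := by simpa using hj
    rw [if_neg (by linarith [h2 j hj']), mul_zero]
  rw [hz, zero_add]
  refine sum_congr rfl fun j hj => ?_
  have hj' : m ≤ j := (Finset.mem_Ico.1 hj).1
  have h3 : (2 : ℝ) ^ m * v ≤ 2 ^ j * v :=
    mul_le_mul_of_nonneg_right (pow_le_pow_right₀ (by norm_num) hj') hv
  rw [if_pos (by linarith), mul_one]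

/-- the dichotomy -/
theorem NUM_cases (J : ℕ) (v : ℝ) (a : ℕ) :
    2 ^ J * v < Real.log a ∨ ∃ m ≤ J, Real.log a ≤ 2 ^ m * v ∧
      ∀ j < m, 2 ^ j * v < Real.log a := by
  by_cases h : 2 ^ J * v < Real.log a
  · exact Or.inl h
  · right
    have hex : ∃ m : ℕ, Real.log a ≤ 2 ^ m * v := ⟨J, not_lt.1 h⟩
    refine ⟨Nat.find hex, Nat.find_min' hex (not_lt.1 h), Nat.find_spec hex, fun j hj => ?_⟩
    exact not_le.1 (Nat.find_min hex hj)

theorem NUM_gst_sq (J : ℕ) (v : ℝ) (hv : 0 ≤ v) (a : ℕ) :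
    gst J v a ^ 2 = NUM_st (NUM_d J) J v a := by
  rcases NUM_cases J v a with h | ⟨m, hm, h1, h2⟩
  · rw [NUM_gst_eq, NUM_st_zero _ _ _ hv _ h, NUM_st_zero _ _ _ hv _ h]
    norm_num
  · rw [NUM_gst_eq, NUM_st_tail _ _ _ hv _ m hm h1 h2, NUM_st_tail _ _ _ hv _ m hm h1 h2,
      NUM_c_tail _ _ hm, NUM_d_tail _ _ hm, ← pow_mul, mul_comm m 2, pow_mul]
    norm_num

theorem NUM_gst_log (J : ℕ) (v : ℝ) (hv : 0 ≤ v) (a : ℕ) :
    gst J v a ^ 2 * Real.log a ^ 2 ≤ v ^ 2 * (if Real.log a ≤ 2 ^ J * v then 1 else 0) := by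
  rcases NUM_cases J v a with h | ⟨m, hm, h1, h2⟩
  · rw [NUM_gst_eq, NUM_st_zero _ _ _ hv _ h, if_neg (by linarith)]
    norm_num
  · have h3 : (2 : ℝ) ^ m * v ≤ 2 ^ J * v :=
      mul_le_mul_of_nonneg_right (pow_le_pow_right₀ (by norm_num) hm) hv
    rw [NUM_gst_eq, NUM_st_tail _ _ _ hv _ m hm h1 h2, NUM_c_tail _ _ hm, if_pos (by linarith),
      mul_one, ← mul_pow]
    have hl : 0 ≤ Real.log a := Real.log_natCast_nonneg a
    refine pow_le_pow_left₀ (by positivity) ?_ 2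
    calc (1 / 2 : ℝ) ^ m * Real.log a ≤ (1 / 2 : ℝ) ^ m * (2 ^ m * v) :=
          mul_le_mul_of_nonneg_left h1 (by positivity)
      _ = v := by
          rw [← mul_assoc, ← mul_pow]; norm_num

theorem gst_hyp (J : ℕ) (v : ℝ) (hv : 0 ≤ v) : GHyp (gst J v) := by
  have h0 : ∀ a, 0 ≤ gst J v a := by
    intro a
    rw [NUM_gst_eq]
    unfold NUM_st
    refine sum_nonneg fun j _ => mul_nonneg (NUM_c_nonneg _ _) ?_
    split_ifs <;> norm_num
  refine ⟨h0, ?_, ?_, ?_⟩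
  · intro a
    rcases NUM_cases J v a with h | ⟨m, hm, h1, h2⟩
    · rw [NUM_gst_eq, NUM_st_zero _ _ _ hv _ h]; norm_num
    · rw [NUM_gst_eq, NUM_st_tail _ _ _ hv _ m hm h1 h2, NUM_c_tail _ _ hm]
      exact pow_le_one₀ (by norm_num) (by norm_num)
  · rw [NUM_gst_eq, NUM_st_tail _ _ _ hv _ 0 (Nat.zero_le _) (by simpa using hv)
      (fun j hj => by omega), NUM_c_tail _ _ (Nat.zero_le _), pow_zero]
  · intro a b ha hb
    rw [NUM_gst_eq, NUM_gst_eq]
    unfold NUM_st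
    refine sum_le_sum fun j _ => mul_le_mul_of_nonneg_left ?_ (NUM_c_nonneg _ _)
    have hlog : Real.log a ≤ Real.log ((a * b : ℕ) : ℝ) := by
      refine Real.log_le_log (by exact_mod_cast ha) ?_
      exact_mod_cast Nat.le_mul_of_pos_right a hb
    split_ifs with h1 h2
    · exact le_rfl
    · exact absurd (hlog.trans h1) h2
    · norm_num
    · exact le_rfl

theorem gst_support (J : ℕ) (v : ℝ) (hv : 0 ≤ v) (a : ℕ) (ha : gst J v a ≠ 0) :
    Real.log a ≤ 2 ^ J * v := by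
  by_contra h
  exact ha (by rw [NUM_gst_eq]; exact NUM_st_zero _ _ _ hv _ (not_le.1 h))

theorem NUM_al_nonneg (P : Fin M → ℕ) (hP : ∀ j, (P j).Prime) (j : Fin M) : 0 ≤ al P j := by
  unfold al
  have : (1 : ℝ) ≤ P j := by exact_mod_cast (hP j).one_lt.le
  exact div_nonneg zero_le_one (by linarith)

theorem NUM_Gsum_mono (P : Fin M → ℕ) (hP : ∀ j, (P j).Prime) (f g : ℕ → ℝ)
    (h : ∀ a, f a ≤ g a) : Gsum P f ≤ Gsum P g := by
  unfold Gsum
  exact sum_le_sum fun U _ => mul_le_mul_of_nonneg_right (h _)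
    (prod_nonneg fun j _ => NUM_al_nonneg P hP j)

theorem NUM_pr_pos (P : Fin M → ℕ) (hP : ∀ j, (P j).Prime) (U : Finset (Fin M)) :
    0 < pr P U := prod_pos fun j _ => (hP j).pos

theorem NUM_Gsum_ind (P : Fin M → ℕ) (hP : ∀ j, (P j).Prime) (W N : ℕ) (hE : Enum P W N)
    (y : ℝ) (hy : Real.exp y ≤ N) :
    Gsum P (fun a => if Real.log a ≤ y then 1 else 0) = VW W (Real.exp y) := by
  rw [← Gsum_eq_VW P W N hE _ hy]
  unfold Gsum
  refine sum_congr rfl fun U _ => ?_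
  have hpos : (0 : ℝ) < (pr P U : ℝ) := by exact_mod_cast NUM_pr_pos P hP U
  congr 1
  beta_reduce
  by_cases h : Real.log (pr P U : ℝ) ≤ y
  · rw [if_pos h, if_pos ((Real.log_le_iff_le_exp hpos).1 h)]
  · rw [if_neg h, if_neg (fun h' => h ((Real.log_le_iff_le_exp hpos).2 h'))]

theorem NUM_Gsum_st (P : Fin M → ℕ) (hP : ∀ j, (P j).Prime) (W N : ℕ) (hE : Enum P W N)
    (c : ℕ → ℝ) (J : ℕ) (v : ℝ) (hv : 0 ≤ v) (hN : Real.exp (2 ^ J * v) ≤ N) :
    Gsum P (NUM_st c J v) = ∑ j ∈ range (J + 1), c j * VW W (Real.exp (2 ^ j * v)) := by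
  have h1 : Gsum P (NUM_st c J v) =
      ∑ j ∈ range (J + 1), c j * Gsum P (fun a => if Real.log a ≤ 2 ^ j * v then 1 else 0) := by
    unfold Gsum NUM_st
    simp only [sum_mul, mul_sum]
    rw [sum_comm]
    refine sum_congr rfl fun j _ => sum_congr rfl fun U _ => ?_
    ring
  rw [h1]
  refine sum_congr rfl fun j hj => ?_
  have hj' : j ≤ J := by simpa [Nat.lt_succ_iff] using hj
  rw [NUM_Gsum_ind P hP W N hE]
  refine le_trans (Real.exp_le_exp.2 ?_) hN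
  exact mul_le_mul_of_nonneg_right (pow_le_pow_right₀ (by norm_num) hj') hv

theorem NUM_sum_c2 (J : ℕ) : ∑ j ∈ range (J + 1), NUM_c J j * 2 ^ j = J / 2 + 1 := by
  rw [sum_range_succ]
  have h : ∑ j ∈ range J, NUM_c J j * 2 ^ j = ∑ j ∈ range J, (1 / 2 : ℝ) := by
    refine sum_congr rfl fun j hj => ?_
    have : j ≠ J := (mem_range.1 hj).ne
    simp only [NUM_c, this, if_false]
    rw [pow_succ, mul_right_comm, ← mul_pow]
    norm_num
  rw [h]
  simp only [NUM_c, if_true, sum_const, card_range, nsmul_eq_mul]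
  rw [← mul_pow]
  norm_num
  ring

theorem NUM_sum_c1 (J : ℕ) : ∑ j ∈ range (J + 1), NUM_c J j = 1 := by
  have := NUM_c_tail J 0 (Nat.zero_le _)
  rwa [pow_zero, ← Finset.range_eq_Ico] at this

theorem NUM_sum_d1 (J : ℕ) : ∑ j ∈ range (J + 1), NUM_d J j = 1 := by
  have := NUM_d_tail J 0 (Nat.zero_le _)
  rwa [pow_zero, ← Finset.range_eq_Ico] at this

theorem NUM_sum_d2 (J : ℕ) :
    ∑ j ∈ range (J + 1), NUM_d J j * 2 ^ j = 3 / 2 - (1 / 2) ^ J / 2 := by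
  rw [sum_range_succ]
  have h : ∀ K ≤ J, ∑ j ∈ range K, NUM_d J j * 2 ^ j = 3 / 2 * (1 - (1 / 2 : ℝ) ^ K) := by
    intro K hK
    induction K with
    | zero => simp
    | succ K ih =>
      rw [sum_range_succ, ih (by omega)]
      have : K ≠ J := by omega
      simp only [NUM_d, this, if_false]
      have h4 : ((1 : ℝ) / 4) ^ K * 2 ^ K = (1 / 2) ^ K := by rw [← mul_pow]; norm_num
      calc 3 / 2 * (1 - (1 / 2 : ℝ) ^ K) + 3 / 4 * (1 / 4) ^ K * 2 ^ K
          = 3 / 2 * (1 - (1 / 2 : ℝ) ^ K) + 3 / 4 * ((1 / 4) ^ K * 2 ^ K) := by ring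
        _ = _ := by rw [h4, pow_succ]; ring
  rw [h J le_rfl]
  simp only [NUM_d, if_true]
  have h4 : ((1 : ℝ) / 4) ^ J * 2 ^ J = (1 / 2) ^ J := by rw [← mul_pow]; norm_num
  rw [h4]
  ring

theorem NUM_sum_d4 (J : ℕ) :
    ∑ j ∈ range (J + 1), NUM_d J j * ((2 : ℝ) ^ j) ^ 2 = 3 * J / 4 + 1 := by
  rw [sum_range_succ]
  have h : ∑ j ∈ range J, NUM_d J j * ((2 : ℝ) ^ j) ^ 2 = ∑ j ∈ range J, (3 / 4 : ℝ) := by
    refine sum_congr rfl fun j hj => ?_
    have : j ≠ J := (mem_range.1 hj).ne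
    simp only [NUM_d, this, if_false]
    rw [← pow_mul, mul_comm j 2, pow_mul, mul_assoc, ← mul_pow]
    norm_num
  rw [h]
  simp only [NUM_d, if_true, sum_const, card_range, nsmul_eq_mul]
  rw [← pow_mul, mul_comm J 2, pow_mul, ← mul_pow]
  norm_num
  ring

theorem num (ε : ℝ) (hε : 0 < ε) (hε1 : ε ≤ 1 / 10) (J : ℕ) (u : ℝ) (hu : 0 < u)
    (hu1 : 2 ^ J * u ≤ 1) :
    ∃ w₀ : ℕ, ∀ W : ℕ, 0 < W → (∀ p : ℕ, p.Prime → p ≤ w₀ → p ∣ W) →
      ∀ᶠ N : ℕ in atTop, ∀ (M : ℕ) (P : Fin M → ℕ), Enum P W N →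
        let ℓ := Real.log N
        let φ := (W.totient : ℝ) / W
        let g := gst J (u * ℓ)
        (1 - ε) * (φ * ℓ * u * (J / 2 + 1)) ≤ Gsum P g ∧
        Gsum P g ≤ (1 + ε) * (φ * ℓ * u * (J / 2 + 1)) ∧
        (1 - ε) * (φ * ℓ * u) ≤ Gsum P (fun a => g a ^ 2) ∧
        Gsum P (fun a => g a ^ 2) ≤ (1 + ε) * (φ * ℓ * u * (3 / 2)) ∧
        Gsum P (fun a => g a ^ 2 * Real.log a) ≤ (1 + ε) * (φ * ℓ * u * ((J + 1) * u * ℓ)) ∧
        Gsum P (fun a => g a ^ 2 * Real.log a ^ 2) ≤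
          (1 + ε) * (φ * ℓ * u * (2 ^ J * (u * ℓ) ^ 2)) ∧
        (1 - ε) * (φ * (6 / 25 * ℓ)) ≤
          Gsum P (fun n => if (n : ℝ) ≤ (N : ℝ) ^ (6 / 25 : ℝ) then 1 else 0) := by
  obtain ⟨w₀, hw₀⟩ := VW_asymp (ε / 4) (by positivity)
  refine ⟨w₀, fun W hW hWp => ?_⟩
  obtain ⟨C, hC⟩ := hw₀ W hW hWp
  have hWR : (0 : ℝ) < W := by exact_mod_cast hW
  have htot : (0 : ℝ) < W.totient := by exact_mod_cast Nat.totient_pos.2 hW
  have hφ : 0 < (W.totient : ℝ) / W := div_pos htot hWR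
  have hlog : Tendsto (fun N : ℕ => Real.log (N : ℝ)) atTop atTop :=
    Real.tendsto_log_atTop.comp tendsto_natCast_atTop_atTop
  have hev : ∀ᶠ N : ℕ in atTop,
      |C| / (ε / 4 * ((W.totient : ℝ) / W) * min u (6 / 25)) ≤ Real.log (N : ℝ) :=
    hlog.eventually_ge_atTop _
  filter_upwards [hev, eventually_ge_atTop 1] with N hN hN1 M P hE
  intro ℓ φ g
  have hP : ∀ j, (P j).Prime := fun j => ((hE.2 (P j)).1 ⟨j, rfl⟩).1
  have hℓ0 : 0 ≤ ℓ := Real.log_natCast_nonneg N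
  have hmin : 0 < min u (6 / 25 : ℝ) := lt_min hu (by norm_num)
  have hCb : |C| ≤ ε / 4 * φ * min u (6 / 25) * ℓ := by
    have hpos : 0 < ε / 4 * ((W.totient : ℝ) / W) * min u (6 / 25) := by positivity
    have := (div_le_iff₀ hpos).1 hN
    calc |C| ≤ Real.log (N : ℝ) * (ε / 4 * ((W.totient : ℝ) / W) * min u (6 / 25)) := this
      _ = _ := by ring
  have hφ' : 0 < φ := hφ
  set v : ℝ := u * ℓ with hvdef
  have hv : 0 ≤ v := by positivity
  have hCv : |C| ≤ ε / 4 * (φ * v) := by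
    refine hCb.trans ?_
    have : min u (6 / 25 : ℝ) ≤ u := min_le_left _ _
    calc ε / 4 * φ * min u (6 / 25) * ℓ ≤ ε / 4 * φ * u * ℓ := by gcongr
      _ = _ := by rw [hvdef]; ring
  have hC6 : |C| ≤ ε / 4 * (φ * (6 / 25 * ℓ)) := by
    refine hCb.trans ?_
    have : min u (6 / 25 : ℝ) ≤ 6 / 25 := min_le_right _ _
    calc ε / 4 * φ * min u (6 / 25) * ℓ ≤ ε / 4 * φ * (6 / 25) * ℓ := by gcongr
      _ = _ := by ring
  have hNpos : (0 : ℝ) < N := by exact_mod_cast hN1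
  have hexpN : Real.exp (2 ^ J * v) ≤ N := by
    have h1 : 2 ^ J * v ≤ ℓ := by
      calc 2 ^ J * v = (2 ^ J * u) * ℓ := by rw [hvdef]; ring
        _ ≤ 1 * ℓ := by gcongr
        _ = ℓ := one_mul _
    calc Real.exp (2 ^ J * v) ≤ Real.exp ℓ := Real.exp_le_exp.2 h1
      _ = N := Real.exp_log hNpos
  -- bounds for VW at exp y, y ≥ 0
  have hVW : ∀ y : ℝ, 0 ≤ y → (1 - ε / 4) * φ * y - |C| ≤ VW W (Real.exp y) ∧
      VW W (Real.exp y) ≤ (1 + ε / 4) * φ * y + |C| := by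
    intro y hy
    have h := hC (Real.exp y) (Real.one_le_exp hy)
    rw [Real.log_exp] at h
    have hCabs : C ≤ |C| := le_abs_self C
    constructor
    · have := h.1; linarith
    · have := h.2; linarith
  -- generic bounds
  have hup : ∀ c : ℕ → ℝ, (∀ j, 0 ≤ c j) →
      ∑ j ∈ range (J + 1), c j * VW W (Real.exp (2 ^ j * v)) ≤
        (1 + ε / 4) * φ * v * (∑ j ∈ range (J + 1), c j * 2 ^ j) +
          |C| * ∑ j ∈ range (J + 1), c j := by
    intro c hc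
    rw [mul_sum, mul_sum, ← sum_add_distrib]
    refine sum_le_sum fun j _ => ?_
    have := (hVW (2 ^ j * v) (by positivity)).2
    calc c j * VW W (Real.exp (2 ^ j * v)) ≤ c j * ((1 + ε / 4) * φ * (2 ^ j * v) + |C|) :=
          mul_le_mul_of_nonneg_left this (hc j)
      _ = _ := by ring
  have hlo : ∀ c : ℕ → ℝ, (∀ j, 0 ≤ c j) →
      (1 - ε / 4) * φ * v * (∑ j ∈ range (J + 1), c j * 2 ^ j) -
          |C| * ∑ j ∈ range (J + 1), c j ≤
        ∑ j ∈ range (J + 1), c j * VW W (Real.exp (2 ^ j * v)) := by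
    intro c hc
    rw [mul_sum, mul_sum, ← sum_sub_distrib]
    refine sum_le_sum fun j _ => ?_
    have := (hVW (2 ^ j * v) (by positivity)).1
    calc (1 - ε / 4) * φ * v * (c j * 2 ^ j) - |C| * c j
          = c j * ((1 - ε / 4) * φ * (2 ^ j * v) - |C|) := by ring
      _ ≤ _ := mul_le_mul_of_nonneg_left this (hc j)
  have hφv : 0 ≤ φ * v := by positivity
  have hpow1 : (0 : ℝ) ≤ (1 / 2) ^ J := by positivity
  have hpow2 : ((1 : ℝ) / 2) ^ J ≤ 1 := pow_le_one₀ (by norm_num) (by norm_num)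
  have hJ0 : (0 : ℝ) ≤ J := Nat.cast_nonneg J
  have hG1 : Gsum P g = ∑ j ∈ range (J + 1), NUM_c J j * VW W (Real.exp (2 ^ j * v)) :=
    NUM_Gsum_st P hP W N hE (NUM_c J) J v hv hexpN
  have hG2 : Gsum P (fun a => g a ^ 2) =
      ∑ j ∈ range (J + 1), NUM_d J j * VW W (Real.exp (2 ^ j * v)) := by
    rw [← NUM_Gsum_st P hP W N hE (NUM_d J) J v hv hexpN]
    congr 1
    funext a
    exact NUM_gst_sq J v hv a
  refine ⟨?_, ?_, ?_, ?_, ?_, ?_, ?_⟩
  · rw [hG1]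
    refine le_trans ?_ (hlo _ (NUM_c_nonneg J))
    rw [NUM_sum_c2, NUM_sum_c1]
    have h1 : φ * v ≤ φ * v * (J / 2 + 1) := le_mul_of_one_le_right hφv (by linarith)
    have e : (1 - ε) * (φ * ℓ * u * (J / 2 + 1)) = (1 - ε) * (φ * v * (J / 2 + 1)) := by
      rw [hvdef]; ring
    rw [e]
    nlinarith [mul_le_mul_of_nonneg_left h1 hε.le]
  · rw [hG1]
    refine le_trans (hup _ (NUM_c_nonneg J)) ?_
    rw [NUM_sum_c2, NUM_sum_c1]
    have h1 : φ * v ≤ φ * v * (J / 2 + 1) := le_mul_of_one_le_right hφv (by linarith)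
    have e : (1 + ε) * (φ * ℓ * u * (J / 2 + 1)) = (1 + ε) * (φ * v * (J / 2 + 1)) := by
      rw [hvdef]; ring
    rw [e]
    nlinarith [mul_le_mul_of_nonneg_left h1 hε.le]
  · rw [hG2]
    refine le_trans ?_ (hlo _ (NUM_d_nonneg J))
    rw [NUM_sum_d2, NUM_sum_d1]
    have e : (1 - ε) * (φ * ℓ * u) = (1 - ε) * (φ * v) := by rw [hvdef]; ring
    rw [e]
    have h1 : φ * v ≤ φ * v * (3 / 2 - (1 / 2) ^ J / 2) :=
      le_mul_of_one_le_right hφv (by linarith)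
    have h2 : (0 : ℝ) ≤ 1 - ε / 4 := by linarith
    nlinarith [mul_le_mul_of_nonneg_left h1 h2, mul_nonneg hε.le hφv]
  · rw [hG2]
    refine le_trans (hup _ (NUM_d_nonneg J)) ?_
    rw [NUM_sum_d2, NUM_sum_d1]
    have e : (1 + ε) * (φ * ℓ * u * (3 / 2)) = (1 + ε) * (φ * v * (3 / 2)) := by
      rw [hvdef]; ring
    rw [e]
    have h1 : φ * v * (3 / 2 - (1 / 2) ^ J / 2) ≤ φ * v * (3 / 2) :=
      mul_le_mul_of_nonneg_left (by linarith) hφv
    have h2 : (0 : ℝ) ≤ 1 + ε / 4 := by linarith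
    nlinarith [mul_le_mul_of_nonneg_left h1 h2, mul_nonneg hε.le hφv]
  · have hle : Gsum P (fun a => g a ^ 2 * Real.log a) ≤
        Gsum P (NUM_st (fun j => NUM_d J j * (2 ^ j * v)) J v) := by
      refine NUM_Gsum_mono P hP _ _ fun a => ?_
      have : g a ^ 2 = NUM_st (NUM_d J) J v a := NUM_gst_sq J v hv a
      simp only [this]
      unfold NUM_st
      rw [sum_mul]
      refine sum_le_sum fun j _ => ?_
      by_cases h : Real.log a ≤ 2 ^ j * v
      · rw [if_pos h, mul_one, mul_one]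
        exact mul_le_mul_of_nonneg_left h (NUM_d_nonneg _ _)
      · rw [if_neg h]; simp
    refine hle.trans ?_
    rw [NUM_Gsum_st P hP W N hE _ J v hv hexpN]
    refine le_trans (hup _ (fun j => mul_nonneg (NUM_d_nonneg _ _) (by positivity))) ?_
    have e1 : ∑ j ∈ range (J + 1), NUM_d J j * (2 ^ j * v) * 2 ^ j = v * (3 * J / 4 + 1) := by
      rw [← NUM_sum_d4, mul_sum]
      exact sum_congr rfl fun j _ => by ring
    have e2 : ∑ j ∈ range (J + 1), NUM_d J j * (2 ^ j * v) = v * (3 / 2 - (1 / 2) ^ J / 2) := by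
      rw [← NUM_sum_d2, mul_sum]
      exact sum_congr rfl fun j _ => by ring
    rw [e1, e2]
    have e : (1 + ε) * (φ * ℓ * u * ((J + 1) * u * ℓ)) = (1 + ε) * (v * (φ * v * (J + 1))) := by
      rw [hvdef]; ring
    rw [e]
    have k1 : (1 + ε / 4) * φ * v * (v * (3 * J / 4 + 1)) ≤
        (1 + ε / 4) * (v * (φ * v * (J + 1))) := by
      have : (3 * (J : ℝ) / 4 + 1) ≤ J + 1 := by linarith
      calc (1 + ε / 4) * φ * v * (v * (3 * J / 4 + 1))
          = (1 + ε / 4) * (v * (φ * v * (3 * J / 4 + 1))) := by ring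
        _ ≤ _ := by gcongr
    have k2 : |C| * (v * (3 / 2 - (1 / 2) ^ J / 2)) ≤ 3 * ε / 4 * (v * (φ * v * (J + 1))) := by
      calc |C| * (v * (3 / 2 - (1 / 2) ^ J / 2)) ≤ (ε / 4 * (φ * v)) * (v * 2) := by
            refine mul_le_mul hCv ?_ (mul_nonneg hv (by linarith)) (by positivity)
            exact mul_le_mul_of_nonneg_left (by linarith) hv
        _ = 2 * ε / 4 * (v * (φ * v * 1)) := by ring
        _ ≤ 3 * ε / 4 * (v * (φ * v * (J + 1))) := by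
            have : (1 : ℝ) ≤ J + 1 := by linarith
            gcongr
            norm_num
    linarith
  · have hle : Gsum P (fun a => g a ^ 2 * Real.log a ^ 2) ≤
        v ^ 2 * VW W (Real.exp (2 ^ J * v)) := by
      rw [← NUM_Gsum_ind P hP W N hE _ hexpN]
      have e3 : v ^ 2 * Gsum P (fun a => if Real.log a ≤ 2 ^ J * v then 1 else 0) =
          Gsum P (fun a => v ^ 2 * (if Real.log a ≤ 2 ^ J * v then 1 else 0)) := by
        unfold Gsum
        rw [mul_sum]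
        exact sum_congr rfl fun U _ => by ring
      rw [e3]
      exact NUM_Gsum_mono P hP _ _ fun a => NUM_gst_log J v hv a
    refine hle.trans ?_
    have h1 := (hVW (2 ^ J * v) (by positivity)).2
    have e : (1 + ε) * (φ * ℓ * u * (2 ^ J * (u * ℓ) ^ 2)) =
        v ^ 2 * ((1 + ε) * (φ * (2 ^ J * v))) := by
      rw [hvdef]; ring
    rw [e]
    refine mul_le_mul_of_nonneg_left ?_ (by positivity)
    refine h1.trans ?_
    have h2J : (1 : ℝ) ≤ 2 ^ J := one_le_pow₀ (by norm_num)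
    have h3 : φ * v ≤ φ * (2 ^ J * v) := by
      refine mul_le_mul_of_nonneg_left ?_ hφ'.le
      exact le_mul_of_one_le_left hv h2J
    nlinarith [mul_le_mul_of_nonneg_left h3 hε.le, mul_nonneg hε.le hφv]
  · have h25 : (N : ℝ) ^ (6 / 25 : ℝ) ≤ N := by
      calc (N : ℝ) ^ (6 / 25 : ℝ) ≤ (N : ℝ) ^ (1 : ℝ) :=
            Real.rpow_le_rpow_of_exponent_le (by exact_mod_cast hN1) (by norm_num)
        _ = N := Real.rpow_one _
    rw [Gsum_eq_VW P W N hE _ h25]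
    have e4 : (N : ℝ) ^ (6 / 25 : ℝ) = Real.exp (6 / 25 * ℓ) := by
      rw [Real.rpow_def_of_pos hNpos, mul_comm]
    rw [e4]
    refine le_trans ?_ (hVW (6 / 25 * ℓ) (by positivity)).1
    have h5 : 0 ≤ φ * (6 / 25 * ℓ) := by positivity
    nlinarith [mul_nonneg hε.le h5]

end Pool.Agent.BG
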