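import Pool.Agent.Lib_helper23.BG.Defs
/-! Blocks CNT1 (`count_int`) and CNT2 (`count_prime`): expand the square, Chinese remainder -/

set_option autoImplicit false

namespace Pool.Agent.BG

open Finset Filter
open scoped Classical

variable {M k : ℕ}

theorem CNT_res (p h : ℕ) (hp : 0 < p) : ∃ t : ℕ, ∀ n : ℕ, p ∣ n + h ↔ n ≡ t [MOD p] := by
  refine ⟨(p - 1) * h, fun n => ?_⟩
  have e : (p - 1) * h + h = p * h := by
    obtain ⟨q, rfl⟩ : ∃ q, p = q + 1 := ⟨p - 1, by omega⟩
    simp only [Nat.add_sub_cancel]; ring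
  have z : p * h ≡ 0 [MOD p] := Nat.modEq_zero_iff_dvd.2 (dvd_mul_right p h)
  constructor
  · intro hd
    have : n + h ≡ (p - 1) * h + h [MOD p] := by
      rw [e]; exact (Nat.modEq_zero_iff_dvd.2 hd).trans z.symm
    exact Nat.ModEq.add_right_cancel' h this
  · intro hm
    have : n + h ≡ (p - 1) * h + h [MOD p] := hm.add_right h
    rw [e] at this
    exact Nat.modEq_zero_iff_dvd.1 (this.trans z)

theorem CNT_cop (P : Fin M → ℕ) (hP : ∀ j, (P j).Prime) (hinj : Function.Injective P) (W : ℕ)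
    (hPW : ∀ j, Nat.Coprime (P j) W) (J : Finset (Fin M)) (j : Fin M) (hj : j ∉ J) :
    Nat.Coprime (W * ∏ i ∈ J, P i) (P j) := by
  apply Nat.Coprime.mul_left (hPW j).symm
  apply Nat.Coprime.prod_left
  intro i hi
  refine (Nat.coprime_primes (hP i) (hP j)).2 (fun e => hj ?_)
  rw [← hinj e]; exact hi

theorem CNT_crt (P : Fin M → ℕ) (hP : ∀ j, (P j).Prime) (hinj : Function.Injective P) (W : ℕ)
    (hPW : ∀ j, Nat.Coprime (P j) W) (ν : ℕ) (t : Fin M → ℕ) (J : Finset (Fin M)) :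
    ∃ a, ∀ n, (n ≡ ν [MOD W] ∧ ∀ j ∈ J, n ≡ t j [MOD P j]) ↔ n ≡ a [MOD W * ∏ j ∈ J, P j] := by
  induction J using Finset.induction_on with
  | empty => exact ⟨ν, fun n => by simp⟩
  | insert j J hj ih =>
    obtain ⟨a, ha⟩ := ih
    have cop := CNT_cop P hP hinj W hPW J j hj
    obtain ⟨z, hz1, hz2⟩ := Nat.chineseRemainder cop a (t j)
    refine ⟨z, fun n => ?_⟩
    rw [Finset.prod_insert hj, show W * (P j * ∏ i ∈ J, P i) = (W * ∏ i ∈ J, P i) * P j by ring,
      ← Nat.modEq_and_modEq_iff_modEq_mul cop]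
    constructor
    · rintro ⟨h1, h2⟩
      have h3 := (ha n).1 ⟨h1, fun i hi => h2 i (Finset.mem_insert_of_mem hi)⟩
      exact ⟨h3.trans hz1.symm, (h2 j (Finset.mem_insert_self j J)).trans hz2.symm⟩
    · rintro ⟨h1, h2⟩
      have h3 := (ha n).2 (h1.trans hz1)
      refine ⟨h3.1, fun i hi => ?_⟩
      rcases Finset.mem_insert.1 hi with rfl | hi
      · exact h2.trans hz2
      · exact h3.2 i hi

theorem CNT_dv2 (P : Fin M → ℕ) (x y : Vec M k) :
    dv2 P x y = ∏ j ∈ (univ : Finset (Fin M)).filter (fun j => ¬(x j = none ∧ y j = none)),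
      P j := by
  unfold dv2
  rw [Finset.prod_filter]
  exact Finset.prod_congr rfl fun j _ => by split_ifs <;> simp_all

theorem CNT_local (p : ℕ) (hp : 0 < p) (h : Fin k → ℕ) (o1 o2 : Option (Fin k))
    (hc : ∀ i l, o1 = some i → o2 = some l → i = l) (hn : ¬(o1 = none ∧ o2 = none)) :
    ∃ t : ℕ, ∀ n : ℕ, ((∀ i, o1 = some i → p ∣ n + h i) ∧ (∀ i, o2 = some i → p ∣ n + h i)) ↔
      n ≡ t [MOD p] := by
  rcases o1 with _ | i
  · rcases o2 with _ | l
    · exact absurd ⟨rfl, rfl⟩ hn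
    · obtain ⟨t, ht⟩ := CNT_res p (h l) hp
      refine ⟨t, fun n => ?_⟩
      rw [← ht n]
      constructor
      · rintro ⟨_, h2⟩; exact h2 l rfl
      · intro h1
        refine ⟨fun i hi => by simp at hi, fun i hi => ?_⟩
        have : l = i := by simpa using hi
        rw [← this]; exact h1
  · obtain ⟨t, ht⟩ := CNT_res p (h i) hp
    refine ⟨t, fun n => ?_⟩
    rw [← ht n]
    constructor
    · rintro ⟨h1, _⟩; exact h1 i rfl
    · intro h1
      refine ⟨fun l hl => ?_, fun l hl => ?_⟩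
      · have : i = l := by simpa using hl
        rw [← this]; exact h1
      · rw [← hc i l rfl hl]; exact h1

theorem CNT_class (P : Fin M → ℕ) (hP : ∀ j, (P j).Prime) (hinj : Function.Injective P) (W : ℕ)
    (hPW : ∀ j, Nat.Coprime (P j) W) (h : Fin k → ℕ) (ν : ℕ) (x y : Vec M k)
    (hc : ∀ j i l, x j = some i → y j = some l → i = l) :
    ∃ a, ∀ n, (n ≡ ν [MOD W] ∧ Sat P h n x ∧ Sat P h n y) ↔ n ≡ a [MOD W * dv2 P x y] := by
  have key : ∀ j, ∃ t : ℕ, ¬(x j = none ∧ y j = none) → ∀ n : ℕ,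
      ((∀ i, x j = some i → P j ∣ n + h i) ∧ (∀ i, y j = some i → P j ∣ n + h i)) ↔
        n ≡ t [MOD P j] := by
    intro j
    by_cases hn : x j = none ∧ y j = none
    · exact ⟨0, fun h => absurd hn h⟩
    · obtain ⟨t, ht⟩ := CNT_local (P j) (hP j).pos h (x j) (y j) (hc j) hn
      exact ⟨t, fun _ => ht⟩
  choose t ht using key
  obtain ⟨a, ha⟩ := CNT_crt P hP hinj W hPW ν t
    ((univ : Finset (Fin M)).filter (fun j => ¬(x j = none ∧ y j = none)))
  refine ⟨a, fun n => ?_⟩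
  rw [CNT_dv2, ← ha n]
  constructor
  · rintro ⟨h1, h2, h3⟩
    refine ⟨h1, fun j hj => ?_⟩
    exact (ht j (Finset.mem_filter.1 hj).2 n).1 ⟨h2 j, h3 j⟩
  · rintro ⟨h1, h2⟩
    refine ⟨h1, fun j i hi => ?_, fun j i hi => ?_⟩
    · have hn : ¬(x j = none ∧ y j = none) := by rw [hi]; simp
      exact ((ht j hn n).2 (h2 j (Finset.mem_filter.2 ⟨Finset.mem_univ j, hn⟩))).1 i hi
    · have hn : ¬(x j = none ∧ y j = none) := by rw [hi]; simp
      exact ((ht j hn n).2 (h2 j (Finset.mem_filter.2 ⟨Finset.mem_univ j, hn⟩))).2 i hi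

theorem CNT_Kl (α : ℝ) (o1 o2 : Option (Fin k)) (hc : ∀ i l, o1 = some i → o2 = some l → i = l) :
    Kl α o1 o2 = if o1 = none ∧ o2 = none then 1 else α := by
  rcases o1 with _ | i <;> rcases o2 with _ | l
  · simp [Kl]
  · simp [Kl]
  · simp [Kl]
  · have := hc i l rfl rfl
    simp [Kl, this]

theorem CNT_Kl_zero (P : Fin M → ℝ) (x y : Vec M k)
    (hc : ¬ ∀ j i l, x j = some i → y j = some l → i = l) :
    ∏ j, Kl (P j) (x j) (y j) = 0 := by
  push Not at hc
  obtain ⟨j, i, l, h1, h2, h3⟩ := hc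
  refine Finset.prod_eq_zero (Finset.mem_univ j) ?_
  rw [h1, h2]; simp [Kl, h3]

theorem CNT_incomp (P : Fin M → ℕ) (h : Fin k → ℕ)
    (hd : ∀ j i l, i ≠ l → ¬ ((P j : ℤ) ∣ (h i : ℤ) - h l)) (x y : Vec M k)
    (hc : ¬ ∀ j i l, x j = some i → y j = some l → i = l) (n : ℕ) :
    ¬ (Sat P h n x ∧ Sat P h n y) := by
  push Not at hc
  obtain ⟨j, i, l, h1, h2, h3⟩ := hc
  rintro ⟨hx, hy⟩
  apply hd j i l h3
  have e1 : (P j : ℤ) ∣ (n : ℤ) + h i := by exact_mod_cast hx j i h1
  have e2 : (P j : ℤ) ∣ (n : ℤ) + h l := by exact_mod_cast hy j l h2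
  have := dvd_sub e1 e2
  simpa using this

theorem CNT_expand (P : Fin M → ℕ) (h : Fin k → ℕ) (c : Vec M k → ℝ) (S : Finset ℕ) (f : ℕ → ℝ) :
    ∑ n ∈ S, f n * Wn P h c n =
      ∑ x, ∑ y, c x * c y * ∑ n ∈ S.filter (fun n => Sat P h n x ∧ Sat P h n y), f n := by
  have e1 : ∀ n, f n * Wn P h c n =
      ∑ x, ∑ y, c x * c y * (if Sat P h n x ∧ Sat P h n y then f n else 0) := by
    intro n
    unfold Wn
    rw [sq, Finset.sum_mul_sum, Finset.mul_sum]
    refine Finset.sum_congr rfl fun x _ => ?_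
    rw [Finset.mul_sum]
    refine Finset.sum_congr rfl fun y _ => ?_
    by_cases h1 : Sat P h n x <;> by_cases h2 : Sat P h n y <;> simp [h1, h2]
    ring
  calc ∑ n ∈ S, f n * Wn P h c n
      = ∑ n ∈ S, ∑ x, ∑ y, c x * c y * (if Sat P h n x ∧ Sat P h n y then f n else 0) :=
        Finset.sum_congr rfl fun n _ => e1 n
    _ = ∑ x, ∑ n ∈ S, ∑ y, c x * c y * (if Sat P h n x ∧ Sat P h n y then f n else 0) :=
        Finset.sum_comm
    _ = ∑ x, ∑ y, ∑ n ∈ S, c x * c y * (if Sat P h n x ∧ Sat P h n y then f n else 0) :=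
        Finset.sum_congr rfl fun x _ => Finset.sum_comm
    _ = _ := by
        refine Finset.sum_congr rfl fun x _ => Finset.sum_congr rfl fun y _ => ?_
        rw [← Finset.mul_sum, Finset.sum_filter]

theorem CNT_card (q : ℕ) (hq : 0 < q) (N a : ℕ) :
    |(((Ioc N (2 * N)).filter (fun n => n ≡ a [MOD q])).card : ℝ) - N / q| ≤ 1 := by
  have h1 := Nat.Ioc_filter_modEq_card N (2 * N) hq a
  have hq' : (0 : ℚ) < q := by exact_mod_cast hq
  set A : ℚ := (((2 * N : ℕ) : ℚ) - a) / q with hA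
  set B : ℚ := ((N : ℚ) - a) / q with hB
  have hAB : A - B = N / q := by rw [hA, hB, ← sub_div]; push_cast; ring
  have hN : (0 : ℚ) ≤ N / q := by positivity
  have hfl : ⌊B⌋ ≤ ⌊A⌋ := Int.floor_le_floor (by linarith)
  have h2 : (((Ioc N (2 * N)).filter (fun n => n ≡ a [MOD q])).card : ℤ) = ⌊A⌋ - ⌊B⌋ := by
    rw [h1]; exact max_eq_left (by linarith)
  have h3 : (((Ioc N (2 * N)).filter (fun n => n ≡ a [MOD q])).card : ℚ) = (⌊A⌋ : ℚ) - ⌊B⌋ := by
    exact_mod_cast h2
  have a1 := Int.floor_le A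
  have a2 := Int.lt_floor_add_one A
  have b1 := Int.floor_le B
  have b2 := Int.lt_floor_add_one B
  have h4 : |(((Ioc N (2 * N)).filter (fun n => n ≡ a [MOD q])).card : ℚ) - N / q| ≤ 1 := by
    rw [h3, ← hAB, abs_le]; constructor <;> linarith
  have h5 : ((|(((Ioc N (2 * N)).filter (fun n => n ≡ a [MOD q])).card : ℚ) - N / q| : ℚ) : ℝ) ≤
    ((1 : ℚ) : ℝ) := by exact_mod_cast h4
  push_cast at h5
  exact h5

theorem CNT_prod_inv (P : Fin M → ℕ) (x y : Vec M k)
    (hc : ∀ j i l, x j = some i → y j = some l → i = l) :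
    ∏ j, Kl (1 / (P j : ℝ)) (x j) (y j) = 1 / (dv2 P x y : ℝ) := by
  have : (dv2 P x y : ℝ) = ∏ j, (if x j = none ∧ y j = none then (1 : ℝ) else P j) := by
    unfold dv2; push_cast
    exact Finset.prod_congr rfl fun j _ => by split_ifs <;> simp
  rw [this, one_div, ← Finset.prod_inv_distrib]
  refine Finset.prod_congr rfl fun j _ => ?_
  rw [CNT_Kl _ _ _ (hc j)]
  split_ifs <;> simp

theorem count_int (P : Fin M → ℕ) (hP : ∀ j, (P j).Prime) (hinj : Function.Injective P) (W : ℕ)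
    (hW : 0 < W) (hPW : ∀ j, Nat.Coprime (P j) W) (h : Fin k → ℕ)
    (hd : ∀ j i l, i ≠ l → ¬ ((P j : ℤ) ∣ (h i : ℤ) - h l)) (ν N : ℕ) (c : Vec M k → ℝ) :
    |∑ n ∈ win N W ν, Wn P h c n
      - (N / W : ℝ) * ∑ x, ∑ y, c x * c y * ∏ j, Kl (1 / (P j : ℝ)) (x j) (y j)| ≤
      (∑ x, |c x|) ^ 2 := by
  have h0 : ∑ n ∈ win N W ν, Wn P h c n = ∑ n ∈ win N W ν, (1 : ℝ) * Wn P h c n := by simp
  rw [h0, CNT_expand]
  have key : ∀ x y : Vec M k,
      |∑ n ∈ (win N W ν).filter (fun n => Sat P h n x ∧ Sat P h n y), (1 : ℝ)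
        - (N / W : ℝ) * ∏ j, Kl (1 / (P j : ℝ)) (x j) (y j)| ≤ 1 := by
    intro x y
    by_cases hc : ∀ j i l, x j = some i → y j = some l → i = l
    · obtain ⟨a, ha⟩ := CNT_class P hP hinj W hPW h ν x y hc
      have hdv : 0 < dv2 P x y := by
        rw [CNT_dv2]; exact Finset.prod_pos fun j _ => (hP j).pos
      have e1 : (win N W ν).filter (fun n => Sat P h n x ∧ Sat P h n y) =
          (Ioc N (2 * N)).filter (fun n => n ≡ a [MOD W * dv2 P x y]) := by
        ext n
        simp only [win, Finset.mem_filter]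
        rw [← ha n]; tauto
      rw [e1, CNT_prod_inv P x y hc, Finset.sum_const, nsmul_eq_mul, mul_one]
      have e2 : (N / W : ℝ) * (1 / (dv2 P x y : ℝ)) = N / ((W * dv2 P x y : ℕ) : ℝ) := by
        push_cast
        rw [div_mul_div_comm, mul_one]
      rw [e2]
      exact CNT_card _ (Nat.mul_pos hW hdv) N a
    · rw [CNT_Kl_zero _ x y hc, Finset.filter_false_of_mem
        (fun n _ => CNT_incomp P h hd x y hc n)]
      simp
  have e3 : ∑ x, ∑ y, c x * c y *
        ∑ n ∈ (win N W ν).filter (fun n => Sat P h n x ∧ Sat P h n y), (1 : ℝ)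
      - (N / W : ℝ) * ∑ x, ∑ y, c x * c y * ∏ j, Kl (1 / (P j : ℝ)) (x j) (y j) =
      ∑ x, ∑ y, c x * c y *
        (∑ n ∈ (win N W ν).filter (fun n => Sat P h n x ∧ Sat P h n y), (1 : ℝ)
          - (N / W : ℝ) * ∏ j, Kl (1 / (P j : ℝ)) (x j) (y j)) := by
    rw [Finset.mul_sum, ← Finset.sum_sub_distrib]
    refine Finset.sum_congr rfl fun x _ => ?_
    rw [Finset.mul_sum, ← Finset.sum_sub_distrib]
    exact Finset.sum_congr rfl fun y _ => by ring
  rw [e3]
  calc |∑ x, ∑ y, c x * c y *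
        (∑ n ∈ (win N W ν).filter (fun n => Sat P h n x ∧ Sat P h n y), (1 : ℝ)
          - (N / W : ℝ) * ∏ j, Kl (1 / (P j : ℝ)) (x j) (y j))|
      ≤ ∑ x, ∑ y, |c x| * |c y| := by
        refine (Finset.abs_sum_le_sum_abs _ _).trans (Finset.sum_le_sum fun x _ => ?_)
        refine (Finset.abs_sum_le_sum_abs _ _).trans (Finset.sum_le_sum fun y _ => ?_)
        rw [abs_mul, abs_mul]
        calc |c x| * |c y| * _ ≤ |c x| * |c y| * 1 :=
              mul_le_mul_of_nonneg_left (key x y) (by positivity)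
          _ = _ := mul_one _
    _ = (∑ x, |c x|) ^ 2 := by rw [sq, Finset.sum_mul_sum]

/-! ### CNT2 -/

theorem CNT_Emax (u q a : ℕ) (hq : 0 < q) (hc : Nat.Coprime a q) :
    |thAP u q a - th u / q.totient| ≤ Emax u q := by
  have h1 : thAP u q a = thAP u q (a % q) := by
    unfold thAP
    congr 1
    ext n
    simp only [Finset.mem_filter]
    have : n ≡ a [MOD q] ↔ n ≡ a % q [MOD q] :=
      ⟨fun h => h.trans (Nat.mod_modEq a q).symm, fun h => h.trans (Nat.mod_modEq a q)⟩
    rw [this]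
  rw [h1]
  unfold Emax
  have hmem : a % q ∈ (range q).filter (Nat.Coprime q) := by
    rw [Finset.mem_filter, Finset.mem_range]
    refine ⟨Nat.mod_lt a hq, ?_⟩
    have := (Nat.mod_modEq a q).gcd_eq
    rw [Nat.Coprime, Nat.gcd_comm]
    rw [this]; exact hc
  have h2 := Finset.le_sup (f := fun a => Real.toNNReal |thAP u q a - th u / q.totient|) hmem
  have h3 : (Real.toNNReal |thAP u q (a % q) - th u / q.totient| : ℝ) ≤
      (((range q).filter (Nat.Coprime q)).sup
        (fun a => Real.toNNReal |thAP u q a - th u / q.totient|) : NNReal) := by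
    exact_mod_cast h2
  rwa [Real.coe_toNNReal _ (abs_nonneg _)] at h3

theorem CNT_Emax_nonneg (u q : ℕ) : 0 ≤ Emax u q := NNReal.coe_nonneg _

theorem CNT_thAP_diff (q N hm a b : ℕ) (hb : b = a + hm) :
    ∑ n ∈ (Ioc N (2 * N)).filter (fun n => n ≡ a [MOD q]), lp (n + hm) =
      thAP (2 * N + hm) q b - thAP (N + hm) q b := by
  subst hb
  have e1 : thAP (2 * N + hm) q (a + hm) - thAP (N + hm) q (a + hm) =
      ∑ p ∈ (Ioc (N + hm) (2 * N + hm)).filter (fun n => n.Prime ∧ n ≡ a + hm [MOD q]),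
        Real.log p := by
    unfold thAP
    rw [sub_eq_iff_eq_add, ← Finset.sum_union]
    · congr 1
      ext n
      simp only [Finset.mem_filter, Finset.mem_union, Finset.mem_Icc, Finset.mem_Ioc]
      constructor
      · rintro ⟨⟨h1, h2⟩, h3⟩
        by_cases h4 : n ≤ N + hm
        · right; exact ⟨⟨h1, h4⟩, h3⟩
        · left; exact ⟨⟨by omega, h2⟩, h3⟩
      · rintro (⟨⟨h1, h2⟩, h3⟩ | ⟨⟨h1, h2⟩, h3⟩)
        · exact ⟨⟨by omega, h2⟩, h3⟩
        · exact ⟨⟨h1, by omega⟩, h3⟩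
    · rw [Finset.disjoint_left]
      intro n hn1 hn2
      simp only [Finset.mem_filter, Finset.mem_Icc, Finset.mem_Ioc] at hn1 hn2
      omega
  rw [e1, Finset.sum_filter, Finset.sum_filter]
  have e2 : Ioc (N + hm) (2 * N + hm) = (Ioc N (2 * N)).map (addRightEmbedding hm) := by
    ext n
    simp only [Finset.mem_map, Finset.mem_Ioc, addRightEmbedding_apply]
    constructor
    · rintro ⟨h1, h2⟩
      exact ⟨n - hm, ⟨by omega, by omega⟩, by omega⟩
    · rintro ⟨m, ⟨h1, h2⟩, rfl⟩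
      exact ⟨by omega, by omega⟩
  rw [e2, Finset.sum_map]
  refine Finset.sum_congr rfl fun n _ => ?_
  simp only [addRightEmbedding_apply]
  have e3 : n + hm ≡ a + hm [MOD q] ↔ n ≡ a [MOD q] :=
    ⟨fun h => Nat.ModEq.add_right_cancel' hm h, fun h => h.add_right hm⟩
  unfold lp
  by_cases h1 : (n + hm).Prime <;> by_cases h2 : n ≡ a [MOD q] <;> simp [h1, h2, e3]

theorem CNT_totient (P : Fin M → ℕ) (hP : ∀ j, (P j).Prime) (hinj : Function.Injective P) (W : ℕ)
    (hPW : ∀ j, Nat.Coprime (P j) W) (J : Finset (Fin M)) :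
    (W * ∏ j ∈ J, P j).totient = W.totient * ∏ j ∈ J, (P j - 1) := by
  induction J using Finset.induction_on with
  | empty => simp
  | insert j J hj ih =>
    have cop := CNT_cop P hP hinj W hPW J j hj
    rw [Finset.prod_insert hj, Finset.prod_insert hj,
      show W * (P j * ∏ i ∈ J, P i) = (W * ∏ i ∈ J, P i) * P j by ring,
      Nat.totient_mul cop, ih, Nat.totient_prime (hP j)]
    ring

theorem CNT_prod_al (P : Fin M → ℕ) (hP : ∀ j, (P j).Prime) (hinj : Function.Injective P) (W : ℕ)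
    (hPW : ∀ j, Nat.Coprime (P j) W) (x y : Vec M k)
    (hc : ∀ j i l, x j = some i → y j = some l → i = l) (T : ℝ) :
    T / W.totient * ∏ j, Kl (al P j) (x j) (y j) = T / (W * dv2 P x y).totient := by
  rw [CNT_dv2, CNT_totient P hP hinj W hPW]
  have e1 : ∏ j, Kl (al P j) (x j) (y j) =
      1 / ((∏ j ∈ (univ : Finset (Fin M)).filter (fun j => ¬(x j = none ∧ y j = none)),
        (P j - 1) : ℕ) : ℝ) := by
    rw [Finset.prod_filter]
    push_cast
    rw [one_div, ← Finset.prod_inv_distrib]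
    refine Finset.prod_congr rfl fun j _ => ?_
    rw [CNT_Kl _ _ _ (hc j)]
    have hp1 : 1 ≤ P j := (hP j).one_lt.le
    by_cases hn : x j = none ∧ y j = none
    · simp [hn]
    · simp only [hn, if_false, not_false_iff, if_true]
      unfold al
      rw [one_div]
      push_cast [Nat.cast_sub hp1]
      rfl
  rw [e1]
  push_cast
  rw [div_mul_div_comm, mul_one]

theorem count_prime (P : Fin M → ℕ) (hP : ∀ j, (P j).Prime) (hinj : Function.Injective P)
    (W : ℕ) (hW : 0 < W) (hPW : ∀ j, Nat.Coprime (P j) W) (h : Fin k → ℕ)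
    (hd : ∀ j i l, i ≠ l → ¬ ((P j : ℤ) ∣ (h i : ℤ) - h l)) (ν N : ℕ)
    (hν : ∀ i, Nat.Coprime (ν + h i) W) (m : Fin k) (c : Vec M k → ℝ)
    (hc : ∀ x, ¬ Avoid {m} x → c x = 0) :
    |∑ n ∈ win N W ν, lp (n + h m) * Wn P h c n
      - ((th (2 * N + h m) - th (N + h m)) / W.totient) *
        ∑ x, ∑ y, c x * c y * ∏ j, Kl (al P j) (x j) (y j)| ≤
      ∑ x, ∑ y, |c x| * |c y| *
        (Emax (2 * N + h m) (W * dv2 P x y) + Emax (N + h m) (W * dv2 P x y)) := by
  rw [CNT_expand]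
  have key : ∀ x y : Vec M k, Avoid {m} x → Avoid {m} y →
      |∑ n ∈ (win N W ν).filter (fun n => Sat P h n x ∧ Sat P h n y), lp (n + h m)
        - ((th (2 * N + h m) - th (N + h m)) / W.totient) *
          ∏ j, Kl (al P j) (x j) (y j)| ≤
        Emax (2 * N + h m) (W * dv2 P x y) + Emax (N + h m) (W * dv2 P x y) := by
    intro x y hx hy
    by_cases hcc : ∀ j i l, x j = some i → y j = some l → i = l
    · obtain ⟨a, ha⟩ := CNT_class P hP hinj W hPW h ν x y hcc
      have hdv : 0 < dv2 P x y := by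
        rw [CNT_dv2]; exact Finset.prod_pos fun j _ => (hP j).pos
      have hq : 0 < W * dv2 P x y := Nat.mul_pos hW hdv
      have e1 : (win N W ν).filter (fun n => Sat P h n x ∧ Sat P h n y) =
          (Ioc N (2 * N)).filter (fun n => n ≡ a [MOD W * dv2 P x y]) := by
        ext n
        simp only [win, Finset.mem_filter]
        rw [← ha n]; tauto
      have hcop : Nat.Coprime (a + h m) (W * dv2 P x y) := by
        obtain ⟨ha1, ha2, ha3⟩ := (ha a).2 rfl
        apply Nat.Coprime.mul_right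
        · have := (ha1.add_right (h m)).gcd_eq
          rw [Nat.Coprime, this]; exact hν m
        · rw [CNT_dv2]
          apply Nat.Coprime.prod_right
          intro j hj
          have hj' := (Finset.mem_filter.1 hj).2
          rw [Nat.coprime_comm, (hP j).coprime_iff_not_dvd]
          intro hdvd
          have aux : ∀ i, i ≠ m → P j ∣ a + h i → False := by
            intro i him h1
            apply hd j i m him
            have e1 : (P j : ℤ) ∣ (a : ℤ) + h i := by exact_mod_cast h1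
            have e2 : (P j : ℤ) ∣ (a : ℤ) + h m := by exact_mod_cast hdvd
            have := dvd_sub e1 e2
            simpa using this
          rcases hxj : x j with _ | i
          · rcases hyj : y j with _ | l
            · exact hj' ⟨hxj, hyj⟩
            · refine aux l (fun e => ?_) (ha3 j l hyj)
              subst e
              exact hy j l (Finset.mem_singleton_self l) hyj
          · refine aux i (fun e => ?_) (ha2 j i hxj)
            subst e
            exact hx j i (Finset.mem_singleton_self i) hxj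
      rw [e1, CNT_thAP_diff _ N (h m) a (a + h m) rfl, CNT_prod_al P hP hinj W hPW x y hcc]
      have b1 := CNT_Emax (2 * N + h m) _ _ hq hcop
      have b2 := CNT_Emax (N + h m) _ _ hq hcop
      calc |thAP (2 * N + h m) (W * dv2 P x y) (a + h m) -
              thAP (N + h m) (W * dv2 P x y) (a + h m) -
            (th (2 * N + h m) - th (N + h m)) / ((W * dv2 P x y).totient : ℝ)|
          = |(thAP (2 * N + h m) (W * dv2 P x y) (a + h m) -
              th (2 * N + h m) / ((W * dv2 P x y).totient : ℝ)) -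
            (thAP (N + h m) (W * dv2 P x y) (a + h m) -
              th (N + h m) / ((W * dv2 P x y).totient : ℝ))| := by
              congr 1; ring
        _ ≤ _ := (abs_sub _ _).trans (add_le_add b1 b2)
    · rw [CNT_Kl_zero _ x y hcc, Finset.filter_false_of_mem
        (fun n _ => CNT_incomp P h hd x y hcc n)]
      simp only [Finset.sum_empty, mul_zero, sub_zero, abs_zero]
      exact add_nonneg (CNT_Emax_nonneg _ _) (CNT_Emax_nonneg _ _)
  have e3 : ∑ x, ∑ y, c x * c y *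
        ∑ n ∈ (win N W ν).filter (fun n => Sat P h n x ∧ Sat P h n y), lp (n + h m)
      - ((th (2 * N + h m) - th (N + h m)) / W.totient) *
        ∑ x, ∑ y, c x * c y * ∏ j, Kl (al P j) (x j) (y j) =
      ∑ x, ∑ y, c x * c y *
        (∑ n ∈ (win N W ν).filter (fun n => Sat P h n x ∧ Sat P h n y), lp (n + h m)
          - ((th (2 * N + h m) - th (N + h m)) / W.totient) *
            ∏ j, Kl (al P j) (x j) (y j)) := by
    rw [Finset.mul_sum, ← Finset.sum_sub_distrib]
    refine Finset.sum_congr rfl fun x _ => ?_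
    rw [Finset.mul_sum, ← Finset.sum_sub_distrib]
    exact Finset.sum_congr rfl fun y _ => by ring
  rw [e3]
  refine (Finset.abs_sum_le_sum_abs _ _).trans (Finset.sum_le_sum fun x _ => ?_)
  refine (Finset.abs_sum_le_sum_abs _ _).trans (Finset.sum_le_sum fun y _ => ?_)
  rw [abs_mul, abs_mul]
  by_cases hx : Avoid {m} x
  · by_cases hy : Avoid {m} y
    · exact mul_le_mul_of_nonneg_left (key x y hx hy) (by positivity)
    · rw [hc y hy]; simp
  · rw [hc x hx]; simp

end Pool.Agent.BG
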