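import Mathlib
/-! Sums over squarefree numbers used in the blocks COND and BVD. -/

set_option autoImplicit false

namespace Pool.Agent.BG

open Finset

/-- for squarefree `q`, `∑_{d ∣ q} m^{ω(d)} = (m+1)^{ω(q)}` -/
theorem sums_divisors_pow (m q : ℕ) (hq : Squarefree q) :
    ∑ d ∈ q.divisors, (m : ℝ) ^ d.primeFactors.card = ((m : ℝ) + 1) ^ q.primeFactors.card := by
  have h := Nat.sum_divisors_filter_squarefree (n := q) hq.ne_zero
    (f := fun d => (m : ℝ) ^ d.primeFactors.card)
  have h1 : q.divisors.filter Squarefree = q.divisors := by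
    apply Finset.filter_true_of_mem
    intro d hd
    exact hq.squarefree_of_dvd (Nat.dvd_of_mem_divisors hd)
  rw [h1] at h
  rw [h]
  have h3 : (UniqueFactorizationMonoid.normalizedFactors q).toFinset = q.primeFactors := by
    rw [Nat.factors_eq]; rfl
  have h2 : ∀ t ∈ (UniqueFactorizationMonoid.normalizedFactors q).toFinset.powerset,
      (m : ℝ) ^ (t.val.prod).primeFactors.card = ∏ _p ∈ t, (m : ℝ) := by
    intro t ht
    rw [h3, Finset.mem_powerset] at ht
    have hp : ∀ p ∈ t, p.Prime := fun p hp => Nat.prime_of_mem_primeFactors (ht hp)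
    have : (t.val.prod).primeFactors = t := by
      rw [Finset.prod_val]
      exact Nat.primeFactors_prod hp
    rw [this, Finset.prod_const]
  rw [Finset.sum_congr rfl h2, h3, ← Finset.prod_add_one, Finset.prod_const]

theorem sums_harmonic (Q : ℕ) : ∑ n ∈ Icc 1 Q, (1 : ℝ) / n ≤ 1 + Real.log Q := by
  have h := harmonic_le_one_add_log Q
  have h2 : ((harmonic Q : ℚ) : ℝ) = ∑ n ∈ Icc 1 Q, (1 : ℝ) / n := by
    rw [harmonic_eq_sum_Icc]
    push_cast
    simp
  rw [← h2]
  exact h

/-- `∑_{q ≤ Q squarefree} m^{ω(q)}/q ≤ (1 + log Q)^m` -/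
theorem sums_pow_omega (m Q : ℕ) (_hQ : 1 ≤ Q) :
    ∑ q ∈ (Icc 1 Q).filter Squarefree, (m : ℝ) ^ q.primeFactors.card / q ≤
      (1 + Real.log Q) ^ m := by
  have hlog : 0 ≤ Real.log Q := Real.log_natCast_nonneg Q
  induction m with
  | zero =>
    have h : ∀ q ∈ (Icc 1 Q).filter Squarefree, ((0 : ℕ) : ℝ) ^ q.primeFactors.card / q =
        if q = 1 then 1 else 0 := by
      intro q hq
      rw [mem_filter, mem_Icc] at hq
      by_cases h1 : q = 1
      · subst h1; simp
      · rw [if_neg h1]
        have : q.primeFactors.card ≠ 0 := by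
          rw [Finset.card_ne_zero, Nat.nonempty_primeFactors]
          omega
        rw [Nat.cast_zero, zero_pow this, zero_div]
    rw [Finset.sum_congr rfl h, Finset.sum_ite_eq' _ _ (fun _ => (1 : ℝ))]
    split_ifs <;> simp
  | succ m ih =>
    have h : ∀ q ∈ (Icc 1 Q).filter Squarefree,
        ((m + 1 : ℕ) : ℝ) ^ q.primeFactors.card / q =
          ∑ d ∈ q.divisors, ((m : ℝ) ^ d.primeFactors.card / d) * (1 / ((q / d : ℕ) : ℝ)) := by
      intro q hq
      rw [mem_filter, mem_Icc] at hq
      push_cast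
      rw [← sums_divisors_pow m q hq.2, Finset.sum_div]
      apply Finset.sum_congr rfl
      intro d hd
      have hdq := Nat.dvd_of_mem_divisors hd
      have hd0 : (d : ℝ) ≠ 0 := by
        have : 0 < d := Nat.pos_of_mem_divisors hd
        positivity
      have hq0 : (q : ℝ) ≠ 0 := by
        have : 0 < q := hq.1.1
        positivity
      rw [Nat.cast_div hdq hd0]
      field_simp
    rw [Finset.sum_congr rfl h]
    calc ∑ q ∈ (Icc 1 Q).filter Squarefree, ∑ d ∈ q.divisors,
          ((m : ℝ) ^ d.primeFactors.card / d) * (1 / ((q / d : ℕ) : ℝ))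
        ≤ ∑ d ∈ (Icc 1 Q).filter Squarefree, ∑ e ∈ Icc 1 Q,
          ((m : ℝ) ^ d.primeFactors.card / d) * (1 / (e : ℝ)) := by
          rw [Finset.sum_sigma', Finset.sum_sigma']
          have hinj : Set.InjOn (fun x : (Σ _ : ℕ, ℕ) => (⟨x.2, x.1 / x.2⟩ : Σ _ : ℕ, ℕ))
              (((Icc 1 Q).filter Squarefree).sigma (fun q => q.divisors) : Finset (Σ _ : ℕ, ℕ)) := by
            rintro ⟨q, d⟩ hq ⟨q', d'⟩ hq' hqq
            simp only [Finset.coe_sigma, Set.mem_sigma_iff, Finset.mem_coe, mem_filter,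
              mem_Icc] at hq hq'
            simp only [Sigma.mk.injEq, heq_eq_eq] at hqq
            obtain ⟨h1, h2⟩ := hqq
            subst h1
            have e1 := Nat.div_mul_cancel (Nat.dvd_of_mem_divisors hq.2)
            have e2 := Nat.div_mul_cancel (Nat.dvd_of_mem_divisors hq'.2)
            rw [h2] at e1
            have : q = q' := e1.symm.trans e2
            subst this
            rfl
          rw [← Finset.sum_image (f := fun x : (Σ _ : ℕ, ℕ) =>
            ((m : ℝ) ^ x.1.primeFactors.card / x.1) * (1 / (x.2 : ℝ))) hinj]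
          apply Finset.sum_le_sum_of_subset_of_nonneg
          · intro x hx
            rw [Finset.mem_image] at hx
            obtain ⟨⟨q, d⟩, hq, rfl⟩ := hx
            simp only [Finset.mem_sigma, mem_filter, mem_Icc] at hq ⊢
            obtain ⟨⟨⟨hq1, hq2⟩, hq3⟩, hd⟩ := hq
            have hd1 := Nat.pos_of_mem_divisors hd
            have hdd := Nat.dvd_of_mem_divisors hd
            refine ⟨⟨⟨hd1, (Nat.le_of_dvd (by omega) hdd).trans hq2⟩,
              hq3.squarefree_of_dvd hdd⟩, Nat.div_pos (Nat.le_of_dvd (by omega) hdd) hd1,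
              (Nat.div_le_self _ _).trans hq2⟩
          · intro x _ _
            positivity
      _ = (∑ d ∈ (Icc 1 Q).filter Squarefree, (m : ℝ) ^ d.primeFactors.card / d) *
          ∑ e ∈ Icc 1 Q, (1 / (e : ℝ)) := by
          rw [Finset.sum_mul_sum]
      _ ≤ (1 + Real.log Q) ^ m * (1 + Real.log Q) := by
          apply mul_le_mul ih (sums_harmonic Q)
          · positivity
          · positivity
      _ = (1 + Real.log Q) ^ (m + 1) := by ring

theorem sums_inv_totient (q : ℕ) (hq : Squarefree q) :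
    1 / (q.totient : ℝ) ≤ (2 : ℝ) ^ q.primeFactors.card / q := by
  have hq0 : (0 : ℝ) < q := by exact_mod_cast Nat.pos_of_ne_zero hq.ne_zero
  have ht : (0 : ℝ) < q.totient := by
    exact_mod_cast Nat.totient_pos.mpr (Nat.pos_of_ne_zero hq.ne_zero)
  rw [div_le_div_iff₀ ht hq0, one_mul]
  have h1 : ∏ p ∈ q.primeFactors, p = q := Nat.prod_primeFactors_of_squarefree hq
  have h2 : q.totient = ∏ p ∈ q.primeFactors, (p - 1) := by
    have := Nat.totient_mul_prod_primeFactors q
    rw [h1] at this
    have h3 : 0 < q := Nat.pos_of_ne_zero hq.ne_zero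
    rw [mul_comm] at this
    exact Nat.eq_of_mul_eq_mul_left h3 this
  calc (q : ℝ) = ∏ p ∈ q.primeFactors, (p : ℝ) := by
        conv_lhs => rw [← h1]
        push_cast
        rfl
    _ ≤ ∏ p ∈ q.primeFactors, (2 * ((p - 1 : ℕ) : ℝ)) := by
        apply Finset.prod_le_prod
        · intro p _; positivity
        · intro p hp
          have h2 : 2 ≤ p := (Nat.prime_of_mem_primeFactors hp).two_le
          have : (p : ℝ) ≤ ((2 * (p - 1) : ℕ) : ℝ) := by exact_mod_cast (by omega)
          push_cast at this ⊢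
          exact this
    _ = (2 : ℝ) ^ q.primeFactors.card * (q.totient : ℝ) := by
        rw [Finset.prod_mul_distrib, Finset.prod_const, h2]
        push_cast
        rfl

theorem sums_totient (Q : ℕ) (hQ : 1 ≤ Q) :
    ∑ q ∈ (Icc 1 Q).filter Squarefree, 1 / (q.totient : ℝ) ≤ (1 + Real.log Q) ^ 2 := by
  refine (Finset.sum_le_sum ?_).trans (sums_pow_omega 2 Q hQ)
  intro q hq
  rw [mem_filter] at hq
  exact_mod_cast sums_inv_totient q hq.2

end Pool.Agent.BG
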