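import Pool.Agent.Lib_helper23.BG.Defs
import Pool.Agent.Lib_helper23.BGF.Sums
import Pool.Agent.Lib_helper90.PNT.WienerIkehara
/-! Block BVDPNT: `th_window` and `BVd`. -/

set_option autoImplicit false

namespace Pool.Agent.BG

open Finset Filter Complex
open scoped ArithmeticFunction.vonMangoldt Classical

theorem BVDPNT_Ioc (u : ℕ) : Ioc 0 u = Icc 1 u := by
  ext n; simp only [mem_Ioc, mem_Icc]; omega

theorem BVDPNT_th_eq (u : ℕ) : th u = Chebyshev.theta u := by
  unfold th Chebyshev.theta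
  rw [Nat.floor_natCast, BVDPNT_Ioc]

theorem BVDPNT_tendsto (a : ℕ) (ha : 0 < a) (h : ℕ) :
    Tendsto (fun N : ℕ => th (a * N + h) / N) atTop (nhds a) := by
  have h1 := Pool.Agent.Lib_helper90.PNT.tendsto_theta_div
  have hN : Tendsto (fun N : ℕ => (N : ℝ)) atTop atTop := tendsto_natCast_atTop_atTop
  have h2 : Tendsto (fun N : ℕ => (((a * N + h : ℕ) : ℝ))) atTop atTop := by
    refine tendsto_natCast_atTop_atTop.comp ?_
    refine tendsto_atTop_mono (fun N => ?_) tendsto_id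
    have : N ≤ a * N := Nat.le_mul_of_pos_left N ha
    simp only [id]
    omega
  have h3 := h1.comp h2
  have h4 : Tendsto (fun N : ℕ => (((a * N + h : ℕ) : ℝ)) / N) atTop (nhds a) := by
    have : Tendsto (fun N : ℕ => (a : ℝ) + (h : ℝ) / N) atTop (nhds ((a : ℝ) + 0)) :=
      tendsto_const_nhds.add (tendsto_const_nhds.div_atTop hN)
    rw [add_zero] at this
    refine this.congr' ?_
    filter_upwards [eventually_gt_atTop 0] with N hN0
    have : (N : ℝ) ≠ 0 := by positivity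
    push_cast
    field_simp
  have h5 := h3.mul h4
  rw [one_mul] at h5
  refine h5.congr' ?_
  filter_upwards [eventually_gt_atTop 0] with N hN0
  have : (N : ℝ) ≠ 0 := by positivity
  have h6 : (((a * N + h : ℕ) : ℝ)) ≠ 0 := by
    have : 0 < a * N + h := by positivity
    positivity
  simp only [Function.comp_apply]
  rw [BVDPNT_th_eq]
  field_simp

theorem th_window (h : ℕ) : Tendsto (fun N : ℕ => (th (2 * N + h) - th (N + h)) / N) atTop
    (nhds 1) := by
  have h1 := BVDPNT_tendsto 2 (by norm_num) h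
  have h2 := BVDPNT_tendsto 1 (by norm_num) h
  have h3 := h1.sub h2
  have e : ((2 : ℕ) : ℝ) - ((1 : ℕ) : ℝ) = 1 := by norm_num
  rw [e] at h3
  refine h3.congr ?_
  intro N
  rw [one_mul, sub_div]

/-! ### trivial bounds for `Emax` -/

theorem BVDPNT_Emax_nonneg (u q : ℕ) : 0 ≤ Emax u q := by
  unfold Emax; positivity

theorem BVDPNT_Emax_le_of (u q : ℕ) (B : ℝ) (hB : 0 ≤ B)
    (h : ∀ a, a < q → Nat.Coprime q a → |thAP u q a - th u / q.totient| ≤ B) :
    Emax u q ≤ B := by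
  unfold Emax
  have : (((range q).filter (Nat.Coprime q)).sup
    (fun a => Real.toNNReal |thAP u q a - th u / q.totient|) : NNReal) ≤ Real.toNNReal B := by
    apply Finset.sup_le
    intro a ha
    rw [mem_filter, mem_range] at ha
    exact Real.toNNReal_le_toNNReal (h a ha.1 ha.2)
  rw [← Real.coe_toNNReal B hB]
  exact NNReal.coe_le_coe.mpr this

theorem BVDPNT_thAP_le (u q a : ℕ) (hq : 1 ≤ q) :
    thAP u q a ≤ ((u : ℝ) / q + 1) * Real.log (u + 1) := by
  unfold thAP
  have h1 : ∀ n ∈ (Icc 1 u).filter (fun n => n.Prime ∧ n ≡ a [MOD q]),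
      Real.log n ≤ Real.log (u + 1) := by
    intro n hn
    rw [mem_filter, mem_Icc] at hn
    apply Real.log_le_log
    · exact_mod_cast hn.1.1
    · have : (n : ℝ) ≤ u := by exact_mod_cast hn.1.2
      linarith
  have h2 := Finset.sum_le_card_nsmul _ _ _ h1
  refine h2.trans ?_
  rw [nsmul_eq_mul]
  apply mul_le_mul_of_nonneg_right
  · have h3 : ((Icc 1 u).filter (fun n => n.Prime ∧ n ≡ a [MOD q])).card ≤
        ((Ioc 0 u).filter (fun n => n ≡ a [MOD q])).card := by
      apply Finset.card_le_card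
      intro n hn
      rw [mem_filter, mem_Icc] at hn
      rw [mem_filter, mem_Ioc]
      exact ⟨⟨hn.1.1, hn.1.2⟩, hn.2.2⟩
    have h4 := Nat.Ioc_filter_modEq_card 0 u (r := q) (by omega) a
    have hq0 : (0 : ℝ) < q := by exact_mod_cast hq
    have h5 : ((((Ioc 0 u).filter (fun n => n ≡ a [MOD q])).card : ℤ) : ℝ) ≤ (u : ℝ) / q + 1 := by
      rw [h4]
      push_cast
      apply max_le
      · have e1 := Int.floor_le (((u : ℚ) - a) / q)
        have e2 := Int.lt_floor_add_one (((0 : ℚ) - a) / q)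
        have e3 : (((⌊((u : ℚ) - a) / q⌋ : ℤ) : ℚ) - ((⌊((0 : ℚ) - a) / q⌋ : ℤ) : ℚ)) ≤
            (u : ℚ) / q + 1 := by
          have e4 : ((u : ℚ) - a) / q = (u : ℚ) / q + ((0 : ℚ) - a) / q := by ring
          rw [e4] at e1 ⊢
          linarith
        have e5 : ((((⌊((u : ℚ) - a) / q⌋ : ℤ) : ℚ) - ((⌊((0 : ℚ) - a) / q⌋ : ℤ) : ℚ) : ℚ) : ℝ) ≤
            (((u : ℚ) / q + 1 : ℚ) : ℝ) := by exact_mod_cast e3
        push_cast at e5
        simpa using e5
      · positivity
    have h6 : (((Ioc 0 u).filter (fun n => n ≡ a [MOD q])).card : ℝ) ≤ (u : ℝ) / q + 1 := by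
      exact_mod_cast h5
    exact (Nat.cast_le.mpr h3).trans h6
  · apply Real.log_nonneg
    have : (0 : ℝ) ≤ u := Nat.cast_nonneg u
    linarith

theorem BVDPNT_thAP_nonneg (u q a : ℕ) : 0 ≤ thAP u q a :=
  Finset.sum_nonneg (fun n _ => Real.log_natCast_nonneg n)

theorem BVDPNT_th_nonneg (u : ℕ) : 0 ≤ th u :=
  Finset.sum_nonneg (fun n _ => Real.log_natCast_nonneg n)

theorem BVDPNT_th_le (u : ℕ) : th u ≤ u * Real.log (u + 1) := by
  unfold th
  have h1 : ∀ n ∈ (Icc 1 u).filter Nat.Prime, Real.log n ≤ Real.log (u + 1) := by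
    intro n hn
    rw [mem_filter, mem_Icc] at hn
    apply Real.log_le_log
    · exact_mod_cast hn.1.1
    · have : (n : ℝ) ≤ u := by exact_mod_cast hn.1.2
      linarith
  refine (Finset.sum_le_card_nsmul _ _ _ h1).trans ?_
  rw [nsmul_eq_mul]
  apply mul_le_mul_of_nonneg_right
  · have : ((Icc 1 u).filter Nat.Prime).card ≤ (Icc 1 u).card := Finset.card_filter_le _ _
    rw [Nat.card_Icc] at this
    exact_mod_cast this
  · apply Real.log_nonneg
    have : (0 : ℝ) ≤ u := Nat.cast_nonneg u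
    linarith

theorem BVDPNT_Emax_triv (u q : ℕ) (hq : Squarefree q) :
    Emax u q ≤ ((u : ℝ) / q + 1) * Real.log (u + 1) +
      u * Real.log (u + 1) * ((2 : ℝ) ^ q.primeFactors.card / q) := by
  have hu : (0 : ℝ) ≤ u := Nat.cast_nonneg u
  have hlog : 0 ≤ Real.log ((u : ℝ) + 1) := Real.log_nonneg (by linarith)
  have hq1 : 1 ≤ q := Nat.pos_of_ne_zero hq.ne_zero
  apply BVDPNT_Emax_le_of
  · positivity
  · intro a _ _
    have h1 := BVDPNT_thAP_le u q a hq1
    have h2 := BVDPNT_thAP_nonneg u q a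
    have h3 : th u / q.totient ≤
        u * Real.log (u + 1) * ((2 : ℝ) ^ q.primeFactors.card / q) := by
      rw [div_eq_mul_one_div]
      exact mul_le_mul (BVDPNT_th_le u) (sums_inv_totient q hq) (by positivity) (by positivity)
    have h4 : 0 ≤ th u / q.totient := div_nonneg (BVDPNT_th_nonneg u) (Nat.cast_nonneg _)
    rw [abs_le]
    constructor
    · have : 0 ≤ ((u : ℝ) / q + 1) * Real.log (u + 1) := by positivity
      linarith
    · have : 0 ≤ u * Real.log (u + 1) * ((2 : ℝ) ^ q.primeFactors.card / q) := by positivity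
      linarith

theorem BVDPNT_Emax_triv' (N u q : ℕ) (hq : Squarefree q) (hu : u ≤ 3 * N) (hqN : q ≤ N) :
    Emax u q ≤ 7 * N * Real.log (3 * N + 1) * ((2 : ℝ) ^ q.primeFactors.card / q) := by
  refine (BVDPNT_Emax_triv u q hq).trans ?_
  have hq0 : (0 : ℝ) < q := by exact_mod_cast Nat.pos_of_ne_zero hq.ne_zero
  have hu0 : (0 : ℝ) ≤ u := Nat.cast_nonneg u
  have hu' : (u : ℝ) ≤ 3 * N := by exact_mod_cast hu
  have hqN' : (q : ℝ) ≤ N := by exact_mod_cast hqN
  have hlog : 0 ≤ Real.log ((u : ℝ) + 1) := Real.log_nonneg (by linarith)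
  have hlog2 : Real.log ((u : ℝ) + 1) ≤ Real.log (3 * N + 1) :=
    Real.log_le_log (by linarith) (by linarith)
  set X : ℝ := (2 : ℝ) ^ q.primeFactors.card with hX
  have hX1 : 1 ≤ X := one_le_pow₀ (by norm_num)
  set L : ℝ := Real.log (3 * N + 1) with hL
  have hL0 : 0 ≤ L := hlog.trans hlog2
  have e1 : ((u : ℝ) / q + 1) * Real.log (u + 1) ≤ (4 * N * (X / q)) * L := by
    apply mul_le_mul _ hlog2 hlog (by positivity)
    have : (u : ℝ) / q + 1 = (u + q) / q := by field_simp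
    rw [this, ← mul_div_assoc]
    apply div_le_div_of_nonneg_right _ hq0.le
    nlinarith
  have e2 : u * Real.log (u + 1) * (X / q) ≤ 3 * N * L * (X / q) := by
    apply mul_le_mul_of_nonneg_right _ (by positivity)
    exact mul_le_mul hu' hlog2 hlog (by positivity)
  calc _ ≤ (4 * N * (X / q)) * L + 3 * N * L * (X / q) := add_le_add e1 e2
    _ = _ := by ring

theorem BVDPNT_cs (N u A D : ℕ) (hN : 3 ≤ N) (hu : u ≤ 3 * N)
    (hlarge : 21 * 2 ^ (2 * D ^ 2) ≤ Real.log N)
    (h : ∑ q ∈ sqf ((N : ℝ) ^ (49 / 100 : ℝ)), Emax u q ≤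
      N / Real.log N ^ (2 * A + 2 * D ^ 2 + 2)) :
    ∑ q ∈ sqf ((N : ℝ) ^ (49 / 100 : ℝ)), (D : ℝ) ^ q.primeFactors.card * Emax u q ≤
      N / Real.log N ^ A := by
  set S := sqf ((N : ℝ) ^ (49 / 100 : ℝ)) with hS
  have hN3 : (3 : ℝ) ≤ N := by exact_mod_cast hN
  have hl1 : 1 < Real.log N := by
    rw [Real.lt_log_iff_exp_lt (by linarith)]
    exact Real.exp_one_lt_three.trans_le hN3
  have hQ1 : 1 ≤ ⌊(N : ℝ) ^ (49 / 100 : ℝ)⌋₊ := by
    rw [Nat.one_le_floor_iff]
    exact Real.one_le_rpow (by linarith) (by norm_num)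
  have hQN : ⌊(N : ℝ) ^ (49 / 100 : ℝ)⌋₊ ≤ N := by
    have : (N : ℝ) ^ (49 / 100 : ℝ) ≤ (N : ℝ) ^ (1 : ℝ) :=
      Real.rpow_le_rpow_of_exponent_le (by linarith) (by norm_num)
    rw [Real.rpow_one] at this
    exact (Nat.floor_le_floor this).trans (by rw [Nat.floor_natCast])
  have hcs := Finset.sum_mul_sq_le_sq_mul_sq S
    (fun q => (D : ℝ) ^ q.primeFactors.card * Real.sqrt (Emax u q))
    (fun q => Real.sqrt (Emax u q))
  have e1 : ∀ q ∈ S, (D : ℝ) ^ q.primeFactors.card * Real.sqrt (Emax u q) *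
      Real.sqrt (Emax u q) = (D : ℝ) ^ q.primeFactors.card * Emax u q := by
    intro q _
    rw [mul_assoc, Real.mul_self_sqrt (BVDPNT_Emax_nonneg u q)]
  have e2 : ∀ q ∈ S, ((D : ℝ) ^ q.primeFactors.card * Real.sqrt (Emax u q)) ^ 2 =
      ((D : ℝ) ^ 2) ^ q.primeFactors.card * Emax u q := by
    intro q _
    rw [mul_pow, Real.sq_sqrt (BVDPNT_Emax_nonneg u q), ← pow_mul, ← pow_mul, mul_comm 2]
  have e3 : ∀ q ∈ S, (Real.sqrt (Emax u q)) ^ 2 = Emax u q := by
    intro q _
    rw [Real.sq_sqrt (BVDPNT_Emax_nonneg u q)]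
  rw [Finset.sum_congr rfl e1, Finset.sum_congr rfl e2, Finset.sum_congr rfl e3] at hcs
  have hfirst : ∑ q ∈ S, ((D : ℝ) ^ 2) ^ q.primeFactors.card * Emax u q ≤
      7 * N * (3 * Real.log N) * (2 * Real.log N) ^ (2 * D ^ 2) := by
    calc ∑ q ∈ S, ((D : ℝ) ^ 2) ^ q.primeFactors.card * Emax u q
        ≤ ∑ q ∈ S, 7 * N * Real.log (3 * N + 1) *
            (((2 * D ^ 2 : ℕ) : ℝ) ^ q.primeFactors.card / q) := by
          apply Finset.sum_le_sum
          intro q hq
          rw [hS] at hq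
          unfold sqf at hq
          rw [mem_filter, mem_Icc] at hq
          have h1 := BVDPNT_Emax_triv' N u q hq.2 hu (hq.1.2.trans hQN)
          have h2 : ((D : ℝ) ^ 2) ^ q.primeFactors.card * Emax u q ≤
              ((D : ℝ) ^ 2) ^ q.primeFactors.card *
              (7 * N * Real.log (3 * N + 1) * ((2 : ℝ) ^ q.primeFactors.card / q)) :=
            mul_le_mul_of_nonneg_left h1 (by positivity)
          refine h2.trans (le_of_eq ?_)
          push_cast
          rw [mul_pow]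
          ring
      _ = 7 * N * Real.log (3 * N + 1) *
          ∑ q ∈ S, (((2 * D ^ 2 : ℕ) : ℝ) ^ q.primeFactors.card / q) := by
          rw [Finset.mul_sum]
      _ ≤ 7 * N * (3 * Real.log N) * (2 * Real.log N) ^ (2 * D ^ 2) := by
          have h1 := sums_pow_omega (2 * D ^ 2) ⌊(N : ℝ) ^ (49 / 100 : ℝ)⌋₊ hQ1
          have h2 : Real.log (⌊(N : ℝ) ^ (49 / 100 : ℝ)⌋₊ : ℝ) ≤ Real.log N :=
            Real.log_le_log (by exact_mod_cast hQ1) (by exact_mod_cast hQN)
          have h3 : Real.log (3 * N + 1) ≤ 3 * Real.log N := by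
            have : (3 : ℝ) * Real.log N = Real.log ((N : ℝ) ^ 3) := by
              rw [Real.log_pow]; norm_num
            rw [this]
            apply Real.log_le_log (by linarith)
            nlinarith [mul_self_nonneg ((N : ℝ) - 3), mul_nonneg (sub_nonneg.mpr hN3) (sub_nonneg.mpr hN3)]
          have h4 : (1 + Real.log (⌊(N : ℝ) ^ (49 / 100 : ℝ)⌋₊ : ℝ)) ^ (2 * D ^ 2) ≤
              (2 * Real.log N) ^ (2 * D ^ 2) := by
            apply pow_le_pow_left₀
            · have := Real.log_natCast_nonneg ⌊(N : ℝ) ^ (49 / 100 : ℝ)⌋₊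
              linarith
            · linarith
          have h5 : ∑ q ∈ S, (((2 * D ^ 2 : ℕ) : ℝ) ^ q.primeFactors.card / q) ≤
              (2 * Real.log N) ^ (2 * D ^ 2) := h1.trans h4
          apply mul_le_mul _ h5 (Finset.sum_nonneg (fun q _ => by positivity)) (by positivity)
          exact mul_le_mul_of_nonneg_left h3 (by positivity)
  have hE0 : 0 ≤ ∑ q ∈ S, Emax u q := Finset.sum_nonneg (fun q _ => BVDPNT_Emax_nonneg u q)
  have hfin : (∑ q ∈ S, (D : ℝ) ^ q.primeFactors.card * Emax u q) ^ 2 ≤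
      (N / Real.log N ^ A) ^ 2 := by
    refine hcs.trans ((mul_le_mul hfirst h hE0 (by positivity)).trans ?_)
    rw [div_pow, ← mul_div_assoc, div_le_div_iff₀ (by positivity) (by positivity)]
    rw [← pow_mul]
    have hl : (0 : ℝ) < Real.log N := by linarith
    have : 7 * (N : ℝ) * (3 * Real.log N) * (2 * Real.log N) ^ (2 * D ^ 2) * N *
        Real.log N ^ (A * 2) = (N ^ 2 * Real.log N ^ (2 * A + 2 * D ^ 2 + 1)) *
          (21 * 2 ^ (2 * D ^ 2)) := by
      rw [mul_pow]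
      ring
    rw [this]
    have h2 : (N : ℝ) ^ 2 * Real.log N ^ (2 * A + 2 * D ^ 2 + 2) =
        (N ^ 2 * Real.log N ^ (2 * A + 2 * D ^ 2 + 1)) * Real.log N := by
      ring
    rw [h2]
    exact mul_le_mul_of_nonneg_left hlarge (by positivity)
  exact (pow_le_pow_iff_left₀ (Finset.sum_nonneg (fun q _ =>
    mul_nonneg (by positivity) (BVDPNT_Emax_nonneg u q))) (by positivity) two_ne_zero).mp hfin

end Pool.Agent.BG
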