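import Mathlib
/-! Chebyshev inequality for finite product measures. -/

set_option autoImplicit false

namespace Pool.Agent.BG

open Finset
open scoped Classical

lemma CHEB_var {ι : Type} [Fintype ι] (μ Y : ι → ℝ) (h0 : ∑ t, μ t * Y t = 0) (n : ℕ) :
    (∑ f : Fin n → ι, (∏ i, μ (f i)) * (∑ i, Y (f i)) ^ 2) * ∑ t, μ t =
      n * (∑ t, μ t * Y t ^ 2) * (∑ t, μ t) ^ n := by
  induction n with
  | zero => simp
  | succ n ih =>
    have e1 : ∑ f : Fin (n + 1) → ι, (∏ i, μ (f i)) * (∑ i, Y (f i)) ^ 2 =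
        (∑ t, μ t * Y t ^ 2) * (∑ t, μ t) ^ n +
          (∑ t, μ t) * ∑ f : Fin n → ι, (∏ i, μ (f i)) * (∑ i, Y (f i)) ^ 2 := by
      rw [← (Fin.consEquiv (fun _ => ι)).sum_comp, Fintype.sum_prod_type]
      have e2 : ∀ (a : ι) (f : Fin n → ι),
          (∏ i, μ ((Fin.consEquiv (fun _ => ι)) (a, f) i)) *
            (∑ i, Y ((Fin.consEquiv (fun _ => ι)) (a, f) i)) ^ 2 =
          (μ a * Y a ^ 2) * (∏ i, μ (f i)) +
            (μ a * Y a) * (2 * ((∏ i, μ (f i)) * ∑ i, Y (f i))) +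
            μ a * ((∏ i, μ (f i)) * (∑ i, Y (f i)) ^ 2) := by
        intro a f
        rw [Fin.prod_univ_succ, Fin.sum_univ_succ]
        simp only [Fin.consEquiv_apply, Fin.cons_zero, Fin.cons_succ]
        ring
      simp only [e2, Finset.sum_add_distrib]
      rw [← Fintype.sum_mul_sum, ← Fintype.sum_mul_sum, ← Fintype.sum_mul_sum, h0, zero_mul,
        add_zero, Fintype.sum_pow]
    rw [e1, add_mul, mul_assoc (∑ t, μ t), ih]
    push_cast
    ring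

theorem cheb {ι : Type} [Fintype ι] (n : ℕ) (μ X : ι → ℝ) (hμ : ∀ t, 0 ≤ μ t)
    (hX : ∀ t, 0 ≤ X t) (b : ℝ) (hb : 0 < b) (hG : 0 < ∑ t, μ t)
    (h1 : n * ∑ t, μ t * X t ≤ (∑ t, μ t) * (b / 2)) :
    ∑ f ∈ (univ : Finset (Fin n → ι)).filter (fun f => b < ∑ i, X (f i)), ∏ i, μ (f i) ≤
      (∑ t, μ t) ^ n * (4 * n * (∑ t, μ t * X t ^ 2) / ((∑ t, μ t) * b ^ 2)) := by
  set G := ∑ t, μ t with hGdef
  set m := (∑ t, μ t * X t) / G with hm
  have hmG : m * G = ∑ t, μ t * X t := div_mul_cancel₀ _ hG.ne'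
  have h0 : ∑ t, μ t * (X t - m) = 0 := by
    simp only [mul_sub, Finset.sum_sub_distrib, ← Finset.sum_mul]
    rw [← hGdef, ← hmG]; ring
  have hvar := CHEB_var μ (fun t => X t - m) h0 n
  rw [← hGdef] at hvar
  have hs2 : ∑ t, μ t * (X t - m) ^ 2 ≤ ∑ t, μ t * X t ^ 2 := by
    have e1 : ∀ t, μ t * (X t - m) ^ 2 = μ t * X t ^ 2 - m * (μ t * (X t - m)) -
        m * (μ t * X t) := fun t => by ring
    simp only [e1, Finset.sum_sub_distrib, ← Finset.mul_sum, h0]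
    have e2 : 0 ≤ m := div_nonneg (Finset.sum_nonneg fun t _ => mul_nonneg (hμ t) (hX t)) hG.le
    have e3 : 0 ≤ ∑ t, μ t * X t := Finset.sum_nonneg fun t _ => mul_nonneg (hμ t) (hX t)
    have e4 : 0 ≤ m * ∑ t, μ t * X t := mul_nonneg e2 e3
    linarith
  have hpt : ∀ f ∈ (univ : Finset (Fin n → ι)).filter (fun f => b < ∑ i, X (f i)),
      ∏ i, μ (f i) ≤ (4 / b ^ 2) * ((∏ i, μ (f i)) * (∑ i, (X (f i) - m)) ^ 2) := by
    intro f hf
    have hf2 := (Finset.mem_filter.1 hf).2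
    have hnm : n * m ≤ b / 2 := by
      have : n * m * G ≤ b / 2 * G := by rw [mul_assoc, hmG]; linarith
      exact le_of_mul_le_mul_right this hG
    have e1 : ∑ i, (X (f i) - m) = ∑ i, X (f i) - n * m := by
      rw [Finset.sum_sub_distrib, Finset.sum_const, Finset.card_univ, Fintype.card_fin,
        nsmul_eq_mul]
    have e2 : b / 2 ≤ ∑ i, (X (f i) - m) := by rw [e1]; linarith
    have e3 : (b / 2) ^ 2 ≤ (∑ i, (X (f i) - m)) ^ 2 := pow_le_pow_left₀ (by positivity) e2 2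
    have e4 : 1 ≤ (4 / b ^ 2) * (∑ i, (X (f i) - m)) ^ 2 := by
      rw [div_mul_eq_mul_div, le_div_iff₀ (by positivity)]
      nlinarith
    have e5 : 0 ≤ ∏ i, μ (f i) := Finset.prod_nonneg fun i _ => hμ _
    calc ∏ i, μ (f i) = (∏ i, μ (f i)) * 1 := (mul_one _).symm
      _ ≤ (∏ i, μ (f i)) * ((4 / b ^ 2) * (∑ i, (X (f i) - m)) ^ 2) :=
          mul_le_mul_of_nonneg_left e4 e5
      _ = _ := by ring
  have hsum : ∑ f ∈ (univ : Finset (Fin n → ι)).filter (fun f => b < ∑ i, X (f i)),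
      ∏ i, μ (f i) ≤ (4 / b ^ 2) * ∑ f : Fin n → ι, (∏ i, μ (f i)) * (∑ i, (X (f i) - m)) ^ 2 := by
    refine (Finset.sum_le_sum hpt).trans ?_
    rw [← Finset.mul_sum]
    apply mul_le_mul_of_nonneg_left _ (by positivity)
    apply Finset.sum_le_sum_of_subset_of_nonneg (Finset.filter_subset _ _)
    intro f _ _
    exact mul_nonneg (Finset.prod_nonneg fun i _ => hμ _) (sq_nonneg _)
  refine hsum.trans ?_
  have e6 : ∑ f : Fin n → ι, (∏ i, μ (f i)) * (∑ i, (X (f i) - m)) ^ 2 =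
      n * (∑ t, μ t * (X t - m) ^ 2) * G ^ n / G := by
    rw [eq_div_iff hG.ne']; exact hvar
  rw [e6]
  have e7 : 4 / b ^ 2 * (n * (∑ t, μ t * (X t - m) ^ 2) * G ^ n / G) =
      (G ^ n * (4 * n / (G * b ^ 2))) * ∑ t, μ t * (X t - m) ^ 2 := by
    field_simp
  have e8 : G ^ n * (4 * n * (∑ t, μ t * X t ^ 2) / (G * b ^ 2)) =
      (G ^ n * (4 * n / (G * b ^ 2))) * ∑ t, μ t * X t ^ 2 := by
    field_simp
  rw [e7, e8]
  exact mul_le_mul_of_nonneg_left hs2 (by positivity)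

end Pool.Agent.BG
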