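import Pool.Agent.Lib_helper23.BG.Defs
import Pool.Agent.Lib_helper23.BGF.Sums
/-! Block COND: `cond_group`, grouping by conductors. -/

set_option autoImplicit false

namespace Pool.Agent.BG

open Finset Filter Complex
open scoped ArithmeticFunction.vonMangoldt Classical

/-- `∑_{n ≤ u, (n,q) > 1} Λ(n) ≤ ω(q) log (u+1)` -/
theorem COND_noncoprime (u q : ℕ) (hq : q ≠ 0) :
    ∑ n ∈ Icc 1 u, (if Nat.Coprime n q then 0 else (Λ n : ℝ)) ≤
      q.primeFactors.card * Real.log (u + 1) := by
  have hL0 : ∀ n : ℕ, 0 ≤ (Λ n : ℝ) := fun n => ArithmeticFunction.vonMangoldt_nonneg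
  have h1 : ∀ n ∈ Icc 1 u, (if Nat.Coprime n q then 0 else (Λ n : ℝ)) ≤
      ∑ p ∈ q.primeFactors, if n ∈ (p ^ Nat.log p u).divisors then (Λ n : ℝ) else 0 := by
    intro n hn
    rw [mem_Icc] at hn
    have hnn : ∀ p ∈ q.primeFactors,
        0 ≤ (if n ∈ (p ^ Nat.log p u).divisors then (Λ n : ℝ) else 0) := by
      intro p _; split_ifs; exacts [hL0 n, le_rfl]
    split_ifs with hc
    · exact Finset.sum_nonneg hnn
    · by_cases hz : (Λ n : ℝ) = 0
      · rw [hz]
        apply Finset.sum_nonneg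
        intro p _
        split_ifs <;> simp
      · have hpp : IsPrimePow n := by
          by_contra h
          exact hz (ArithmeticFunction.vonMangoldt_eq_zero_iff.mpr h)
        obtain ⟨p, k, hp, hk, rfl⟩ := hpp
        have hp' : p.Prime := hp.nat_prime
        have hpq : p ∣ q := by
          by_contra hd
          exact hc (Nat.Coprime.pow_left k ((Nat.Prime.coprime_iff_not_dvd hp').mpr hd))
        have hmem : p ∈ q.primeFactors := Nat.mem_primeFactors.mpr ⟨hp', hpq, hq⟩
        have hdiv : p ^ k ∈ (p ^ Nat.log p u).divisors := by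
          rw [Nat.mem_divisors]
          refine ⟨pow_dvd_pow p ?_, pow_ne_zero _ hp'.ne_zero⟩
          exact Nat.le_log_of_pow_le hp'.one_lt hn.2
        have := Finset.single_le_sum hnn hmem
        rw [if_pos hdiv] at this
        exact this
  refine (Finset.sum_le_sum h1).trans ?_
  rw [Finset.sum_comm]
  have h2 : ∀ p ∈ q.primeFactors,
      ∑ n ∈ Icc 1 u, (if n ∈ (p ^ Nat.log p u).divisors then (Λ n : ℝ) else 0) ≤
        Real.log (u + 1) := by
    intro p hp
    have hp' := Nat.prime_of_mem_primeFactors hp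
    rw [← Finset.sum_filter]
    calc ∑ n ∈ (Icc 1 u).filter (fun n => n ∈ (p ^ Nat.log p u).divisors), (Λ n : ℝ)
        ≤ ∑ n ∈ (p ^ Nat.log p u).divisors, (Λ n : ℝ) := by
          apply Finset.sum_le_sum_of_subset_of_nonneg
          · intro n hn
            exact (mem_filter.mp hn).2
          · intro n _ _
            exact hL0 n
      _ = Real.log ((p ^ Nat.log p u : ℕ) : ℝ) := ArithmeticFunction.vonMangoldt_sum
      _ ≤ Real.log (u + 1) := by
          apply Real.log_le_log
          · have := pow_pos hp'.pos (Nat.log p u)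
            exact_mod_cast this
          · rcases Nat.eq_zero_or_pos u with h0 | h0
            · subst h0
              simp
            · have := Nat.pow_log_le_self p h0.ne'
              have h3 : ((p ^ Nat.log p u : ℕ) : ℝ) ≤ u := by exact_mod_cast this
              linarith
  refine (Finset.sum_le_sum h2).trans ?_
  rw [Finset.sum_const, nsmul_eq_mul]

theorem COND_omega (q : ℕ) (hq : Squarefree q) : (q.primeFactors.card : ℝ) ≤ 2 * Real.log q := by
  have h1 : 2 ^ q.primeFactors.card ≤ q := by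
    calc 2 ^ q.primeFactors.card = ∏ _p ∈ q.primeFactors, 2 := by rw [Finset.prod_const]
      _ ≤ ∏ p ∈ q.primeFactors, p := Finset.prod_le_prod' (fun p hp =>
          (Nat.prime_of_mem_primeFactors hp).two_le)
      _ = q := Nat.prod_primeFactors_of_squarefree hq
  have h2 : ((2 : ℝ)) ^ q.primeFactors.card ≤ q := by exact_mod_cast h1
  have h3 := Real.log_le_log (by positivity) h2
  rw [Real.log_pow] at h3
  have h4 := Real.log_two_gt_d9
  have h5 : (0 : ℝ) ≤ (q.primeFactors.card : ℝ) := Nat.cast_nonneg _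
  nlinarith

/-- comparison of `ψ(u, χ)` with `ψ(u, χ*)` -/
theorem COND_prim (u q : ℕ) [NeZero q] (χ : DirichletCharacter ℂ q) :
    ‖psiC χ u‖ ≤ ‖psiC χ.primitiveCharacter u‖ + q.primeFactors.card * Real.log (u + 1) := by
  have h1 : psiC χ u = psiC χ.primitiveCharacter u -
      (psiC χ.primitiveCharacter u - psiC χ u) := by ring
  have h2 : ‖psiC χ.primitiveCharacter u - psiC χ u‖ ≤
      q.primeFactors.card * Real.log (u + 1) := by
    unfold psiC
    rw [← Finset.sum_sub_distrib]
    refine (norm_sum_le _ _).trans ((Finset.sum_le_sum ?_).trans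
      (COND_noncoprime u q (NeZero.ne q)))
    intro n _
    have hL0 : 0 ≤ (Λ n : ℝ) := ArithmeticFunction.vonMangoldt_nonneg
    split_ifs with hc
    · have h3 := DirichletCharacter.primitiveCharacter_apply_of_isCoprime χ (a := (n : ℤ))
        (Nat.isCoprime_iff_coprime.mpr hc)
      have h4 : χ.primitiveCharacter (n : ZMod χ.conductor) = χ (n : ZMod q) := by
        simpa using h3
      rw [h4, sub_self, norm_zero]
    · have h3 : χ (n : ZMod q) = 0 := by
        apply MulChar.map_nonunit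
        rw [ZMod.isUnit_iff_coprime]
        exact hc
      rw [h3, mul_zero, sub_zero, norm_mul, Complex.norm_real, Real.norm_eq_abs,
        abs_of_nonneg hL0]
      calc (Λ n : ℝ) * ‖χ.primitiveCharacter (n : ZMod χ.conductor)‖ ≤ (Λ n : ℝ) * 1 :=
            mul_le_mul_of_nonneg_left (DirichletCharacter.norm_le_one _ _) hL0
        _ = _ := mul_one _
  calc ‖psiC χ u‖ = ‖psiC χ.primitiveCharacter u -
      (psiC χ.primitiveCharacter u - psiC χ u)‖ := by rw [← h1]
    _ ≤ ‖psiC χ.primitiveCharacter u‖ + ‖psiC χ.primitiveCharacter u - psiC χ u‖ :=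
        norm_sub_le _ _
    _ ≤ _ := by linarith

theorem COND_sum_prim (u q : ℕ) [NeZero q] :
    ∑ χ ∈ (univ : Finset (DirichletCharacter ℂ q)).filter (fun χ => χ ≠ 1),
      ‖psiC χ.primitiveCharacter u‖ ≤
    ∑ r ∈ q.divisors.filter (fun r => 1 < r), ∑ χ ∈ Prm r, ‖psiC χ u‖ := by
  rw [Finset.sum_sigma']
  set F : (Σ r : ℕ, DirichletCharacter ℂ r) → ℝ := fun x => ‖psiC x.2 u‖ with hF
  have hinj : Set.InjOn (fun χ : DirichletCharacter ℂ q =>
      (⟨χ.conductor, χ.primitiveCharacter⟩ : Σ r : ℕ, DirichletCharacter ℂ r))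
      ((univ : Finset (DirichletCharacter ℂ q)).filter (fun χ => χ ≠ 1)) := by
    intro χ _ χ' _ h
    simp only at h
    have key : ∀ x : (Σ r : ℕ, DirichletCharacter ℂ r), ∀ y : (Σ r : ℕ, DirichletCharacter ℂ r),
        x = y → ∀ (h1 : x.1 ∣ q) (h2 : y.1 ∣ q),
        DirichletCharacter.changeLevel h1 x.2 = DirichletCharacter.changeLevel h2 y.2 := by
      rintro x y rfl h1 h2
      rfl
    have := key _ _ h χ.conductor_dvd_level χ'.conductor_dvd_level
    rw [DirichletCharacter.changeLevel_primitiveCharacter,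
      DirichletCharacter.changeLevel_primitiveCharacter] at this
    exact this
  have e : ∑ χ ∈ (univ : Finset (DirichletCharacter ℂ q)).filter (fun χ => χ ≠ 1),
      ‖psiC χ.primitiveCharacter u‖ =
      ∑ x ∈ ((univ : Finset (DirichletCharacter ℂ q)).filter (fun χ => χ ≠ 1)).image
        (fun χ : DirichletCharacter ℂ q =>
      (⟨χ.conductor, χ.primitiveCharacter⟩ : Σ r : ℕ, DirichletCharacter ℂ r)), F x := by
    rw [Finset.sum_image hinj]
  rw [e]
  apply Finset.sum_le_sum_of_subset_of_nonneg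
  · intro x hx
    rw [Finset.mem_image] at hx
    obtain ⟨χ, hχ, rfl⟩ := hx
    rw [mem_filter] at hχ
    rw [Finset.mem_sigma, mem_filter, Nat.mem_divisors]
    refine ⟨⟨⟨χ.conductor_dvd_level, NeZero.ne q⟩, ?_⟩, ?_⟩
    · have h0 : χ.conductor ≠ 0 := χ.conductor_ne_zero
      have h1 : χ.conductor ≠ 1 := fun h => hχ.2
        (DirichletCharacter.eq_one_iff_conductor_eq_one.mpr h)
      show 1 < χ.conductor
      omega
    · unfold Prm
      rw [mem_filter]
      exact ⟨Finset.mem_univ _, χ.primitiveCharacter_isPrimitive⟩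
  · intro x _ _
    exact norm_nonneg _

theorem COND_one (u q : ℕ) [NeZero q] (hq : Squarefree q) :
    (1 / (q.totient : ℝ)) *
      ∑ χ ∈ (univ : Finset (DirichletCharacter ℂ q)).filter (fun χ => χ ≠ 1), ‖psiC χ u‖ ≤
    (1 / (q.totient : ℝ)) * (∑ r ∈ q.divisors.filter (fun r => 1 < r),
      ∑ χ ∈ Prm r, ‖psiC χ u‖) + 2 * Real.log q * Real.log (u + 1) := by
  have hφ0 : (0 : ℝ) < q.totient := by
    exact_mod_cast Nat.totient_pos.mpr (Nat.pos_of_ne_zero (NeZero.ne q))
  have hlu : 0 ≤ Real.log ((u : ℝ) + 1) := Real.log_nonneg (by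
    have : (0 : ℝ) ≤ u := Nat.cast_nonneg u
    linarith)
  have hcard : ((univ : Finset (DirichletCharacter ℂ q)).filter (fun χ => χ ≠ 1)).card ≤
      q.totient := by
    refine (Finset.card_filter_le _ _).trans ?_
    rw [Finset.card_univ, ← Nat.card_eq_fintype_card,
      DirichletCharacter.card_eq_totient_of_hasEnoughRootsOfUnity]
  have h1 : ∑ χ ∈ (univ : Finset (DirichletCharacter ℂ q)).filter (fun χ => χ ≠ 1),
      ‖psiC χ u‖ ≤ (∑ r ∈ q.divisors.filter (fun r => 1 < r), ∑ χ ∈ Prm r, ‖psiC χ u‖) +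
        q.totient * (2 * Real.log q * Real.log (u + 1)) := by
    calc ∑ χ ∈ (univ : Finset (DirichletCharacter ℂ q)).filter (fun χ => χ ≠ 1), ‖psiC χ u‖
        ≤ ∑ χ ∈ (univ : Finset (DirichletCharacter ℂ q)).filter (fun χ => χ ≠ 1),
          (‖psiC χ.primitiveCharacter u‖ + 2 * Real.log q * Real.log (u + 1)) := by
          apply Finset.sum_le_sum
          intro χ _
          refine (COND_prim u q χ).trans ?_
          have := mul_le_mul_of_nonneg_right (COND_omega q hq) hlu
          linarith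
      _ = (∑ χ ∈ (univ : Finset (DirichletCharacter ℂ q)).filter (fun χ => χ ≠ 1),
          ‖psiC χ.primitiveCharacter u‖) +
          ((univ : Finset (DirichletCharacter ℂ q)).filter (fun χ => χ ≠ 1)).card *
            (2 * Real.log q * Real.log (u + 1)) := by
          rw [Finset.sum_add_distrib, Finset.sum_const, nsmul_eq_mul]
      _ ≤ _ := by
          apply add_le_add (COND_sum_prim u q)
          apply mul_le_mul_of_nonneg_right
          · exact_mod_cast hcard
          · have := Real.log_natCast_nonneg q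
            positivity
  have h2 := mul_le_mul_of_nonneg_left h1 (by positivity : (0 : ℝ) ≤ 1 / (q.totient : ℝ))
  refine h2.trans (le_of_eq ?_)
  rw [mul_add]
  congr 1
  field_simp

theorem COND_swap (Q : ℕ) (hQ : 1 ≤ Q) (T : ℕ → ℝ) (hT : ∀ r, 0 ≤ T r) :
    ∑ q ∈ (Icc 1 Q).filter Squarefree, (1 / (q.totient : ℝ)) *
      (∑ r ∈ q.divisors.filter (fun r => 1 < r), T r) ≤
    (1 + Real.log Q) ^ 2 * ∑ r ∈ (Ioc 1 Q).filter Squarefree, (1 / (r.totient : ℝ)) * T r := by
  have h : ∀ q ∈ (Icc 1 Q).filter Squarefree, (1 / (q.totient : ℝ)) *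
      (∑ r ∈ q.divisors.filter (fun r => 1 < r), T r) =
      ∑ r ∈ q.divisors.filter (fun r => 1 < r),
        ((1 / (r.totient : ℝ)) * T r) * (1 / ((q / r).totient : ℝ)) := by
    intro q hq
    rw [mem_filter, mem_Icc] at hq
    rw [Finset.mul_sum]
    apply Finset.sum_congr rfl
    intro r hr
    rw [mem_filter] at hr
    have hdvd := Nat.dvd_of_mem_divisors hr.1
    obtain ⟨m, rfl⟩ := hdvd
    have hr0 : 0 < r := by omega
    rw [Nat.mul_div_cancel_left m hr0]
    have hcop : Nat.Coprime r m := Nat.coprime_of_squarefree_mul hq.2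
    rw [Nat.totient_mul hcop]
    push_cast
    rw [one_div, mul_inv]
    ring
  rw [Finset.sum_congr rfl h]
  calc ∑ q ∈ (Icc 1 Q).filter Squarefree, ∑ r ∈ q.divisors.filter (fun r => 1 < r),
        ((1 / (r.totient : ℝ)) * T r) * (1 / ((q / r).totient : ℝ))
      ≤ ∑ r ∈ (Ioc 1 Q).filter Squarefree, ∑ m ∈ (Icc 1 Q).filter Squarefree,
        ((1 / (r.totient : ℝ)) * T r) * (1 / (m.totient : ℝ)) := by
        rw [Finset.sum_sigma', Finset.sum_sigma']
        have hinj : Set.InjOn (fun x : (Σ _ : ℕ, ℕ) => (⟨x.2, x.1 / x.2⟩ : Σ _ : ℕ, ℕ))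
            (((Icc 1 Q).filter Squarefree).sigma
              (fun q => q.divisors.filter (fun r => 1 < r)) : Finset (Σ _ : ℕ, ℕ)) := by
          rintro ⟨q, d⟩ hq ⟨q', d'⟩ hq' hqq
          simp only [Finset.coe_sigma, Set.mem_sigma_iff, Finset.mem_coe, mem_filter,
            mem_Icc] at hq hq'
          simp only [Sigma.mk.injEq, heq_eq_eq] at hqq
          obtain ⟨h1, h2⟩ := hqq
          subst h1
          have e1 := Nat.div_mul_cancel (Nat.dvd_of_mem_divisors hq.2.1)
          have e2 := Nat.div_mul_cancel (Nat.dvd_of_mem_divisors hq'.2.1)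
          rw [h2] at e1
          have : q = q' := e1.symm.trans e2
          subst this
          rfl
        rw [← Finset.sum_image (f := fun x : (Σ _ : ℕ, ℕ) =>
          ((1 / (x.1.totient : ℝ)) * T x.1) * (1 / (x.2.totient : ℝ))) hinj]
        apply Finset.sum_le_sum_of_subset_of_nonneg
        · intro x hx
          rw [Finset.mem_image] at hx
          obtain ⟨⟨q, d⟩, hq, rfl⟩ := hx
          simp only [Finset.mem_sigma, mem_filter, mem_Icc, mem_Ioc] at hq ⊢
          obtain ⟨⟨⟨hq1, hq2⟩, hq3⟩, hd, hd2⟩ := hq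
          have hd1 := Nat.pos_of_mem_divisors hd
          have hdd := Nat.dvd_of_mem_divisors hd
          refine ⟨⟨⟨hd2, (Nat.le_of_dvd (by omega) hdd).trans hq2⟩,
            hq3.squarefree_of_dvd hdd⟩, ⟨Nat.div_pos (Nat.le_of_dvd (by omega) hdd) hd1,
            (Nat.div_le_self _ _).trans hq2⟩,
            hq3.squarefree_of_dvd (Nat.div_dvd_of_dvd hdd)⟩
        · intro x _ _
          have := hT x.1
          positivity
    _ = (∑ r ∈ (Ioc 1 Q).filter Squarefree, (1 / (r.totient : ℝ)) * T r) *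
        ∑ m ∈ (Icc 1 Q).filter Squarefree, (1 / (m.totient : ℝ)) := by
        rw [Finset.sum_mul_sum]
    _ ≤ (∑ r ∈ (Ioc 1 Q).filter Squarefree, (1 / (r.totient : ℝ)) * T r) *
        (1 + Real.log Q) ^ 2 := by
        apply mul_le_mul_of_nonneg_left (sums_totient Q hQ)
        apply Finset.sum_nonneg
        intro r _
        have := hT r
        positivity
    _ = _ := mul_comm _ _

theorem cond_group : ∃ C : ℝ, 0 < C ∧ ∀ u Q : ℕ, 1 ≤ Q →
    ∑ q ∈ (Icc 1 Q).filter Squarefree, (1 / (q.totient : ℝ)) *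
      ∑ χ ∈ (univ : Finset (DirichletCharacter ℂ q)).filter (fun χ => χ ≠ 1), ‖psiC χ u‖ ≤
    C * (1 + Real.log Q) ^ 2 *
      (∑ r ∈ (Ioc 1 Q).filter Squarefree, (1 / (r.totient : ℝ)) * ∑ χ ∈ Prm r, ‖psiC χ u‖)
    + C * Q * (1 + Real.log Q) * (1 + Real.log (u + 1)) := by
  refine ⟨2, by norm_num, ?_⟩
  intro u Q hQ
  have hlQ : 0 ≤ Real.log Q := Real.log_natCast_nonneg Q
  have hlu : 0 ≤ Real.log ((u : ℝ) + 1) := Real.log_nonneg (by
    have : (0 : ℝ) ≤ u := Nat.cast_nonneg u
    linarith)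
  have hT : ∀ r : ℕ, 0 ≤ ∑ χ ∈ Prm r, ‖psiC χ u‖ := fun r =>
    Finset.sum_nonneg (fun χ _ => norm_nonneg _)
  have h1 : ∑ q ∈ (Icc 1 Q).filter Squarefree, (1 / (q.totient : ℝ)) *
      ∑ χ ∈ (univ : Finset (DirichletCharacter ℂ q)).filter (fun χ => χ ≠ 1), ‖psiC χ u‖ ≤
      ∑ q ∈ (Icc 1 Q).filter Squarefree, ((1 / (q.totient : ℝ)) *
        (∑ r ∈ q.divisors.filter (fun r => 1 < r), ∑ χ ∈ Prm r, ‖psiC χ u‖) +
        2 * Real.log Q * Real.log (u + 1)) := by
    apply Finset.sum_le_sum
    intro q hq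
    rw [mem_filter, mem_Icc] at hq
    have : NeZero q := ⟨by omega⟩
    have h2 := COND_one u q hq.2
    have h3 : Real.log q ≤ Real.log Q :=
      Real.log_le_log (by exact_mod_cast hq.1.1) (by exact_mod_cast hq.1.2)
    have h4 := mul_le_mul_of_nonneg_right h3 hlu
    refine le_trans (le_of_eq ?_) (h2.trans (by linarith))
    congr!
  refine h1.trans ?_
  rw [Finset.sum_add_distrib]
  have h5 := COND_swap Q hQ (fun r => ∑ χ ∈ Prm r, ‖psiC χ u‖) hT
  have h6 : ∑ _q ∈ (Icc 1 Q).filter Squarefree, 2 * Real.log Q * Real.log ((u : ℝ) + 1) ≤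
      2 * Q * (1 + Real.log Q) * (1 + Real.log (u + 1)) := by
    rw [Finset.sum_const, nsmul_eq_mul]
    have hc : ((Icc 1 Q).filter Squarefree).card ≤ Q := by
      refine (Finset.card_filter_le _ _).trans ?_
      rw [Nat.card_Icc]; omega
    have hc' : (((Icc 1 Q).filter Squarefree).card : ℝ) ≤ Q := by exact_mod_cast hc
    calc (((Icc 1 Q).filter Squarefree).card : ℝ) * (2 * Real.log Q * Real.log ((u : ℝ) + 1))
        ≤ Q * (2 * (1 + Real.log Q) * (1 + Real.log ((u : ℝ) + 1))) := by
          apply mul_le_mul hc' _ (by positivity) (by positivity)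
          apply mul_le_mul (by linarith) (by linarith) hlu (by positivity)
      _ = _ := by ring
  have h7 : 0 ≤ (1 + Real.log Q) ^ 2 *
      ∑ r ∈ (Ioc 1 Q).filter Squarefree, (1 / (r.totient : ℝ)) * ∑ χ ∈ Prm r, ‖psiC χ u‖ := by
    apply mul_nonneg (by positivity)
    apply Finset.sum_nonneg
    intro r _
    have := hT r
    positivity
  linarith

end Pool.Agent.BG
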