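import Pool.Agent.Lib_helper23.BGF.PSI
/-! Block DES: from the smoothed sums `PsiS` to the sums `Fj`. -/

set_option autoImplicit false

namespace Pool.Agent.BG

open Finset Filter Complex
open scoped ArithmeticFunction.vonMangoldt

theorem DES_three_le {r : ℕ} [NeZero r] (χ : DirichletCharacter ℂ r) (hχ : χ ≠ 1) : 3 ≤ r := by
  by_contra h
  have h0 : r ≠ 0 := NeZero.ne r
  have : r = 1 ∨ r = 2 := by omega
  rcases this with rfl | rfl
  · apply hχ
    refine MulChar.ext fun a => ?_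
    have : a = 1 := Subsingleton.elim _ _
    rw [this]; simp
  · apply hχ
    refine MulChar.ext fun a => ?_
    have : a = 1 := by revert a; decide
    rw [this]; simp

theorem DES_log_three {x : ℝ} (hx : 3 ≤ x) : 1 ≤ Real.log x := by
  rw [Real.le_log_iff_exp_le (by linarith)]
  have := Real.exp_one_lt_d9
  linarith

theorem DES_Q {r : ℕ} [NeZero r] (χ : DirichletCharacter ℂ r) (hχ : χ ≠ 1) :
    1 ≤ Real.log r ^ 10 / ell χ := by
  obtain ⟨h1, h2⟩ := ell_pos χ hχ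
  have h3 : (3 : ℝ) ≤ r := by exact_mod_cast DES_three_le χ hχ
  rw [le_div_iff₀ h1, one_mul]
  exact h2.trans (one_le_pow₀ (DES_log_three h3))

theorem DES_norm_term {r : ℕ} [NeZero r] (χ : DirichletCharacter ℂ r) (j n : ℕ) :
    ‖((Λ n : ℝ) : ℂ) * χ (n : ZMod r) * (((Real.log n) ^ j : ℝ) : ℂ)‖ ≤ Real.log n ^ (j + 1) := by
  have hlog : 0 ≤ Real.log n := Real.log_natCast_nonneg n
  rw [norm_mul, norm_mul, Complex.norm_real, Complex.norm_real, Real.norm_eq_abs,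
    Real.norm_eq_abs, abs_of_nonneg ArithmeticFunction.vonMangoldt_nonneg,
    abs_of_nonneg (pow_nonneg hlog j), pow_succ' (Real.log n)]
  have h3 : ‖χ (n : ZMod r)‖ ≤ 1 := DirichletCharacter.norm_le_one χ _
  have h4 : Λ n ≤ Real.log n := ArithmeticFunction.vonMangoldt_le_log
  have h5 : 0 ≤ Λ n := ArithmeticFunction.vonMangoldt_nonneg
  calc Λ n * ‖χ (n : ZMod r)‖ * Real.log n ^ j ≤ Real.log n * 1 * Real.log n ^ j := by
        gcongr
    _ = _ := by ring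

/-- comparison of the two sums -/
theorem DES_key {r : ℕ} [NeZero r] (χ : DirichletCharacter ℂ r) (j : ℕ) (x h : ℝ) (hx : 3 ≤ x)
    (h0 : 0 < h) (h1 : h ≤ 1) :
    h * ‖Fj χ j x‖ ≤ ‖PsiS χ j x‖ + ‖PsiS χ j (x * Real.exp h)‖ +
      h * ((2 * Real.log x) ^ (j + 1) * (2 * x * h + 1)) := by
  set y : ℝ := x * Real.exp h with hy
  set a : ℕ → ℂ := fun n => ((Λ n : ℝ) : ℂ) * χ (n : ZMod r) * (((Real.log n) ^ j : ℝ) : ℂ) with ha
  have hx0 : 0 < x := by linarith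
  have he1 : 1 ≤ Real.exp h := Real.one_le_exp h0.le
  have hxy : x ≤ y := by rw [hy]; nlinarith
  have hy0 : 0 < y := by linarith
  have hfl : ⌊x⌋₊ ≤ ⌊y⌋₊ := Nat.floor_mono hxy
  have hlogy : Real.log y = Real.log x + h := by
    rw [hy, Real.log_mul hx0.ne' (Real.exp_pos h).ne', Real.log_exp]
  have hl1 := DES_log_three hx
  -- decomposition
  have hdec : PsiS χ j y = PsiS χ j x + h * Fj χ j x +
      ∑ n ∈ Ioc ⌊x⌋₊ ⌊y⌋₊, a n * ((Real.log (y / n) : ℝ) : ℂ) := by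
    rw [PsiS, PsiS, Fj]
    have hun : Icc 1 ⌊y⌋₊ = Icc 1 ⌊x⌋₊ ∪ Ioc ⌊x⌋₊ ⌊y⌋₊ := by
      ext n; simp only [mem_union, mem_Icc, mem_Ioc]; omega
    have hdis : Disjoint (Icc 1 ⌊x⌋₊) (Ioc ⌊x⌋₊ ⌊y⌋₊) := by
      rw [Finset.disjoint_left]; intro n; simp only [mem_Icc, mem_Ioc]; omega
    rw [hun, Finset.sum_union hdis, Finset.mul_sum, ← Finset.sum_add_distrib]
    congr 1
    refine Finset.sum_congr rfl fun n hn => ?_
    rw [mem_Icc] at hn
    have hn0 : (0 : ℝ) < n := by exact_mod_cast hn.1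
    have : Real.log (y / n) = Real.log (x / n) + h := by
      rw [Real.log_div hy0.ne' hn0.ne', Real.log_div hx0.ne' hn0.ne', hlogy]; ring
    rw [this]; push_cast; ring
  -- the last sum
  have hlast : ‖∑ n ∈ Ioc ⌊x⌋₊ ⌊y⌋₊, a n * ((Real.log (y / n) : ℝ) : ℂ)‖ ≤
      h * ((2 * Real.log x) ^ (j + 1) * (2 * x * h + 1)) := by
    have hterm : ∀ n ∈ Ioc ⌊x⌋₊ ⌊y⌋₊, ‖a n * ((Real.log (y / n) : ℝ) : ℂ)‖ ≤
        h * (2 * Real.log x) ^ (j + 1) := by
      intro n hn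
      rw [mem_Ioc] at hn
      have hxn : x < n := (Nat.floor_lt hx0.le).1 hn.1
      have hny : (n : ℝ) ≤ y := (Nat.le_floor_iff hy0.le).1 hn.2
      have hn0 : (0 : ℝ) < n := hx0.trans hxn
      have hl0 : 0 ≤ Real.log (y / n) := Real.log_nonneg ((one_le_div hn0).2 hny)
      have hlh : Real.log (y / n) ≤ h := by
        rw [Real.log_div hy0.ne' hn0.ne', hlogy]
        have := Real.log_le_log hx0 hxn.le
        linarith
      have hln : Real.log n ≤ 2 * Real.log x := by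
        have := Real.log_le_log hn0 hny
        rw [hlogy] at this
        linarith
      rw [norm_mul, Complex.norm_real, Real.norm_eq_abs, abs_of_nonneg hl0, mul_comm]
      have := DES_norm_term χ j n
      refine mul_le_mul hlh (this.trans ?_) (norm_nonneg _) h0.le
      exact pow_le_pow_left₀ (Real.log_natCast_nonneg n) hln _
    refine (norm_sum_le_of_le _ hterm).trans ?_
    rw [Finset.sum_const, nsmul_eq_mul, Nat.card_Ioc]
    have hcard : ((⌊y⌋₊ - ⌊x⌋₊ : ℕ) : ℝ) ≤ 2 * x * h + 1 := by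
      rw [Nat.cast_sub hfl]
      have e1 : (⌊y⌋₊ : ℝ) ≤ y := Nat.floor_le hy0.le
      have e2 : x < (⌊x⌋₊ : ℝ) + 1 := Nat.lt_floor_add_one x
      have e3 : Real.exp h - 1 ≤ 2 * h := by
        have := Real.abs_exp_sub_one_le (x := h) (by rw [abs_of_pos h0]; exact h1)
        rw [abs_of_nonneg (by linarith), abs_of_pos h0] at this
        exact this
      have e4 : y - x ≤ 2 * x * h := by rw [hy]; nlinarith
      linarith
    have hpos : 0 ≤ h * (2 * Real.log x) ^ (j + 1) := by positivity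
    calc ((⌊y⌋₊ - ⌊x⌋₊ : ℕ) : ℝ) * (h * (2 * Real.log x) ^ (j + 1))
        ≤ (2 * x * h + 1) * (h * (2 * Real.log x) ^ (j + 1)) :=
          mul_le_mul_of_nonneg_right hcard hpos
      _ = _ := by ring
  have hF : (h : ℂ) * Fj χ j x = PsiS χ j y - PsiS χ j x -
      ∑ n ∈ Ioc ⌊x⌋₊ ⌊y⌋₊, a n * ((Real.log (y / n) : ℝ) : ℂ) := by
    rw [hdec]; ring
  have hn : h * ‖Fj χ j x‖ = ‖(h : ℂ) * Fj χ j x‖ := by
    rw [norm_mul, Complex.norm_real, Real.norm_eq_abs, abs_of_pos h0]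
  rw [hn, hF]
  refine (norm_sub_le _ _).trans ?_
  have := norm_sub_le (PsiS χ j y) (PsiS χ j x)
  linarith

theorem DES_log_pow {x : ℝ} (hx : 1 ≤ x) (i : ℕ) : Real.log x ^ i ≤ i.factorial * x := by
  have hl : 0 ≤ Real.log x := Real.log_nonneg hx
  have h1 := Real.pow_div_factorial_le_exp (Real.log x) hl i
  rw [Real.exp_log (by linarith), div_le_iff₀ (by positivity)] at h1
  linarith

theorem Fj_bound (i : ℕ) : ∃ C : ℝ, 0 < C ∧ ∀ (r : ℕ) [NeZero r] (χ : DirichletCharacter ℂ r),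
    χ ≠ 1 → ∀ x : ℝ, 3 ≤ x →
      ‖Fj χ (2 * i) x‖ ≤ C * x * Real.log x ^ (i + 1) *
        (Real.log r ^ 10 / ell χ) ^ (2 * i + 1) := by
  obtain ⟨C, hC, hPsi⟩ := PsiS_bound (2 * i)
  refine ⟨4 * C + 2 ^ (2 * i + 2) + 2 ^ (2 * i + 1) * i.factorial, by positivity, ?_⟩
  intro r _ χ hχ x hx
  set Q : ℝ := Real.log r ^ 10 / ell χ with hQ
  have hQ1 : 1 ≤ Q := DES_Q χ hχ
  have hl1 := DES_log_three hx
  set l : ℝ := Real.log x with hl
  have hlpos : 0 < l := by linarith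
  set h : ℝ := 1 / l ^ (i + 1) with hh
  have hlp : 1 ≤ l ^ (i + 1) := one_le_pow₀ hl1
  have h0 : 0 < h := by positivity
  have h1 : h ≤ 1 := by rw [hh, div_le_one (by positivity)]; exact hlp
  have hkey := DES_key χ (2 * i) x h hx h0 h1
  have hx0 : 0 < x := by linarith
  have he : Real.exp h ≤ 3 := by
    have := Real.exp_le_exp.2 h1
    have h' := Real.exp_one_lt_d9
    linarith
  have he1 : 1 ≤ Real.exp h := Real.one_le_exp h0.le
  have hy3 : 3 ≤ x * Real.exp h := by nlinarith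
  have b1 := hPsi r χ hχ x hx
  have b2 := hPsi r χ hχ (x * Real.exp h) hy3
  have hQp : 0 < Q ^ (2 * i + 1) := by positivity
  have hQ1p : 1 ≤ Q ^ (2 * i + 1) := one_le_pow₀ hQ1
  have b2' : ‖PsiS χ (2 * i) (x * Real.exp h)‖ ≤ 3 * (C * x * Q ^ (2 * i + 1)) := by
    refine b2.trans ?_
    have : C * (x * Real.exp h) * Q ^ (2 * i + 1) ≤ C * (x * 3) * Q ^ (2 * i + 1) := by gcongr
    linarith
  -- multiply by `1 / h = l ^ (i + 1)`
  have hmul : h * l ^ (i + 1) = 1 := by rw [hh]; field_simp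
  have hF : ‖Fj χ (2 * i) x‖ ≤ l ^ (i + 1) * (4 * (C * x * Q ^ (2 * i + 1))) +
      (2 * l) ^ (2 * i + 1) * (2 * x * h + 1) := by
    have := mul_le_mul_of_nonneg_left hkey (by positivity : (0 : ℝ) ≤ l ^ (i + 1))
    have e1 : l ^ (i + 1) * (h * ‖Fj χ (2 * i) x‖) = ‖Fj χ (2 * i) x‖ := by
      rw [← mul_assoc, mul_comm (l ^ (i + 1)) h, hmul, one_mul]
    have e2 : l ^ (i + 1) * (h * ((2 * l) ^ (2 * i + 1) * (2 * x * h + 1))) =
        (2 * l) ^ (2 * i + 1) * (2 * x * h + 1) := by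
      rw [← mul_assoc, mul_comm (l ^ (i + 1)) h, hmul, one_mul]
    rw [e1, mul_add, e2] at this
    refine this.trans ?_
    have := mul_le_mul_of_nonneg_left (add_le_add b1 b2') (by positivity : (0 : ℝ) ≤ l ^ (i + 1))
    linarith
  have c1 : (2 * l) ^ (2 * i + 1) * (2 * x * h) ≤ 2 ^ (2 * i + 2) * x * l ^ (i + 1) := by
    have e1 : (2 * l) ^ (2 * i + 1) * (2 * x * h) = 2 ^ (2 * i + 2) * x * (l ^ i * (h * l ^ (i + 1))) := by
      ring
    rw [e1, hmul, mul_one]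
    have : l ^ i ≤ l ^ (i + 1) := pow_le_pow_right₀ hl1 (Nat.le_succ i)
    gcongr
  have c2 : (2 * l) ^ (2 * i + 1) ≤ 2 ^ (2 * i + 1) * i.factorial * x * l ^ (i + 1) := by
    have e1 : (2 * l) ^ (2 * i + 1) = 2 ^ (2 * i + 1) * l ^ i * l ^ (i + 1) := by ring
    have e2 := DES_log_pow (x := x) (by linarith) i
    rw [e1]
    have e3 : l ^ i ≤ i.factorial * x := e2
    calc 2 ^ (2 * i + 1) * l ^ i * l ^ (i + 1) ≤ 2 ^ (2 * i + 1) * (i.factorial * x) * l ^ (i + 1) := by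
          gcongr
      _ = _ := by ring
  have hpos : 0 ≤ (2 ^ (2 * i + 2) + 2 ^ (2 * i + 1) * (i.factorial : ℝ)) * x * l ^ (i + 1) := by
    positivity
  have hfin : (2 ^ (2 * i + 2) + 2 ^ (2 * i + 1) * (i.factorial : ℝ)) * x * l ^ (i + 1) ≤
      (2 ^ (2 * i + 2) + 2 ^ (2 * i + 1) * (i.factorial : ℝ)) * x * l ^ (i + 1) *
        Q ^ (2 * i + 1) := le_mul_of_one_le_right hpos hQ1p
  calc ‖Fj χ (2 * i) x‖ ≤ _ := hF
    _ ≤ l ^ (i + 1) * (4 * (C * x * Q ^ (2 * i + 1))) +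
        (2 ^ (2 * i + 2) + 2 ^ (2 * i + 1) * (i.factorial : ℝ)) * x * l ^ (i + 1) := by
        have : (2 * l) ^ (2 * i + 1) * (2 * x * h + 1) = (2 * l) ^ (2 * i + 1) * (2 * x * h) +
          (2 * l) ^ (2 * i + 1) := by ring
        rw [this]
        linarith
    _ ≤ l ^ (i + 1) * (4 * (C * x * Q ^ (2 * i + 1))) +
        (2 ^ (2 * i + 2) + 2 ^ (2 * i + 1) * (i.factorial : ℝ)) * x * l ^ (i + 1) *
          Q ^ (2 * i + 1) := by linarith
    _ = _ := by ring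

end Pool.Agent.BG
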