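import Pool.Agent.Lib_helper23.BGF.LBC
/-! Part A: block GJB -/

set_option autoImplicit false

namespace Pool.Agent.BG

open Finset Filter Complex
open scoped Classical

theorem ell_pos {r : ℕ} [NeZero r] (χ : DirichletCharacter ℂ r) (hχ : χ ≠ 1) :
    0 < ell χ ∧ ell χ ≤ 1 := by
  unfold ell
  split_ifs with h
  · refine ⟨lt_min one_pos ?_, min_le_left _ _⟩
    exact norm_pos_iff.mpr (DirichletCharacter.LFunction_apply_one_ne_zero hχ)
  · exact ⟨one_pos, le_rfl⟩

lemma GJB_lower : ∃ c : ℝ, 0 < c ∧ ∀ (r : ℕ) [NeZero r] (χ : DirichletCharacter ℂ r),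
    χ ≠ 1 → ∀ σ t : ℝ, 1 < σ → σ ≤ 2 →
      c * ell χ / lt r t ^ 8 ≤ ‖Lj χ 0 (σ + t * I)‖ := by
  obtain ⟨c1, hc1, h1⟩ := L_lower_complex
  obtain ⟨c2, hc2, h2⟩ := L_lower_real
  refine ⟨min c1 c2, lt_min hc1 hc2, ?_⟩
  intro r _ χ hχ σ t hσ1 hσ2
  have hr3 := LJB_three_le χ hχ
  have hl : 0 < lt r t := by
    unfold lt
    have hr1 : (3:ℝ) ≤ r := by exact_mod_cast hr3
    have := abs_nonneg t
    refine Real.log_pos ?_
    nlinarith
  by_cases h : χ ^ 2 = 1
  · refine le_trans ?_ (h2 r χ hχ h σ t hσ1 hσ2)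
    unfold ell
    rw [if_pos h]
    refine div_le_div_of_nonneg_right ?_ (by positivity)
    refine mul_le_mul_of_nonneg_right (min_le_right _ _) ?_
    exact le_min zero_le_one (norm_nonneg _)
  · refine le_trans ?_ (h1 r χ hχ h σ t hσ1 hσ2)
    unfold ell
    rw [if_neg h, mul_one]
    exact div_le_div_of_nonneg_right (min_le_left _ _) (by positivity)

theorem Gj_bound (j : ℕ) : ∃ C : ℝ, 0 < C ∧ ∀ (r : ℕ) [NeZero r] (χ : DirichletCharacter ℂ r),
    χ ≠ 1 → ∀ σ t : ℝ, 1 < σ → σ ≤ 2 →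
      ‖Gj χ j (σ + t * I)‖ ≤ C * (lt r t ^ 10 / ell χ) ^ (j + 1) := by
  obtain ⟨c, hc, hlow⟩ := GJB_lower
  choose L hL0 hL using Lj_bound
  induction j using Nat.strong_induction_on with
  | _ j ih =>
    have ih' : ∀ i : ℕ, ∃ C : ℝ, 0 < C ∧ (i < j → ∀ (r : ℕ) [NeZero r] (χ : DirichletCharacter ℂ r),
        χ ≠ 1 → ∀ σ t : ℝ, 1 < σ → σ ≤ 2 → ‖Gj χ i (σ + t * I)‖ ≤ C * (lt r t ^ 10 / ell χ) ^ (i + 1)) := by
      intro i
      by_cases hi : i < j
      · obtain ⟨C, hC0, hC⟩ := ih i hi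
        exact ⟨C, hC0, fun _ => hC⟩
      · exact ⟨1, one_pos, fun h => absurd h hi⟩
    choose K hK0 hK using ih'
    set S : ℝ := L (j + 1) + ∑ i ∈ range j, (j.choose i : ℝ) * L (j - i) * K i with hS
    have hS0 : 0 < S := by
      have h1 : 0 ≤ ∑ i ∈ range j, (j.choose i : ℝ) * L (j - i) * K i :=
        sum_nonneg fun i _ => by have := hL0 (j - i); have := hK0 i; positivity
      have := hL0 (j + 1)
      linarith
    refine ⟨S / c, by positivity, ?_⟩
    intro r _ χ hχ σ t hσ1 hσ2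
    have hr3 := LJB_three_le χ hχ
    have hr3r : (3:ℝ) ≤ r := by exact_mod_cast hr3
    obtain ⟨hell0, hell1⟩ := ell_pos χ hχ
    set s : ℂ := σ + t * I with hs
    have hsre : s.re = σ := by simp [hs]
    have hs1 : 1 < s.re := by rw [hsre]; exact hσ1
    set a := lt r t with ha
    have ha1 : 1 ≤ a := by
      rw [ha]; unfold lt
      have := abs_nonneg t
      exact LJB_log_ge_one (by nlinarith)
    set l := ell χ with hl
    set q := a ^ 10 / l with hq
    have hq0 : 0 < q := by positivity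
    have hqa : a ≤ q := by
      rw [hq, le_div_iff₀ hell0]
      have h1 : a * l ≤ a * 1 := mul_le_mul_of_nonneg_left hell1 (by linarith)
      have h2 : a ^ 1 ≤ a ^ 10 := pow_le_pow_right₀ ha1 (by norm_num)
      rw [pow_one] at h2
      linarith
    have hq1 : 1 ≤ q := ha1.trans hqa
    have hlow' := hlow r χ hχ σ t hσ1 hσ2
    rw [← hs] at hlow'
    -- recursion
    have hrec := Lj_rec χ j s hs1
    rw [sum_range_succ, Nat.choose_self, Nat.sub_self, Nat.cast_one, one_mul] at hrec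
    have hG : Lj χ 0 s * Gj χ j s = Lj χ (j + 1) s - ∑ i ∈ range j, (j.choose i : ℂ) * Lj χ (j - i) s * Gj χ i s := by
      rw [hrec]; ring
    have hnorm : ‖Lj χ 0 s‖ * ‖Gj χ j s‖ ≤ L (j + 1) * a ^ (j + 2) + ∑ i ∈ range j, (j.choose i : ℝ) * (L (j - i) * a ^ (j - i + 1)) * (K i * q ^ (i + 1)) := by
      rw [← norm_mul, hG]
      refine (norm_sub_le _ _).trans (add_le_add ?_ ?_)
      · exact hL (j + 1) r χ hχ σ t hσ1 hσ2
      · refine (norm_sum_le _ _).trans (sum_le_sum fun i hi => ?_)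
        rw [mem_range] at hi
        rw [norm_mul, norm_mul, Complex.norm_natCast]
        have e1 := hL (j - i) r χ hχ σ t hσ1 hσ2
        have e2 := hK i hi r χ hχ σ t hσ1 hσ2
        refine mul_le_mul ?_ e2 (norm_nonneg _) ?_
        · exact mul_le_mul_of_nonneg_left e1 (Nat.cast_nonneg _)
        · have := hL0 (j - i)
          positivity
    -- bound of the right side
    have hfac : ∀ k : ℕ, k ≤ j → a ^ 8 / l * (a ^ (k + 2) * q ^ (j - k)) ≤ q ^ (j + 1) := by
      intro k hk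
      have h1 : a ^ 8 / l * (a ^ (k + 2) * q ^ (j - k)) = q * (a ^ k * q ^ (j - k)) := by
        rw [hq]; field_simp; ring
      rw [h1]
      have h2 : a ^ k ≤ q ^ k := pow_le_pow_left₀ (by linarith) hqa k
      calc q * (a ^ k * q ^ (j - k)) ≤ q * (q ^ k * q ^ (j - k)) := by
            refine mul_le_mul_of_nonneg_left ?_ hq0.le
            exact mul_le_mul_of_nonneg_right h2 (by positivity)
        _ = q ^ (j + 1) := by
            rw [← pow_add, Nat.add_sub_cancel' hk, ← pow_succ']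
    have hRHS : (a ^ 8 / l) * (L (j + 1) * a ^ (j + 2) + ∑ i ∈ range j, (j.choose i : ℝ) * (L (j - i) * a ^ (j - i + 1)) * (K i * q ^ (i + 1)))
        ≤ S * q ^ (j + 1) := by
      rw [mul_add, mul_sum, hS, add_mul, sum_mul]
      refine add_le_add ?_ (sum_le_sum fun i hi => ?_)
      · have h1 := hfac j le_rfl
        rw [Nat.sub_self, pow_zero, mul_one] at h1
        calc a ^ 8 / l * (L (j + 1) * a ^ (j + 2)) = L (j + 1) * (a ^ 8 / l * a ^ (j + 2)) := by ring
          _ ≤ L (j + 1) * q ^ (j + 1) := mul_le_mul_of_nonneg_left h1 (hL0 _).le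
      · rw [mem_range] at hi
        have h1 := hfac (j - i - 1) (by omega)
        have e1 : j - i - 1 + 2 = j - i + 1 := by omega
        have e2 : j - (j - i - 1) = i + 1 := by omega
        rw [e1, e2] at h1
        calc a ^ 8 / l * ((j.choose i : ℝ) * (L (j - i) * a ^ (j - i + 1)) * (K i * q ^ (i + 1)))
            = ((j.choose i : ℝ) * L (j - i) * K i) * (a ^ 8 / l * (a ^ (j - i + 1) * q ^ (i + 1))) := by ring
          _ ≤ ((j.choose i : ℝ) * L (j - i) * K i) * q ^ (j + 1) := by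
              refine mul_le_mul_of_nonneg_left h1 ?_
              have := hL0 (j - i); have := hK0 i; positivity
    have h8 : (c * l / a ^ 8) * ‖Gj χ j s‖ ≤ L (j + 1) * a ^ (j + 2) + ∑ i ∈ range j, (j.choose i : ℝ) * (L (j - i) * a ^ (j - i + 1)) * (K i * q ^ (i + 1)) :=
      (mul_le_mul_of_nonneg_right hlow' (norm_nonneg _)).trans hnorm
    have h9 := mul_le_mul_of_nonneg_left h8 (by positivity : 0 ≤ a ^ 8 / l)
    have h10 : a ^ 8 / l * ((c * l / a ^ 8) * ‖Gj χ j s‖) = c * ‖Gj χ j s‖ := by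
      field_simp
    rw [h10] at h9
    have h11 := h9.trans hRHS
    rw [div_mul_eq_mul_div, le_div_iff₀ hc]
    linarith

end Pool.Agent.BG
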