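import Pool.Agent.Lib_helper23.BGF.LJB
/-! Part A: block TRV -/

set_option autoImplicit false

namespace Pool.Agent.BG

open Finset Filter Complex

/-- partial sums of the principal character -/
noncomputable def TRV_B (r : ℕ) (n : ℕ) : ℂ :=
  ∑ k ∈ range n, (1 : DirichletCharacter ℂ r) (k : ZMod r) - ((r.totient : ℝ) / r * n : ℝ)

lemma TRV_full (r : ℕ) [NeZero r] : ∑ k ∈ range r, (1 : DirichletCharacter ℂ r) (k : ZMod r) = (r.totient : ℂ) := by
  have h : ∀ k ∈ range r, (1 : DirichletCharacter ℂ r) (k : ZMod r) = if Nat.Coprime r k then 1 else 0 := by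
    intro k _
    split_ifs with h
    · rw [MulChar.one_apply]
      rw [ZMod.isUnit_iff_coprime]; exact h.symm
    · apply MulChar.map_nonunit
      rw [ZMod.isUnit_iff_coprime, Nat.coprime_comm]; exact h
  rw [sum_congr rfl h, ← sum_filter, sum_const, Nat.totient_eq_card_coprime, nsmul_eq_mul, mul_one]

lemma TRV_B_norm (r : ℕ) [NeZero r] (n : ℕ) : ‖TRV_B r n‖ ≤ 2 * r := by
  have hr0 : (0:ℝ) < r := by exact_mod_cast NeZero.pos r
  have h1 : ∀ m s : ℕ, ∑ k ∈ range (r * m + s), (1 : DirichletCharacter ℂ r) (k : ZMod r)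
      = m * (r.totient : ℂ) + ∑ k ∈ range s, (1 : DirichletCharacter ℂ r) (k : ZMod r) := by
    intro m
    induction m with
    | zero => intro s; simp
    | succ m ih =>
        intro s
        rw [Nat.mul_succ, add_assoc, ih, Finset.sum_range_add, TRV_full r]
        have : ∀ k ∈ range s, (1 : DirichletCharacter ℂ r) ((r + k : ℕ) : ZMod r) = (1 : DirichletCharacter ℂ r) (k : ZMod r) := by
          intro k _; push_cast; simp
        rw [sum_congr rfl this]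
        push_cast
        ring
  have h2 := h1 (n / r) (n % r)
  rw [Nat.div_add_mod] at h2
  unfold TRV_B
  rw [h2]
  have h3 : ((n:ℝ)) = r * ((n / r : ℕ):ℝ) + ((n % r : ℕ):ℝ) := by exact_mod_cast (Nat.div_add_mod n r).symm
  have h4 : (r.totient : ℝ) / r * n = ((n / r : ℕ):ℝ) * r.totient + (r.totient : ℝ) / r * ((n % r : ℕ):ℝ) := by
    rw [h3]; field_simp
  rw [h4]
  have h5 : (((n / r : ℕ):ℂ)) * (r.totient : ℂ) + ∑ k ∈ range (n % r), (1 : DirichletCharacter ℂ r) (k : ZMod r)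
      - ((((n / r : ℕ):ℝ) * r.totient + (r.totient : ℝ) / r * ((n % r : ℕ):ℝ) : ℝ) : ℂ)
      = ∑ k ∈ range (n % r), (1 : DirichletCharacter ℂ r) (k : ZMod r) - (((r.totient : ℝ) / r * ((n % r : ℕ):ℝ) : ℝ) : ℂ) := by
    push_cast; ring
  rw [h5]
  have hmod : ((n % r : ℕ):ℝ) ≤ r := by exact_mod_cast (Nat.mod_lt n (NeZero.pos r)).le
  have e1 : ‖∑ k ∈ range (n % r), (1 : DirichletCharacter ℂ r) (k : ZMod r)‖ ≤ r := by
    refine (norm_sum_le _ _).trans ?_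
    calc ∑ k ∈ range (n % r), ‖(1 : DirichletCharacter ℂ r) (k : ZMod r)‖ ≤ ∑ k ∈ range (n % r), (1:ℝ) :=
          sum_le_sum fun k _ => DirichletCharacter.norm_le_one _ _
      _ = ((n % r : ℕ) : ℝ) := by simp
      _ ≤ r := hmod
  have e2 : ‖(((r.totient : ℝ) / r * ((n % r : ℕ):ℝ) : ℝ) : ℂ)‖ ≤ r := by
    rw [Complex.norm_real, Real.norm_eq_abs, abs_of_nonneg (by positivity)]
    have h6 : (r.totient : ℝ) / r ≤ 1 := by
      rw [div_le_one hr0]; exact_mod_cast Nat.totient_le r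
    calc (r.totient : ℝ) / r * ((n % r : ℕ):ℝ) ≤ 1 * r := mul_le_mul h6 hmod (by positivity) zero_le_one
      _ = r := one_mul _
  have := norm_sub_le (∑ k ∈ range (n % r), (1 : DirichletCharacter ℂ r) (k : ZMod r)) (((r.totient : ℝ) / r * ((n % r : ℕ):ℝ) : ℝ) : ℂ)
  linarith

/-- comparison of `n^{-s}` with an integral -/
lemma TRV_step (s : ℂ) (hs : 1 < s.re) (n : ℕ) (hn : 1 ≤ n) :
    ‖(1 - s) * (n:ℂ) ^ (-s) - (((n + 1 : ℕ) : ℂ) ^ (1 - s) - (n:ℂ) ^ (1 - s))‖ ≤ ‖1 - s‖ * (‖s‖ * (n:ℝ) ^ (-(s.re + 1))) := by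
  have hn1 : (1:ℝ) ≤ n := by exact_mod_cast hn
  have hn0 : (0:ℝ) < n := by linarith
  set c : ℂ := (n:ℂ) ^ (-s) with hc
  have hder : ∀ u ∈ Set.Icc (n:ℝ) (n + 1), HasDerivWithinAt (fun u : ℝ => (u:ℂ) ^ (1 - s) - (1 - s) * c * (u:ℂ))
      ((1 - s) * (u:ℂ) ^ (-s) - (1 - s) * c) (Set.Icc (n:ℝ) (n + 1)) u := by
    intro u hu
    have hu0 : 0 < u := lt_of_lt_of_le hn0 hu.1
    have h1 : HasDerivAt (fun z : ℂ => z ^ (1 - s) - (1 - s) * c * z) ((1 - s) * (u:ℂ) ^ (-s) - (1 - s) * c) (u:ℂ) := by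
      have h2 := (hasDerivAt_id (u:ℂ)).cpow_const (c := 1 - s) (Or.inl (by simpa using hu0))
      have h3 := (hasDerivAt_id (u:ℂ)).const_mul ((1 - s) * c)
      have h4 := h2.sub h3
      have h5 : (1 - s - 1 : ℂ) = -s := by ring
      simp only [id, mul_one, h5] at h4
      exact h4
    exact (h1.comp_ofReal).hasDerivWithinAt
  have hbound : ∀ u ∈ Set.Icc (n:ℝ) (n + 1), ‖(1 - s) * (u:ℂ) ^ (-s) - (1 - s) * c‖ ≤ ‖1 - s‖ * (‖s‖ * (n:ℝ) ^ (-(s.re + 1))) := by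
    intro u hu
    rw [← mul_sub, norm_mul]
    refine mul_le_mul_of_nonneg_left ?_ (norm_nonneg _)
    -- `|u^{-s} - n^{-s}| ≤ |s| n^{-σ-1} (u - n)`
    have hder2 : ∀ v ∈ Set.Icc (n:ℝ) (n + 1), HasDerivWithinAt (fun v : ℝ => (v:ℂ) ^ (-s)) (-s * (v:ℂ) ^ (-s - 1)) (Set.Icc (n:ℝ) (n + 1)) v := by
      intro v hv
      have hv0 : 0 < v := lt_of_lt_of_le hn0 hv.1
      have h1 : HasDerivAt (fun z : ℂ => z ^ (-s)) (-s * (v:ℂ) ^ (-s - 1)) (v:ℂ) := by
        have := (hasDerivAt_id (v:ℂ)).cpow_const (c := -s) (Or.inl (by simpa using hv0))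
        simpa using this
      exact (h1.comp_ofReal).hasDerivWithinAt
    have hb2 : ∀ v ∈ Set.Icc (n:ℝ) (n + 1), ‖-s * (v:ℂ) ^ (-s - 1)‖ ≤ ‖s‖ * (n:ℝ) ^ (-(s.re + 1)) := by
      intro v hv
      have hv0 : 0 < v := lt_of_lt_of_le hn0 hv.1
      rw [norm_mul, norm_neg, Complex.norm_cpow_eq_rpow_re_of_pos hv0]
      refine mul_le_mul_of_nonneg_left ?_ (norm_nonneg _)
      have h1 : (-s - 1).re = -(s.re + 1) := by simp; ring
      rw [h1]
      exact Real.rpow_le_rpow_of_nonpos hn0 hv.1 (by linarith)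
    have h3 := Convex.norm_image_sub_le_of_norm_hasDerivWithin_le hder2 hb2 (convex_Icc _ _)
      (Set.left_mem_Icc.mpr (by linarith)) hu
    have h4 : ‖u - (n:ℝ)‖ ≤ 1 := by
      rw [Real.norm_eq_abs, abs_of_nonneg (by linarith [hu.1])]
      linarith [hu.2]
    have h5 : c = (((n:ℝ)) : ℂ) ^ (-s) := by rw [hc]; simp
    rw [h5]
    refine h3.trans ?_
    calc ‖s‖ * (n:ℝ) ^ (-(s.re + 1)) * ‖u - (n:ℝ)‖ ≤ ‖s‖ * (n:ℝ) ^ (-(s.re + 1)) * 1 :=
          mul_le_mul_of_nonneg_left h4 (by positivity)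
      _ = _ := mul_one _
  have := Convex.norm_image_sub_le_of_norm_hasDerivWithin_le hder hbound (convex_Icc _ _)
    (x := (n:ℝ)) (y := (n:ℝ) + 1) (Set.left_mem_Icc.mpr (by linarith)) (Set.right_mem_Icc.mpr (by linarith))
  have h2 : ‖(n:ℝ) + 1 - n‖ = 1 := by simp
  rw [h2, mul_one] at this
  rw [norm_sub_rev]
  refine le_trans (le_of_eq ?_) this
  congr 1
  push_cast
  ring

lemma TRV_int (s : ℂ) (hs : 1 < s.re) (ht : s.im ≠ 0) (N M : ℕ) (hN : 2 ≤ N) (hM : N ≤ M) :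
    ‖∑ n ∈ Finset.Ico N M, (n:ℂ) ^ (-s)‖ ≤ 2 / |s.im| + ‖s‖ / ((N:ℝ) - 1) := by
  have hN1 : (1:ℝ) ≤ (N:ℝ) - 1 := by
    have : (2:ℝ) ≤ N := by exact_mod_cast hN
    linarith
  have him : 0 < |s.im| := abs_pos.mpr ht
  have h1s : |s.im| ≤ ‖1 - s‖ := by
    have := Complex.abs_im_le_norm (1 - s)
    simpa using this
  have h1s0 : 0 < ‖1 - s‖ := lt_of_lt_of_le him h1s
  have htel : ∑ n ∈ Finset.Ico N M, ((1 - s) * (n:ℂ) ^ (-s) - (((n + 1 : ℕ) : ℂ) ^ (1 - s) - (n:ℂ) ^ (1 - s)))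
      = (1 - s) * ∑ n ∈ Finset.Ico N M, (n:ℂ) ^ (-s) - ((M:ℂ) ^ (1 - s) - (N:ℂ) ^ (1 - s)) := by
    rw [sum_sub_distrib, ← mul_sum]
    congr 1
    exact Finset.sum_Ico_sub (fun n : ℕ => (n:ℂ) ^ (1 - s)) hM
  have e1 : ‖∑ n ∈ Finset.Ico N M, ((1 - s) * (n:ℂ) ^ (-s) - (((n + 1 : ℕ) : ℂ) ^ (1 - s) - (n:ℂ) ^ (1 - s)))‖
      ≤ ‖1 - s‖ * (‖s‖ * (1 / ((N:ℝ) - 1))) := by
    refine (norm_sum_le _ _).trans ?_
    have h2 : ∀ n ∈ Finset.Ico N M, ‖(1 - s) * (n:ℂ) ^ (-s) - (((n + 1 : ℕ) : ℂ) ^ (1 - s) - (n:ℂ) ^ (1 - s))‖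
        ≤ ‖1 - s‖ * (‖s‖ * (n:ℝ) ^ (-2:ℝ)) := by
      intro n hn
      rw [Finset.mem_Ico] at hn
      have hn1 : (1:ℝ) ≤ n := by exact_mod_cast (by omega : 1 ≤ n)
      refine (TRV_step s hs n (by omega)).trans ?_
      refine mul_le_mul_of_nonneg_left ?_ (norm_nonneg _)
      refine mul_le_mul_of_nonneg_left ?_ (norm_nonneg _)
      exact Real.rpow_le_rpow_of_exponent_le hn1 (by linarith)
    refine (sum_le_sum h2).trans ?_
    rw [← mul_sum, ← mul_sum]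
    refine mul_le_mul_of_nonneg_left ?_ (norm_nonneg _)
    refine mul_le_mul_of_nonneg_left ?_ (norm_nonneg _)
    refine (LJB_tail 2 (by norm_num) N M hN).trans (le_of_eq ?_)
    have h3 : (1 - 2 : ℝ) = -1 := by norm_num
    have h4 : (2 - 1 : ℝ) = 1 := by norm_num
    rw [h3, h4, div_one, Real.rpow_neg_one, one_div]
  have hend : ∀ m : ℕ, 1 ≤ m → ‖(m:ℂ) ^ (1 - s)‖ ≤ 1 := by
    intro m hm
    have hm1 : (1:ℝ) ≤ m := by exact_mod_cast hm
    have : ((m:ℂ)) = (((m:ℝ)) : ℂ) := by simp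
    rw [this, Complex.norm_cpow_eq_rpow_re_of_pos (by linarith)]
    refine Real.rpow_le_one_of_one_le_of_nonpos hm1 ?_
    simp; linarith
  have e2 : ‖(1 - s) * ∑ n ∈ Finset.Ico N M, (n:ℂ) ^ (-s)‖ ≤ ‖1 - s‖ * (‖s‖ * (1 / ((N:ℝ) - 1))) + 2 := by
    have h5 : (1 - s) * ∑ n ∈ Finset.Ico N M, (n:ℂ) ^ (-s)
        = ∑ n ∈ Finset.Ico N M, ((1 - s) * (n:ℂ) ^ (-s) - (((n + 1 : ℕ) : ℂ) ^ (1 - s) - (n:ℂ) ^ (1 - s)))
          + ((M:ℂ) ^ (1 - s) - (N:ℂ) ^ (1 - s)) := by rw [htel]; ring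
    rw [h5]
    refine (norm_add_le _ _).trans (add_le_add e1 ?_)
    have := norm_sub_le ((M:ℂ) ^ (1 - s)) ((N:ℂ) ^ (1 - s))
    have h6 := hend M (by omega)
    have h7 := hend N (by omega)
    linarith
  rw [norm_mul] at e2
  have h8 : ‖∑ n ∈ Finset.Ico N M, (n:ℂ) ^ (-s)‖ ≤ (‖1 - s‖ * (‖s‖ * (1 / ((N:ℝ) - 1))) + 2) / ‖1 - s‖ := by
    rw [le_div_iff₀ h1s0, mul_comm]; exact e2
  refine h8.trans ?_
  rw [add_div, mul_div_cancel_left₀ _ h1s0.ne', add_comm]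
  refine add_le_add ?_ (le_of_eq (by ring))
  exact div_le_div_of_nonneg_left (by norm_num) him h1s

theorem triv_bound : ∃ C : ℝ, 0 < C ∧ ∀ (r : ℕ) [NeZero r] (χ : DirichletCharacter ℂ r),
    ∀ σ t : ℝ, 1 < σ → σ ≤ 2 → t ≠ 0 → ‖Lj χ 0 (σ + t * I)‖ ≤ C * (lt r t + 1 / |t|) := by
  obtain ⟨C, hC0, hC⟩ := Lj_bound 0
  obtain ⟨D, hD0, hD⟩ := LJB_var 0
  refine ⟨C + 12 + 24 * D, by positivity, ?_⟩
  intro r _ χ σ t hσ1 hσ2 ht
  have hr1 : 1 ≤ r := Nat.one_le_iff_ne_zero.mpr (NeZero.ne r)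
  have hr1r : (1:ℝ) ≤ r := by exact_mod_cast hr1
  have ht0 : 0 < |t| := abs_pos.mpr ht
  have hlt2 : (1 / 2 : ℝ) ≤ lt r t := by
    unfold lt
    have h1 : Real.log 2 ≤ Real.log (r * (|t| + 2)) := Real.log_le_log (by norm_num) (by nlinarith)
    have := Real.log_two_gt_d9
    linarith
  by_cases hχ : χ = 1
  swap
  · have h1 := hC r χ hχ σ t hσ1 hσ2
    rw [zero_add, pow_one] at h1
    refine h1.trans ?_
    have h2 : 0 ≤ 1 / |t| := by positivity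
    have h3 : 0 ≤ (12 + 24 * D) * (lt r t + 1 / |t|) := by positivity
    have h4 : C * lt r t ≤ C * (lt r t + 1 / |t|) := mul_le_mul_of_nonneg_left (by linarith) hC0.le
    nlinarith
  subst hχ
  set s : ℂ := σ + t * I with hs
  have hsre : s.re = σ := by simp [hs]
  have hsim : s.im = t := by simp [hs]
  have hs1 : 1 < s.re := by rw [hsre]; exact hσ1
  set X : ℝ := 3 * (r * (|t| + 2)) with hX
  have hX6 : 6 ≤ X := by rw [hX]; nlinarith
  have hX0 : 0 < X := by linarith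
  have hlX : Real.log X ≤ 4 * lt r t := by
    rw [hX, Real.log_mul (by norm_num) (by positivity)]
    have h1 : Real.log 3 ≤ 3 / 2 := by
      have h2 : (3:ℝ) ≤ Real.exp (3 / 2) := by
        have h3 : Real.exp (3 / 2) = Real.exp 1 * Real.exp (1 / 2) := by rw [← Real.exp_add]; norm_num
        have h4 := Real.exp_one_gt_d9
        have h5 := Real.add_one_le_exp (1 / 2 : ℝ)
        rw [h3]; nlinarith
      have := Real.log_le_log (by norm_num) h2
      rwa [Real.log_exp] at this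
    unfold lt at hlt2 ⊢
    linarith
  set N : ℕ := ⌈X⌉₊ with hN
  have hN1 : X ≤ N := Nat.le_ceil X
  have hN2 : (N:ℝ) ≤ X + 1 := (Nat.ceil_lt_add_one hX0.le).le
  have hN6 : 6 ≤ N := by
    have : (6:ℝ) ≤ N := by linarith
    exact_mod_cast this
  have hhead := LJB_head 0 s hs1 X N hX6 hN2 (fun n => (1 : DirichletCharacter ℂ r) (n : ZMod r)) (fun n => DirichletCharacter.norm_le_one _ _)
  have hsn : ‖s‖ ≤ 2 + |t| := by
    have h1 : ‖s‖ ≤ |σ| + |t| := by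
      rw [hs]
      refine (norm_add_le _ _).trans ?_
      rw [norm_mul, Complex.norm_I, mul_one, Complex.norm_real, Complex.norm_real, Real.norm_eq_abs, Real.norm_eq_abs]
    rw [abs_of_pos (by linarith)] at h1
    linarith
  have hφ : (r.totient : ℝ) / r ≤ 1 := by
    rw [div_le_one (by linarith)]; exact_mod_cast Nat.totient_le r
  have htail : ∀ M, N ≤ M → ‖∑ n ∈ Finset.Ico N M, (1 : DirichletCharacter ℂ r) (n : ZMod r) * LJB_f 0 s n‖
      ≤ 2 * D + (2 / |t| + 1) := by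
    intro M hM
    have h1 : ∑ n ∈ Finset.Ico N M, (1 : DirichletCharacter ℂ r) (n : ZMod r) * LJB_f 0 s n
        = ∑ n ∈ Finset.Ico N M, (TRV_B r (n + 1) - TRV_B r n) * LJB_f 0 s n
          + ((r.totient : ℝ) / r : ℝ) * ∑ n ∈ Finset.Ico N M, (n:ℂ) ^ (-s) := by
      rw [mul_sum, ← sum_add_distrib]
      refine sum_congr rfl fun n _ => ?_
      unfold TRV_B LJB_f
      rw [sum_range_succ]
      push_cast
      ring
    rw [h1]
    refine (norm_add_le _ _).trans (add_le_add ?_ ?_)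
    · refine (LJB_abel_norm (TRV_B r) (LJB_f 0 s) (2 * r) (by positivity) (TRV_B_norm r) N M hM).trans ?_
      have h2 := hD X N M s hX6 hN1 hN2 hM hs1
      rw [pow_zero, mul_one] at h2
      refine (mul_le_mul_of_nonneg_left h2 (by positivity)).trans ?_
      have h3 : (2 * (r:ℝ)) * (D * (1 + ‖s‖) / X) = D * ((2 * r * (1 + ‖s‖)) / X) := by ring
      rw [h3]
      have h4 : (2 * r * (1 + ‖s‖)) / X ≤ 2 := by
        rw [div_le_iff₀ hX0, hX]
        have : (r:ℝ) * (1 + ‖s‖) ≤ r * (3 + |t|) := mul_le_mul_of_nonneg_left (by linarith) (by positivity)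
        nlinarith
      nlinarith
    · rw [norm_mul, Complex.norm_real, Real.norm_eq_abs, abs_of_nonneg (by positivity)]
      have h2 := TRV_int s hs1 (by rw [hsim]; exact ht) N M (by omega) hM
      rw [hsim] at h2
      have h3 : ‖s‖ / ((N:ℝ) - 1) ≤ 1 := by
        have h4 : (1:ℝ) ≤ (N:ℝ) - 1 := by linarith
        rw [div_le_one (by linarith)]
        have h5 : 3 * (|t| + 2) ≤ X := by rw [hX]; nlinarith
        linarith
      calc (r.totient : ℝ) / r * ‖∑ n ∈ Finset.Ico N M, (n:ℂ) ^ (-s)‖ ≤ 1 * (2 / |t| + 1) := by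
            refine mul_le_mul hφ (h2.trans ?_) (norm_nonneg _) zero_le_one
            linarith
        _ = _ := one_mul _
  have := LJB_lim (1 : DirichletCharacter ℂ r) 0 s hs1 N (by omega) _ _ hhead htail
  refine this.trans ?_
  rw [zero_add, pow_one]
  have h9 : 2 / |t| = 2 * (1 / |t|) := by ring
  rw [h9]
  have h10 : 0 < 1 / |t| := by positivity
  nlinarith

end Pool.Agent.BG
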