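import Pool.Agent.Lib_helper23.BGF.MVI
import Pool.Agent.Lib_helper23.BGF.TRV
/-! Blocks LBC, LBR of the BG blueprint: lower bounds for `L(s, χ)`, `1 < Re s ≤ 2`. -/

set_option autoImplicit false

namespace Pool.Agent.BG

open Finset Filter Complex
open scoped ArithmeticFunction.vonMangoldt Classical

theorem LBC_341 {r : ℕ} [NeZero r] (χ : DirichletCharacter ℂ r) (σ t : ℝ) (h1 : 1 < σ)
    (h2 : σ ≤ 2) :
    (σ - 1) ^ 3 ≤ 8 * ‖Lj χ 0 (σ + t * I)‖ ^ 4 * ‖Lj (χ ^ 2) 0 (σ + (2 * t : ℝ) * I)‖ := by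
  have hx : 0 < σ - 1 := by linarith
  have h := DirichletCharacter.norm_LFunction_product_ge_one (χ := χ) hx t
  have e0 : (1 : ℂ) + ((σ - 1 : ℝ) : ℂ) = σ + (0 : ℝ) * I := by push_cast; ring
  have e1 : (1 : ℂ) + ((σ - 1 : ℝ) : ℂ) + I * t = σ + t * I := by push_cast; ring
  have e2 : (1 : ℂ) + ((σ - 1 : ℝ) : ℂ) + 2 * I * t = σ + (2 * t : ℝ) * I := by push_cast; ring
  rw [e1, e2, e0] at h
  have r0 : 1 < ((σ : ℂ) + (0 : ℝ) * I).re := by simpa using h1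
  have r1 : 1 < ((σ : ℂ) + (t : ℝ) * I).re := by simpa using h1
  have r2 : 1 < ((σ : ℂ) + (2 * t : ℝ) * I).re := by
    rw [Complex.add_re, Complex.ofReal_re, Complex.re_ofReal_mul, Complex.I_re, mul_zero,
      add_zero]
    exact h1
  rw [DirichletCharacter.LFunctionTrivChar, ← Lj_zero_eq _ _ r0, ← Lj_zero_eq _ _ r1,
    ← Lj_zero_eq _ _ r2, norm_mul, norm_mul, norm_pow, norm_pow] at h
  have hA := L_le_zeta (1 : DirichletCharacter ℂ r) σ 0 h1 h2
  have hA3 : ‖Lj (1 : DirichletCharacter ℂ r) 0 (σ + (0 : ℝ) * I)‖ ^ 3 ≤ (2 / (σ - 1)) ^ 3 :=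
    pow_le_pow_left₀ (norm_nonneg _) hA 3
  set X := ‖Lj χ 0 (σ + t * I)‖ with hX
  set Y := ‖Lj (χ ^ 2) 0 (σ + (2 * t : ℝ) * I)‖ with hY
  have hX0 : 0 ≤ X := norm_nonneg _
  have hY0 : 0 ≤ Y := norm_nonneg _
  have h3 : 1 ≤ (2 / (σ - 1)) ^ 3 * X ^ 4 * Y := by
    refine h.trans ?_
    gcongr
  have h4 : (2 / (σ - 1)) ^ 3 * X ^ 4 * Y = 8 * X ^ 4 * Y / (σ - 1) ^ 3 := by
    field_simp
    ring
  rw [h4, le_div_iff₀ (by positivity), one_mul] at h3
  exact h3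

theorem LBC_two_le {r : ℕ} [NeZero r] {χ : DirichletCharacter ℂ r} (hχ : χ ≠ 1) : 2 ≤ r := by
  have h0 : r ≠ 0 := NeZero.ne r
  by_contra h
  have h1 : r = 1 := by omega
  subst h1
  exact hχ (DirichletCharacter.level_one χ)

theorem LBC_lt_ge {r : ℕ} (hr : 2 ≤ r) (t : ℝ) : 1 ≤ lt r t := by
  unfold lt
  have hr' : (2 : ℝ) ≤ r := by exact_mod_cast hr
  have h1 : (4 : ℝ) ≤ r * (|t| + 2) := by
    have := abs_nonneg t
    nlinarith
  have h2 : Real.exp 1 ≤ r * (|t| + 2) := by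
    have := Real.exp_one_lt_d9
    linarith
  have h3 := Real.log_le_log (Real.exp_pos 1) h2
  rwa [Real.log_exp] at h3

theorem LBC_lt_two {r : ℕ} (hr : 1 ≤ r) (t : ℝ) : lt r (2 * t) ≤ 2 * lt r t := by
  unfold lt
  have hr' : (1 : ℝ) ≤ r := by exact_mod_cast hr
  have h0 := abs_nonneg t
  have h1 : (2 : ℝ) ≤ r * (|t| + 2) := by nlinarith
  have h2 : r * (|2 * t| + 2) ≤ (r * (|t| + 2)) ^ 2 := by
    rw [abs_mul, abs_two]
    nlinarith
  have h3 : 0 < r * (|2 * t| + 2) := by positivity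
  have h4 := Real.log_le_log h3 h2
  rw [Real.log_pow] at h4
  exact_mod_cast h4

/-- the lower bound from an upper bound `K` for `L(σ+2it, χ²)` -/
theorem LBC_core {r : ℕ} [NeZero r] {χ : DirichletCharacter ℂ r} (hχ : χ ≠ 1) {C K l c : ℝ}
    (hC : 0 < C)
    (hmvi : ∀ s s' : ℂ, 1 < s.re → s.re ≤ 2 → 1 < s'.re → s'.re ≤ 2 →
      ‖Lj χ 0 s - Lj χ 0 s'‖ ≤ C * ‖s - s'‖ * lt r (max |s.im| |s'.im|) ^ 2)
    (hc : 0 < c) (hc1 : c ≤ 1) (hcC : c * (128 * C ^ 4) ≤ 1) (hK : 1 ≤ K) (t : ℝ)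
    (hl : l = lt r t)
    (hKb : ∀ σ : ℝ, 1 < σ → σ ≤ 2 → ‖Lj (χ ^ 2) 0 (σ + (2 * t : ℝ) * I)‖ ≤ K)
    (σ : ℝ) (h1 : 1 < σ) (h2 : σ ≤ 2) :
    C * c / (K * l ^ 6) ≤ ‖Lj χ 0 (σ + t * I)‖ := by
  have hr := LBC_two_le hχ
  have hl1 : 1 ≤ l := hl ▸ LBC_lt_ge hr t
  have hl0 : 0 < l := by linarith
  have hK0 : 0 < K := by linarith
  set d0 : ℝ := c / (K * l ^ 8) with hd0
  have hd0p : 0 < d0 := by positivity
  have hKl : 1 ≤ K * l ^ 8 := by
    have : 1 ≤ l ^ 8 := one_le_pow₀ hl1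
    nlinarith
  have hd01 : d0 ≤ 1 := by
    rw [hd0, div_le_one (by positivity)]
    linarith
  have main : ∀ τ : ℝ, 1 + d0 ≤ τ → τ ≤ 2 → 2 * (C * c / (K * l ^ 6)) ≤ ‖Lj χ 0 (τ + t * I)‖ := by
    intro τ hτ1 hτ2
    have hτ : 1 < τ := by linarith
    have e1 := LBC_341 χ τ t hτ hτ2
    have e2 := hKb τ hτ hτ2
    set X := ‖Lj χ 0 (τ + t * I)‖ with hX
    have hX0 : 0 ≤ X := norm_nonneg _
    have e3 : d0 ^ 3 ≤ 8 * X ^ 4 * K := by
      calc d0 ^ 3 ≤ (τ - 1) ^ 3 := pow_le_pow_left₀ hd0p.le (by linarith) 3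
        _ ≤ 8 * X ^ 4 * ‖Lj (χ ^ 2) 0 (τ + (2 * t : ℝ) * I)‖ := e1
        _ ≤ 8 * X ^ 4 * K := by gcongr
    by_contra hlt
    rw [not_le] at hlt
    have e4 : X ^ 4 < (2 * (C * c / (K * l ^ 6))) ^ 4 := pow_lt_pow_left₀ hlt hX0 (by norm_num)
    have e5 : 8 * X ^ 4 * K < 8 * (2 * (C * c / (K * l ^ 6))) ^ 4 * K := by gcongr
    have e6 : d0 ^ 3 < 8 * (2 * (C * c / (K * l ^ 6))) ^ 4 * K := lt_of_le_of_lt e3 e5
    have e7 : 8 * (2 * (C * c / (K * l ^ 6))) ^ 4 * K = d0 ^ 3 * (c * (128 * C ^ 4)) := by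
      rw [hd0]
      field_simp
      ring
    rw [e7] at e6
    have e8 : d0 ^ 3 * (c * (128 * C ^ 4)) ≤ d0 ^ 3 * 1 :=
      mul_le_mul_of_nonneg_left hcC (by positivity)
    linarith
  have hpos : 0 ≤ C * c / (K * l ^ 6) := by positivity
  rcases le_total (1 + d0) σ with h | h
  · have := main σ h h2
    linarith
  · have e1 := main (1 + d0) le_rfl (by linarith)
    have e2 := hmvi ((1 + d0 : ℝ) + t * I) (σ + t * I) (by simp; exact hd0p)
      (by simp; linarith) (by simpa using h1) (by simpa using h2)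
    have e3 : ‖(((1 + d0 : ℝ) : ℂ) + t * I) - (σ + t * I)‖ ≤ d0 := by
      have : (((1 + d0 : ℝ) : ℂ) + t * I) - (σ + t * I) = ((1 + d0 - σ : ℝ) : ℂ) := by
        push_cast; ring
      rw [this, Complex.norm_real, Real.norm_eq_abs, abs_of_nonneg (by linarith)]
      linarith
    have e4 : lt r (max |(((1 + d0 : ℝ) : ℂ) + t * I).im| |((σ : ℂ) + t * I).im|) = l := by
      have i1 : (((1 + d0 : ℝ) : ℂ) + t * I).im = t := by simp
      have i2 : ((σ : ℂ) + t * I).im = t := by simp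
      rw [i1, i2, max_self, hl]
      unfold lt
      rw [abs_abs]
    rw [e4] at e2
    have e5 : C * ‖(((1 + d0 : ℝ) : ℂ) + t * I) - (σ + t * I)‖ * l ^ 2 ≤ C * c / (K * l ^ 6) := by
      calc C * ‖(((1 + d0 : ℝ) : ℂ) + t * I) - (σ + t * I)‖ * l ^ 2 ≤ C * d0 * l ^ 2 := by
            gcongr
        _ = C * c / (K * l ^ 6) := by
            rw [hd0]
            field_simp
    have e6 := norm_sub_norm_le (Lj χ 0 (((1 + d0 : ℝ) : ℂ) + t * I)) (Lj χ 0 (σ + t * I))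
    linarith

theorem L_lower_complex : ∃ c : ℝ, 0 < c ∧ ∀ (r : ℕ) [NeZero r] (χ : DirichletCharacter ℂ r),
    χ ≠ 1 → χ ^ 2 ≠ 1 → ∀ σ t : ℝ, 1 < σ → σ ≤ 2 →
      c / lt r t ^ 8 ≤ ‖Lj χ 0 (σ + t * I)‖ := by
  obtain ⟨C, hC, hmvi⟩ := L_mvi
  obtain ⟨C₀, hC₀, hL⟩ := Lj_bound 0
  set K₀ : ℝ := 2 * C₀ + 1 with hK₀
  have hK0 : 0 < K₀ := by positivity
  set c₁ : ℝ := min 1 (1 / (128 * C ^ 4)) with hc₁
  have hc₁0 : 0 < c₁ := lt_min one_pos (by positivity)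
  have hc₁1 : c₁ ≤ 1 := min_le_left _ _
  have hc₁C : c₁ * (128 * C ^ 4) ≤ 1 := by
    calc c₁ * (128 * C ^ 4) ≤ 1 / (128 * C ^ 4) * (128 * C ^ 4) :=
          mul_le_mul_of_nonneg_right (min_le_right _ _) (by positivity)
      _ = 1 := by field_simp
  refine ⟨C * c₁ / K₀, by positivity, fun r _ χ hχ hχ2 σ t h1 h2 => ?_⟩
  have hr := LBC_two_le hχ
  have hl1 : 1 ≤ lt r t := LBC_lt_ge hr t
  have hl0 : 0 < lt r t := by linarith
  have key := LBC_core hχ (K := K₀ * lt r t) (l := lt r t) (c := c₁) hC (hmvi r χ hχ) hc₁0 hc₁1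
    hc₁C (by nlinarith) t rfl
    (fun σ' h1' h2' => by
      have e1 := hL r (χ ^ 2) hχ2 σ' (2 * t) h1' h2'
      rw [zero_add, pow_one] at e1
      refine e1.trans ?_
      have e2 := LBC_lt_two (by omega : 1 ≤ r) t
      calc C₀ * lt r (2 * t) ≤ C₀ * (2 * lt r t) := by gcongr
        _ ≤ K₀ * lt r t := by rw [hK₀]; nlinarith) σ h1 h2
  refine le_trans ?_ key
  rw [div_div]
  apply div_le_div_of_nonneg_left (by positivity) (by positivity)
  calc K₀ * lt r t * lt r t ^ 6 = K₀ * lt r t ^ 7 := by ring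
    _ ≤ K₀ * lt r t ^ 8 := by
        apply mul_le_mul_of_nonneg_left _ hK0.le
        exact pow_le_pow_right₀ hl1 (by norm_num)


theorem LBR_half {r : ℕ} [NeZero r] (χ : DirichletCharacter ℂ r) (σ t : ℝ) (h1 : 1 < σ)
    (h2 : σ ≤ 2) : (σ - 1) / 2 ≤ ‖Lj χ 0 (σ + t * I)‖ := by
  have e1 := LBC_341 χ σ t h1 h2
  have e2 := L_le_zeta (χ ^ 2) σ (2 * t) h1 h2
  set X := ‖Lj χ 0 (σ + t * I)‖ with hX
  have hX0 : 0 ≤ X := norm_nonneg _
  have hd : 0 < σ - 1 := by linarith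
  have e3 : (σ - 1) ^ 3 ≤ 8 * X ^ 4 * (2 / (σ - 1)) := e1.trans (by gcongr)
  have e4 : (σ - 1) ^ 4 ≤ 16 * X ^ 4 := by
    have : 8 * X ^ 4 * (2 / (σ - 1)) = 16 * X ^ 4 / (σ - 1) := by ring
    rw [this, le_div_iff₀ hd] at e3
    calc (σ - 1) ^ 4 = (σ - 1) ^ 3 * (σ - 1) := by ring
      _ ≤ 16 * X ^ 4 := e3
  by_contra hlt
  rw [not_le] at hlt
  have e5 : X ^ 4 < ((σ - 1) / 2) ^ 4 := pow_lt_pow_left₀ hlt hX0 (by norm_num)
  have e6 : ((σ - 1) / 2) ^ 4 = (σ - 1) ^ 4 / 16 := by ring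
  rw [e6] at e5
  linarith

theorem L_lower_real : ∃ c : ℝ, 0 < c ∧ ∀ (r : ℕ) [NeZero r] (χ : DirichletCharacter ℂ r),
    χ ≠ 1 → χ ^ 2 = 1 → ∀ σ t : ℝ, 1 < σ → σ ≤ 2 →
      c * min 1 ‖DirichletCharacter.LFunction χ 1‖ / lt r t ^ 8 ≤ ‖Lj χ 0 (σ + t * I)‖ := by
  obtain ⟨C, hC, hmvi⟩ := L_mvi
  obtain ⟨C₂, hC₂, hone⟩ := L_at_one
  obtain ⟨C₃, hC₃, htriv⟩ := triv_bound
  set D : ℝ := C₂ + 1 with hD
  have hD1 : 1 ≤ D := by rw [hD]; linarith
  have hD0 : 0 < D := by linarith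
  set K₀ : ℝ := C₃ * (2 + 8 * D) + 1 with hK₀
  have hK01 : 1 ≤ K₀ := by
    rw [hK₀]
    have : 0 ≤ C₃ * (2 + 8 * D) := by positivity
    linarith
  have hK0 : 0 < K₀ := by linarith
  set c₁ : ℝ := min 1 (1 / (128 * C ^ 4)) with hc₁
  have hc₁0 : 0 < c₁ := lt_min one_pos (by positivity)
  have hc₁1 : c₁ ≤ 1 := min_le_left _ _
  have hc₁C : c₁ * (128 * C ^ 4) ≤ 1 := by
    calc c₁ * (128 * C ^ 4) ≤ 1 / (128 * C ^ 4) * (128 * C ^ 4) :=
          mul_le_mul_of_nonneg_right (min_le_right _ _) (by positivity)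
      _ = 1 := by field_simp
  set c : ℝ := min (min (1 / 2) (1 / (32 * D))) (C * c₁ / K₀) with hc
  have hc0 : 0 < c := lt_min (lt_min (by norm_num) (by positivity)) (by positivity)
  have hca : c ≤ 1 / 2 := (min_le_left _ _).trans (min_le_left _ _)
  have hcb : c ≤ 1 / (32 * D) := (min_le_left _ _).trans (min_le_right _ _)
  have hcc : c ≤ C * c₁ / K₀ := min_le_right _ _
  refine ⟨c, hc0, fun r _ χ hχ hχ2 σ t h1 h2 => ?_⟩
  have hr := LBC_two_le hχ
  have hr' : (2 : ℝ) ≤ r := by exact_mod_cast hr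
  have hl1 : 1 ≤ lt r t := LBC_lt_ge hr t
  have hl0 : 0 < lt r t := by linarith
  set L : ℝ := min 1 ‖DirichletCharacter.LFunction χ 1‖ with hL
  have hL0 : 0 ≤ L := le_min zero_le_one (norm_nonneg _)
  have hL1 : L ≤ 1 := min_le_left _ _
  have hLn : L ≤ ‖DirichletCharacter.LFunction χ 1‖ := min_le_right _ _
  rcases hL0.eq_or_lt with hLz | hLp
  · rw [← hLz, mul_zero, zero_div]
    exact norm_nonneg _
  have hlpow : ∀ n : ℕ, 1 ≤ lt r t ^ n := fun n => one_le_pow₀ hl1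
  set lg : ℝ := lt r 1 with hlg
  have hlg1 : 1 ≤ lg := LBC_lt_ge hr 1
  have hlg0 : 0 < lg := by linarith
  have hlglt : lg ≤ 2 * lt r t := by
    rw [hlg]
    unfold lt
    have h0 := abs_nonneg t
    have h3 : (r : ℝ) * (|1| + 2) ≤ (r * (|t| + 2)) ^ 2 := by
      rw [abs_one]
      have h4 : (r : ℝ) * 2 ≤ r * (|t| + 2) := by gcongr; linarith
      have h5 : (r : ℝ) * 2 * (r * 2) ≤ (r * (|t| + 2)) * (r * (|t| + 2)) :=
        mul_le_mul h4 h4 (by positivity) (by positivity)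
      nlinarith
    have h4 := Real.log_le_log (by positivity) h3
    rw [Real.log_pow] at h4
    exact_mod_cast h4
  have hlg2 : lg ^ 2 ≤ 4 * lt r t ^ 2 := by
    calc lg ^ 2 ≤ (2 * lt r t) ^ 2 := pow_le_pow_left₀ hlg0.le hlglt 2
      _ = 4 * lt r t ^ 2 := by ring
  set t₀ : ℝ := L / (4 * D * lg ^ 2) with ht₀
  have ht₀p : 0 < t₀ := by positivity
  have ht₀1 : t₀ ≤ 1 := by
    rw [ht₀, div_le_one (by positivity)]
    have : 1 ≤ lg ^ 2 := one_le_pow₀ hlg1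
    nlinarith
  rcases lt_or_ge |t| t₀ with ht | ht
  · rcases le_or_gt (σ - 1) t₀ with hd | hd
    · -- close to 1
      have e1 := hone r χ hχ σ t h1 h2
      have h0 := abs_nonneg t
      have e2 : lt r t ≤ lg := by
        rw [hlg]
        unfold lt
        apply Real.log_le_log (by positivity)
        rw [abs_one]
        gcongr
        linarith
      have e3 : C₂ * (σ - 1 + |t|) * lt r t ^ 2 ≤ L / 2 := by
        have h3 : 0 ≤ σ - 1 + |t| := by linarith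
        calc C₂ * (σ - 1 + |t|) * lt r t ^ 2 ≤ D * (t₀ + t₀) * lg ^ 2 := by
              apply mul_le_mul _ (pow_le_pow_left₀ hl0.le e2 2) (by positivity) (by positivity)
              apply mul_le_mul (by rw [hD]; linarith) (by linarith) h3 hD0.le
          _ = L / 2 := by
              rw [ht₀]
              field_simp
              ring
      have e4 := norm_sub_norm_le (DirichletCharacter.LFunction χ 1) (Lj χ 0 (σ + t * I))
      rw [norm_sub_rev] at e4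
      have e5 : L / 2 ≤ ‖Lj χ 0 (σ + t * I)‖ := by linarith
      refine le_trans ?_ e5
      rw [div_le_iff₀ (by positivity)]
      calc c * L ≤ 1 / 2 * L := by gcongr
        _ = L / 2 * 1 := by ring
        _ ≤ L / 2 * lt r t ^ 8 := by
            apply mul_le_mul_of_nonneg_left (hlpow 8) (by positivity)
    · have e1 := LBR_half χ σ t h1 h2
      have e2 : t₀ / 2 ≤ ‖Lj χ 0 (σ + t * I)‖ := by linarith
      refine le_trans ?_ e2
      have e3 : L / (32 * D * lt r t ^ 2) ≤ t₀ / 2 := by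
        rw [ht₀, div_div]
        apply div_le_div_of_nonneg_left hLp.le (by positivity)
        calc 4 * D * lg ^ 2 * 2 ≤ 4 * D * (4 * lt r t ^ 2) * 2 := by gcongr
          _ = 32 * D * lt r t ^ 2 := by ring
      refine le_trans ?_ e3
      calc c * L / lt r t ^ 8 ≤ 1 / (32 * D) * L / lt r t ^ 8 := by gcongr
        _ ≤ 1 / (32 * D) * L / lt r t ^ 2 := by
            apply div_le_div_of_nonneg_left (by positivity) (by positivity)
            exact pow_le_pow_right₀ hl1 (by norm_num)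
        _ = L / (32 * D * lt r t ^ 2) := by
            field_simp
  · have htne : t ≠ 0 := by
      intro h
      rw [h, abs_zero] at ht
      linarith
    set K : ℝ := K₀ * lt r t ^ 2 / L with hK
    have hKp : 1 ≤ K := by
      rw [hK, le_div_iff₀ hLp]
      have := hlpow 2
      nlinarith
    have key := LBC_core hχ (K := K) (l := lt r t) (c := c₁) hC (hmvi r χ hχ) hc₁0 hc₁1
      hc₁C hKp t rfl
      (fun σ' h1' h2' => by
        have e1 := htriv r (χ ^ 2) σ' (2 * t) h1' h2' (by simpa using htne)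
        refine e1.trans ?_
        have e2 := LBC_lt_two (by omega : 1 ≤ r) t
        have e3 : 1 / |2 * t| ≤ 8 * D * lt r t ^ 2 / L := by
          rw [abs_mul, abs_two]
          calc 1 / (2 * |t|) ≤ 1 / (2 * t₀) := by gcongr
            _ = 2 * D * lg ^ 2 / L := by
                rw [ht₀]
                field_simp
                ring
            _ ≤ 2 * D * (4 * lt r t ^ 2) / L := by gcongr
            _ = 8 * D * lt r t ^ 2 / L := by ring
        have e4 : 2 * lt r t ≤ 2 * lt r t ^ 2 / L := by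
          rw [le_div_iff₀ hLp]
          have h5 : lt r t * L ≤ lt r t * 1 := by gcongr
          have h6 : lt r t ≤ lt r t ^ 2 := by nlinarith
          nlinarith
        calc C₃ * (lt r (2 * t) + 1 / |2 * t|)
            ≤ C₃ * (2 * lt r t ^ 2 / L + 8 * D * lt r t ^ 2 / L) := by
              gcongr
              linarith
          _ = C₃ * (2 + 8 * D) * lt r t ^ 2 / L := by ring
          _ ≤ K₀ * lt r t ^ 2 / L := by
              gcongr
              rw [hK₀]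
              linarith) σ h1 h2
    refine le_trans ?_ key
    have e7 : C * c₁ / (K * lt r t ^ 6) = C * c₁ / K₀ * L / lt r t ^ 8 := by
      rw [hK]
      field_simp
    rw [e7]
    gcongr

end Pool.Agent.BG
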