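import Pool.Agent.Lib_helper23.BGF.MVT1
import Pool.Agent.Lib_helper35.Var.Vaughan
/-! Block MVT, part 2: type I and type II sums over primitive characters -/

set_option autoImplicit false

namespace Pool.Agent.BG

open Finset Filter Complex
open Pool.Agent.Var35 (ev e abel_bound ev_mul norm_ev_le dyadic_split num_bound)

lemma MVT_full {r : ℕ} [NeZero r] (χ : DirichletCharacter ℂ r) (hχ : χ ≠ 1) :
    ∑ k ∈ range r, χ (k : ZMod r) = 0 := by
  have h : ∑ k ∈ range r, χ (k : ZMod r) = ∑ z : ZMod r, χ z := by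
    refine Finset.sum_nbij' (fun c => (c : ZMod r)) (fun x => x.val) ?_ ?_ ?_ ?_ ?_
    · intro c _; exact mem_univ _
    · intro x _; rw [mem_range]; exact ZMod.val_lt x
    · intro c hc; rw [mem_range] at hc; exact ZMod.val_cast_of_lt hc
    · intro x _; exact ZMod.natCast_zmod_val x
    · intro c _; rfl
  rw [h, MulChar.sum_eq_zero_of_ne_one hχ]

lemma MVT_range {r : ℕ} [NeZero r] (χ : DirichletCharacter ℂ r) (hχ : χ ≠ 1) (y : ℕ) :
    ‖∑ k ∈ range y, χ (k : ZMod r)‖ ≤ r := by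
  have h1 : ∀ n s : ℕ, ∑ k ∈ range (r * n + s), χ (k : ZMod r) = ∑ k ∈ range s, χ (k : ZMod r) := by
    intro n
    induction n with
    | zero => intro s; simp
    | succ n ih =>
        intro s
        rw [Nat.mul_succ, add_assoc, ih, Finset.sum_range_add, MVT_full χ hχ, zero_add]
        refine sum_congr rfl fun k _ => ?_
        push_cast
        simp
  have h2 := h1 (y / r) (y % r)
  rw [Nat.div_add_mod] at h2
  rw [h2]
  refine (norm_sum_le _ _).trans ?_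
  calc ∑ k ∈ range (y % r), ‖χ (k : ZMod r)‖ ≤ ∑ k ∈ range (y % r), (1:ℝ) :=
        sum_le_sum fun k _ => DirichletCharacter.norm_le_one _ _
    _ = ((y % r : ℕ) : ℝ) := by simp
    _ ≤ r := by exact_mod_cast (Nat.mod_lt y (NeZero.pos r)).le

lemma MVT_Icc {r : ℕ} (hr : 1 < r) (χ : DirichletCharacter ℂ r) (f : ℕ → ℂ) (y : ℕ) :
    ∑ k ∈ Finset.Icc 1 y, f k * χ (k : ZMod r) = ∑ k ∈ range (y + 1), f k * χ (k : ZMod r) := by
  have : NeZero r := ⟨by omega⟩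
  have : Nontrivial (ZMod r) := ZMod.nontrivial_iff.mpr (by omega)
  rw [sum_range_eq_add_Ico _ (Nat.succ_pos y)]
  have h4 : f 0 * χ ((0:ℕ) : ZMod r) = 0 := by
    rw [Nat.cast_zero, MulChar.map_zero, mul_zero]
  rw [h4, zero_add]
  have : Finset.Ico 1 (y + 1) = Finset.Icc 1 y := by
    ext k; simp only [Finset.mem_Ico, Finset.mem_Icc]; omega
  rw [this]

/-- type I -/
lemma MVT_type1 {r : ℕ} (hr : 1 < r) (χ : DirichletCharacter ℂ r) (hχ : χ ≠ 1) (y : ℕ) :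
    ‖∑ k ∈ Finset.Icc 1 y, χ (k : ZMod r)‖ ≤ r := by
  have : NeZero r := ⟨by omega⟩
  have h := MVT_Icc hr χ (fun _ => 1) y
  simp only [one_mul] at h
  rw [h]
  exact MVT_range χ hχ _

/-- type I with a logarithm -/
lemma MVT_type1_log {r : ℕ} (hr : 1 < r) (χ : DirichletCharacter ℂ r) (hχ : χ ≠ 1) (y : ℕ) :
    ‖∑ k ∈ Finset.Icc 1 y, ((Real.log k : ℝ) : ℂ) * χ (k : ZMod r)‖ ≤ 2 * Real.log y * r := by
  have : NeZero r := ⟨by omega⟩
  rw [MVT_Icc hr χ (fun k => ((Real.log k : ℝ) : ℂ)) y]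
  set w : ℕ → ℝ := fun k => Real.log k with hw
  have hmono : Monotone w := by
    intro a b hab
    simp only [hw]
    rcases Nat.eq_zero_or_pos a with h | h
    · subst h; simp only [CharP.cast_eq_zero, Real.log_zero]
      exact Real.log_natCast_nonneg b
    · exact Real.log_le_log (by exact_mod_cast h) (by exact_mod_cast hab)
  have hw0 : 0 ≤ w 0 := by simp [hw]
  have h0 : w 0 = 0 := by simp [hw]
  have hwy : 0 ≤ w y := hw0.trans (hmono (Nat.zero_le y))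
  refine (abel_bound (fun k => χ (k : ZMod r)) w hw0 hmono y).trans ?_
  calc w y * ‖∑ k ∈ range (y + 1), χ (k : ZMod r)‖
          + ∑ j ∈ range y, (w (j + 1) - w j) * ‖∑ k ∈ range (j + 1), χ (k : ZMod r)‖
      ≤ w y * r + ∑ j ∈ range y, (w (j + 1) - w j) * r := by
        refine add_le_add (mul_le_mul_of_nonneg_left (MVT_range χ hχ _) hwy) ?_
        refine sum_le_sum fun j _ => mul_le_mul_of_nonneg_left (MVT_range χ hχ _) ?_
        exact sub_nonneg.mpr (hmono (Nat.le_succ j))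
    _ = 2 * w y * r := by
        rw [← sum_mul, sum_range_sub, h0]; ring

/-- Type II estimate: sum over `m > U`. -/
lemma MVT_type2 (R : ℕ) (hR : 1 ≤ R) (U u N : ℕ) (hU : 1 ≤ U) (hu : u ≤ N)
    (α β : ℕ → ℝ) (A B E : ℝ) (hA : 0 ≤ A) (hB : 0 ≤ B)
    (hα0 : ∀ m, m ≤ U → α m = 0)
    (hα : ∀ m, m ≤ 2 * N → |α m| ≤ A) (hβ : ∀ k, 1 ≤ k → k ≤ N → |β k| ≤ B)
    (hE : ∀ M, U ≤ M → M ≤ N → (∃ k, 1 ≤ k ∧ k ≤ u / M ∧ β k ≠ 0) →
      (N:ℝ) + Real.sqrt N * ((2 * R : ℕ):ℝ) * Real.sqrt M + Real.sqrt N * ((2 * R : ℕ):ℝ) * Real.sqrt ((u / M : ℕ):ℝ)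
        + Real.sqrt N * ((2 * R : ℕ):ℝ) ^ 2 ≤ E)
    (hE0 : 0 ≤ E) :
    ∑ x ∈ MVT_F R, MVT_w x * ‖∑ m ∈ Finset.Icc 1 u, ∑ k ∈ Finset.Icc 1 (u / m), (α m : ℂ) * (β k : ℂ) * ev x (m * k)‖
      ≤ 44 * (2 + Real.log N) ^ 2 * A * B * E := by
  have hlN : 0 ≤ Real.log N := Real.log_natCast_nonneg N
  set J : ℕ := Nat.log 2 u + 1 with hJ
  have hJu : u ≤ 2 ^ J * U := by
    have h1 : u < 2 ^ J := Nat.lt_pow_succ_log_self (by norm_num) u
    calc u ≤ 2 ^ J * 1 := by omega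
      _ ≤ 2 ^ J * U := Nat.mul_le_mul_left _ hU
  have hJr : (J:ℝ) ≤ 2 * (2 + Real.log N) := by
    rcases Nat.eq_zero_or_pos u with h0 | h0
    · rw [hJ, h0]; simp; nlinarith
    have h1 : ((Nat.log 2 u : ℕ) : ℝ) ≤ Real.logb 2 u := by
      have := Real.natLog_le_logb u 2
      exact_mod_cast this
    have h2 : Real.logb 2 u ≤ 2 * Real.log N := by
      unfold Real.logb
      rw [div_le_iff₀ (Real.log_pos (by norm_num))]
      have h3 : (0.5:ℝ) ≤ Real.log 2 := by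
        have := Real.log_two_gt_d9; linarith
      have h4 : Real.log u ≤ Real.log N := Real.log_le_log (by exact_mod_cast h0) (by exact_mod_cast hu)
      nlinarith
    rw [hJ]; push_cast
    linarith
  have hsplit : ∀ x : (Σ p : ℕ, DirichletCharacter ℂ p), ∑ m ∈ Finset.Icc 1 u, ∑ k ∈ Finset.Icc 1 (u / m), (α m : ℂ) * (β k : ℂ) * ev x (m * k)
      = ∑ i ∈ range J, ∑ m ∈ Finset.Ioc (2 ^ i * U) (2 ^ i * U + 2 ^ i * U),
          ∑ k ∈ Finset.Icc 1 (u / m), (α m : ℂ) * (β k : ℂ) * ev x (m * k) := by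
    intro x
    rw [← dyadic_split]
    have h1 : ∑ m ∈ Finset.Icc 1 u, ∑ k ∈ Finset.Icc 1 (u / m), (α m : ℂ) * (β k : ℂ) * ev x (m * k)
        = ∑ m ∈ Finset.Icc 1 (2 ^ J * U), ∑ k ∈ Finset.Icc 1 (u / m), (α m : ℂ) * (β k : ℂ) * ev x (m * k) := by
      refine sum_subset (Finset.Icc_subset_Icc_right hJu) fun m _ hm2 => ?_
      have : u / m = 0 := by
        rw [Nat.div_eq_zero_iff]
        rw [Finset.mem_Icc] at hm2
        omega
      rw [this]; simp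
    rw [h1]
    symm
    refine sum_subset ?_ fun m hm1 hm2 => ?_
    · intro m hm; rw [Finset.mem_Ioc] at hm; rw [Finset.mem_Icc]; omega
    · rw [Finset.mem_Icc] at hm1
      rw [Finset.mem_Ioc] at hm2
      have : m ≤ U := by omega
      rw [hα0 m this]; simp
  have hblock : ∀ i ∈ range J, ∑ x ∈ MVT_F R, MVT_w x * ‖∑ m ∈ Finset.Ioc (2 ^ i * U) (2 ^ i * U + 2 ^ i * U),
          ∑ k ∈ Finset.Icc 1 (u / m), (α m : ℂ) * (β k : ℂ) * ev x (m * k)‖
      ≤ 22 * (2 + Real.log N) * (A * B * E) := by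
    intro i _
    set M := 2 ^ i * U with hM
    have hUM : U ≤ M := by
      calc U = 1 * U := (one_mul U).symm
        _ ≤ 2 ^ i * U := Nat.mul_le_mul_right U (Nat.one_le_two_pow)
    have hM1 : 1 ≤ M := hU.trans hUM
    have hRHS0 : 0 ≤ 22 * (2 + Real.log N) * (A * B * E) := by positivity
    by_cases hc2 : ∃ k, 1 ≤ k ∧ k ≤ u / M ∧ β k ≠ 0
    swap
    · have h1 : ∀ x ∈ MVT_F R, MVT_w x * ‖∑ m ∈ Finset.Ioc M (M + M),
          ∑ k ∈ Finset.Icc 1 (u / m), (α m : ℂ) * (β k : ℂ) * ev x (m * k)‖ = 0 := by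
        intro x _
        have : ‖∑ m ∈ Finset.Ioc M (M + M),
          ∑ k ∈ Finset.Icc 1 (u / m), (α m : ℂ) * (β k : ℂ) * ev x (m * k)‖ = 0 := by
          rw [norm_eq_zero]
          refine sum_eq_zero fun m hm => sum_eq_zero fun k hk => ?_
          rw [Finset.mem_Ioc] at hm
          rw [Finset.mem_Icc] at hk
          have hle : u / m ≤ u / M := Nat.div_le_div_left hm.1.le (by omega)
          have : β k = 0 := by
            by_contra h
            exact hc2 ⟨k, hk.1, hk.2.trans hle, h⟩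
          rw [this]; simp
        rw [this, mul_zero]
      rw [sum_congr rfl h1]; simpa using hRHS0
    have hTpos : 1 ≤ u / M := by
      obtain ⟨k, hk1, hk2, _⟩ := hc2
      exact hk1.trans hk2
    have hMu : M ≤ u := by
      by_contra h
      push Not at h
      rw [Nat.div_eq_of_lt h] at hTpos
      omega
    have hMN : M ≤ N := hMu.trans hu
    have hEb := hE M hUM hMN hc2
    have hbil := MVT_bilinear R hR (fun m => (α m : ℂ)) (fun k => (β k : ℂ)) M u hM1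
    set P : ℕ := 2 * R with hP
    have hTN : u / M ≤ N := (Nat.div_le_self u M).trans hu
    have hlog : Real.log (u / M : ℕ) ≤ Real.log N :=
      Real.log_le_log (by exact_mod_cast hTpos) (by exact_mod_cast hTN)
    have hlog0 : 0 ≤ Real.log (u / M : ℕ) := Real.log_natCast_nonneg _
    have hSA : ∑ m ∈ Finset.Ioc M (M + M), ‖(α m : ℂ)‖ ^ 2 ≤ M * A ^ 2 := by
      calc ∑ m ∈ Finset.Ioc M (M + M), ‖(α m : ℂ)‖ ^ 2 ≤ ∑ m ∈ Finset.Ioc M (M + M), A ^ 2 := by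
            refine sum_le_sum fun m hm => ?_
            rw [Finset.mem_Ioc] at hm
            rw [Complex.norm_real, Real.norm_eq_abs]
            exact pow_le_pow_left₀ (abs_nonneg _) (hα m (by omega)) 2
        _ = M * A ^ 2 := by
            rw [sum_const, Nat.card_Ioc, nsmul_eq_mul]; simp
    have hSB : ∑ k ∈ Finset.Icc 1 (u / M), ‖(β k : ℂ)‖ ^ 2 ≤ (u / M : ℕ) * B ^ 2 := by
      calc ∑ k ∈ Finset.Icc 1 (u / M), ‖(β k : ℂ)‖ ^ 2 ≤ ∑ k ∈ Finset.Icc 1 (u / M), B ^ 2 := by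
            refine sum_le_sum fun k hk => ?_
            rw [Finset.mem_Icc] at hk
            rw [Complex.norm_real, Real.norm_eq_abs]
            exact pow_le_pow_left₀ (abs_nonneg _) (hβ k hk.1 (hk.2.trans hTN)) 2
        _ = (u / M : ℕ) * B ^ 2 := by
            rw [sum_const, Nat.card_Icc, nsmul_eq_mul]; simp
    have hMT : (M:ℝ) * (u / M : ℕ) ≤ N := by
      have : M * (u / M) ≤ u := Nat.mul_div_le u M
      have h2 : M * (u / M) ≤ N := this.trans hu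
      exact_mod_cast h2
    have hnum := num_bound M (u / M : ℕ) P N (by positivity) (by positivity) (by positivity) hMT
    set T : ℕ := u / M
    have h5 : Real.sqrt ((M + (P:ℝ) ^ 2) * ∑ m ∈ Finset.Ioc M (M + M), ‖(α m : ℂ)‖ ^ 2)
        ≤ A * Real.sqrt ((M + (P:ℝ) ^ 2) * M) := by
      calc Real.sqrt ((M + (P:ℝ) ^ 2) * ∑ m ∈ Finset.Ioc M (M + M), ‖(α m : ℂ)‖ ^ 2)
          ≤ Real.sqrt (A ^ 2 * ((M + (P:ℝ) ^ 2) * M)) := by
            refine Real.sqrt_le_sqrt ?_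
            calc (M + (P:ℝ) ^ 2) * ∑ m ∈ Finset.Ioc M (M + M), ‖(α m : ℂ)‖ ^ 2
                ≤ (M + (P:ℝ) ^ 2) * (M * A ^ 2) := mul_le_mul_of_nonneg_left hSA (by positivity)
              _ = _ := by ring
        _ = A * Real.sqrt ((M + (P:ℝ) ^ 2) * M) := by
            rw [Real.sqrt_mul (by positivity), Real.sqrt_sq hA]
    have h6 : Real.sqrt ((T + (P:ℝ) ^ 2) * ∑ k ∈ Finset.Icc 1 T, ‖(β k : ℂ)‖ ^ 2)
        ≤ B * Real.sqrt ((T + (P:ℝ) ^ 2) * T) := by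
      calc Real.sqrt ((T + (P:ℝ) ^ 2) * ∑ k ∈ Finset.Icc 1 T, ‖(β k : ℂ)‖ ^ 2)
          ≤ Real.sqrt (B ^ 2 * ((T + (P:ℝ) ^ 2) * T)) := by
            refine Real.sqrt_le_sqrt ?_
            calc (T + (P:ℝ) ^ 2) * ∑ k ∈ Finset.Icc 1 T, ‖(β k : ℂ)‖ ^ 2
                ≤ (T + (P:ℝ) ^ 2) * (T * B ^ 2) := mul_le_mul_of_nonneg_left hSB (by positivity)
              _ = _ := by ring
        _ = B * Real.sqrt ((T + (P:ℝ) ^ 2) * T) := by
            rw [Real.sqrt_mul (by positivity), Real.sqrt_sq hB]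
    have h7 : Real.sqrt ((M + (P:ℝ) ^ 2) * ∑ m ∈ Finset.Ioc M (M + M), ‖(α m : ℂ)‖ ^ 2)
        * Real.sqrt ((T + (P:ℝ) ^ 2) * ∑ k ∈ Finset.Icc 1 T, ‖(β k : ℂ)‖ ^ 2) ≤ A * B * E := by
      calc _ ≤ (A * Real.sqrt ((M + (P:ℝ) ^ 2) * M)) * (B * Real.sqrt ((T + (P:ℝ) ^ 2) * T)) :=
            mul_le_mul h5 h6 (Real.sqrt_nonneg _) (by positivity)
        _ = A * B * (Real.sqrt ((M + (P:ℝ) ^ 2) * M) * Real.sqrt ((T + (P:ℝ) ^ 2) * T)) := by ring
        _ ≤ A * B * E := mul_le_mul_of_nonneg_left (hnum.trans hEb) (by positivity)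
    refine hbil.trans ?_
    refine mul_le_mul ?_ h7 (by positivity) (by positivity)
    refine mul_le_mul_of_nonneg_left ?_ (by positivity)
    linarith
  calc ∑ x ∈ MVT_F R, MVT_w x * ‖∑ m ∈ Finset.Icc 1 u, ∑ k ∈ Finset.Icc 1 (u / m), (α m : ℂ) * (β k : ℂ) * ev x (m * k)‖
      ≤ ∑ x ∈ MVT_F R, ∑ i ∈ range J, MVT_w x * ‖∑ m ∈ Finset.Ioc (2 ^ i * U) (2 ^ i * U + 2 ^ i * U),
          ∑ k ∈ Finset.Icc 1 (u / m), (α m : ℂ) * (β k : ℂ) * ev x (m * k)‖ := by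
        refine sum_le_sum fun x _ => ?_
        rw [hsplit x, ← mul_sum]
        exact mul_le_mul_of_nonneg_left (norm_sum_le _ _) (MVT_w_nonneg x)
    _ = ∑ i ∈ range J, ∑ x ∈ MVT_F R, MVT_w x * ‖∑ m ∈ Finset.Ioc (2 ^ i * U) (2 ^ i * U + 2 ^ i * U),
          ∑ k ∈ Finset.Icc 1 (u / m), (α m : ℂ) * (β k : ℂ) * ev x (m * k)‖ := sum_comm
    _ ≤ ∑ i ∈ range J, 22 * (2 + Real.log N) * (A * B * E) := sum_le_sum hblock
    _ = J * (22 * (2 + Real.log N) * (A * B * E)) := by rw [sum_const, card_range, nsmul_eq_mul]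
    _ ≤ (2 * (2 + Real.log N)) * (22 * (2 + Real.log N) * (A * B * E)) :=
        mul_le_mul_of_nonneg_right hJr (by positivity)
    _ = _ := by ring

end Pool.Agent.BG
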