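import Pool.Agent.Lib_helper23.BGF.LJB0
import Pool.Agent.Lib_helper23.BGF.MVT2
/-! Part A: block LJB -/

set_option autoImplicit false

namespace Pool.Agent.BG

open Finset Filter Complex

/-- the general term of the `L`-series -/
noncomputable def LJB_f (j : ℕ) (s : ℂ) (n : ℕ) : ℂ := (((Real.log n) ^ j : ℝ) : ℂ) * (n:ℂ) ^ (-s)

lemma LJB_log_ge_one {X : ℝ} (hX : 3 ≤ X) : 1 ≤ Real.log X := by
  have h1 : Real.exp 1 ≤ X := by
    have := Real.exp_one_lt_d9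
    linarith
  have := Real.log_le_log (Real.exp_pos 1) h1
  rwa [Real.log_exp] at this

lemma LJB_f_norm (j : ℕ) (s : ℂ) (n : ℕ) (hn : 1 ≤ n) : ‖LJB_f j s n‖ = (Real.log n) ^ j * (n:ℝ) ^ (-s.re) := by
  have hn0 : (0:ℝ) < n := by exact_mod_cast hn
  have hl : 0 ≤ Real.log n := Real.log_natCast_nonneg n
  unfold LJB_f
  rw [norm_mul, Complex.norm_real, Real.norm_eq_abs, abs_of_nonneg (by positivity)]
  have : ((n:ℂ)) = (((n:ℝ)) : ℂ) := by simp
  rw [this, Complex.norm_cpow_eq_rpow_re_of_pos hn0]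
  simp

lemma LJB_f_diff (j : ℕ) (s : ℂ) (hs : 1 < s.re) (n : ℕ) (hn : 3 ≤ n) :
    ‖LJB_f j s n - LJB_f j s (n + 1)‖ ≤ (j + ‖s‖) * ((Real.log (n + 1)) ^ j * (n:ℝ) ^ (-2:ℝ)) := by
  have hn3 : (3:ℝ) ≤ n := by exact_mod_cast hn
  have hn0 : (0:ℝ) < n := by linarith
  set a := Real.log ((n:ℝ) + 1) with ha
  set b := Real.log (n:ℝ) with hb
  have hb1 : 1 ≤ b := LJB_log_ge_one hn3
  have hab : b ≤ a := Real.log_le_log hn0 (by linarith)
  have ha1 : 1 ≤ a := hb1.trans hab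
  have hdiff : a - b ≤ 1 / n := by
    rw [ha, hb, ← Real.log_div (by linarith) hn0.ne']
    have h1 : ((n:ℝ) + 1) / n = 1 + 1 / n := by field_simp
    rw [h1]
    have := Real.log_le_sub_one_of_pos (by positivity : (0:ℝ) < 1 + 1 / n)
    linarith
  have hpow : a ^ j - b ^ j ≤ j * a ^ j / n := by
    have h1 : ∀ k : ℕ, a ^ k - b ^ k ≤ k * a ^ k * (a - b) := by
      intro k
      induction k with
      | zero => simp
      | succ k ih =>
          have h2 : a ^ (k + 1) - b ^ (k + 1) = a ^ k * (a - b) + b * (a ^ k - b ^ k) := by ring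
          have h3 : b * (a ^ k - b ^ k) ≤ a * (k * a ^ k * (a - b)) := by
            have h4 : 0 ≤ a ^ k - b ^ k := sub_nonneg.mpr (pow_le_pow_left₀ (by linarith) hab k)
            exact mul_le_mul hab ih h4 (by linarith)
          have h5 : a ^ k * (a - b) ≤ a * a ^ k * (a - b) := by
            have : a ^ k ≤ a * a ^ k := by
              have : 0 ≤ a ^ k := by positivity
              nlinarith
            exact mul_le_mul_of_nonneg_right this (by linarith)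
          rw [h2]
          push_cast
          have h6 : ((k:ℝ) + 1) * a ^ (k + 1) * (a - b) = a * a ^ k * (a - b) + a * (k * a ^ k * (a - b)) := by ring
          rw [h6]
          linarith
    refine (h1 j).trans ?_
    have : (j:ℝ) * a ^ j * (a - b) ≤ j * a ^ j * (1 / n) := mul_le_mul_of_nonneg_left hdiff (by positivity)
    refine this.trans (le_of_eq ?_)
    ring
  have hpow0 : 0 ≤ a ^ j - b ^ j := sub_nonneg.mpr (pow_le_pow_left₀ (by linarith) hab j)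
  have hdec : LJB_f j s n - LJB_f j s (n + 1)
      = ((b ^ j - a ^ j : ℝ) : ℂ) * (n:ℂ) ^ (-s) + ((a ^ j : ℝ) : ℂ) * ((n:ℂ) ^ (-s) - ((n + 1 : ℕ) : ℂ) ^ (-s)) := by
    unfold LJB_f
    rw [hb, ha]
    push_cast
    ring
  rw [hdec]
  have hnC : ‖(n:ℂ) ^ (-s)‖ = (n:ℝ) ^ (-s.re) := by
    have : ((n:ℂ)) = (((n:ℝ)) : ℂ) := by simp
    rw [this, Complex.norm_cpow_eq_rpow_re_of_pos hn0]
    simp
  have e1 : ‖((b ^ j - a ^ j : ℝ) : ℂ) * (n:ℂ) ^ (-s)‖ ≤ j * (a ^ j * (n:ℝ) ^ (-2:ℝ)) := by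
    rw [norm_mul, Complex.norm_real, Real.norm_eq_abs, abs_sub_comm, abs_of_nonneg hpow0, hnC]
    have h1 : (n:ℝ) ^ (-s.re) ≤ (n:ℝ) ^ (-1:ℝ) := Real.rpow_le_rpow_of_exponent_le (by linarith) (by linarith)
    have h2 : (n:ℝ) ^ (-2:ℝ) = 1 / n * (n:ℝ) ^ (-1:ℝ) := by
      have : (-2:ℝ) = -1 + -1 := by norm_num
      rw [this, Real.rpow_add hn0, Real.rpow_neg_one, one_div]
    calc (a ^ j - b ^ j) * (n:ℝ) ^ (-s.re) ≤ (j * a ^ j / n) * (n:ℝ) ^ (-1:ℝ) :=
          mul_le_mul hpow h1 (by positivity) (by positivity)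
      _ = _ := by rw [h2]; ring
  have e2 : ‖((a ^ j : ℝ) : ℂ) * ((n:ℂ) ^ (-s) - ((n + 1 : ℕ) : ℂ) ^ (-s))‖ ≤ ‖s‖ * (a ^ j * (n:ℝ) ^ (-2:ℝ)) := by
    rw [norm_mul, Complex.norm_real, Real.norm_eq_abs, abs_of_nonneg (by positivity)]
    have h1 := LJB_cpow_diff s (by linarith) n (by omega)
    have h2 : (n:ℝ) ^ (-(s.re + 1)) ≤ (n:ℝ) ^ (-2:ℝ) := Real.rpow_le_rpow_of_exponent_le (by linarith) (by linarith)
    calc a ^ j * ‖(n:ℂ) ^ (-s) - ((n + 1 : ℕ) : ℂ) ^ (-s)‖ ≤ a ^ j * (‖s‖ * (n:ℝ) ^ (-2:ℝ)) := by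
          refine mul_le_mul_of_nonneg_left (h1.trans ?_) (by positivity)
          exact mul_le_mul_of_nonneg_left h2 (norm_nonneg _)
      _ = _ := by ring
  refine (norm_add_le _ _).trans ?_
  have := add_le_add e1 e2
  rw [← add_mul] at this
  exact this

/-- the tail estimate for the general term -/
lemma LJB_var (j : ℕ) : ∃ C : ℝ, 0 < C ∧ ∀ (X : ℝ) (N M : ℕ) (s : ℂ), 6 ≤ X → X ≤ N → (N:ℝ) ≤ X + 1 → N ≤ M →
    1 < s.re →
    ‖LJB_f j s M‖ + ‖LJB_f j s N‖ + ∑ n ∈ Finset.Ico N M, ‖LJB_f j s n - LJB_f j s (n + 1)‖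
      ≤ C * (1 + ‖s‖) * (Real.log X) ^ j / X := by
  obtain ⟨C, hC0, hC⟩ := LJB_growth j
  refine ⟨2 * C + 16 * C * (j + 1), by positivity, ?_⟩
  intro X N M s hX hXN hNX hNM hs
  have hX0 : 0 < X := by linarith
  have hN6 : (6:ℝ) ≤ N := hX.trans hXN
  have hNn : 6 ≤ N := by exact_mod_cast hN6
  have hL : 0 ≤ Real.log X := Real.log_nonneg (by linarith)
  have hend : ∀ m : ℕ, N ≤ m → ‖LJB_f j s m‖ ≤ C * (Real.log X) ^ j / X := by
    intro m hm
    have hmr : (N:ℝ) ≤ m := by exact_mod_cast hm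
    have hm0 : (0:ℝ) < m := by linarith
    have hXm : X ≤ m := hXN.trans hmr
    rw [LJB_f_norm j s m (by omega)]
    have h1 := hC X m (by linarith) hXm
    have h2 : (m:ℝ) ^ (-s.re) ≤ (m:ℝ) ^ (-1:ℝ) := Real.rpow_le_rpow_of_exponent_le (by linarith) (by linarith)
    have h3 : ((m:ℝ) / X) ^ (1 / 2 : ℝ) ≤ (m:ℝ) / X := by
      have h4 : 1 ≤ (m:ℝ) / X := by rw [one_le_div hX0]; exact hXm
      calc ((m:ℝ) / X) ^ (1 / 2 : ℝ) ≤ ((m:ℝ) / X) ^ (1 : ℝ) := Real.rpow_le_rpow_of_exponent_le h4 (by norm_num)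
        _ = _ := Real.rpow_one _
    have hlm : 0 ≤ Real.log m := Real.log_natCast_nonneg m
    calc (Real.log m) ^ j * (m:ℝ) ^ (-s.re) ≤ (C * (Real.log X) ^ j * (m / X)) * (m:ℝ) ^ (-1:ℝ) := by
          refine mul_le_mul (h1.trans ?_) h2 (by positivity) (by positivity)
          exact mul_le_mul_of_nonneg_left h3 (by positivity)
      _ = C * (Real.log X) ^ j / X := by
          rw [Real.rpow_neg_one]
          field_simp
  have hsum : ∑ n ∈ Finset.Ico N M, ‖LJB_f j s n - LJB_f j s (n + 1)‖ ≤ (j + ‖s‖) * (16 * C * (Real.log X) ^ j / X) := by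
    have h1 : ∀ n ∈ Finset.Ico N M, ‖LJB_f j s n - LJB_f j s (n + 1)‖
        ≤ (j + ‖s‖) * (2 * C * (Real.log X) ^ j * X ^ (-(1 / 2) : ℝ) * (n:ℝ) ^ (-(3 / 2) : ℝ)) := by
      intro n hn
      rw [Finset.mem_Ico] at hn
      have hnr : (N:ℝ) ≤ n := by exact_mod_cast hn.1
      have hn0 : (0:ℝ) < n := by linarith
      refine (LJB_f_diff j s hs n (by omega)).trans ?_
      refine mul_le_mul_of_nonneg_left ?_ (by positivity)
      have h2 := hC X (n + 1) (by linarith) (by linarith)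
      have h3 : (((n:ℝ) + 1) / X) ^ (1 / 2 : ℝ) ≤ 2 * (n:ℝ) ^ (1 / 2 : ℝ) * X ^ (-(1 / 2) : ℝ) := by
        have h4 : ((n:ℝ) + 1) / X ≤ (4 * n) * X⁻¹ := by
          rw [div_eq_mul_inv]
          refine mul_le_mul_of_nonneg_right (by linarith) (by positivity)
        calc (((n:ℝ) + 1) / X) ^ (1 / 2 : ℝ) ≤ ((4 * n) * X⁻¹) ^ (1 / 2 : ℝ) :=
              Real.rpow_le_rpow (by positivity) h4 (by norm_num)
          _ = 2 * (n:ℝ) ^ (1 / 2 : ℝ) * X ^ (-(1 / 2) : ℝ) := by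
              rw [Real.mul_rpow (by positivity) (by positivity), Real.mul_rpow (by norm_num) (by positivity),
                Real.inv_rpow hX0.le, Real.rpow_neg hX0.le]
              have : (4:ℝ) ^ (1 / 2 : ℝ) = 2 := by
                rw [← Real.sqrt_eq_rpow]
                rw [show (4:ℝ) = 2 ^ 2 by norm_num]
                exact Real.sqrt_sq (by norm_num)
              rw [this]
      calc (Real.log ((n:ℝ) + 1)) ^ j * (n:ℝ) ^ (-2:ℝ)
          ≤ (C * (Real.log X) ^ j * (2 * (n:ℝ) ^ (1 / 2 : ℝ) * X ^ (-(1 / 2) : ℝ))) * (n:ℝ) ^ (-2:ℝ) := by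
            refine mul_le_mul_of_nonneg_right (h2.trans ?_) (by positivity)
            exact mul_le_mul_of_nonneg_left h3 (by positivity)
        _ = 2 * C * (Real.log X) ^ j * X ^ (-(1 / 2) : ℝ) * ((n:ℝ) ^ (1 / 2 : ℝ) * (n:ℝ) ^ (-2:ℝ)) := by ring
        _ = 2 * C * (Real.log X) ^ j * X ^ (-(1 / 2) : ℝ) * (n:ℝ) ^ (-(3 / 2) : ℝ) := by
            rw [← Real.rpow_add hn0]; norm_num
    refine (sum_le_sum h1).trans ?_
    rw [← mul_sum]
    refine mul_le_mul_of_nonneg_left ?_ (by positivity)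
    rw [← mul_sum]
    have h5 := LJB_tail (3 / 2) (by norm_num) N M (by omega)
    have h6 : ((N:ℝ) - 1) ^ (1 - 3 / 2 : ℝ) / (3 / 2 - 1) ≤ 4 * X ^ (-(1 / 2) : ℝ) := by
      have h7 : X / 4 ≤ (N:ℝ) - 1 := by linarith
      have h8 : ((N:ℝ) - 1) ^ (1 - 3 / 2 : ℝ) ≤ (X / 4) ^ (1 - 3 / 2 : ℝ) :=
        Real.rpow_le_rpow_of_nonpos (by positivity) h7 (by norm_num)
      have h9 : (X / 4) ^ (1 - 3 / 2 : ℝ) = 2 * X ^ (-(1 / 2) : ℝ) := by
        rw [Real.div_rpow hX0.le (by norm_num)]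
        have h10 : (1 - 3 / 2 : ℝ) = -(1 / 2) := by norm_num
        rw [h10, Real.rpow_neg (by norm_num : (0:ℝ) ≤ 4)]
        have : (4:ℝ) ^ (1 / 2 : ℝ) = 2 := by
          rw [← Real.sqrt_eq_rpow]
          rw [show (4:ℝ) = 2 ^ 2 by norm_num]
          exact Real.sqrt_sq (by norm_num)
        rw [this]
        ring
      rw [h9] at h8
      have h11 : (3 / 2 - 1 : ℝ) = 1 / 2 := by norm_num
      rw [h11, div_le_iff₀ (by norm_num)]
      linarith
    calc 2 * C * (Real.log X) ^ j * X ^ (-(1 / 2) : ℝ) * ∑ n ∈ Finset.Ico N M, (n:ℝ) ^ (-(3 / 2) : ℝ)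
        ≤ 2 * C * (Real.log X) ^ j * X ^ (-(1 / 2) : ℝ) * (4 * X ^ (-(1 / 2) : ℝ)) :=
          mul_le_mul_of_nonneg_left (h5.trans h6) (by positivity)
      _ = 8 * C * (Real.log X) ^ j * (X ^ (-(1 / 2) : ℝ) * X ^ (-(1 / 2) : ℝ)) := by ring
      _ = 8 * C * (Real.log X) ^ j / X := by
          rw [← Real.rpow_add hX0]
          have : (-(1 / 2) + -(1 / 2) : ℝ) = -1 := by norm_num
          rw [this, Real.rpow_neg_one]
          ring
      _ ≤ 16 * C * (Real.log X) ^ j / X := by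
          refine div_le_div_of_nonneg_right ?_ hX0.le
          have : 0 ≤ C * (Real.log X) ^ j := by positivity
          linarith
  have hs0 : 0 ≤ ‖s‖ := norm_nonneg s
  have hD : 0 ≤ (Real.log X) ^ j / X := by positivity
  have h1 := hend M hNM
  have h2 := hend N le_rfl
  have h3 : (j + ‖s‖) ≤ (j + 1) * (1 + ‖s‖) := by
    have : 0 ≤ (j:ℝ) * ‖s‖ := by positivity
    nlinarith
  calc ‖LJB_f j s M‖ + ‖LJB_f j s N‖ + ∑ n ∈ Finset.Ico N M, ‖LJB_f j s n - LJB_f j s (n + 1)‖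
      ≤ C * (Real.log X) ^ j / X + C * (Real.log X) ^ j / X + ((j + 1) * (1 + ‖s‖)) * (16 * C * (Real.log X) ^ j / X) := by
        refine add_le_add (add_le_add h1 h2) (hsum.trans ?_)
        exact mul_le_mul_of_nonneg_right h3 (by positivity)
    _ = (2 * C + 16 * C * (j + 1) * (1 + ‖s‖)) * ((Real.log X) ^ j / X) := by ring
    _ ≤ ((2 * C + 16 * C * (j + 1)) * (1 + ‖s‖)) * ((Real.log X) ^ j / X) := by
        refine mul_le_mul_of_nonneg_right ?_ hD
        nlinarith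
    _ = _ := by ring

lemma LJB_head (j : ℕ) (s : ℂ) (hs : 1 < s.re) (X : ℝ) (N : ℕ) (hX : 6 ≤ X) (hNX : (N:ℝ) ≤ X + 1) (c : ℕ → ℂ) (hc : ∀ n, ‖c n‖ ≤ 1) :
    ‖∑ n ∈ Finset.Ico 1 N, c n * LJB_f j s n‖ ≤ 2 * (Real.log X) ^ (j + 1) := by
  have hlX : 1 ≤ Real.log X := LJB_log_ge_one (by linarith)
  rcases Nat.lt_or_ge N 2 with h | h
  · have : Finset.Ico 1 N = ∅ := Finset.Ico_eq_empty (by omega)
    rw [this]; simp; positivity
  refine (norm_sum_le _ _).trans ?_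
  have h1 : ∀ n ∈ Finset.Ico 1 N, ‖c n * LJB_f j s n‖ ≤ (Real.log X) ^ j * (1 / (n:ℝ)) := by
    intro n hn
    rw [Finset.mem_Ico] at hn
    have hn1 : (1:ℝ) ≤ n := by exact_mod_cast hn.1
    have hnX : (n:ℝ) ≤ X := by
      have : ((n + 1 : ℕ):ℝ) ≤ N := by exact_mod_cast hn.2
      push_cast at this
      linarith
    rw [norm_mul, LJB_f_norm j s n hn.1]
    have h2 : (n:ℝ) ^ (-s.re) ≤ 1 / (n:ℝ) := by
      rw [one_div, ← Real.rpow_neg_one]
      exact Real.rpow_le_rpow_of_exponent_le hn1 (by linarith)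
    have h3 : (Real.log n) ^ j ≤ (Real.log X) ^ j :=
      pow_le_pow_left₀ (Real.log_nonneg hn1) (Real.log_le_log (by linarith) hnX) j
    have h4 : 0 ≤ (Real.log n) ^ j := pow_nonneg (Real.log_nonneg hn1) j
    calc ‖c n‖ * ((Real.log n) ^ j * (n:ℝ) ^ (-s.re)) ≤ 1 * ((Real.log X) ^ j * (1 / (n:ℝ))) := by
          refine mul_le_mul (hc n) ?_ (by positivity) zero_le_one
          exact mul_le_mul h3 h2 (by positivity) (by positivity)
      _ = _ := one_mul _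
  refine (sum_le_sum h1).trans ?_
  rw [← mul_sum]
  have h2 : ∑ n ∈ Finset.Ico 1 N, 1 / (n:ℝ) ≤ 1 + Real.log X := by
    have h3 : Finset.Ico 1 N = Finset.Icc 1 (N - 1) := by
      ext k; simp only [Finset.mem_Ico, Finset.mem_Icc]; omega
    rw [h3]
    have h4 : ∑ n ∈ Finset.Icc 1 (N - 1), 1 / (n:ℝ) = ((harmonic (N - 1) : ℚ) : ℝ) := by
      rw [harmonic_eq_sum_Icc]; push_cast
      refine sum_congr rfl fun n _ => by rw [one_div]
    rw [h4]
    refine (harmonic_le_one_add_log (N - 1)).trans ?_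
    have h5 : ((N - 1 : ℕ):ℝ) ≤ X := by
      rw [Nat.cast_sub (by omega)]; push_cast; linarith
    have h6 : (0:ℝ) < ((N - 1 : ℕ):ℝ) := by exact_mod_cast (by omega : 0 < N - 1)
    have := Real.log_le_log h6 h5
    linarith
  calc (Real.log X) ^ j * ∑ n ∈ Finset.Ico 1 N, 1 / (n:ℝ) ≤ (Real.log X) ^ j * (1 + Real.log X) :=
        mul_le_mul_of_nonneg_left h2 (by positivity)
    _ ≤ (Real.log X) ^ j * (2 * Real.log X) := mul_le_mul_of_nonneg_left (by linarith) (by positivity)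
    _ = _ := by ring

/-- passing to the limit -/
lemma LJB_lim {r : ℕ} (χ : DirichletCharacter ℂ r) (j : ℕ) (s : ℂ) (hs : 1 < s.re) (N : ℕ) (hN : 1 ≤ N) (K1 K2 : ℝ)
    (h1 : ‖∑ n ∈ Finset.Ico 1 N, χ (n : ZMod r) * LJB_f j s n‖ ≤ K1)
    (h2 : ∀ M, N ≤ M → ‖∑ n ∈ Finset.Ico N M, χ (n : ZMod r) * LJB_f j s n‖ ≤ K2) :
    ‖Lj χ j s‖ ≤ K1 + K2 := by
  have hsum := (LJB_summable χ j s hs).LSeriesHasSum
  unfold LSeriesHasSum at hsum
  have htend := (HasSum.tendsto_sum_nat hsum).norm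
  unfold Lj
  refine le_of_tendsto htend ?_
  rw [Filter.eventually_atTop]
  refine ⟨N, fun M hM => ?_⟩
  have hterm : ∑ i ∈ range M, LSeries.term (fun n => χ (n : ZMod r) * (((Real.log n) ^ j : ℝ) : ℂ)) s i
      = ∑ n ∈ Finset.Ico 1 N, χ (n : ZMod r) * LJB_f j s n + ∑ n ∈ Finset.Ico N M, χ (n : ZMod r) * LJB_f j s n := by
    rw [Finset.sum_Ico_consecutive _ hN hM]
    rw [Finset.range_eq_Ico, Finset.sum_eq_sum_Ico_succ_bot (by omega)]
    simp only [LSeries.term_zero, zero_add]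
    refine sum_congr rfl fun n hn => ?_
    rw [Finset.mem_Ico] at hn
    rw [LSeries.term_of_ne_zero (by omega)]
    unfold LJB_f
    rw [Complex.cpow_neg]
    ring
  rw [hterm]
  exact (norm_add_le _ _).trans (add_le_add h1 (h2 M hM))

lemma LJB_three_le {r : ℕ} [NeZero r] (χ : DirichletCharacter ℂ r) (hχ : χ ≠ 1) : 3 ≤ r := by
  by_contra h
  push Not at h
  apply hχ
  have hr : r ≠ 0 := NeZero.ne r
  have h12 : r = 1 ∨ r = 2 := by omega
  rcases h12 with h | h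
  · subst h
    exact DirichletCharacter.level_one χ
  · subst h
    refine MulChar.ext fun a => ?_
    have ha : a = 1 := by
      revert a; decide
    rw [ha]; simp

theorem Lj_bound (j : ℕ) : ∃ C : ℝ, 0 < C ∧ ∀ (r : ℕ) [NeZero r] (χ : DirichletCharacter ℂ r),
    χ ≠ 1 → ∀ σ t : ℝ, 1 < σ → σ ≤ 2 → ‖Lj χ j (σ + t * I)‖ ≤ C * lt r t ^ (j + 1) := by
  obtain ⟨C, hC0, hC⟩ := LJB_var j
  refine ⟨2 + 3 * C, by positivity, ?_⟩
  intro r _ χ hχ σ t hσ1 hσ2
  have hr3 := LJB_three_le χ hχ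
  have hr3r : (3:ℝ) ≤ r := by exact_mod_cast hr3
  set s : ℂ := σ + t * I with hs
  have hsre : s.re = σ := by simp [hs]
  have hs1 : 1 < s.re := by rw [hsre]; exact hσ1
  set X : ℝ := r * (|t| + 2) with hX
  have ht0 : 0 ≤ |t| := abs_nonneg t
  have hX6 : 6 ≤ X := by rw [hX]; nlinarith
  have hX0 : 0 < X := by linarith
  have hlt : lt r t = Real.log X := rfl
  have hL1 : 1 ≤ Real.log X := LJB_log_ge_one (by linarith)
  set N : ℕ := ⌈X⌉₊ with hN
  have hN1 : X ≤ N := Nat.le_ceil X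
  have hN2 : (N:ℝ) ≤ X + 1 := (Nat.ceil_lt_add_one hX0.le).le
  have hNpos : 1 ≤ N := by
    have : (1:ℝ) ≤ N := by linarith
    exact_mod_cast this
  have hhead := LJB_head j s hs1 X N hX6 hN2 (fun n => χ (n : ZMod r)) (fun n => DirichletCharacter.norm_le_one _ _)
  have hsn : 1 + ‖s‖ ≤ 3 + |t| := by
    have h1 : ‖s‖ ≤ |σ| + |t| := by
      rw [hs]
      refine (norm_add_le _ _).trans ?_
      rw [norm_mul, Complex.norm_I, mul_one, Complex.norm_real, Complex.norm_real, Real.norm_eq_abs, Real.norm_eq_abs]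
    rw [abs_of_pos (by linarith)] at h1
    linarith
  have htail : ∀ M, N ≤ M → ‖∑ n ∈ Finset.Ico N M, χ (n : ZMod r) * LJB_f j s n‖ ≤ 3 * C * (Real.log X) ^ (j + 1) := by
    intro M hM
    set B : ℕ → ℂ := fun n => ∑ k ∈ range n, χ (k : ZMod r) with hB
    have hBn : ∀ n, ‖B n‖ ≤ r := fun n => MVT_range χ hχ n
    have h1 : ∑ n ∈ Finset.Ico N M, χ (n : ZMod r) * LJB_f j s n = ∑ n ∈ Finset.Ico N M, (B (n + 1) - B n) * LJB_f j s n := by
      refine sum_congr rfl fun n _ => ?_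
      simp only [hB]
      rw [sum_range_succ, add_sub_cancel_left]
    rw [h1]
    refine (LJB_abel_norm B (LJB_f j s) r (by positivity) hBn N M hM).trans ?_
    have h2 := hC X N M s hX6 hN1 hN2 hM hs1
    have h3 : (r:ℝ) * (C * (1 + ‖s‖) * (Real.log X) ^ j / X) ≤ 3 * C * (Real.log X) ^ (j + 1) := by
      have h4 : (r:ℝ) * (1 + ‖s‖) ≤ 3 * X := by
        rw [hX]
        have : (r:ℝ) * (1 + ‖s‖) ≤ r * (3 + |t|) := mul_le_mul_of_nonneg_left hsn (by positivity)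
        nlinarith
      calc (r:ℝ) * (C * (1 + ‖s‖) * (Real.log X) ^ j / X) = C * (Real.log X) ^ j * ((r * (1 + ‖s‖)) / X) := by ring
        _ ≤ C * (Real.log X) ^ j * 3 := by
            refine mul_le_mul_of_nonneg_left ?_ (by positivity)
            rw [div_le_iff₀ hX0]; exact h4
        _ ≤ C * (Real.log X) ^ (j + 1) * 3 := by
            refine mul_le_mul_of_nonneg_right ?_ (by norm_num)
            refine mul_le_mul_of_nonneg_left ?_ hC0.le
            exact pow_le_pow_right₀ hL1 (by omega)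
        _ = _ := by ring
    exact (mul_le_mul_of_nonneg_left h2 (by positivity)).trans h3
  have := LJB_lim χ j s hs1 N hNpos _ _ hhead htail
  rw [hlt]
  refine this.trans (le_of_eq ?_)
  ring

end Pool.Agent.BG
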