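import Mathlib
/-! Part A: elementary estimates -/

set_option autoImplicit false

namespace Pool.Agent.BG

open Finset Filter Complex

lemma LJB_summable {r : ℕ} (χ : DirichletCharacter ℂ r) (j : ℕ) (s : ℂ) (hs : 1 < s.re) :
    LSeriesSummable (fun n => χ (n : ZMod r) * (((Real.log n) ^ j : ℝ) : ℂ)) s := by
  refine LSeriesSummable_of_le_const_mul_rpow (x := (1 + s.re) / 2) (by linarith) ?_
  set δ : ℝ := (1 + s.re) / 2 - 1 with hδ
  have hδ0 : 0 < δ := by rw [hδ]; linarith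
  set ε : ℝ := δ / (j + 1) with hε
  have hε0 : 0 < ε := by rw [hε]; positivity
  refine ⟨(1 / ε) ^ j, fun n hn => ?_⟩
  have hn1 : (1:ℝ) ≤ n := by exact_mod_cast Nat.one_le_iff_ne_zero.mpr hn
  have hl0 : 0 ≤ Real.log n := Real.log_nonneg hn1
  rw [norm_mul, Complex.norm_real, Real.norm_eq_abs, abs_of_nonneg (by positivity)]
  have h1 : Real.log n ≤ (1 / ε) * (n:ℝ) ^ ε := by
    have := Real.log_le_rpow_div (by linarith : (0:ℝ) ≤ n) hε0
    rw [one_div, inv_mul_eq_div]; exact this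
  have h2 : (Real.log n) ^ j ≤ (1 / ε) ^ j * (n:ℝ) ^ δ := by
    calc (Real.log n) ^ j ≤ ((1 / ε) * (n:ℝ) ^ ε) ^ j := pow_le_pow_left₀ hl0 h1 j
      _ = (1 / ε) ^ j * (n:ℝ) ^ (ε * j) := by rw [mul_pow, ← Real.rpow_natCast, Real.rpow_mul (by linarith), Real.rpow_natCast, Real.rpow_natCast]
      _ ≤ (1 / ε) ^ j * (n:ℝ) ^ δ := by
          refine mul_le_mul_of_nonneg_left ?_ (by positivity)
          refine Real.rpow_le_rpow_of_exponent_le hn1 ?_
          rw [hε, div_mul_eq_mul_div, div_le_iff₀ (by positivity)]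
          nlinarith
  calc ‖χ (n : ZMod r)‖ * (Real.log n) ^ j ≤ 1 * (Real.log n) ^ j :=
        mul_le_mul_of_nonneg_right (DirichletCharacter.norm_le_one _ _) (by positivity)
    _ ≤ (1 / ε) ^ j * (n:ℝ) ^ δ := by rw [one_mul]; exact h2

lemma LJB_tel (τ : ℝ) (hτ : 1 < τ) (n : ℕ) (hn : 1 ≤ n) :
    (τ - 1) * ((n:ℝ) + 1) ^ (-τ) ≤ (n:ℝ) ^ (1 - τ) - ((n:ℝ) + 1) ^ (1 - τ) := by
  set x : ℝ := (n:ℝ) + 1 with hx
  have hn1 : (1:ℝ) ≤ n := by exact_mod_cast hn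
  have hx0 : 0 < x := by linarith
  have h1 : (n:ℝ) = x * (1 - 1 / x) := by field_simp; linarith
  have hy0 : 0 < 1 - 1 / x := by
    rw [sub_pos, div_lt_one hx0]; linarith
  have h2 : 1 + (τ - 1) / x ≤ (1 - 1 / x) ^ (1 - τ) := by
    rw [Real.rpow_def_of_pos hy0]
    have h3 := Real.log_le_sub_one_of_pos hy0
    have h4 : (τ - 1) / x ≤ Real.log (1 - 1 / x) * (1 - τ) := by
      have : (τ - 1) / x = (τ - 1) * (1 / x) := by ring
      rw [this]
      nlinarith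
    have h5 := Real.add_one_le_exp (Real.log (1 - 1 / x) * (1 - τ))
    linarith
  have h3 : (n:ℝ) ^ (1 - τ) = x ^ (1 - τ) * (1 - 1 / x) ^ (1 - τ) := by
    rw [← Real.mul_rpow hx0.le hy0.le, ← h1]
  have h4 : x ^ (-τ) = x ^ (1 - τ) / x := by
    rw [← Real.rpow_sub_one hx0.ne']; congr 1; ring
  rw [h3, h4]
  have hp : 0 < x ^ (1 - τ) := by positivity
  have h5 : x ^ (1 - τ) * (1 + (τ - 1) / x) ≤ x ^ (1 - τ) * (1 - 1 / x) ^ (1 - τ) :=
    mul_le_mul_of_nonneg_left h2 hp.le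
  have h6 : x ^ (1 - τ) * (1 + (τ - 1) / x) = x ^ (1 - τ) + (τ - 1) * (x ^ (1 - τ) / x) := by ring
  linarith

/-- tails of `∑ n^{-τ}` -/
lemma LJB_tail (τ : ℝ) (hτ : 1 < τ) (N M : ℕ) (hN : 2 ≤ N) :
    ∑ n ∈ Finset.Ico N M, (n:ℝ) ^ (-τ) ≤ ((N:ℝ) - 1) ^ (1 - τ) / (τ - 1) := by
  have hN1 : (1:ℝ) ≤ (N:ℝ) - 1 := by
    have : (2:ℝ) ≤ N := by exact_mod_cast hN
    linarith
  rcases Nat.lt_or_ge M N with h | h
  · rw [Finset.Ico_eq_empty (by omega)]
    simp only [sum_empty]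
    have : 0 < τ - 1 := by linarith
    positivity
  have h0 : 0 < τ - 1 := by linarith
  rw [le_div_iff₀ h0, sum_mul]
  have key : ∀ M : ℕ, N ≤ M → ∑ n ∈ Finset.Ico N M, (n:ℝ) ^ (-τ) * (τ - 1) ≤ ((N:ℝ) - 1) ^ (1 - τ) - ((M:ℝ) - 1) ^ (1 - τ) := by
    intro M hM
    induction M, hM using Nat.le_induction with
    | base => simp
    | succ M hM ih =>
        rw [Finset.sum_Ico_succ_top hM]
        have h1 := LJB_tel τ hτ (M - 1) (by omega)
        have h2 : ((M - 1 : ℕ):ℝ) = (M:ℝ) - 1 := by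
          rw [Nat.cast_sub (by omega)]; simp
        rw [h2, sub_add_cancel] at h1
        push_cast
        rw [add_sub_cancel_right]
        linarith
  refine (key M h).trans ?_
  have hM : (1:ℝ) ≤ M - 1 := by
    have : (2:ℝ) ≤ M := by exact_mod_cast hN.trans h
    linarith
  have : 0 ≤ ((M:ℝ) - 1) ^ (1 - τ) := by positivity
  linarith

lemma LJB_growth (j : ℕ) : ∃ C : ℝ, 0 < C ∧ ∀ X y : ℝ, 3 ≤ X → X ≤ y →
    (Real.log y) ^ j ≤ C * (Real.log X) ^ j * (y / X) ^ (1 / 2 : ℝ) := by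
  refine ⟨(2 * j + 3) ^ j, by positivity, ?_⟩
  intro X y hX hXy
  have hX0 : 0 < X := by linarith
  have hlX : 1 ≤ Real.log X := by
    have h1 : Real.exp 1 ≤ X := by
      have := Real.exp_one_lt_d9
      linarith
    have := Real.log_le_log (Real.exp_pos 1) h1
    rwa [Real.log_exp] at this
  set z := y / X with hz
  have hz1 : 1 ≤ z := by rw [hz, one_le_div hX0]; exact hXy
  have hz0 : 0 < z := by linarith
  have hlz : 0 ≤ Real.log z := Real.log_nonneg hz1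
  have h1 : Real.log y ≤ Real.log X * (1 + Real.log z) := by
    have : Real.log y = Real.log X + Real.log z := by
      rw [← Real.log_mul hX0.ne' hz0.ne', hz, mul_div_cancel₀ _ hX0.ne']
    rw [this]; nlinarith
  set ε : ℝ := 1 / (2 * (j + 1)) with hε
  have hε0 : 0 < ε := by positivity
  have hzε : 1 ≤ z ^ ε := Real.one_le_rpow hz1 hε0.le
  have h2 : 1 + Real.log z ≤ (2 * j + 3) * z ^ ε := by
    have h3 := Real.log_le_rpow_div hz0.le hε0
    have h4 : z ^ ε / ε = (2 * (j + 1)) * z ^ ε := by rw [hε]; field_simp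
    rw [h4] at h3
    have : (2 * (j:ℝ) + 3) * z ^ ε = (2 * (j + 1)) * z ^ ε + z ^ ε := by ring
    linarith
  have hly : 0 ≤ Real.log y := Real.log_nonneg (by linarith)
  calc (Real.log y) ^ j ≤ (Real.log X * ((2 * j + 3) * z ^ ε)) ^ j := by
        refine pow_le_pow_left₀ hly (h1.trans ?_) j
        exact mul_le_mul_of_nonneg_left h2 (by linarith)
    _ = (2 * j + 3) ^ j * (Real.log X) ^ j * (z ^ ε) ^ j := by rw [mul_pow, mul_pow]; ring
    _ ≤ (2 * j + 3) ^ j * (Real.log X) ^ j * z ^ (1 / 2 : ℝ) := by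
        refine mul_le_mul_of_nonneg_left ?_ (by positivity)
        rw [← Real.rpow_natCast, ← Real.rpow_mul hz0.le]
        refine Real.rpow_le_rpow_of_exponent_le hz1 ?_
        rw [hε, div_mul_eq_mul_div, div_le_div_iff₀ (by positivity) (by norm_num)]
        linarith

/-- Abel summation -/
lemma LJB_abel (B f : ℕ → ℂ) (N M : ℕ) (h : N ≤ M) :
    ∑ n ∈ Finset.Ico N M, (B (n + 1) - B n) * f n
      = B M * f M - B N * f N + ∑ n ∈ Finset.Ico N M, B (n + 1) * (f n - f (n + 1)) := by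
  induction M, h using Nat.le_induction with
  | base => simp
  | succ M hM ih =>
      rw [Finset.sum_Ico_succ_top hM, Finset.sum_Ico_succ_top hM, ih]
      ring

lemma LJB_abel_norm (B f : ℕ → ℂ) (K : ℝ) (hK : 0 ≤ K) (hB : ∀ n, ‖B n‖ ≤ K) (N M : ℕ) (h : N ≤ M) :
    ‖∑ n ∈ Finset.Ico N M, (B (n + 1) - B n) * f n‖
      ≤ K * (‖f M‖ + ‖f N‖ + ∑ n ∈ Finset.Ico N M, ‖f n - f (n + 1)‖) := by
  rw [LJB_abel B f N M h]
  have h1 : ‖B M * f M‖ ≤ K * ‖f M‖ := by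
    rw [norm_mul]; exact mul_le_mul_of_nonneg_right (hB M) (norm_nonneg _)
  have h2 : ‖B N * f N‖ ≤ K * ‖f N‖ := by
    rw [norm_mul]; exact mul_le_mul_of_nonneg_right (hB N) (norm_nonneg _)
  have h3 : ‖∑ n ∈ Finset.Ico N M, B (n + 1) * (f n - f (n + 1))‖ ≤ K * ∑ n ∈ Finset.Ico N M, ‖f n - f (n + 1)‖ := by
    rw [mul_sum]
    refine (norm_sum_le _ _).trans (sum_le_sum fun n _ => ?_)
    rw [norm_mul]; exact mul_le_mul_of_nonneg_right (hB _) (norm_nonneg _)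
  have h4 := norm_add_le (B M * f M - B N * f N) (∑ n ∈ Finset.Ico N M, B (n + 1) * (f n - f (n + 1)))
  have h5 := norm_sub_le (B M * f M) (B N * f N)
  nlinarith

/-- difference of `n^{-s}` -/
lemma LJB_cpow_diff (s : ℂ) (hs : 0 < s.re) (n : ℕ) (hn : 1 ≤ n) :
    ‖((n:ℂ)) ^ (-s) - ((n + 1 : ℕ) : ℂ) ^ (-s)‖ ≤ ‖s‖ * (n:ℝ) ^ (-(s.re + 1)) := by
  have hn1 : (1:ℝ) ≤ n := by exact_mod_cast hn
  have hn0 : (0:ℝ) < n := by linarith
  have hder : ∀ u ∈ Set.Icc (n:ℝ) (n + 1), HasDerivWithinAt (fun u : ℝ => (u:ℂ) ^ (-s)) (-s * (u:ℂ) ^ (-s - 1)) (Set.Icc (n:ℝ) (n + 1)) u := by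
    intro u hu
    have hu0 : 0 < u := lt_of_lt_of_le hn0 hu.1
    have h1 : HasDerivAt (fun z : ℂ => z ^ (-s)) (-s * (u:ℂ) ^ (-s - 1)) (u:ℂ) := by
      have := (hasDerivAt_id (u:ℂ)).cpow_const (c := -s) (Or.inl (by simpa using hu0))
      simpa using this
    exact (h1.comp_ofReal).hasDerivWithinAt
  have hbound : ∀ u ∈ Set.Icc (n:ℝ) (n + 1), ‖-s * (u:ℂ) ^ (-s - 1)‖ ≤ ‖s‖ * (n:ℝ) ^ (-(s.re + 1)) := by
    intro u hu
    have hu0 : 0 < u := lt_of_lt_of_le hn0 hu.1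
    rw [norm_mul, norm_neg, Complex.norm_cpow_eq_rpow_re_of_pos hu0]
    refine mul_le_mul_of_nonneg_left ?_ (norm_nonneg _)
    have h1 : (-s - 1).re = -(s.re + 1) := by simp; ring
    rw [h1]
    exact Real.rpow_le_rpow_of_nonpos hn0 hu.1 (by linarith)
  have := Convex.norm_image_sub_le_of_norm_hasDerivWithin_le hder hbound (convex_Icc _ _)
    (x := (n:ℝ) + 1) (y := (n:ℝ)) (Set.right_mem_Icc.mpr (by linarith)) (Set.left_mem_Icc.mpr (by linarith))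
  have h2 : ‖(n:ℝ) - (n + 1)‖ = 1 := by
    have : (n:ℝ) - (n + 1) = -1 := by ring
    rw [this]; simp
  rw [h2, mul_one] at this
  push_cast at this ⊢
  exact this

end Pool.Agent.BG
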