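import Pool.Agent.Lib_helper23.BG.Defs
import Pool.Agent.Lib_helper23.BGF.LJB0
/-! Part A: block ZETREC -/

set_option autoImplicit false

namespace Pool.Agent.BG

open Finset Filter Complex
open scoped ArithmeticFunction.vonMangoldt

theorem L_le_zeta {r : ℕ} [NeZero r] (χ : DirichletCharacter ℂ r) (σ t : ℝ) (h1 : 1 < σ)
    (h2 : σ ≤ 2) : ‖Lj χ 0 (σ + t * I)‖ ≤ 2 / (σ - 1) := by
  set s : ℂ := σ + t * I with hs
  have hsre : s.re = σ := by simp [hs]
  have hs1 : 1 < s.re := by rw [hsre]; exact h1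
  have hsum := (LJB_summable χ 0 s hs1).LSeriesHasSum
  unfold LSeriesHasSum at hsum
  have htend := (HasSum.tendsto_sum_nat hsum).norm
  unfold Lj
  refine le_of_tendsto htend (Filter.Eventually.of_forall fun M => ?_)
  have h0 : 0 < σ - 1 := by linarith
  rcases Nat.lt_or_ge M 2 with hM | hM
  · have hz : ∑ i ∈ range M, LSeries.term (fun n => χ (n : ZMod r) * (((Real.log n) ^ 0 : ℝ) : ℂ)) s i = 0 := by
      refine sum_eq_zero fun i hi => ?_
      rw [mem_range] at hi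
      have : i = 0 := by omega
      rw [this, LSeries.term_zero]
    rw [hz, norm_zero]; positivity
  have hterm : ∀ i : ℕ, 1 ≤ i → ‖LSeries.term (fun n => χ (n : ZMod r) * (((Real.log n) ^ 0 : ℝ) : ℂ)) s i‖ ≤ (i:ℝ) ^ (-σ) := by
    intro i hi
    have hi0 : (0:ℝ) < i := by exact_mod_cast hi
    rw [LSeries.norm_term_eq, if_neg (by omega), hsre]
    simp only [pow_zero, Complex.ofReal_one, mul_one]
    rw [Real.rpow_neg hi0.le, ← one_div]
    exact div_le_div_of_nonneg_right (DirichletCharacter.norm_le_one _ _) (by positivity)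
  have hsplit : ∑ i ∈ range M, LSeries.term (fun n => χ (n : ZMod r) * (((Real.log n) ^ 0 : ℝ) : ℂ)) s i
      = LSeries.term (fun n => χ (n : ZMod r) * (((Real.log n) ^ 0 : ℝ) : ℂ)) s 1
        + ∑ i ∈ Finset.Ico 2 M, LSeries.term (fun n => χ (n : ZMod r) * (((Real.log n) ^ 0 : ℝ) : ℂ)) s i := by
    rw [Finset.range_eq_Ico, Finset.sum_eq_sum_Ico_succ_bot (by omega), Finset.sum_eq_sum_Ico_succ_bot (by omega)]
    simp only [LSeries.term_zero, zero_add]
  rw [hsplit]
  have e1 := hterm 1 le_rfl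
  have e2 : ‖∑ i ∈ Finset.Ico 2 M, LSeries.term (fun n => χ (n : ZMod r) * (((Real.log n) ^ 0 : ℝ) : ℂ)) s i‖ ≤ 1 / (σ - 1) := by
    refine (norm_sum_le _ _).trans ?_
    refine (sum_le_sum fun i hi => hterm i (by rw [Finset.mem_Ico] at hi; omega)).trans ?_
    refine (LJB_tail σ h1 2 M le_rfl).trans (le_of_eq ?_)
    norm_num
  have e3 : ((1:ℕ):ℝ) ^ (-σ) = 1 := by simp
  rw [e3] at e1
  refine (norm_add_le _ _).trans ((add_le_add e1 e2).trans ?_)
  rw [le_div_iff₀ h0, add_mul, div_mul_cancel₀ _ h0.ne']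
  linarith

theorem Lj_zero_eq {r : ℕ} [NeZero r] (χ : DirichletCharacter ℂ r) (s : ℂ) (hs : 1 < s.re) :
    Lj χ 0 s = DirichletCharacter.LFunction χ s := by
  rw [DirichletCharacter.LFunction_eq_LSeries χ hs]
  unfold Lj
  simp

lemma ZETREC_gsummable {r : ℕ} (χ : DirichletCharacter ℂ r) (j : ℕ) (s : ℂ) (hs : 1 < s.re) :
    LSeriesSummable (fun n => ((Λ n : ℝ) : ℂ) * χ (n : ZMod r) * (((Real.log n) ^ j : ℝ) : ℂ)) s := by
  have hS : Summable fun n => ‖LSeries.term (fun n : ℕ => (1 : DirichletCharacter ℂ 1) (n : ZMod 1) * (((Real.log n) ^ (j + 1) : ℝ) : ℂ)) s n‖ :=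
    (LJB_summable (1 : DirichletCharacter ℂ 1) (j + 1) s hs).norm
  refine Summable.of_norm_bounded hS fun n => LSeries.norm_term_le s ?_
  have hl : 0 ≤ Real.log n := Real.log_natCast_nonneg n
  rw [norm_mul, norm_mul, Complex.norm_real, Complex.norm_real, Real.norm_eq_abs, Real.norm_eq_abs,
    abs_of_nonneg ArithmeticFunction.vonMangoldt_nonneg, abs_of_nonneg (by positivity),
    norm_mul, Complex.norm_real, Real.norm_eq_abs, abs_of_nonneg (by positivity : (0:ℝ) ≤ Real.log n ^ (j + 1))]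
  have h1 : ‖(1 : DirichletCharacter ℂ 1) (n : ZMod 1)‖ = 1 := by
    have : (n : ZMod 1) = 1 := Subsingleton.elim _ _
    rw [this]; simp
  rw [h1, one_mul, pow_succ]
  have h2 : Λ n ≤ Real.log n := ArithmeticFunction.vonMangoldt_le_log
  have h3 : (0:ℝ) ≤ Λ n := ArithmeticFunction.vonMangoldt_nonneg
  have h4 := DirichletCharacter.norm_le_one χ (n : ZMod r)
  calc Λ n * ‖χ (n : ZMod r)‖ * Real.log n ^ j ≤ (Real.log n * 1) * Real.log n ^ j := by
        refine mul_le_mul_of_nonneg_right ?_ (by positivity)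
        exact mul_le_mul h2 h4 (norm_nonneg _) hl
    _ = _ := by ring

theorem Lj_rec {r : ℕ} [NeZero r] (χ : DirichletCharacter ℂ r) (j : ℕ) (s : ℂ) (hs : 1 < s.re) :
    Lj χ (j + 1) s = ∑ i ∈ range (j + 1), (j.choose i : ℂ) * Lj χ (j - i) s * Gj χ i s := by
  set f : ℕ → ℕ → ℂ := fun j n => χ (n : ZMod r) * (((Real.log n) ^ j : ℝ) : ℂ) with hf
  set g : ℕ → ℕ → ℂ := fun j n => ((Λ n : ℝ) : ℂ) * χ (n : ZMod r) * (((Real.log n) ^ j : ℝ) : ℂ) with hg
  have hfs : ∀ j, LSeriesSummable (f j) s := fun j => LJB_summable χ j s hs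
  have hgs : ∀ j, LSeriesSummable (g j) s := fun j => ZETREC_gsummable χ j s hs
  have hL : ∀ j, Lj χ j s = LSeries (f j) s := fun _ => rfl
  have hG : ∀ j, Gj χ j s = LSeries (g j) s := fun _ => rfl
  have h1 : ∀ i, (j.choose i : ℂ) * Lj χ (j - i) s * Gj χ i s
      = LSeries ((j.choose i : ℂ) • LSeries.convolution (f (j - i)) (g i)) s := by
    intro i
    rw [LSeries_smul, LSeries_convolution' (hfs _) (hgs _), hL, hG]
    ring
  rw [sum_congr rfl fun i _ => h1 i]
  rw [← LSeries_sum (fun i _ => (LSeriesSummable.convolution (hfs _) (hgs _)).smul _)]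
  rw [hL]
  refine LSeries_congr (fun {n} hn => ?_) s
  rw [Finset.sum_apply]
  simp only [Pi.smul_apply, LSeries.convolution_def, smul_eq_mul]
  -- pointwise identity
  have hn0 : (n:ℝ) ≠ 0 := by exact_mod_cast hn
  have h2 : ∀ i ∈ range (j + 1), (j.choose i : ℂ) * ∑ p ∈ n.divisorsAntidiagonal, f (j - i) p.1 * g i p.2
      = ∑ p ∈ n.divisorsAntidiagonal, χ (n : ZMod r) * ((Λ p.2 : ℝ) : ℂ) *
        ((((Real.log p.2) ^ i * (Real.log p.1) ^ (j - i) * (j.choose i : ℝ) : ℝ)) : ℂ) := by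
    intro i _
    rw [mul_sum]
    refine sum_congr rfl fun p hp => ?_
    rw [Nat.mem_divisorsAntidiagonal] at hp
    simp only [hf, hg]
    have : (n : ZMod r) = (p.1 : ZMod r) * (p.2 : ZMod r) := by rw [← hp.1]; push_cast; rfl
    rw [this, map_mul]
    push_cast
    ring
  rw [sum_congr rfl h2, sum_comm]
  have h3 : ∀ p ∈ n.divisorsAntidiagonal, ∑ i ∈ range (j + 1), χ (n : ZMod r) * ((Λ p.2 : ℝ) : ℂ) *
        ((((Real.log p.2) ^ i * (Real.log p.1) ^ (j - i) * (j.choose i : ℝ) : ℝ)) : ℂ)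
      = χ (n : ZMod r) * (((Real.log n) ^ j : ℝ) : ℂ) * ((Λ p.2 : ℝ) : ℂ) := by
    intro p hp
    rw [← mul_sum, ← Complex.ofReal_sum, ← add_pow]
    rw [Nat.mem_divisorsAntidiagonal] at hp
    have hp1 : (p.1:ℝ) ≠ 0 := by
      intro h
      have h' : p.1 = 0 := by exact_mod_cast h
      rw [h', zero_mul] at hp
      exact hn hp.1.symm
    have hp2 : (p.2:ℝ) ≠ 0 := by
      intro h
      have h' : p.2 = 0 := by exact_mod_cast h
      rw [h', mul_zero] at hp
      exact hn hp.1.symm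
    have h4 : Real.log p.2 + Real.log p.1 = Real.log n := by
      rw [← Real.log_mul hp2 hp1]
      congr 1
      rw [← hp.1]; push_cast; ring
    rw [h4]
    ring
  rw [sum_congr rfl h3, ← mul_sum, ← Complex.ofReal_sum]
  have h5 : ∑ p ∈ n.divisorsAntidiagonal, Λ p.2 = Real.log n := by
    rw [← ArithmeticFunction.vonMangoldt_sum]
    exact Nat.sum_divisorsAntidiagonal' (fun _ j => Λ j)
  rw [h5]
  simp only [hf]
  rw [pow_succ]
  push_cast
  ring

end Pool.Agent.BG
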