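import Pool.Agent.Lib_helper23.BGF.LJB
import Pool.Agent.Lib_helper23.BGF.ZETREC
/-! Part A: block MVI -/

set_option autoImplicit false

namespace Pool.Agent.BG

open Finset Filter Complex

lemma MVI_deriv {r : ℕ} (χ : DirichletCharacter ℂ r) (s : ℂ) (hs : 1 < s.re) :
    HasDerivAt (Lj χ 0) (-(Lj χ 1 s)) s := by
  have h1 : LSeries.abscissaOfAbsConv (fun n : ℕ => χ (n : ZMod r) * (((Real.log n) ^ 0 : ℝ) : ℂ)) < s.re := by
    have h2 := (LJB_summable χ 0 (((1 + s.re) / 2 : ℝ) : ℂ) (by rw [Complex.ofReal_re]; linarith)).abscissaOfAbsConv_le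
    refine lt_of_le_of_lt h2 ?_
    rw [Complex.ofReal_re]
    exact_mod_cast (by linarith : (1 + s.re) / 2 < s.re)
  have h3 := LSeries_hasDerivAt h1
  have h4 : LSeries (LSeries.logMul (fun n : ℕ => χ (n : ZMod r) * (((Real.log n) ^ 0 : ℝ) : ℂ))) s = Lj χ 1 s := by
    unfold Lj
    refine LSeries_congr (fun {n} _ => ?_) s
    simp only [LSeries.logMul]
    rw [← Complex.natCast_log]
    simp [mul_comm]
  rw [h4] at h3
  exact h3

lemma MVI_lt_mono (r : ℕ) (hr : 1 ≤ r) (t T : ℝ) (h : |t| ≤ |T|) : lt r t ≤ lt r T := by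
  unfold lt
  have hr1 : (1:ℝ) ≤ r := by exact_mod_cast hr
  have := abs_nonneg t
  refine Real.log_le_log (by positivity) ?_
  exact mul_le_mul_of_nonneg_left (by linarith) (by linarith)

lemma MVI_lt_pos (r : ℕ) (hr : 1 ≤ r) (t : ℝ) : 0 < lt r t := by
  unfold lt
  have hr1 : (1:ℝ) ≤ r := by exact_mod_cast hr
  have := abs_nonneg t
  refine Real.log_pos ?_
  nlinarith

theorem L_mvi : ∃ C : ℝ, 0 < C ∧ ∀ (r : ℕ) [NeZero r] (χ : DirichletCharacter ℂ r), χ ≠ 1 →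
    ∀ s s' : ℂ, 1 < s.re → s.re ≤ 2 → 1 < s'.re → s'.re ≤ 2 →
      ‖Lj χ 0 s - Lj χ 0 s'‖ ≤ C * ‖s - s'‖ * lt r (max |s.im| |s'.im|) ^ 2 := by
  obtain ⟨C, hC0, hC⟩ := Lj_bound 1
  refine ⟨C, hC0, ?_⟩
  intro r _ χ hχ s s' hs1 hs2 hs1' hs2'
  have hr1 : 1 ≤ r := Nat.one_le_iff_ne_zero.mpr (NeZero.ne r)
  set T := max |s.im| |s'.im| with hT
  have hT0 : 0 ≤ T := le_trans (abs_nonneg _) (le_max_left _ _)
  have hmem : ∀ z ∈ segment ℝ s' s, 1 < z.re ∧ z.re ≤ 2 ∧ |z.im| ≤ T := by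
    rintro z ⟨a, b, ha, hb, hab, rfl⟩
    have e1 : (a • s' + b • s).re = a * s'.re + b * s.re := by simp
    have e2 : (a • s' + b • s).im = a * s'.im + b * s.im := by simp
    rw [e1, e2]
    refine ⟨?_, ?_, ?_⟩
    · rcases ha.eq_or_lt with h | h
      · have : b = 1 := by linarith
        rw [← h, this]; linarith
      · nlinarith
    · nlinarith
    · have h1 : |s.im| ≤ T := le_max_left _ _
      have h2 : |s'.im| ≤ T := le_max_right _ _
      calc |a * s'.im + b * s.im| ≤ |a * s'.im| + |b * s.im| := abs_add_le _ _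
        _ = a * |s'.im| + b * |s.im| := by rw [abs_mul, abs_mul, abs_of_nonneg ha, abs_of_nonneg hb]
        _ ≤ a * T + b * T := add_le_add (mul_le_mul_of_nonneg_left h2 ha) (mul_le_mul_of_nonneg_left h1 hb)
        _ = T := by rw [← add_mul, hab, one_mul]
  have hder : ∀ z ∈ segment ℝ s' s, HasDerivWithinAt (Lj χ 0) (-(Lj χ 1 z)) (segment ℝ s' s) z :=
    fun z hz => (MVI_deriv χ z (hmem z hz).1).hasDerivWithinAt
  have hbound : ∀ z ∈ segment ℝ s' s, ‖-(Lj χ 1 z)‖ ≤ C * lt r T ^ 2 := by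
    intro z hz
    obtain ⟨h1, h2, h3⟩ := hmem z hz
    rw [norm_neg]
    have h4 := hC r χ hχ z.re z.im h1 h2
    rw [Complex.re_add_im] at h4
    refine h4.trans ?_
    refine mul_le_mul_of_nonneg_left ?_ hC0.le
    refine pow_le_pow_left₀ (MVI_lt_pos r hr1 _).le ?_ 2
    exact MVI_lt_mono r hr1 _ _ (by rw [abs_of_nonneg hT0]; exact h3)
  have := Convex.norm_image_sub_le_of_norm_hasDerivWithin_le hder hbound (convex_segment _ _)
    (left_mem_segment ℝ s' s) (right_mem_segment ℝ s' s)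
  refine this.trans (le_of_eq ?_)
  ring

theorem L_at_one : ∃ C : ℝ, 0 < C ∧ ∀ (r : ℕ) [NeZero r] (χ : DirichletCharacter ℂ r), χ ≠ 1 →
    ∀ σ t : ℝ, 1 < σ → σ ≤ 2 →
      ‖Lj χ 0 (σ + t * I) - DirichletCharacter.LFunction χ 1‖ ≤
        C * (σ - 1 + |t|) * lt r t ^ 2 := by
  obtain ⟨C, hC0, hC⟩ := L_mvi
  refine ⟨C, hC0, ?_⟩
  intro r _ χ hχ σ t h1 h2
  have hr1 : 1 ≤ r := Nat.one_le_iff_ne_zero.mpr (NeZero.ne r)
  set s : ℂ := σ + t * I with hs
  have hsre : s.re = σ := by simp [hs]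
  have hsim : s.im = t := by simp [hs]
  have hcont : Continuous (fun x : ℝ => DirichletCharacter.LFunction χ (x : ℂ)) :=
    (DirichletCharacter.differentiable_LFunction hχ).continuous.comp Complex.continuous_ofReal
  have ht1 : Tendsto (fun x : ℝ => ‖Lj χ 0 s - DirichletCharacter.LFunction χ (x : ℂ)‖) (nhdsWithin 1 (Set.Ioi 1))
      (nhds ‖Lj χ 0 s - DirichletCharacter.LFunction χ 1‖) := by
    have : Tendsto (fun x : ℝ => DirichletCharacter.LFunction χ (x : ℂ)) (nhdsWithin 1 (Set.Ioi 1)) (nhds (DirichletCharacter.LFunction χ ((1:ℝ) : ℂ))) :=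
      (hcont.tendsto 1).mono_left nhdsWithin_le_nhds
    rw [Complex.ofReal_one] at this
    exact (tendsto_const_nhds.sub this).norm
  have hcont2 : Continuous (fun x : ℝ => C * ‖s - (x : ℂ)‖ * lt r t ^ 2) := by fun_prop
  have ht2 : Tendsto (fun x : ℝ => C * ‖s - (x : ℂ)‖ * lt r t ^ 2) (nhdsWithin 1 (Set.Ioi 1))
      (nhds (C * ‖s - 1‖ * lt r t ^ 2)) := by
    have := (hcont2.tendsto 1).mono_left (nhdsWithin_le_nhds (s := Set.Ioi (1:ℝ)))
    simpa using this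
  have hle : ‖Lj χ 0 s - DirichletCharacter.LFunction χ 1‖ ≤ C * ‖s - 1‖ * lt r t ^ 2 := by
    refine le_of_tendsto_of_tendsto ht1 ht2 ?_
    have hmem : Set.Ioc (1:ℝ) 2 ∈ nhdsWithin (1:ℝ) (Set.Ioi 1) := Ioc_mem_nhdsGT (by norm_num)
    filter_upwards [hmem] with x hx
    have h3 := hC r χ hχ s (x:ℂ) (by rw [hsre]; exact h1) (by rw [hsre]; exact h2)
      (by rw [Complex.ofReal_re]; exact hx.1) (by rw [Complex.ofReal_re]; exact hx.2)
    rw [Lj_zero_eq χ (x:ℂ) (by rw [Complex.ofReal_re]; exact hx.1)] at h3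
    rw [hsim, Complex.ofReal_im, abs_zero, max_eq_left (abs_nonneg t)] at h3
    have h4 : lt r |t| = lt r t := by unfold lt; rw [abs_abs]
    rw [h4] at h3
    exact h3
  refine hle.trans ?_
  refine mul_le_mul_of_nonneg_right ?_ (by positivity)
  refine mul_le_mul_of_nonneg_left ?_ hC0.le
  have h5 : s - 1 = ((σ - 1 : ℝ) : ℂ) + (t : ℂ) * I := by rw [hs]; push_cast; ring
  rw [h5]
  refine (norm_add_le _ _).trans ?_
  rw [norm_mul, Complex.norm_I, mul_one, Complex.norm_real, Complex.norm_real, Real.norm_eq_abs, Real.norm_eq_abs,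
    abs_of_pos (by linarith : (0:ℝ) < σ - 1)]

end Pool.Agent.BG
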