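import Pool.Agent.Lib_helper23.BG.Defs
import Pool.Agent.Lib_helper73.Var.LS
/-! Block MVT, part 1: large sieve and bilinear forms over primitive characters -/

set_option autoImplicit false

namespace Pool.Agent.BG

open Finset Filter Complex
open Pool.Agent.Var35 (ev e cf gm cf_expand cf_le gm_nonneg sum_gm_le norm_e ev_mul norm_ev_le)

/-- primitive characters with moduli in `(R, 2R]` -/
noncomputable def MVT_F (R : ℕ) : Finset (Σ p : ℕ, DirichletCharacter ℂ p) := (Ioc R (2 * R)).sigma Prm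

/-- weights -/
noncomputable def MVT_w (x : Σ p : ℕ, DirichletCharacter ℂ p) : ℝ := (x.1 : ℝ) / Nat.totient x.1

lemma MVT_w_nonneg (x : Σ p : ℕ, DirichletCharacter ℂ p) : 0 ≤ MVT_w x := by
  unfold MVT_w; positivity

lemma MVT_ls (R : ℕ) (hR : 1 ≤ R) (a : ℕ → ℂ) (M H : ℕ) :
    ∑ x ∈ MVT_F R, MVT_w x * ‖∑ m ∈ Finset.Ioc M (M + H), a m * ev x m‖ ^ 2
      ≤ 22 * (H + ((2 * R : ℕ):ℝ) ^ 2) * ∑ m ∈ Finset.Ioc M (M + H), ‖a m‖ ^ 2 := by
  have h := Pool.Agent.Var73.mlsP (Ioc R (2 * R)) (2 * R)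
    (fun d hd => by rw [Finset.mem_Ioc] at hd; omega) (by omega) a M H
  unfold MVT_F MVT_w ev
  rw [sum_sigma]
  refine le_trans (le_of_eq ?_) h
  refine sum_congr rfl fun d _ => ?_
  refine sum_congr ?_ fun ψ _ => rfl
  ext ψ
  simp [Prm, Pool.Agent.Var73.Pr]

theorem MVT_bilinear (R : ℕ) (hR : 1 ≤ R) (α β : ℕ → ℂ) (M u : ℕ) (hM : 1 ≤ M) :
    ∑ x ∈ MVT_F R, MVT_w x * ‖∑ m ∈ Finset.Ioc M (M + M), ∑ k ∈ Finset.Icc 1 (u / m),
        α m * β k * ev x (m * k)‖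
      ≤ 22 * (2 + Real.log (u / M : ℕ)) *
        (Real.sqrt ((M + ((2 * R : ℕ):ℝ) ^ 2) * ∑ m ∈ Finset.Ioc M (M + M), ‖α m‖ ^ 2)
          * Real.sqrt (((u / M : ℕ) + ((2 * R : ℕ):ℝ) ^ 2) * ∑ k ∈ Finset.Icc 1 (u / M), ‖β k‖ ^ 2)) := by
  set P : ℕ := 2 * R with hP
  set T : ℕ := u / M with hT
  rcases Nat.eq_zero_or_pos T with hT0 | hT0
  · have h1 : ∀ x ∈ MVT_F R, MVT_w x * ‖∑ m ∈ Finset.Ioc M (M + M), ∑ k ∈ Finset.Icc 1 (u / m),
        α m * β k * ev x (m * k)‖ = 0 := by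
      intro x _
      have : ‖∑ m ∈ Finset.Ioc M (M + M), ∑ k ∈ Finset.Icc 1 (u / m),
        α m * β k * ev x (m * k)‖ = 0 := by
        rw [norm_eq_zero]
        refine sum_eq_zero fun m hm => ?_
        rw [Finset.mem_Ioc] at hm
        have : u / m = 0 := by
          have h2 : u / m ≤ T := Nat.div_le_div_left hm.1.le (by omega)
          rw [hT0] at h2
          exact Nat.le_zero.mp h2
        rw [this]; simp
      rw [this, mul_zero]
    rw [sum_congr rfl h1]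
    simp only [sum_const_zero]
    rw [hT0]
    simp
  have hTr : (0:ℝ) < T := by exact_mod_cast hT0
  set A : ℕ → (Σ p : ℕ, DirichletCharacter ℂ p) → ℂ := fun j x =>
    ∑ m ∈ Finset.Ioc M (M + M), (α m * cf T (u / m) j) * ev x m with hA
  set B : ℕ → (Σ p : ℕ, DirichletCharacter ℂ p) → ℂ := fun j x =>
    ∑ k ∈ Finset.Ioc 0 (0 + T), (β k * e (j * k / T)) * ev x k with hB
  have hId : ∀ x, ∑ m ∈ Finset.Ioc M (M + M), ∑ k ∈ Finset.Icc 1 (u / m),
        α m * β k * ev x (m * k)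
      = ∑ j ∈ range T, A j x * B j x := by
    intro x
    have h1 : ∀ m ∈ Finset.Ioc M (M + M), ∑ k ∈ Finset.Icc 1 (u / m), α m * β k * ev x (m * k)
        = ∑ j ∈ range T, ∑ k ∈ Finset.Ioc 0 (0 + T),
            ((α m * cf T (u / m) j) * ev x m) * ((β k * e (j * k / T)) * ev x k) := by
      intro m hm
      rw [Finset.mem_Ioc] at hm
      have hle : u / m ≤ T := Nat.div_le_div_left hm.1.le (by omega)
      have h2 : ∑ k ∈ Finset.Icc 1 (u / m), α m * β k * ev x (m * k)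
          = ∑ k ∈ Finset.Ioc 0 (0 + T), (∑ j ∈ range T, cf T (u / m) j * e (j * k / T)) *
              (α m * β k * ev x (m * k)) := by
        have h3 : ∀ k ∈ Finset.Ioc 0 (0 + T), (∑ j ∈ range T, cf T (u / m) j * e (j * k / T)) *
              (α m * β k * ev x (m * k))
            = if k ≤ u / m then α m * β k * ev x (m * k) else 0 := by
          intro k hk
          rw [Finset.mem_Ioc] at hk
          rw [cf_expand T (u / m) k (by omega) (by omega) hle]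
          split_ifs <;> simp
        rw [sum_congr rfl h3, ← sum_filter]
        refine sum_congr ?_ fun _ _ => rfl
        ext k
        simp only [Finset.mem_Icc, mem_filter, Finset.mem_Ioc]
        omega
      rw [h2]
      have h4 : ∀ k ∈ Finset.Ioc 0 (0 + T), (∑ j ∈ range T, cf T (u / m) j * e (j * k / T)) *
              (α m * β k * ev x (m * k))
          = ∑ j ∈ range T, ((α m * cf T (u / m) j) * ev x m) * ((β k * e (j * k / T)) * ev x k) := by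
        intro k _
        rw [ev_mul, sum_mul]
        refine sum_congr rfl fun j _ => ?_
        ring
      rw [sum_congr rfl h4, sum_comm]
    rw [sum_congr rfl h1, sum_comm]
    refine sum_congr rfl fun j _ => ?_
    simp only [hA, hB]
    rw [sum_mul_sum]
  set SA := ∑ m ∈ Finset.Ioc M (M + M), ‖α m‖ ^ 2 with hSA
  set SB := ∑ k ∈ Finset.Icc 1 T, ‖β k‖ ^ 2 with hSB
  have hSA0 : 0 ≤ SA := sum_nonneg fun _ _ => by positivity
  have hSB0 : 0 ≤ SB := sum_nonneg fun _ _ => by positivity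
  have hAbound : ∀ j ∈ range T,
      ∑ x ∈ MVT_F R, MVT_w x * ‖A j x‖ ^ 2 ≤ (gm T j) ^ 2 * (22 * ((M + (P:ℝ) ^ 2) * SA)) := by
    intro j hj
    rw [mem_range] at hj
    have h1 := MVT_ls R hR (fun m => α m * cf T (u / m) j) M M
    refine h1.trans ?_
    have h2 : ∑ m ∈ Finset.Ioc M (M + M), ‖α m * cf T (u / m) j‖ ^ 2 ≤ (gm T j) ^ 2 * SA := by
      rw [hSA, mul_sum]
      refine sum_le_sum fun m hm => ?_
      rw [Finset.mem_Ioc] at hm
      have hle : u / m ≤ T := Nat.div_le_div_left hm.1.le (by omega)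
      rw [norm_mul, mul_pow, mul_comm]
      refine mul_le_mul_of_nonneg_right ?_ (by positivity)
      exact pow_le_pow_left₀ (norm_nonneg _) (cf_le T _ j hle hj) 2
    calc 22 * ((M:ℝ) + (P:ℝ) ^ 2) * ∑ m ∈ Finset.Ioc M (M + M), ‖α m * cf T (u / m) j‖ ^ 2
        ≤ 22 * ((M:ℝ) + (P:ℝ) ^ 2) * ((gm T j) ^ 2 * SA) := mul_le_mul_of_nonneg_left h2 (by positivity)
      _ = _ := by ring
  have hBbound : ∀ j ∈ range T,
      ∑ x ∈ MVT_F R, MVT_w x * ‖B j x‖ ^ 2 ≤ 22 * ((T + (P:ℝ) ^ 2) * SB) := by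
    intro j _
    have h1 := MVT_ls R hR (fun k => β k * e (j * k / T)) 0 T
    refine h1.trans ?_
    have h2 : ∑ k ∈ Finset.Ioc 0 (0 + T), ‖β k * e (j * k / T)‖ ^ 2 ≤ SB := by
      rw [hSB]
      have : Finset.Ioc 0 (0 + T) = Finset.Icc 1 T := by ext k; simp only [Finset.mem_Ioc, Finset.mem_Icc]; omega
      rw [this]
      refine sum_le_sum fun k _ => ?_
      rw [norm_mul, norm_e, mul_one]
    calc 22 * ((T:ℝ) + (P:ℝ) ^ 2) * ∑ k ∈ Finset.Ioc 0 (0 + T), ‖β k * e (j * k / T)‖ ^ 2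
        ≤ 22 * ((T:ℝ) + (P:ℝ) ^ 2) * SB := mul_le_mul_of_nonneg_left h2 (by positivity)
      _ = _ := by ring
  set W := Real.sqrt ((M + (P:ℝ) ^ 2) * SA) * Real.sqrt ((T + (P:ℝ) ^ 2) * SB) with hW
  have hABbound : ∀ j ∈ range T,
      ∑ x ∈ MVT_F R, MVT_w x * (‖A j x‖ * ‖B j x‖) ≤ gm T j * (22 * W) := by
    intro j hj
    have hg := gm_nonneg T j (mem_range.mp hj)
    have hcs : ∑ x ∈ MVT_F R, MVT_w x * (‖A j x‖ * ‖B j x‖)
        = ∑ x ∈ MVT_F R, (Real.sqrt (MVT_w x) * ‖A j x‖) * (Real.sqrt (MVT_w x) * ‖B j x‖) := by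
      refine sum_congr rfl fun x _ => ?_
      have := Real.mul_self_sqrt (MVT_w_nonneg x)
      calc MVT_w x * (‖A j x‖ * ‖B j x‖) = (Real.sqrt (MVT_w x) * Real.sqrt (MVT_w x)) * (‖A j x‖ * ‖B j x‖) := by
            rw [this]
        _ = _ := by ring
    rw [hcs]
    refine (Real.sum_mul_le_sqrt_mul_sqrt _ _ _).trans ?_
    have hsq : ∀ (C : (Σ p : ℕ, DirichletCharacter ℂ p) → ℂ), ∑ x ∈ MVT_F R, (Real.sqrt (MVT_w x) * ‖C x‖) ^ 2
        = ∑ x ∈ MVT_F R, MVT_w x * ‖C x‖ ^ 2 := by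
      intro C
      refine sum_congr rfl fun x _ => ?_
      rw [mul_pow, Real.sq_sqrt (MVT_w_nonneg x)]
    rw [hsq (A j), hsq (B j)]
    have h1 : Real.sqrt (∑ x ∈ MVT_F R, MVT_w x * ‖A j x‖ ^ 2) ≤ gm T j * Real.sqrt (22 * ((M + (P:ℝ) ^ 2) * SA)) := by
      refine (Real.sqrt_le_sqrt (hAbound j hj)).trans (le_of_eq ?_)
      rw [Real.sqrt_mul (by positivity), Real.sqrt_sq hg]
    have h2 : Real.sqrt (∑ x ∈ MVT_F R, MVT_w x * ‖B j x‖ ^ 2) ≤ Real.sqrt (22 * ((T + (P:ℝ) ^ 2) * SB)) :=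
      Real.sqrt_le_sqrt (hBbound j hj)
    calc Real.sqrt (∑ x ∈ MVT_F R, MVT_w x * ‖A j x‖ ^ 2) * Real.sqrt (∑ x ∈ MVT_F R, MVT_w x * ‖B j x‖ ^ 2)
        ≤ (gm T j * Real.sqrt (22 * ((M + (P:ℝ) ^ 2) * SA))) * Real.sqrt (22 * ((T + (P:ℝ) ^ 2) * SB)) :=
          mul_le_mul h1 h2 (Real.sqrt_nonneg _) (by positivity)
      _ = gm T j * (22 * W) := by
          rw [Real.sqrt_mul (by norm_num), Real.sqrt_mul (by norm_num) (((T:ℝ) + (P:ℝ) ^ 2) * SB)]
          have : Real.sqrt 22 * Real.sqrt 22 = 22 := Real.mul_self_sqrt (by norm_num)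
          calc gm T j * (Real.sqrt 22 * Real.sqrt ((M + (P:ℝ) ^ 2) * SA)) * (Real.sqrt 22 * Real.sqrt ((T + (P:ℝ) ^ 2) * SB))
              = gm T j * ((Real.sqrt 22 * Real.sqrt 22) * W) := by rw [hW]; ring
            _ = _ := by rw [this]
  have hW0 : 0 ≤ W := by positivity
  calc ∑ x ∈ MVT_F R, MVT_w x * ‖∑ m ∈ Finset.Ioc M (M + M), ∑ k ∈ Finset.Icc 1 (u / m),
        α m * β k * ev x (m * k)‖
      ≤ ∑ x ∈ MVT_F R, ∑ j ∈ range T, MVT_w x * (‖A j x‖ * ‖B j x‖) := by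
        refine sum_le_sum fun x _ => ?_
        rw [hId x, ← mul_sum]
        refine mul_le_mul_of_nonneg_left ?_ (MVT_w_nonneg x)
        refine (norm_sum_le _ _).trans (sum_le_sum fun j _ => ?_)
        rw [norm_mul]
    _ = ∑ j ∈ range T, ∑ x ∈ MVT_F R, MVT_w x * (‖A j x‖ * ‖B j x‖) := sum_comm
    _ ≤ ∑ j ∈ range T, gm T j * (22 * W) := sum_le_sum fun j hj => hABbound j hj
    _ = (∑ j ∈ range T, gm T j) * (22 * W) := by rw [sum_mul]
    _ ≤ (2 + Real.log T) * (22 * W) :=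
        mul_le_mul_of_nonneg_right (sum_gm_le T hT0) (by positivity)
    _ = 22 * (2 + Real.log T) * W := by ring

end Pool.Agent.BG
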