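import Pool.Agent.Lib_helper23.BG.Defs
/-! Block PER: Perron's formula with a double pole. `PER_ft` and `PER_perron` are copied from helper56's block PERRON. -/

set_option autoImplicit false

namespace Pool.Agent.BG

open Complex MeasureTheory Filter Topology FourierTransform Finset
open scoped ArithmeticFunction.vonMangoldt

lemma PER_ft {w : ℂ} (hw : 0 < w.re) :
    IntegrableOn (fun x : ℝ => (x : ℂ) * cexp (-(w * x))) (Set.Ioi 0) ∧
    ∫ x in Set.Ioi (0:ℝ), (x : ℂ) * cexp (-(w * x)) = 1 / w ^ 2 := by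
  have hw0 : w ≠ 0 := by rintro rfl; simp at hw
  have hint : IntegrableOn (fun x : ℝ => (x : ℂ) * cexp (-(w * x))) (Set.Ioi 0) := by
    have h1 := integrableOn_rpow_mul_exp_neg_mul_rpow (s := 1) (p := 1) (b := w.re)
      (by norm_num) (by norm_num) hw
    refine Integrable.mono' h1 (Continuous.aestronglyMeasurable (by fun_prop)) ?_
    filter_upwards [ae_restrict_mem measurableSet_Ioi] with x hx
    have hx : (0:ℝ) < x := hx
    rw [norm_mul, Complex.norm_real, Complex.norm_exp]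
    simp [abs_of_pos hx]
  refine ⟨hint, ?_⟩
  have hd : ∀ x ∈ Set.Ioi (0:ℝ), HasDerivAt (fun x : ℝ => -((x : ℂ) / w + 1 / w^2) * cexp (-(w * x)))
      ((x : ℂ) * cexp (-(w * x))) x := by
    intro x _
    have h1 : HasDerivAt (fun x : ℝ => (x : ℂ)) 1 x := Complex.ofRealCLM.hasDerivAt
    have h2 : HasDerivAt (fun x : ℝ => -((x : ℂ) / w + 1 / w^2)) (-(1 / w)) x := by
      exact ((h1.div_const w).add_const (1 / w ^ 2)).fun_neg
    have h3 : HasDerivAt (fun x : ℝ => cexp (-(w * x))) (cexp (-(w * x)) * (-(w * 1))) x := by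
      exact ((h1.const_mul w).fun_neg).cexp
    have h4 := h2.mul h3
    have e : -(1 / w) * cexp (-(w * x)) + -((x : ℂ) / w + 1 / w ^ 2) *
        (cexp (-(w * x)) * (-(w * 1))) = (x : ℂ) * cexp (-(w * x)) := by
      field_simp
      ring
    rw [e] at h4
    exact h4
  have ht : Tendsto (fun x : ℝ => -((x : ℂ) / w + 1 / w^2) * cexp (-(w * x))) atTop (𝓝 0) := by
    have e1 := tendsto_rpow_mul_exp_neg_mul_atTop_nhds_zero 1 w.re hw
    have e0 := tendsto_rpow_mul_exp_neg_mul_atTop_nhds_zero 0 w.re hw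
    have e2 := (e1.const_mul (1 / ‖w‖)).add (e0.const_mul (1 / ‖w‖ ^ 2))
    simp only [mul_zero, add_zero] at e2
    refine squeeze_zero_norm' ?_ e2
    filter_upwards [eventually_gt_atTop 0] with x hx
    rw [norm_mul, norm_neg, Complex.norm_exp]
    have e3 : ‖(x : ℂ) / w + 1 / w ^ 2‖ ≤ x / ‖w‖ + 1 / ‖w‖ ^ 2 := by
      refine (norm_add_le _ _).trans ?_
      simp [abs_of_pos hx]
    have e4 : (-(w * (x:ℂ))).re = -w.re * x := by simp
    rw [e4]
    calc _ ≤ (x / ‖w‖ + 1 / ‖w‖ ^ 2) * Real.exp (-w.re * x) := by gcongr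
      _ = _ := by simp; ring
  have := integral_Ioi_of_hasDerivAt_of_tendsto (a := (0:ℝ)) (m := (0:ℂ))
    (Continuous.continuousWithinAt (by fun_prop)) hd hint ht
  rw [this]
  simp

theorem PER_perron {σ y : ℝ} (hσ : 0 < σ) (hy : 0 < y) :
    Integrable (fun t : ℝ => (y : ℂ) ^ ((σ : ℂ) + t * I) / ((σ : ℂ) + t * I) ^ 2) ∧
      ∫ t : ℝ, (y : ℂ) ^ ((σ : ℂ) + t * I) / ((σ : ℂ) + t * I) ^ 2 =
        2 * Real.pi * (max 0 (Real.log y) : ℝ) := by
  have hy0 : (y : ℂ) ≠ 0 := by exact_mod_cast hy.ne'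
  have hne : ∀ t : ℝ, ((σ : ℂ) + t * I) ≠ 0 := by
    intro t h
    have := congrArg Complex.re h
    simp at this
    exact hσ.ne' this
  have hnsq : ∀ t : ℝ, ‖(σ : ℂ) + t * I‖ ^ 2 = σ ^ 2 + t ^ 2 := by
    intro t
    rw [← Complex.normSq_eq_norm_sq, Complex.normSq_add_mul_I]
  -- integrability
  have hbase : Integrable (fun t : ℝ => (σ ^ 2 + t ^ 2)⁻¹) := by
    have h1 := (integrable_inv_one_add_sq).comp_div hσ.ne'
    have h2 := h1.const_mul ((σ ^ 2)⁻¹)
    refine h2.congr (Eventually.of_forall fun t => ?_)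
    simp only
    rw [← mul_inv]
    congr 1
    field_simp
  have hinv : Integrable (fun t : ℝ => 1 / ((σ : ℂ) + t * I) ^ 2) := by
    refine hbase.mono' (Continuous.aestronglyMeasurable ?_) (Eventually.of_forall fun t => ?_)
    · exact Continuous.div (by fun_prop) (by fun_prop) (fun t => pow_ne_zero _ (hne t))
    · rw [norm_div, norm_one, norm_pow, hnsq, one_div]
  have hint : Integrable (fun t : ℝ => (y : ℂ) ^ ((σ : ℂ) + t * I) / ((σ : ℂ) + t * I) ^ 2) := by
    refine (hbase.const_mul (y ^ σ)).mono' (Continuous.aestronglyMeasurable ?_)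
      (Eventually.of_forall fun t => ?_)
    · refine Continuous.div ?_ (by fun_prop) (fun t => pow_ne_zero _ (hne t))
      simp_rw [Complex.cpow_def_of_ne_zero hy0]
      fun_prop
    · rw [norm_div, norm_pow, hnsq, Complex.norm_cpow_eq_rpow_re_of_pos hy]
      simp [div_eq_mul_inv]
  refine ⟨hint, ?_⟩
  -- Fourier inversion
  set f : ℝ → ℂ := fun x => ((max 0 x * Real.exp (-(σ * x)) : ℝ) : ℂ) with hf
  have hfc : Continuous f := by fun_prop
  have hfI : ∀ w : ℂ, w.re = σ → ∀ x ∈ Set.Ioi (0 : ℝ),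
      f x * cexp (-((w - σ) * x)) = (x : ℂ) * cexp (-(w * x)) := by
    intro w _ x hx
    have hx : (0:ℝ) < x := hx
    simp only [hf, max_eq_right hx.le]
    push_cast
    rw [mul_assoc, ← Complex.exp_add]
    congr 2
    ring
  have hf0 : ∀ x ∉ Set.Ioi (0 : ℝ), f x = 0 := by
    intro x hx
    have hx : x ≤ 0 := by simpa using hx
    simp [hf, max_eq_left hx]
  have hfint : Integrable f := by
    rw [← integrableOn_iff_integrable_of_support_subset (s := Set.Ioi (0:ℝ))]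
    · have h := (PER_ft (w := (σ : ℂ)) (by simpa using hσ)).1
      refine h.congr_fun (fun x hx => ?_) measurableSet_Ioi
      have := hfI (σ : ℂ) (by simp) x hx
      simpa using this.symm
    · intro x hx
      by_contra h
      exact hx (hf0 x h)
  have hFT : ∀ ξ : ℝ, 𝓕 f ξ = 1 / ((σ : ℂ) + (2 * Real.pi * ξ : ℝ) * I) ^ 2 := by
    intro ξ
    rw [Real.fourier_real_eq_integral_exp_smul]
    have h := (PER_ft (w := (σ : ℂ) + (2 * Real.pi * ξ : ℝ) * I) (by simpa using hσ)).2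
    rw [← h]
    rw [← setIntegral_eq_integral_of_forall_compl_eq_zero (s := Set.Ioi (0:ℝ))]
    · refine setIntegral_congr_fun measurableSet_Ioi (fun x hx => ?_)
      have := hfI ((σ : ℂ) + (2 * Real.pi * ξ : ℝ) * I) (by simp) x hx
      simp only [← this, smul_eq_mul]
      rw [mul_comm]
      congr 2
      push_cast
      ring
    · intro x hx
      rw [hf0 x hx, smul_zero]
  have hFTint : Integrable (𝓕 f) := by
    have h1 := hinv.comp_mul_left' (R := 2 * Real.pi) (by positivity)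
    refine h1.congr (Eventually.of_forall fun ξ => ?_)
    simp only [hFT]
  have hinvn := Continuous.fourierInv_fourier_eq hfc hfint hFTint
  have hval := congrFun hinvn (Real.log y)
  rw [Real.fourierInv_eq'] at hval
  simp only [hFT, smul_eq_mul] at hval
  -- change of variable
  have hcv : ∫ t : ℝ, cexp ((Real.log y * t : ℝ) * I) * (1 / ((σ : ℂ) + t * I) ^ 2) =
      2 * Real.pi * f (Real.log y) := by
    rw [← hval]
    have := MeasureTheory.Measure.integral_comp_mul_left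
      (fun t : ℝ => cexp ((Real.log y * t : ℝ) * I) * (1 / ((σ : ℂ) + t * I) ^ 2)) (2 * Real.pi)
    have hpi : |(2 * Real.pi)⁻¹| = (2 * Real.pi)⁻¹ := abs_of_pos (by positivity)
    rw [hpi] at this
    have e : ∀ v : ℝ, cexp (((2 * Real.pi * inner ℝ v (Real.log y) : ℝ) : ℂ) * I) *
        (1 / ((σ : ℂ) + (2 * Real.pi * v : ℝ) * I) ^ 2) =
        cexp ((Real.log y * (2 * Real.pi * v) : ℝ) * I) *
          (1 / ((σ : ℂ) + ((2 * Real.pi * v : ℝ) : ℂ) * I) ^ 2) := by
      intro v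
      congr 3
      simp
      ring
    rw [integral_congr_ae (Eventually.of_forall e), this]
    rw [Complex.real_smul, ← mul_assoc]
    have h2 : (2 : ℂ) * Real.pi * (((2 * Real.pi)⁻¹ : ℝ) : ℂ) = 1 := by
      have : (2 * Real.pi) * (2 * Real.pi)⁻¹ = 1 := mul_inv_cancel₀ (by positivity)
      exact_mod_cast congrArg (fun z : ℝ => (z : ℂ)) this
    rw [h2, one_mul]
  have hfin : ∀ t : ℝ, (y : ℂ) ^ ((σ : ℂ) + t * I) / ((σ : ℂ) + t * I) ^ 2 =
      ((y ^ σ : ℝ) : ℂ) * (cexp ((Real.log y * t : ℝ) * I) * (1 / ((σ : ℂ) + t * I) ^ 2)) := by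
    intro t
    have e1 : (y : ℂ) ^ ((t : ℂ) * I) = cexp ((Real.log y * t : ℝ) * I) := by
      rw [Complex.cpow_def_of_ne_zero hy0, ← Complex.ofReal_log hy.le]
      congr 1
      push_cast
      ring
    rw [Complex.cpow_add _ _ hy0, Complex.ofReal_cpow hy.le, e1, div_eq_mul_one_div, mul_assoc]
  simp_rw [hfin]
  rw [integral_const_mul, hcv]
  simp only [hf]
  have hyσ : y ^ σ * Real.exp (-(σ * Real.log y)) = 1 := by
    rw [Real.rpow_def_of_pos hy, ← Real.exp_add]
    simp [mul_comm]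
  push_cast
  have h' : ((y ^ σ : ℝ) : ℂ) * cexp (-(σ * (Real.log y : ℂ))) = 1 := by
    have := congrArg (fun z : ℝ => (z : ℂ)) hyσ
    push_cast at this
    exact_mod_cast this
  calc _ = (2 * Real.pi) * ((max 0 (Real.log y) : ℝ) : ℂ) * (((y ^ σ : ℝ) : ℂ) * cexp (-(σ * (Real.log y : ℂ)))) := by
        ring
    _ = _ := by rw [h']; ring


theorem PER_summable {r : ℕ} [NeZero r] (χ : DirichletCharacter ℂ r) (j : ℕ) (s : ℂ)
    (hs : 1 < s.re) :
    LSeriesSummable (fun n => ((Λ n : ℝ) : ℂ) * χ (n : ZMod r) * (((Real.log n) ^ j : ℝ) : ℂ)) s := by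
  set ε : ℝ := (s.re - 1) / (2 * (j + 1)) with hε
  have hε0 : 0 < ε := by
    apply div_pos (by linarith) (by positivity)
  refine LSeriesSummable_of_le_const_mul_rpow (x := (s.re + 1) / 2) (by linarith)
    ⟨(1 / ε) ^ (j + 1), fun n hn => ?_⟩
  have hlog : 0 ≤ Real.log n := Real.log_natCast_nonneg n
  have h1 : Real.log n ≤ (n : ℝ) ^ ε / ε := Real.log_natCast_le_rpow_div n hε0
  have h2 : ‖((Λ n : ℝ) : ℂ) * χ (n : ZMod r) * (((Real.log n) ^ j : ℝ) : ℂ)‖ ≤
      Real.log n ^ (j + 1) := by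
    rw [norm_mul, norm_mul, Complex.norm_real, Complex.norm_real, Real.norm_eq_abs,
      Real.norm_eq_abs, abs_of_nonneg ArithmeticFunction.vonMangoldt_nonneg,
      abs_of_nonneg (pow_nonneg hlog j), pow_succ' (Real.log n)]
    have h3 : ‖χ (n : ZMod r)‖ ≤ 1 := DirichletCharacter.norm_le_one χ _
    have h4 : Λ n ≤ Real.log n := ArithmeticFunction.vonMangoldt_le_log
    have h5 : 0 ≤ Λ n := ArithmeticFunction.vonMangoldt_nonneg
    calc Λ n * ‖χ (n : ZMod r)‖ * Real.log n ^ j ≤ Real.log n * 1 * Real.log n ^ j := by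
          gcongr
      _ = _ := by ring
  refine h2.trans ((pow_le_pow_left₀ hlog h1 _).trans (le_of_eq ?_))
  rw [div_pow, one_div, inv_pow, ← Real.rpow_natCast ((n : ℝ) ^ ε), ← Real.rpow_mul (Nat.cast_nonneg n)]
  have : ε * ((j + 1 : ℕ) : ℝ) = (s.re + 1) / 2 - 1 := by
    rw [hε]; push_cast; field_simp; ring
  rw [this, div_eq_inv_mul]

theorem PsiS_eq {r : ℕ} [NeZero r] (χ : DirichletCharacter ℂ r) (j : ℕ) (x : ℝ) (hx : 1 ≤ x)
    (σ : ℝ) (hσ : 1 < σ) :
    PsiS χ j x = (1 / (2 * Real.pi) : ℂ) *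
      ∫ t : ℝ, Gj χ j (σ + t * I) * ((x : ℂ) ^ ((σ : ℂ) + t * I) / ((σ : ℂ) + t * I) ^ 2) := by
  classical
  have hx0 : 0 < x := by linarith
  set a : ℕ → ℂ := fun n => ((Λ n : ℝ) : ℂ) * χ (n : ZMod r) * (((Real.log n) ^ j : ℝ) : ℂ) with ha
  have hre : ∀ t : ℝ, ((σ : ℂ) + t * I).re = σ := by intro t; simp
  set K : ℝ → ℂ := fun t => (x : ℂ) ^ ((σ : ℂ) + t * I) / ((σ : ℂ) + t * I) ^ 2 with hK
  have hKint : Integrable K := (PER_perron (by linarith : 0 < σ) hx0).1
  set F : ℕ → ℝ → ℂ := fun n t => LSeries.term a ((σ : ℂ) + t * I) n * K t with hF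
  -- the terms
  have hterm : ∀ n : ℕ, n ≠ 0 → ∀ t : ℝ, F n t =
      a n * ((((x / n : ℝ)) : ℂ) ^ ((σ : ℂ) + t * I) / ((σ : ℂ) + t * I) ^ 2) := by
    intro n hn t
    have hn0 : (0 : ℝ) < n := by exact_mod_cast Nat.pos_of_ne_zero hn
    simp only [hF, hK, LSeries.term_of_ne_zero hn]
    have h1 : (x : ℂ) ^ ((σ : ℂ) + t * I) = (((x / n : ℝ)) : ℂ) ^ ((σ : ℂ) + t * I) *
        (n : ℂ) ^ ((σ : ℂ) + t * I) := by
      have h2 := Complex.mul_cpow_ofReal_nonneg (a := x / n) (b := (n : ℝ)) (by positivity)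
        hn0.le ((σ : ℂ) + t * I)
      rw [← Complex.ofReal_mul, div_mul_cancel₀ _ hn0.ne'] at h2
      rw [h2]; simp
    have h3 : (n : ℂ) ^ ((σ : ℂ) + t * I) ≠ 0 := by
      rw [Complex.cpow_def_of_ne_zero (by exact_mod_cast hn)]
      exact Complex.exp_ne_zero _
    rw [h1]
    field_simp
  have hzero : ∀ t : ℝ, F 0 t = 0 := by intro t; simp [hF]
  have hFint : ∀ n, Integrable (F n) := by
    intro n
    rcases eq_or_ne n 0 with rfl | hn
    · have : F 0 = fun _ => 0 := funext hzero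
      rw [this]; exact integrable_zero _ _ _
    · have : F n = fun t : ℝ => a n * ((((x / n : ℝ)) : ℂ) ^ ((σ : ℂ) + t * I) /
          ((σ : ℂ) + t * I) ^ 2) := funext (hterm n hn)
      rw [this]
      have hn0 : (0 : ℝ) < n := by exact_mod_cast Nat.pos_of_ne_zero hn
      exact ((PER_perron (by linarith : 0 < σ) (by positivity : 0 < x / n)).1).const_mul _
  have hval : ∀ n : ℕ, n ≠ 0 → ∫ t, F n t = a n * (2 * Real.pi * (max 0 (Real.log (x / n)) : ℝ)) := by
    intro n hn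
    have hn0 : (0 : ℝ) < n := by exact_mod_cast Nat.pos_of_ne_zero hn
    have : F n = fun t : ℝ => a n * ((((x / n : ℝ)) : ℂ) ^ ((σ : ℂ) + t * I) /
          ((σ : ℂ) + t * I) ^ 2) := funext (hterm n hn)
    rw [this, integral_const_mul, (PER_perron (by linarith : 0 < σ) (by positivity : 0 < x / n)).2]
  have hnorm : ∀ n t, ‖F n t‖ = ‖LSeries.term a (σ : ℂ) n‖ * ‖K t‖ := by
    intro n t
    simp only [hF, norm_mul]
    congr 1
    rw [LSeries.norm_term_eq, LSeries.norm_term_eq, hre]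
    simp
  have hsum : Summable fun n => ∫ t, ‖F n t‖ := by
    have : (fun n => ∫ t, ‖F n t‖) = fun n => ‖LSeries.term a (σ : ℂ) n‖ * ∫ t, ‖K t‖ := by
      funext n
      simp_rw [hnorm n]
      rw [integral_const_mul]
    rw [this]
    exact ((PER_summable χ j (σ : ℂ) (by simpa using hσ)).norm).mul_right _
  have hmain := hasSum_integral_of_summable_integral_norm hFint hsum
  have hG : ∀ t : ℝ, ∑' n, F n t = Gj χ j (σ + t * I) * K t := by
    intro t
    simp only [hF]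
    rw [tsum_mul_right]
    rfl
  simp_rw [hG] at hmain
  have hfin : HasSum (fun n => ∫ t, F n t) (∑ n ∈ Icc 1 ⌊x⌋₊, ∫ t, F n t) := by
    refine hasSum_sum_of_ne_finset_zero fun n hn => ?_
    rcases eq_or_ne n 0 with rfl | hn0
    · simp_rw [hzero]; simp
    · rw [hval n hn0]
      have hn1 : ⌊x⌋₊ < n := by
        by_contra hcon
        exact hn (mem_Icc.2 ⟨Nat.one_le_iff_ne_zero.2 hn0, not_lt.1 hcon⟩)
      have hn2 : x < n := (Nat.floor_lt hx0.le).1 hn1
      have hnpos : (0 : ℝ) < n := hx0.trans hn2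
      have : Real.log (x / n) ≤ 0 := Real.log_nonpos (by positivity) ((div_le_one hnpos).2 hn2.le)
      rw [max_eq_left this]; simp
  have heq := hmain.unique hfin
  rw [heq, PsiS, Finset.mul_sum]
  refine Finset.sum_congr rfl fun n hn => ?_
  rw [mem_Icc] at hn
  have hn0 : n ≠ 0 := by omega
  have hnpos : (0 : ℝ) < n := by exact_mod_cast Nat.pos_of_ne_zero hn0
  have hnx : (n : ℝ) ≤ x := (Nat.le_floor_iff hx0.le).1 hn.2
  rw [hval n hn0, max_eq_right (Real.log_nonneg ((one_le_div hnpos).2 hnx))]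
  have hpi : (Real.pi : ℂ) ≠ 0 := by exact_mod_cast Real.pi_ne_zero
  simp only [ha]
  field_simp

end Pool.Agent.BG
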