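import Pool.Agent.Lib_helper23.BGF.GJB
import Pool.Agent.Lib_helper23.BGF.PER
/-! Block PSI: the bound for the smoothed sum. -/

set_option autoImplicit false

namespace Pool.Agent.BG

open Finset Filter Complex
open scoped ArithmeticFunction.vonMangoldt Classical

theorem PSI_three_le {r : ℕ} [NeZero r] (χ : DirichletCharacter ℂ r) (hχ : χ ≠ 1) : 3 ≤ r := by
  by_contra hlt
  have hr0 := NeZero.ne r
  have : r = 1 ∨ r = 2 := by omega
  rcases this with rfl | rfl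
  · exact hχ (DirichletCharacter.level_one χ)
  · apply hχ
    ext u
    have : u = 1 := Subsingleton.elim _ _
    rw [this]
    simp

theorem PSI_log_pow (m : ℕ) (hm : 0 < m) : ∃ K : ℝ, 0 < K ∧ ∀ t : ℝ,
    (1 + Real.log (|t| + 2)) ^ m / (1 + t ^ 2) ≤ K * (1 + ‖t‖) ^ (-(3 / 2 : ℝ)) := by
  set e : ℝ := 1 / (2 * m) with he
  have hmpos : (0 : ℝ) < m := by exact_mod_cast hm
  have hepos : 0 < e := by positivity
  refine ⟨(1 + 1 / e) ^ m * 2 * 2, by positivity, fun t => ?_⟩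
  have ht := abs_nonneg t
  have hy : 0 < |t| + 2 := by positivity
  have h1 : 1 + Real.log (|t| + 2) ≤ (1 + 1 / e) * (|t| + 2) ^ e := by
    have h2 := Real.log_le_rpow_div hy.le hepos
    have h3 : 1 ≤ (|t| + 2) ^ e := Real.one_le_rpow (by linarith) hepos.le
    have h4 : (|t| + 2) ^ e / e = 1 / e * (|t| + 2) ^ e := by ring
    linarith
  have h0 : 0 ≤ 1 + Real.log (|t| + 2) := by
    have := Real.log_nonneg (by linarith : (1 : ℝ) ≤ |t| + 2)
    linarith
  have h5 : (1 + Real.log (|t| + 2)) ^ m ≤ (1 + 1 / e) ^ m * (|t| + 2) ^ (1 / 2 : ℝ) := by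
    calc (1 + Real.log (|t| + 2)) ^ m ≤ ((1 + 1 / e) * (|t| + 2) ^ e) ^ m :=
          pow_le_pow_left₀ h0 h1 m
      _ = (1 + 1 / e) ^ m * (|t| + 2) ^ (1 / 2 : ℝ) := by
          rw [mul_pow, ← Real.rpow_natCast ((|t| + 2) ^ e) m, ← Real.rpow_mul hy.le]
          congr 2
          rw [he]
          field_simp
  have h6 : (|t| + 2) ^ (1 / 2 : ℝ) ≤ 2 * (1 + |t|) ^ (1 / 2 : ℝ) := by
    calc (|t| + 2) ^ (1 / 2 : ℝ) ≤ (4 * (1 + |t|)) ^ (1 / 2 : ℝ) :=
          Real.rpow_le_rpow hy.le (by linarith) (by norm_num)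
      _ = 2 * (1 + |t|) ^ (1 / 2 : ℝ) := by
          rw [Real.mul_rpow (by norm_num) (by positivity)]
          congr 1
          rw [show (4 : ℝ) = 2 ^ (2 : ℝ) by norm_num, ← Real.rpow_mul (by norm_num)]
          norm_num
  have h7 : (1 + |t|) ^ 2 / 2 ≤ 1 + t ^ 2 := by
    have : t ^ 2 = |t| ^ 2 := (sq_abs t).symm
    rw [this]
    nlinarith [sq_nonneg (|t| - 1)]
  have hu : 0 < 1 + |t| := by positivity
  have h8 : (1 + |t|) ^ (-(3 / 2 : ℝ)) = (1 + |t|) ^ (1 / 2 : ℝ) / (1 + |t|) ^ 2 := by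
    rw [← Real.rpow_natCast (1 + |t|) 2, ← Real.rpow_sub hu]
    norm_num
  rw [Real.norm_eq_abs, h8]
  calc (1 + Real.log (|t| + 2)) ^ m / (1 + t ^ 2)
      ≤ ((1 + 1 / e) ^ m * (2 * (1 + |t|) ^ (1 / 2 : ℝ))) / ((1 + |t|) ^ 2 / 2) := by
        apply div_le_div₀ (by positivity) _ (by positivity) h7
        exact h5.trans (mul_le_mul_of_nonneg_left h6 (by positivity))
    _ = (1 + 1 / e) ^ m * 2 * 2 * ((1 + |t|) ^ (1 / 2 : ℝ) / (1 + |t|) ^ 2) := by
        field_simp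

theorem PsiS_bound (j : ℕ) : ∃ C : ℝ, 0 < C ∧ ∀ (r : ℕ) [NeZero r] (χ : DirichletCharacter ℂ r),
    χ ≠ 1 → ∀ x : ℝ, 3 ≤ x →
      ‖PsiS χ j x‖ ≤ C * x * (Real.log r ^ 10 / ell χ) ^ (j + 1) := by
  obtain ⟨C, hC, hG⟩ := Gj_bound j
  obtain ⟨K, hK, hKb⟩ := PSI_log_pow (10 * (j + 1)) (by positivity)
  set J : ℝ := ∫ t : ℝ, (1 + ‖t‖) ^ (-(3 / 2 : ℝ)) with hJ
  have hJ0 : 0 ≤ J := MeasureTheory.integral_nonneg fun t => by positivity
  refine ⟨C * Real.exp 1 * K * (J + 1), by positivity, ?_⟩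
  intro r _ χ hχ x hx
  have hr3 := PSI_three_le χ hχ
  have hrpos : (0 : ℝ) < r := by exact_mod_cast (by omega : 0 < r)
  have hr3' : (3 : ℝ) ≤ r := by exact_mod_cast hr3
  have hlogr : 1 ≤ Real.log r := by
    rw [Real.le_log_iff_exp_le hrpos]
    exact (Real.exp_one_lt_three.le).trans hr3'
  have hxpos : 0 < x := by linarith
  have hlogx : 1 ≤ Real.log x := by
    rw [Real.le_log_iff_exp_le hxpos]
    exact (Real.exp_one_lt_three.le).trans hx
  obtain ⟨hell, hell1⟩ := ell_pos χ hχ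
  set σ : ℝ := 1 + 1 / Real.log x with hσ
  have hσ1 : 1 < σ := by
    have : 0 < 1 / Real.log x := by positivity
    linarith
  have hσ2 : σ ≤ 2 := by
    have : 1 / Real.log x ≤ 1 := by
      rw [div_le_one (by linarith)]; exact hlogx
    linarith
  rw [PsiS_eq χ j x (by linarith) σ hσ1]
  have hxσ : x ^ σ = Real.exp 1 * x := by
    rw [Real.rpow_def_of_pos hxpos, hσ, mul_add, mul_one, Real.exp_add, Real.exp_log hxpos]
    have : Real.log x * (1 / Real.log x) = 1 := by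
      field_simp
    rw [this, mul_comm]
  set P : ℝ := (Real.log r ^ 10 / ell χ) ^ (j + 1) with hP
  have hP0 : 0 ≤ P := by positivity
  have hbound : ∀ t : ℝ, ‖Gj χ j (σ + t * I) * ((x : ℂ) ^ ((σ : ℂ) + t * I) /
      ((σ : ℂ) + t * I) ^ 2)‖ ≤ (C * Real.exp 1 * K * x * P) * (1 + ‖t‖) ^ (-(3 / 2 : ℝ)) := by
    intro t
    rw [norm_mul, norm_div, norm_pow, Complex.norm_cpow_eq_rpow_re_of_pos hxpos]
    have hre : ((σ : ℂ) + t * I).re = σ := by simp
    rw [hre, hxσ]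
    have hnsq : ‖((σ : ℂ) + t * I)‖ ^ 2 = σ ^ 2 + t ^ 2 := by
      rw [← Complex.normSq_eq_norm_sq, Complex.normSq_apply]
      simp
      ring
    rw [hnsq]
    have h1 := hG r χ hχ σ t hσ1 hσ2
    have hlt : lt r t ≤ Real.log r * (1 + Real.log (|t| + 2)) := by
      unfold lt
      have hl : 0 ≤ Real.log (|t| + 2) := Real.log_nonneg (by linarith [abs_nonneg t])
      rw [Real.log_mul hrpos.ne' (by positivity)]
      nlinarith
    have hlt0 : 0 ≤ lt r t := by
      unfold lt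
      apply Real.log_nonneg
      nlinarith [abs_nonneg t]
    have h2 : (lt r t ^ 10 / ell χ) ^ (j + 1) ≤
        P * (1 + Real.log (|t| + 2)) ^ (10 * (j + 1)) := by
      calc (lt r t ^ 10 / ell χ) ^ (j + 1)
          ≤ ((Real.log r * (1 + Real.log (|t| + 2))) ^ 10 / ell χ) ^ (j + 1) := by
            gcongr
        _ = _ := by
            rw [hP, mul_pow, pow_mul, mul_div_right_comm, mul_pow]
    have h3 : (1 : ℝ) + t ^ 2 ≤ σ ^ 2 + t ^ 2 := by nlinarith
    have hl0 : 0 ≤ 1 + Real.log (|t| + 2) := by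
      have := Real.log_nonneg (by linarith [abs_nonneg t] : (1 : ℝ) ≤ |t| + 2)
      linarith
    calc ‖Gj χ j (σ + t * I)‖ * (Real.exp 1 * x / (σ ^ 2 + t ^ 2))
        ≤ (C * (P * (1 + Real.log (|t| + 2)) ^ (10 * (j + 1)))) * (Real.exp 1 * x / (1 + t ^ 2)) := by
          apply mul_le_mul (h1.trans (mul_le_mul_of_nonneg_left h2 hC.le)) _ (by positivity)
            (by positivity)
          exact div_le_div_of_nonneg_left (by positivity) (by positivity) h3
      _ = (C * Real.exp 1 * x * P) * ((1 + Real.log (|t| + 2)) ^ (10 * (j + 1)) / (1 + t ^ 2)) := by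
          ring
      _ ≤ (C * Real.exp 1 * x * P) * (K * (1 + ‖t‖) ^ (-(3 / 2 : ℝ))) :=
          mul_le_mul_of_nonneg_left (hKb t) (by positivity)
      _ = (C * Real.exp 1 * K * x * P) * (1 + ‖t‖) ^ (-(3 / 2 : ℝ)) := by ring
  have hint : MeasureTheory.Integrable (fun t : ℝ => (C * Real.exp 1 * K * x * P) *
      (1 + ‖t‖) ^ (-(3 / 2 : ℝ))) := by
    apply MeasureTheory.Integrable.const_mul
    exact integrable_one_add_norm (by simp; norm_num)
  have h4 := MeasureTheory.norm_integral_le_of_norm_le hint (Filter.Eventually.of_forall hbound)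
  rw [MeasureTheory.integral_const_mul, ← hJ] at h4
  rw [norm_mul]
  have h5 : ‖(1 / (2 * Real.pi) : ℂ)‖ ≤ 1 := by
    have : (1 / (2 * Real.pi) : ℂ) = ((1 / (2 * Real.pi) : ℝ) : ℂ) := by push_cast; ring
    rw [this, Complex.norm_real, Real.norm_eq_abs, abs_of_nonneg (by positivity),
      div_le_one (by positivity)]
    have := Real.pi_gt_three
    linarith
  calc ‖(1 / (2 * Real.pi) : ℂ)‖ * ‖∫ t : ℝ, Gj χ j (σ + t * I) * ((x : ℂ) ^ ((σ : ℂ) + t * I) /
        ((σ : ℂ) + t * I) ^ 2)‖ ≤ 1 * ((C * Real.exp 1 * K * x * P) * J) := by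
        exact mul_le_mul h5 h4 (norm_nonneg _) (by norm_num)
    _ ≤ C * Real.exp 1 * K * (J + 1) * x * P := by
        have : 0 ≤ C * Real.exp 1 * K * x * P := by positivity
        nlinarith

end Pool.Agent.BG
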